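import Pool.Agent.N131.SV.Stm2
import Pool.Agent.N131.MV.Hor
import Pool.Agent.N131.MV.Bel
import Pool.Agent.N131.MV.Jac

/-!
# MV2/KEY: the elements given by pluricanonical forms (helper441, for helper131)
-/

set_option autoImplicit false

namespace Pool.Agent.N131.SV

open FF MvPolynomial Pool.Agent.W603.LV Pool.Agent.N131.MV
open Pool.Agent.W602.GT (Divisorial IsPluri RegAt LogAt)

section

variable {k κ F : Type} [Field k] [Field κ] [Field F] [Algebra k F] [Algebra κ F]

theorem key_reg {P : Place κ F} {Δ : Derivation k F F} (h : LogP P Δ) : RegP P Δ := by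
  intro x hx
  by_cases h0 : x = 0
  · rw [h0, map_zero]
    exact P.reg_zero
  · have h1 := P.reg_mul hx (h x)
    rwa [mul_div_cancel₀ _ h0] at h1

theorem key_det {P : Place κ F} {w : ℕ} (M : Matrix (Fin w) (Fin w) F)
    (h : ∀ i j, P.Reg (M i j)) : P.Reg M.det := by
  rw [← P.mem_O, Matrix.det_apply]
  refine P.O.toSubring.sum_mem fun σ _ => ?_
  have h1 : ∏ i, M (σ i) i ∈ P.O.toSubring := P.O.toSubring.prod_mem fun i _ => h _ _
  rw [Units.smul_def]
  exact P.O.toSubring.zsmul_mem h1 _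

end

theorem t_KEY : S_KEY := by
  intro k κ L F _ _ _ _ _ _ _ _ _ _ _ _ _ _ m w hw0 hdF hdL V hV N ι J ω Pos Neg hω hlog hreg x hx
    E hE
  have hx' : AlgebraicIndependent k (fun j => algebraMap L F (x j)) :=
    AlgebraicIndependent.map' (f := IsScalarTower.toAlgHom k L F) hx.1
      (algebraMap L F).injective
  obtain ⟨Δ, hΔ, hfr⟩ := t_HOR k κ F m hdF V hV w (fun j => algebraMap L F (x j)) hx'
  -- the orders on `L` are all zero
  have hcase1 : ∀ (P : Place κ F), (∀ y : L, y ≠ 0 → P.ord (algebraMap L F y) = 0) →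
      ∀ Δ' : Fin w → Derivation k F F, (∀ a, RegP P (Δ' a)) → ∀ i,
      Ge P 0 (algebraMap L F (ω i E) *
        (Matrix.of fun a j => Δ' a (algebraMap L F (x j))).det ^ N) := by
    intro P hP Δ' hΔ' i
    have hL : ∀ y : L, P.Reg (algebraMap L F y) := by
      intro y
      by_cases hy : y = 0
      · rw [hy, map_zero]
        exact P.reg_zero
      · exact Or.inr (hP y hy).ge
    have h1 : P.Reg (Matrix.of fun a j => Δ' a (algebraMap L F (x j))).det :=
      key_det _ fun a j => hΔ' a _ (hL _)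
    have h2 : P.Reg ((Matrix.of fun a j => Δ' a (algebraMap L F (x j))).det ^ N) := by
      rw [← P.mem_O] at h1 ⊢
      exact pow_mem h1 N
    exact P.reg_mul (hL _) h2
  have htr : ∀ (P : Place κ F) (P' : Place k L) (e : ℕ), 0 < e →
      (∀ x : L, P.ord (algebraMap L F x) = e * P'.ord x) → ∀ y : L,
      (P'.Reg y → P.Reg (algebraMap L F y)) ∧ (Ge P' 1 y → Ge P 1 (algebraMap L F y)) := by
    intro P P' e he hord y
    have he' : (1 : ℤ) ≤ e := by exact_mod_cast he
    constructor
    · rintro (h | h)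
      · left
        rw [h, map_zero]
      · right
        rw [hord]
        positivity
    · rintro (h | h)
      · left
        rw [h, map_zero]
      · right
        rw [hord]
        nlinarith
  refine ⟨(Matrix.of fun a j => Δ a (algebraMap L F (x j))).det ^ N, pow_ne_zero _ hΔ, ?_, ?_⟩
  · intro P s hs hVP
    obtain ⟨Δ', hdet, hΔ'⟩ := hfr P s hs
    have hR : ∀ a, RegP P (Δ' a) := by
      intro a
      rcases hΔ' a with ⟨Δ₀, h0, h1⟩ | h1
      · intro y hy
        rw [h1]
        exact hVP Δ₀ h0 y hy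
      · exact h1.1
    rw [← hdet]
    by_cases hc : ∃ y : L, y ≠ 0 ∧ P.ord (algebraMap L F y) ≠ 0
    · obtain ⟨P', e, he, hord, hdiv⟩ := t_BEL k κ L F m w hdF hdL P s hs hc
      by_cases hB : ∃ j, (∀ x ∈ Pos j, P'.Reg x) ∧ ∀ x ∈ Neg j, Ge P' 1 x
      · right
        refine ⟨?_, fun i => (t_JAC k κ L F w hw0 hdL P P' e he hord hdiv N (ω i) (hω i) x hx E hE
          Δ').2.1 hR (hlog P' hdiv i)⟩
        obtain ⟨j, h1, h2⟩ := hB
        exact ⟨j, fun y hy => (htr P P' e he hord y).1 (h1 y hy),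
          fun y hy => (htr P P' e he hord y).2 (h2 y hy)⟩
      · left
        intro i
        exact (t_JAC k κ L F w hw0 hdL P P' e he hord hdiv N (ω i) (hω i) x hx E hE Δ').1 hR
          (hreg P' hdiv hB i)
    · left
      push Not at hc
      exact hcase1 P hc Δ' hR
  · intro P s hs hVP i
    obtain ⟨Δ', hdet, hΔ'⟩ := hfr P s hs
    have hR : ∀ a, LogP P (Δ' a) := by
      intro a
      rcases hΔ' a with ⟨Δ₀, h0, h1⟩ | h1
      · intro y
        rw [h1]
        exact hVP Δ₀ h0 y
      · exact h1.2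
    rw [← hdet]
    by_cases hc : ∃ y : L, y ≠ 0 ∧ P.ord (algebraMap L F y) ≠ 0
    · obtain ⟨P', e, he, hord, hdiv⟩ := t_BEL k κ L F m w hdF hdL P s hs hc
      exact (t_JAC k κ L F w hw0 hdL P P' e he hord hdiv N (ω i) (hω i) x hx E hE Δ').2.2 hR
        (hlog P' hdiv i)
    · push Not at hc
      exact hcase1 P hc Δ' (fun a => key_reg (hR a)) i

end Pool.Agent.N131.SV
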