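import Mathlib
import Pool.Agent.TH143.EL.Mero
import Pool.Agent.N131.SR.Alg
import Pool.Agent.N131.SU.Ldl

/-!
Sequences of meromorphic functions modulo an ultrafilter; small sequences with respect to a
comparison function, on filters of large radii.
-/

set_option autoImplicit false

namespace Pool.Agent.N131.SV

open MeasureTheory Set Filter Topology Metric Real ValueDistribution MeromorphicOn Function
open Asymptotics
open Pool.Agent.TH143.EL (codis_ev codis_of_ev mero_id mero_ne mero_an)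
open Pool.Agent.N131.SR (Big NZ char_nonneg char_zero prox_zero char_const char_mul char_add
  prox_mul prox_add char_inv char_le_of_congr order_deriv count_deriv prox_deriv char_deriv)

/-- the index set -/
abbrev Idx : Type := Finset (MvPolynomial ℕ ℂ)

/-- a fine ultrafilter -/
noncomputable def U : Ultrafilter Idx := Ultrafilter.of Filter.atTop

theorem U_le : (U : Filter Idx) ≤ Filter.atTop := Ultrafilter.of_le _

theorem ev_mem (G : MvPolynomial ℕ ℂ) : ∀ᶠ k in (U : Filter Idx), G ∈ k := by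
  apply U_le
  filter_upwards [Filter.eventually_ge_atTop ({G} : Idx)] with k hk
  exact hk (Finset.mem_singleton_self G)

theorem ev_card (n : ℕ) : ∀ᶠ k in (U : Filter Idx), n ≤ k.card := by
  obtain ⟨s, hs⟩ := Infinite.exists_subset_card_eq (MvPolynomial ℕ ℂ) n
  apply U_le
  filter_upwards [Filter.eventually_ge_atTop s] with k hk
  rw [← hs]
  exact Finset.card_le_card hk

/-- points of a sequence of planes -/
abbrev Pt : Type := Idx × ℂ

/-- the members of a sequence -/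
abbrev sl {β γ : Type} (a : Idx × β → γ) (k : Idx) : β → γ := fun z => a (k, z)

/-- almost all points -/
noncomputable def cod : Filter Pt := (U : Filter Idx).bind fun k => (codiscrete ℂ).map (Prod.mk k)

theorem ev_cod {P : Pt → Prop} :
    (∀ᶠ p in cod, P p) ↔ ∀ᶠ k in (U : Filter Idx), ∀ᶠ z in codiscrete ℂ, P (k, z) :=
  Filter.eventually_bind

/-- large radii -/
noncomputable def Lf (L : Idx → Filter ℝ) : Filter (Idx × ℝ) :=
  (U : Filter Idx).bind fun k => (L k).map (Prod.mk k)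

theorem ev_Lf {L : Idx → Filter ℝ} {P : Idx × ℝ → Prop} :
    (∀ᶠ p in Lf L, P p) ↔ ∀ᶠ k in (U : Filter Idx), ∀ᶠ r in L k, P (k, r) :=
  Filter.eventually_bind

theorem codis_neBot : (codiscrete ℂ).NeBot := inferInstance

instance cod_neBot : cod.NeBot := by
  rw [neBot_iff]
  intro h
  have h1 : ∀ᶠ p in cod, False := by
    rw [h]
    exact eventually_bot
  rw [ev_cod] at h1
  obtain ⟨k, hk⟩ := h1.exists
  obtain ⟨z, hz⟩ := hk.exists
  exact hz

theorem Lf_neBot {L : Idx → Filter ℝ} (hL : ∀ k, (L k).NeBot) : (Lf L).NeBot := by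
  rw [neBot_iff]
  intro h
  have h1 : ∀ᶠ p in Lf L, False := by
    rw [h]
    exact eventually_bot
  rw [ev_Lf] at h1
  obtain ⟨k, hk⟩ := h1.exists
  obtain ⟨z, hz⟩ := (hL k).nonempty_of_mem hk
  exact hz

/-- sequences of meromorphic functions -/
def Mero (a : Pt → ℂ) : Prop := ∀ k, Meromorphic (sl a k)

/-- the derivative -/
noncomputable def dv (a : Pt → ℂ) : Pt → ℂ := fun p => deriv (sl a p.1) p.2

/-- the logarithmic derivative -/
noncomputable def ldv (a : Pt → ℂ) : Pt → ℂ := fun p => logDeriv (sl a p.1) p.2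

/-- the characteristic -/
noncomputable def ch (a : Pt → ℂ) : Idx × ℝ → ℝ := fun p => characteristic (sl a p.1) ⊤ p.2

/-- the proximity function -/
noncomputable def px (a : Pt → ℂ) : Idx × ℝ → ℝ := fun p => proximity (sl a p.1) ⊤ p.2

theorem Mero.mul {a b : Pt → ℂ} (ha : Mero a) (hb : Mero b) : Mero fun p => a p * b p :=
  fun k => (ha k).mul (hb k)

theorem Mero.add {a b : Pt → ℂ} (ha : Mero a) (hb : Mero b) : Mero fun p => a p + b p :=
  fun k => (ha k).add (hb k)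

theorem Mero.sub {a b : Pt → ℂ} (ha : Mero a) (hb : Mero b) : Mero fun p => a p - b p :=
  fun k => (ha k).sub (hb k)

theorem Mero.inv {a : Pt → ℂ} (ha : Mero a) : Mero fun p => (a p)⁻¹ :=
  fun k => (ha k).inv

theorem Mero.div {a b : Pt → ℂ} (ha : Mero a) (hb : Mero b) : Mero fun p => a p / b p :=
  fun k => (ha k).div (hb k)

theorem Mero.neg {a : Pt → ℂ} (ha : Mero a) : Mero fun p => - a p :=
  fun k => (ha k).neg

theorem Mero.dv {a : Pt → ℂ} (ha : Mero a) : Mero (dv a) := fun k => (ha k).deriv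

theorem Mero.ldv {a : Pt → ℂ} (ha : Mero a) : Mero (ldv a) := fun k => (ha k).deriv.div (ha k)

theorem mero_const (c : Idx → ℂ) : Mero fun p => c p.1 := fun k => Meromorphic.const (c k)

theorem ldv_apply (a : Pt → ℂ) (p : Pt) : ldv a p = dv a p / a p := by
  unfold ldv
  rw [logDeriv_apply]
  rfl

/-- comparison functions -/
structure Cmp (L : Idx → Filter ℝ) (τ : Idx × ℝ → ℝ) : Prop where
  big : ∀ k, Big (L k)
  log : (fun p : Idx × ℝ => Real.log p.2) =o[Lf L] τ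

variable {L : Idx → Filter ℝ} {τ : Idx × ℝ → ℝ}

/-- the logarithm is small -/
def LO (L : Idx → Filter ℝ) (τ s : Idx × ℝ → ℝ) : Prop :=
  (fun p => Real.log (1 + |s p|)) =o[Lf L] τ

/-- the logarithm of the characteristic is small -/
def OT (L : Idx → Filter ℝ) (τ : Idx × ℝ → ℝ) (a : Pt → ℂ) : Prop :=
  Mero a ∧ LO L τ (ch a)

/-- the characteristic is `o(τ)` -/
def Sm (L : Idx → Filter ℝ) (τ : Idx × ℝ → ℝ) (a : Pt → ℂ) : Prop :=
  Mero a ∧ ch a =o[Lf L] τ

/-- the order of the poles is at most `M` -/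
def PL (M : ℕ) (a : Pt → ℂ) : Prop := ∀ᶠ k in (U : Filter Idx), SR.PL M (sl a k)

theorem Cmp.const (h : Cmp L τ) (c : Idx → ℝ) : (fun p : Idx × ℝ => c p.1) =o[Lf L] τ := by
  refine IsBigO.trans_isLittleO ?_ h.log
  apply IsBigO.of_bound 1
  rw [ev_Lf]
  refine Eventually.of_forall fun k => ?_
  have h1 : ∀ᶠ r : ℝ in L k, Real.exp |c k| ≤ r := (h.big k).top (eventually_ge_atTop _)
  filter_upwards [h1] with r hr
  have h2 : |c k| ≤ Real.log r := by
    rw [← Real.log_exp |c k|]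
    exact Real.log_le_log (Real.exp_pos _) hr
  rw [Real.norm_eq_abs, Real.norm_eq_abs, one_mul, abs_of_nonneg ((abs_nonneg _).trans h2)]
  exact h2

theorem Cmp.ge (h : Cmp L τ) : ∀ᶠ p : Idx × ℝ in Lf L, 1 ≤ p.2 := by
  rw [ev_Lf]
  exact Eventually.of_forall fun k => (h.big k).top (eventually_ge_atTop _)

theorem o_of_ev {s t : Idx × ℝ → ℝ} (hst : ∀ᶠ r in Lf L, 0 ≤ s r ∧ s r ≤ t r)
    (ht : t =o[Lf L] τ) : s =o[Lf L] τ := by
  refine IsBigO.trans_isLittleO ?_ ht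
  apply IsBigO.of_bound 1
  filter_upwards [hst] with r hr
  obtain ⟨h1, h2⟩ := hr
  rw [Real.norm_eq_abs, Real.norm_eq_abs, one_mul, abs_of_nonneg h1, abs_of_nonneg (h1.trans h2)]
  exact h2

theorem lo_of_o {s : Idx × ℝ → ℝ} (h : s =o[Lf L] τ) : LO L τ s := by
  refine IsBigO.trans_isLittleO ?_ h
  apply IsBigO.of_bound 1
  refine Eventually.of_forall fun p => ?_
  have h1 := Real.log_le_sub_one_of_pos (x := 1 + |s p|) (by positivity)
  have h2 : 0 ≤ Real.log (1 + |s p|) := Real.log_nonneg (by linarith [abs_nonneg (s p)])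
  rw [Real.norm_eq_abs, Real.norm_eq_abs, one_mul, abs_of_nonneg h2]
  linarith

theorem LO.le {s t u : Idx × ℝ → ℝ} (h : ∀ᶠ p in Lf L, |s p| ≤ |t p| + |u p|)
    (ht : LO L τ t) (hu : LO L τ u) : LO L τ s := by
  refine o_of_ev (t := fun p => Real.log (1 + |t p|) + Real.log (1 + |u p|)) ?_ (ht.add hu)
  filter_upwards [h] with p hp
  refine ⟨Real.log_nonneg (by linarith [abs_nonneg (s p)]), ?_⟩
  rw [← Real.log_mul (by positivity) (by positivity)]
  apply Real.log_le_log (by positivity)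
  have h1 : 0 ≤ |t p| * |u p| := by positivity
  nlinarith

theorem LO.le1 {s t : Idx × ℝ → ℝ} (h : ∀ᶠ p in Lf L, |s p| ≤ |t p|)
    (ht : LO L τ t) : LO L τ s := by
  refine o_of_ev (t := fun p => Real.log (1 + |t p|)) ?_ ht
  filter_upwards [h] with p hp
  refine ⟨Real.log_nonneg (by linarith [abs_nonneg (s p)]), ?_⟩
  exact Real.log_le_log (by positivity) (by linarith)

theorem Cmp.lo_const (h : Cmp L τ) (c : Idx → ℝ) : LO L τ fun p => c p.1 := lo_of_o (h.const c)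

theorem Cmp.o_of_le (h : Cmp L τ) {s t : Idx × ℝ → ℝ}
    (hst : ∀ k r, 1 ≤ r → 0 ≤ s (k, r) ∧ s (k, r) ≤ t (k, r))
    (ht : t =o[Lf L] τ) : s =o[Lf L] τ := o_of_ev (h.ge.mono fun p hp => hst p.1 p.2 hp) ht

theorem Cmp.lo_of_le (h : Cmp L τ) {s t u : Idx × ℝ → ℝ}
    (hst : ∀ k r, 1 ≤ r → 0 ≤ s (k, r) ∧ s (k, r) ≤ t (k, r) + u (k, r))
    (ht : LO L τ t) (hu : LO L τ u) : LO L τ s := by
  refine LO.le (h.ge.mono fun p hp => ?_) ht hu
  obtain ⟨h1, h2⟩ := hst p.1 p.2 hp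
  rw [abs_of_nonneg h1]
  linarith [le_abs_self (t p), le_abs_self (u p)]

/-- sequences of meromorphic functions which do not vanish identically -/
def NZs (a : Pt → ℂ) : Prop := ∀ᶠ k in (U : Filter Idx), NZ (sl a k)

theorem nz_or {a : Pt → ℂ} (ha : Mero a) : NZs a ∨ ∀ᶠ p in cod, a p = 0 := by
  rw [ev_cod]
  unfold NZs
  rw [← Ultrafilter.eventually_or]
  exact Eventually.of_forall fun k => SR.nz_or (ha k)

theorem NZs.ne {a : Pt → ℂ} (ha : Mero a) (h : NZs a) : ∀ᶠ p in cod, a p ≠ 0 := by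
  rw [ev_cod]
  exact h.mono fun k hk => SR.NZ.ne (ha k) hk

theorem nz_of_ne {a : Pt → ℂ} (ha : Mero a) (h : ∃ᶠ p in cod, a p ≠ 0) : NZs a := by
  rcases nz_or ha with h1 | h1
  · exact h1
  · exact absurd (h1.mono fun z hz => not_not.2 hz) h

theorem ch_zero {a : Pt → ℂ} (h : ∀ᶠ p in cod, a p = 0) : ∀ᶠ k in (U : Filter Idx),
    ∀ r : ℝ, r ≠ 0 → ch a (k, r) = 0 ∧ px a (k, r) = 0 := by
  rw [ev_cod] at h
  exact h.mono fun k hk r hr => ⟨char_zero hk hr, prox_zero hk hr⟩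

theorem ch_congr {a b : Pt → ℂ} (h : ∀ᶠ p in cod, a p = b p) : ∀ᶠ k in (U : Filter Idx),
    ∀ r : ℝ, r ≠ 0 → ch a (k, r) = ch b (k, r) ∧ px a (k, r) = px b (k, r) := by
  rw [ev_cod] at h
  exact h.mono fun k hk r hr => ⟨characteristic_congr_codiscrete hk hr,
    proximity_congr_codiscrete hk hr⟩

theorem Lf_of_ev {P : Idx × ℝ → Prop} (H : Cmp L τ) (h : ∀ᶠ k in (U : Filter Idx),
    ∀ r : ℝ, 1 ≤ r → P (k, r)) : ∀ᶠ p in Lf L, P p := by
  rw [ev_Lf]
  refine h.mono fun k hk => ?_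
  have h1 : ∀ᶠ r : ℝ in L k, 1 ≤ r := (H.big k).top (eventually_ge_atTop 1)
  exact h1.mono fun r hr => hk r hr

theorem ch_nonneg (a : Pt → ℂ) (k : Idx) {r : ℝ} (hr : 1 ≤ r) : 0 ≤ ch a (k, r) :=
  char_nonneg _ hr

theorem px_nonneg (a : Pt → ℂ) (k : Idx) (r : ℝ) : 0 ≤ px a (k, r) := proximity_nonneg r

section classes

variable (H : Cmp L τ)
include H

theorem sm_const (c : Idx → ℂ) : Sm L τ fun p => c p.1 := by
  refine ⟨mero_const c, ?_⟩
  refine (H.const fun k => log⁺ ‖c k‖).congr_left fun p => ?_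
  exact (char_const (c p.1) p.2).symm

omit H in
theorem Sm.ot {a : Pt → ℂ} (h : Sm L τ a) : OT L τ a := ⟨h.1, lo_of_o h.2⟩

theorem Sm.mul {a b : Pt → ℂ} (ha : Sm L τ a) (hb : Sm L τ b) : Sm L τ fun z => a z * b z :=
  ⟨ha.1.mul hb.1, H.o_of_le (fun k _ hr => ⟨ch_nonneg _ k hr, char_mul (ha.1 k) (hb.1 k) hr⟩)
    (ha.2.add hb.2)⟩

theorem Sm.add {a b : Pt → ℂ} (ha : Sm L τ a) (hb : Sm L τ b) : Sm L τ fun z => a z + b z :=
  ⟨ha.1.add hb.1, H.o_of_le (fun k _ hr => ⟨ch_nonneg _ k hr, char_add (ha.1 k) (hb.1 k) hr⟩)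
    ((ha.2.add hb.2).add (H.const fun _ => log 2))⟩

theorem OT.mul {a b : Pt → ℂ} (ha : OT L τ a) (hb : OT L τ b) : OT L τ fun z => a z * b z :=
  ⟨ha.1.mul hb.1, H.lo_of_le (fun k _ hr => ⟨ch_nonneg _ k hr, char_mul (ha.1 k) (hb.1 k) hr⟩)
    ha.2 hb.2⟩

theorem OT.add {a b : Pt → ℂ} (ha : OT L τ a) (hb : OT L τ b) : OT L τ fun z => a z + b z :=
  ⟨ha.1.add hb.1, H.lo_of_le (t := fun p => ch a p + ch b p) (u := fun _ => log 2)
    (fun k _ hr => ⟨ch_nonneg _ k hr, char_add (ha.1 k) (hb.1 k) hr⟩)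
    (H.lo_of_le (fun k _ hr => ⟨add_nonneg (ch_nonneg _ k hr) (ch_nonneg _ k hr), le_rfl⟩)
      ha.2 hb.2) (H.lo_const fun _ => log 2)⟩

theorem OT.inv {a : Pt → ℂ} (ha : OT L τ a) : OT L τ fun z => (a z)⁻¹ := by
  choose C hC using fun k => char_inv (ha.1 k)
  exact ⟨ha.1.inv, H.lo_of_le (fun k r hr => ⟨ch_nonneg _ k hr, hC k r⟩)
    ha.2 (H.lo_const C)⟩

theorem Sm.inv {a : Pt → ℂ} (ha : Sm L τ a) : Sm L τ fun z => (a z)⁻¹ := by
  choose C hC using fun k => char_inv (ha.1 k)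
  exact ⟨ha.1.inv, H.o_of_le (fun k r hr => ⟨ch_nonneg _ k hr, hC k r⟩)
    (ha.2.add (H.const C))⟩

/-- logarithmic derivatives have small proximity functions -/
theorem ld_o {a : Pt → ℂ} (ha : OT L τ a) : px (ldv a) =o[Lf L] τ := by
  rcases nz_or ha.1 with h1 | h1
  · have hex : ∀ k, ∃ (E : Set ℝ) (C : ℝ), volume E < ⊤ ∧ (NZ (sl a k) → ∀ r, 1 ≤ r → r ∉ E →
        proximity (logDeriv (sl a k)) ⊤ r ≤
          C + 2 * log r + 4 * log (1 + characteristic (sl a k) ⊤ r)) := by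
      intro k
      by_cases hk : NZ (sl a k)
      · obtain ⟨E, C, hE, hb⟩ := SU.ldl (ha.1 k) hk
        exact ⟨E, C, hE, fun _ => hb⟩
      · exact ⟨∅, 0, by simp, fun h => absurd h hk⟩
    choose E C hE hb using hex
    have h2 : (fun p : Idx × ℝ => C p.1 + 2 * log p.2 + 4 * log (1 + |ch a p|)) =o[Lf L] τ :=
      ((H.const C).add (H.log.const_mul_left 2)).add (ha.2.const_mul_left 4)
    refine o_of_ev ?_ h2
    rw [ev_Lf]
    filter_upwards [h1] with k hk
    filter_upwards [(H.big k).top (eventually_ge_atTop 1), (H.big k).fin (E k) (hE k)]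
      with r h3 h4
    refine ⟨proximity_nonneg r, ?_⟩
    change proximity (logDeriv (sl a k)) ⊤ r ≤ C k + 2 * log r + 4 * log (1 + |ch a (k, r)|)
    rw [abs_of_nonneg (ch_nonneg a k h3)]
    exact hb k hk r h3 h4
  · have h2 : ∀ᶠ p in cod, ldv a p = 0 := by
      filter_upwards [h1] with z hz
      rw [ldv_apply, hz, div_zero]
    refine o_of_ev (t := fun _ => 0) ?_ (H.const fun _ => 0)
    refine Lf_of_ev H ((ch_zero h2).mono fun k hk r hr => ?_)
    rw [(hk r (by positivity)).2]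
    exact ⟨le_rfl, le_rfl⟩

theorem OT.deriv {a : Pt → ℂ} (ha : OT L τ a) : OT L τ (dv a) :=
  ⟨ha.1.dv, H.lo_of_le (fun k _ hr => ⟨ch_nonneg _ k hr, char_deriv (ha.1 k) hr⟩)
    (H.lo_of_le (s := fun p => 2 * ch a p) (fun k r hr =>
      ⟨mul_nonneg zero_le_two (ch_nonneg _ k hr), (two_mul (ch a (k, r))).le⟩) ha.2 ha.2)
    (lo_of_o (ld_o H ha))⟩

theorem Sm.deriv {a : Pt → ℂ} (ha : Sm L τ a) : Sm L τ (dv a) :=
  ⟨ha.1.dv, H.o_of_le (fun k _ hr => ⟨ch_nonneg _ k hr, char_deriv (ha.1 k) hr⟩)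
    ((ha.2.const_mul_left 2).add (ld_o H ha.ot))⟩

omit H in
theorem OT.congr {a b : Pt → ℂ} (ha : OT L τ a) (H : Cmp L τ) (hb : Mero b)
    (h : ∀ᶠ z in cod, b z = a z) : OT L τ b :=
  ⟨hb, LO.le1 (Lf_of_ev H ((ch_congr h).mono fun k hk r hr => by
    rw [(hk r (by positivity)).1])) ha.2⟩

omit H in
theorem Sm.congr {a b : Pt → ℂ} (ha : Sm L τ a) (H : Cmp L τ) (hb : Mero b)
    (h : ∀ᶠ z in cod, b z = a z) : Sm L τ b :=
  ⟨hb, o_of_ev (Lf_of_ev H ((ch_congr h).mono fun k hk r hr =>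
    ⟨ch_nonneg _ k hr, (hk r (by positivity)).1.le⟩)) ha.2⟩

theorem OT.sum {ι : Type*} (s : Finset ι) {a : ι → Pt → ℂ} (ha : ∀ i ∈ s, OT L τ (a i)) :
    OT L τ fun z => ∑ i ∈ s, a i z := by
  classical
  induction s using Finset.induction_on with
  | empty => simpa using (sm_const H fun _ => 0).ot
  | insert i s hi ih =>
    simp only [Finset.sum_insert hi]
    exact (ha i (Finset.mem_insert_self i s)).add H
      (ih fun j hj => ha j (Finset.mem_insert_of_mem hj))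

theorem OT.prod {ι : Type*} (s : Finset ι) {a : ι → Pt → ℂ} (ha : ∀ i ∈ s, OT L τ (a i)) :
    OT L τ fun z => ∏ i ∈ s, a i z := by
  classical
  induction s using Finset.induction_on with
  | empty => simpa using (sm_const H fun _ => 1).ot
  | insert i s hi ih =>
    simp only [Finset.prod_insert hi]
    exact (ha i (Finset.mem_insert_self i s)).mul H
      (ih fun j hj => ha j (Finset.mem_insert_of_mem hj))

end classes

end Pool.Agent.N131.SV
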