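import Mathlib
import Pool.Agent.N131.SV.Small

/-!
Sequences of functions of moderate growth with small proximity functions and poles of bounded
order.
-/

set_option autoImplicit false

namespace Pool.Agent.N131.SV

open MeasureTheory Set Filter Topology Metric Real ValueDistribution MeromorphicOn Function
open Asymptotics
open Pool.Agent.TH143.EL (codis_ev codis_of_ev mero_id mero_ne mero_an)
open Pool.Agent.N131.SR (Big NZ Nb count_le_Nb prox_mul prox_add prox_deriv)

variable {L : Idx → Filter ℝ} {τ : Idx × ℝ → ℝ}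

/-- moderate growth, small proximity function, poles of bounded order -/
structure GG (L : Idx → Filter ℝ) (τ : Idx × ℝ → ℝ) (a : Pt → ℂ) : Prop where
  ot : OT L τ a
  pr : px a =o[Lf L] τ
  pl : ∃ M, PL M a

theorem PL.mul {M M' : ℕ} {a b : Pt → ℂ} (hma : Mero a) (hmb : Mero b)
    (ha : PL M a) (hb : PL M' b) : PL (M + M') fun z => a z * b z := by
  filter_upwards [ha, hb] with k h1 h2
  exact h1.mul (hma k) (hmb k) h2

theorem PL.add {M M' : ℕ} {a b : Pt → ℂ} (hma : Mero a) (hmb : Mero b)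
    (ha : PL M a) (hb : PL M' b) : PL (max M M') fun z => a z + b z := by
  filter_upwards [ha, hb] with k h1 h2
  exact h1.add (hma k) (hmb k) h2

theorem PL.deriv {M : ℕ} {a : Pt → ℂ} (hma : Mero a) (ha : PL M a) : PL (M + 1) (dv a) := by
  filter_upwards [ha] with k h1
  exact h1.deriv (hma k)

theorem pl_const (c : Idx → ℂ) : PL 0 fun p => c p.1 :=
  Eventually.of_forall fun k => SR.pl_const (c k)

section

variable (H : Cmp L τ)
include H

theorem gg_const (c : Idx → ℂ) : GG L τ fun p => c p.1 := by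
  refine ⟨(sm_const H c).ot, ?_, ⟨0, pl_const c⟩⟩
  refine (H.const fun k => log⁺ ‖c k‖).congr_left fun p => ?_
  change _ = proximity (fun _ => c p.1) ⊤ p.2
  simp [proximity_top, circleAverage_const]

theorem GG.mul {a b : Pt → ℂ} (ha : GG L τ a) (hb : GG L τ b) : GG L τ fun z => a z * b z := by
  obtain ⟨M, hM⟩ := ha.pl
  obtain ⟨M', hM'⟩ := hb.pl
  exact ⟨ha.ot.mul H hb.ot, H.o_of_le (fun k r _ => ⟨px_nonneg _ k r,
    prox_mul (ha.ot.1 k) (hb.ot.1 k) r⟩) (ha.pr.add hb.pr), _, hM.mul ha.ot.1 hb.ot.1 hM'⟩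

theorem GG.add {a b : Pt → ℂ} (ha : GG L τ a) (hb : GG L τ b) : GG L τ fun z => a z + b z := by
  obtain ⟨M, hM⟩ := ha.pl
  obtain ⟨M', hM'⟩ := hb.pl
  exact ⟨ha.ot.add H hb.ot, H.o_of_le (fun k r _ => ⟨px_nonneg _ k r,
    prox_add (ha.ot.1 k) (hb.ot.1 k) r⟩) ((ha.pr.add hb.pr).add (H.const fun _ => log 2)), _,
    hM.add ha.ot.1 hb.ot.1 hM'⟩

theorem GG.deriv {a : Pt → ℂ} (ha : GG L τ a) : GG L τ (dv a) := by
  obtain ⟨M, hM⟩ := ha.pl
  exact ⟨ha.ot.deriv H, H.o_of_le (fun k r hr => ⟨px_nonneg _ k r,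
    prox_deriv (ha.ot.1 k) (by positivity)⟩) (ha.pr.add (ld_o H ha.ot)), _, hM.deriv ha.ot.1⟩

theorem GG.neg {a : Pt → ℂ} (ha : GG L τ a) : GG L τ fun z => - a z := by
  have := (gg_const H fun _ => -1).mul H ha
  simpa using this

theorem GG.sub {a b : Pt → ℂ} (ha : GG L τ a) (hb : GG L τ b) : GG L τ fun z => a z - b z := by
  have := ha.add H (hb.neg H)
  simpa [sub_eq_add_neg] using this

/-- logarithmic derivatives -/
theorem gg_ld {a : Pt → ℂ} (ha : OT L τ a) : GG L τ (ldv a) := by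
  have hm : Mero (ldv a) := ha.1.ldv
  rcases nz_or ha.1 with h1 | h1
  · refine ⟨?_, ld_o H ha, 1, ?_⟩
    · have h2 := (ha.deriv H).mul H (ha.inv H)
      have h3 : ldv a = fun p => dv a p * (a p)⁻¹ := funext fun p => ldv_apply a p
      rw [h3]
      exact h2
    · exact h1.mono fun k hk => SR.pl_logDeriv (ha.1 k) hk
  · have h2 : ∀ᶠ z in cod, ldv a z = 0 := by
      filter_upwards [h1] with z hz
      rw [ldv_apply, hz, div_zero]
    refine ⟨⟨hm, LO.le1 (t := fun _ => 0) (Lf_of_ev H ((ch_zero h2).mono fun k hk r hr => ?_))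
      (H.lo_const fun _ => 0)⟩, o_of_ev (t := fun _ => 0)
        (Lf_of_ev H ((ch_zero h2).mono fun k hk r hr => ?_)) (H.const fun _ => 0), 0, ?_⟩
    · rw [(hk r (by positivity)).1]
    · rw [(hk r (by positivity)).2]
      exact ⟨le_rfl, le_rfl⟩
    · rw [ev_cod] at h2
      refine h2.mono fun k hk z => ?_
      rw [meromorphicOrderAt_eq_top_iff.2 (codis_ev hk z)]
      exact le_top

end

/-- the truncated counting function of the zeros -/
noncomputable def Nbs (h : Pt → ℂ) : Idx × ℝ → ℝ := fun p => Nb (sl h p.1) p.2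

theorem Nbs_nonneg (h : Pt → ℂ) (k : Idx) {r : ℝ} (hr : 1 ≤ r) : 0 ≤ Nbs h (k, r) :=
  SR.Nb_nonneg hr

theorem count_poles {c : ℂ → ℂ} (hc : Meromorphic c) {M : ℕ} (hM : SR.PL M c) {h1 h2 : ℂ → ℂ}
    (hd1 : Differentiable ℂ h1) (hd2 : Differentiable ℂ h2) (hn1 : ∃ z, h1 z ≠ 0)
    (hn2 : ∃ z, h2 z ≠ 0) (hz : ∀ z, h1 z ≠ 0 → h2 z ≠ 0 → 0 ≤ meromorphicOrderAt c z)
    {r : ℝ} (hr : 1 ≤ r) :
    ValueDistribution.logCounting c ⊤ r ≤ M * (Nb h1 r + Nb h2 r) := by
  rw [logCounting_top]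
  have hD : ∀ z, (divisor c univ)⁻ z = (divisor c univ z)⁻ := fun z => rfl
  apply count_le_Nb hd1 hd2 hn1 hn2 _ _ hr
  · intro z
    rw [hD, divisor_apply hc.meromorphicOn (mem_univ z)]
    refine ⟨negPart_nonneg _, ?_⟩
    have h3 := hM z
    rcases eq_or_ne (meromorphicOrderAt c z) ⊤ with h4 | h4
    · rw [h4]
      simp
    · lift meromorphicOrderAt c z to ℤ using h4 with n
      have h5 : -(M : ℤ) ≤ n := by exact_mod_cast h3
      rw [WithTop.untop₀_coe]
      rcases le_total n 0 with h6 | h6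
      · rw [negPart_of_nonpos h6]
        omega
      · rw [negPart_of_nonneg h6]
        omega
  · intro z h3 h4
    rw [hD, divisor_apply hc.meromorphicOn (mem_univ z), negPart_eq_zero]
    have h5 := hz z h3 h4
    rcases eq_or_ne (meromorphicOrderAt c z) ⊤ with h6 | h6
    · rw [h6]; simp
    · lift meromorphicOrderAt c z to ℤ using h6 with n
      rw [WithTop.untop₀_coe]
      exact_mod_cast h5

/-- functions with few poles and small proximity functions are small -/
theorem sm_of_poles (H : Cmp L τ) {c : Pt → ℂ} (hc : GG L τ c) {h1 h2 : Pt → ℂ}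
    (hd1 : ∀ k, Differentiable ℂ (sl h1 k)) (hd2 : ∀ k, Differentiable ℂ (sl h2 k))
    (hn1 : ∀ k, ∃ z, h1 (k, z) ≠ 0) (hn2 : ∀ k, ∃ z, h2 (k, z) ≠ 0)
    (hz : ∀ᶠ k in (U : Filter Idx), ∀ z, h1 (k, z) ≠ 0 → h2 (k, z) ≠ 0 →
      0 ≤ meromorphicOrderAt (sl c k) z)
    (hN1 : Nbs h1 =o[Lf L] τ) (hN2 : Nbs h2 =o[Lf L] τ) : Sm L τ c := by
  refine ⟨hc.ot.1, ?_⟩
  obtain ⟨M, hM⟩ := hc.pl
  have h3 : (fun p => px c p + M * (Nbs h1 p + Nbs h2 p)) =o[Lf L] τ :=
    hc.pr.add ((hN1.add hN2).const_mul_left _)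
  refine o_of_ev (Lf_of_ev H ?_) h3
  filter_upwards [hM, hz] with k h4 h5 r hr
  refine ⟨ch_nonneg _ k hr, ?_⟩
  have h6 := count_poles (hc.ot.1 k) h4 (hd1 k) (hd2 k) (hn1 k) (hn2 k) h5 hr
  change characteristic (sl c k) ⊤ r ≤ proximity (sl c k) ⊤ r + M * (Nb (sl h1 k) r + Nb (sl h2 k) r)
  unfold characteristic
  simp only [Pi.add_apply]
  linarith

/-- sums of sequences of the form `∑ a_k h^k` -/
theorem alg_small (H : Cmp L τ) {h : Pt → ℂ} (hh : Mero h) {m : ℕ} {b : ℕ → Pt → ℂ}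
    (hb : ∀ k, Sm L τ (b k)) (hne : ∃ k ≤ m, ¬ ∀ᶠ z in cod, b k z = 0)
    (hs : ∀ᶠ z in cod, ∑ k ∈ Finset.range (m + 1), b k z * h z ^ k = 0) :
    Sm L τ h := by
  classical
  -- the top coefficient
  obtain ⟨K, hK, hKb, hKmax⟩ : ∃ K ≤ m, (¬ ∀ᶠ z in cod, b K z = 0) ∧
      ∀ k, K < k → k ≤ m → ∀ᶠ z in cod, b k z = 0 := by
    let S := (Finset.range (m + 1)).filter fun k => ¬ ∀ᶠ z in cod, b k z = 0
    have hS : S.Nonempty := by
      obtain ⟨k, hk, hk2⟩ := hne
      exact ⟨k, Finset.mem_filter.2 ⟨Finset.mem_range.2 (by omega), hk2⟩⟩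
    refine ⟨S.max' hS, ?_, ?_, ?_⟩
    · have := (Finset.mem_filter.1 (S.max'_mem hS)).1
      have := Finset.mem_range.1 this
      omega
    · exact (Finset.mem_filter.1 (S.max'_mem hS)).2
    · intro k hk hkm
      by_contra hcon
      have : k ∈ S := Finset.mem_filter.2 ⟨Finset.mem_range.2 (by omega), hcon⟩
      have := S.le_max' k this
      omega
  have hs' : ∀ᶠ z in cod, ∑ k ∈ Finset.range (K + 1), b k z * h z ^ k = 0 := by
    have h1 : ∀ᶠ z in cod, ∀ k ∈ Finset.range (m + 1), K < k → b k z = 0 := by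
      rw [eventually_all_finset]
      intro k hk
      by_cases hKk : K < k
      · have hk' : k ≤ m := by
          have := Finset.mem_range.1 hk
          omega
        exact (hKmax k hKk hk').mono fun z hz _ => hz
      · exact Eventually.of_forall fun z h => absurd h hKk
    filter_upwards [hs, h1] with z h2 h3
    rw [← h2]
    apply Finset.sum_subset
    · intro k hk
      have := Finset.mem_range.1 hk
      exact Finset.mem_range.2 (by omega)
    · intro k hk hk2
      rw [Finset.mem_range] at hk2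
      rw [h3 k hk (by omega), zero_mul]
  have hKne : ∀ᶠ z in cod, b K z ≠ 0 := by
    rcases nz_or (hb K).1 with h1 | h1
    · exact h1.ne (hb K).1
    · exact absurd h1 hKb
  rcases Nat.eq_zero_or_pos K with h0 | h0
  · exfalso
    subst h0
    obtain ⟨z, hz1, hz2⟩ := (hs'.and hKne).exists
    simp at hz1
    exact hz2 hz1
  obtain ⟨K', rfl⟩ : ∃ K', K = K' + 1 := ⟨K - 1, by omega⟩
  set e : ℕ → Pt → ℂ := fun k z => (-1) * (b k z * (b (K' + 1) z)⁻¹) with he
  have hes : ∀ k, Sm L τ (e k) := fun k =>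
    (sm_const H fun _ => -1).mul H ((hb k).mul H ((hb (K' + 1)).inv H))
  have hpow : ∀ᶠ z in cod, h z ^ (K' + 1) =
      ∑ k ∈ Finset.range (K' + 1), e k z * h z ^ k := by
    filter_upwards [hs', hKne] with z h1 h2
    rw [Finset.sum_range_succ] at h1
    have h3 : ∑ k ∈ Finset.range (K' + 1), e k z * h z ^ k =
        -(b (K' + 1) z)⁻¹ * ∑ k ∈ Finset.range (K' + 1), b k z * h z ^ k := by
      rw [Finset.mul_sum]
      apply Finset.sum_congr rfl
      intro k _
      simp only [he]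
      ring
    rw [h3]
    have h4 : ∑ k ∈ Finset.range (K' + 1), b k z * h z ^ k = -(b (K' + 1) z * h z ^ (K' + 1)) := by
      linear_combination h1
    rw [h4]
    field_simp
  refine ⟨hh, ?_⟩
  have hsum : (fun r => ∑ k ∈ Finset.range (K' + 1), (ch (e k) r + log 2)) =o[Lf L] τ := by
    have h1 : (∑ k ∈ Finset.range (K' + 1), fun r => (ch (e k) r + log 2)) =o[Lf L] τ :=
      IsLittleO.sum fun k _ => (hes k).2.add (H.const fun _ => log 2)
    refine h1.congr_left fun r => ?_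
    rw [Finset.sum_apply]
  refine o_of_ev (Lf_of_ev H ?_) hsum
  filter_upwards [ev_cod.1 hpow] with k hk r hr
  refine ⟨ch_nonneg _ k hr, ?_⟩
  have h1 := SR.horner (hh k) hr K' (fun i => sl (e i) k) fun i => (hes i).1 k
  have h0 := SR.char_le_of_congr hk hr
  rw [← h0] at h1
  have h2 : characteristic (fun z => h (k, z) ^ (K' + 1)) ⊤ r =
      (K' + 1 : ℕ) * characteristic (sl h k) ⊤ r := by
    have h3 := characteristic_pow_top (n := K' + 1) (hh k)
    have h4 : (fun z => h (k, z) ^ (K' + 1)) = sl h k ^ (K' + 1) := rfl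
    rw [h4, h3]
    simp
  rw [h2] at h1
  change characteristic (sl h k) ⊤ r ≤
    ∑ i ∈ Finset.range (K' + 1), (characteristic (sl (e i) k) ⊤ r + log 2)
  push_cast at h1
  linarith

end Pool.Agent.N131.SV
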