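import Mathlib
import Pool.Agent.N131.SR.Gauge
import Pool.Agent.N131.SV.Cls

/-!
Sequences of functions: linear differential equations with coefficients of moderate growth with
small proximity functions.
-/

set_option autoImplicit false

namespace Pool.Agent.N131.SV

open MeasureTheory Set Filter Topology Metric Real ValueDistribution MeromorphicOn Function
open Asymptotics
open Pool.Agent.TH143.EL (codis_ev codis_of_ev mero_id mero_ne mero_an)

variable {L : Idx → Filter ℝ} {τ : Idx × ℝ → ℝ}

theorem codis_deriv {a b : Pt → ℂ} (h : ∀ᶠ z in cod, a z = b z) :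
    ∀ᶠ z in cod, dv a z = dv b z := by
  rw [ev_cod] at h ⊢
  exact h.mono fun k hk => SR.codis_deriv hk

theorem an_of_mero {a : Pt → ℂ} (ha : Mero a) : ∀ᶠ z in cod, AnalyticAt ℂ (sl a z.1) z.2 := by
  rw [ev_cod]
  exact Eventually.of_forall fun k => mero_an (ha k)

theorem dv_mul {a b : Pt → ℂ} {z : Pt} (ha : AnalyticAt ℂ (sl a z.1) z.2)
    (hb : AnalyticAt ℂ (sl b z.1) z.2) :
    dv (fun z => a z * b z) z = dv a z * b z + a z * dv b z :=
  (ha.differentiableAt.hasDerivAt.mul hb.differentiableAt.hasDerivAt).deriv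

theorem codis_deriv_mul {a b : Pt → ℂ} (ha : Mero a) (hb : Mero b) :
    ∀ᶠ z in cod, dv (fun z => a z * b z) z = dv a z * b z + a z * dv b z := by
  filter_upwards [an_of_mero ha, an_of_mero hb] with z h1 h2
  exact dv_mul h1 h2

theorem codis_deriv_add {a b : Pt → ℂ} (ha : Mero a) (hb : Mero b) :
    ∀ᶠ z in cod, dv (fun z => a z + b z) z = dv a z + dv b z := by
  filter_upwards [an_of_mero ha, an_of_mero hb] with z h1 h2
  exact (h1.differentiableAt.hasDerivAt.add h2.differentiableAt.hasDerivAt).deriv

theorem codis_deriv_sub {a b : Pt → ℂ} (ha : Mero a) (hb : Mero b) :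
    ∀ᶠ z in cod, dv (fun z => a z - b z) z = dv a z - dv b z := by
  filter_upwards [an_of_mero ha, an_of_mero hb] with z h1 h2
  exact (h1.differentiableAt.hasDerivAt.sub h2.differentiableAt.hasDerivAt).deriv

theorem mero_sum {ι : Type*} (s : Finset ι) {a : ι → Pt → ℂ} (ha : ∀ i ∈ s, Mero (a i)) :
    Mero fun z => ∑ i ∈ s, a i z := fun k => SR.mero_sum s fun i hi => ha i hi k

theorem codis_deriv_sum {ι : Type*} (s : Finset ι) {a : ι → Pt → ℂ}
    (ha : ∀ i ∈ s, Mero (a i)) :
    ∀ᶠ z in cod, dv (fun z => ∑ i ∈ s, a i z) z = ∑ i ∈ s, dv (a i) z := by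
  rw [ev_cod]
  exact Eventually.of_forall fun k => SR.codis_deriv_sum s fun i hi => ha i hi k

theorem dv_const (c : Idx → ℂ) (z : Pt) : dv (fun p => c p.1) z = 0 := by
  change deriv (fun _ => c z.1) z.2 = 0
  simp

/-- the operator `y ↦ y' - u y` -/
noncomputable def Eop (u : Pt → ℂ) : ℕ → (Pt → ℂ) → Pt → ℂ
  | 0, y => y
  | (k + 1), y => fun z => dv (Eop u k y) z - u z * Eop u k y z

theorem mero_Eop {u y : Pt → ℂ} (hu : Mero u) (hy : Mero y) (k : ℕ) :
    Mero (Eop u k y) := by
  induction k with
  | zero => exact hy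
  | succ k ih => exact ih.dv.sub (hu.mul ih)

theorem Eop_zero_succ (k : ℕ) (y : Pt → ℂ) :
    Eop (fun _ => 0) (k + 1) y = Eop (fun _ => 0) k (dv y) := by
  induction k with
  | zero =>
    funext z
    change dv y z - 0 * y z = dv y z
    rw [zero_mul, sub_zero]
  | succ k ih =>
    funext z
    change dv (Eop (fun _ => 0) (k + 1) y) z - 0 * Eop (fun _ => 0) (k + 1) y z =
      dv (Eop (fun _ => 0) k (dv y)) z - 0 * Eop (fun _ => 0) k (dv y) z
    rw [ih]

theorem sl_Eop (u y : Pt → ℂ) (n : ℕ) (k : Idx) : sl (Eop u n y) k = SR.Eop (sl u k) n (sl y k) := by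
  induction n with
  | zero => rfl
  | succ n ih =>
    funext z
    change deriv (sl (Eop u n y) k) z - u (k, z) * sl (Eop u n y) k z =
      deriv (SR.Eop (sl u k) n (sl y k)) z - u (k, z) * SR.Eop (sl u k) n (sl y k) z
    rw [ih]

/-- gauge transformations -/
theorem Eop_gauge {s y u v : Pt → ℂ} (hs : Mero s) (hy : Mero y)
    (hu : Mero u) (h : ∀ᶠ z in cod, dv s z = (v z - u z) * s z) (k : ℕ) :
    ∀ᶠ z in cod, Eop v k (fun z => s z * y z) z = s z * Eop u k y z := by
  induction k with
  | zero => exact Eventually.of_forall fun z => rfl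
  | succ k ih =>
    have h1 := codis_deriv ih
    have h2 := codis_deriv_mul hs (mero_Eop hu hy k)
    filter_upwards [h, ih, h1, h2] with z e1 e2 e3 e4
    change dv (Eop v k fun z => s z * y z) z - v z * Eop v k (fun z => s z * y z) z =
      s z * (dv (Eop u k y) z - u z * Eop u k y z)
    rw [e3, e4, e1, e2]
    ring

/-- a ladder of functions -/
structure Lad (u : Pt → ℂ) {ι : Type} (Y : ℕ → ι → Pt → ℂ) : Prop where
  mero : ∀ i j, Mero (Y i j)
  step : ∀ i j, ∀ᶠ z in cod, dv (Y i j) z = Y (i + 1) j z + u z * Y i j z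

theorem lad_Eop {u : Pt → ℂ} (hu : Mero u) {ι : Type} {y : ι → Pt → ℂ}
    (hy : ∀ j, Mero (y j)) : Lad u fun i j => Eop u i (y j) := by
  refine ⟨fun i j => mero_Eop hu (hy j) i, fun i j => Eventually.of_forall fun z => ?_⟩
  change _ = dv (Eop u i (y j)) z - u z * Eop u i (y j) z + _
  ring

/-- classes of meromorphic functions closed under ring operations and derivatives -/
structure Cl (P : (Pt → ℂ) → Prop) : Prop where
  mero : ∀ {a}, P a → Mero a
  const : ∀ c : Idx → ℂ, P fun p => c p.1
  add : ∀ {a b}, P a → P b → P fun z => a z + b z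
  mul : ∀ {a b}, P a → P b → P fun z => a z * b z
  deriv : ∀ {a}, P a → P (dv a)

theorem cl_gg (H : Cmp L τ) : Cl (GG L τ) :=
  ⟨fun h => h.ot.1, gg_const H, fun ha hb => ha.add H hb, fun ha hb => ha.mul H hb,
    fun ha => ha.deriv H⟩

/-- combinations of the first `n` functions of a ladder -/
def Sp (P : (Pt → ℂ) → Prop) {ι : Type} (Y : ℕ → ι → Pt → ℂ) (n : ℕ) (F : ι → Pt → ℂ) : Prop :=
  ∃ c : ℕ → Pt → ℂ, (∀ i, P (c i)) ∧
    ∀ j, ∀ᶠ z in cod, F j z = ∑ i ∈ Finset.range n, c i z * Y i j z

section

variable {P : (Pt → ℂ) → Prop} (H : Cl P) {ι : Type} {Y : ℕ → ι → Pt → ℂ}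
include H

theorem Sp.add {n : ℕ} {F G : ι → Pt → ℂ} (hF : Sp P Y n F) (hG : Sp P Y n G) :
    Sp P Y n fun j z => F j z + G j z := by
  obtain ⟨c, hc, h1⟩ := hF
  obtain ⟨d, hd, h2⟩ := hG
  refine ⟨fun i z => c i z + d i z, fun i => H.add (hc i) (hd i), fun j => ?_⟩
  filter_upwards [h1 j, h2 j] with z e1 e2
  rw [e1, e2, ← Finset.sum_add_distrib]
  exact Finset.sum_congr rfl fun i _ => by ring

theorem Sp.smul {n : ℕ} {F : ι → Pt → ℂ} (hF : Sp P Y n F) {a : Pt → ℂ} (ha : P a) :
    Sp P Y n fun j z => a z * F j z := by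
  obtain ⟨c, hc, h1⟩ := hF
  refine ⟨fun i z => a z * c i z, fun i => H.mul ha (hc i), fun j => ?_⟩
  filter_upwards [h1 j] with z e1
  rw [e1, Finset.mul_sum]
  exact Finset.sum_congr rfl fun i _ => by ring

theorem Sp.neg {n : ℕ} {F : ι → Pt → ℂ} (hF : Sp P Y n F) :
    Sp P Y n fun j z => - F j z := by
  have h1 := hF.smul H (H.const fun _ => -1)
  simpa using h1

theorem Sp.sub {n : ℕ} {F G : ι → Pt → ℂ} (hF : Sp P Y n F) (hG : Sp P Y n G) :
    Sp P Y n fun j z => F j z - G j z := by
  have h1 := hF.add H (hG.neg H)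
  simpa [sub_eq_add_neg] using h1

theorem sp_zero (n : ℕ) : Sp P Y n fun _ _ => 0 :=
  ⟨fun _ _ => 0, fun _ => H.const fun _ => 0, fun j => Eventually.of_forall fun z => by simp⟩

theorem Sp.mono {n m : ℕ} (hnm : n ≤ m) {F : ι → Pt → ℂ} (hF : Sp P Y n F) : Sp P Y m F := by
  obtain ⟨c, hc, h1⟩ := hF
  refine ⟨fun i => if i < n then c i else fun _ => 0, fun i => ?_, fun j => ?_⟩
  · by_cases hi : i < n
    · simp only [if_pos hi]
      exact hc i
    · simp only [if_neg hi]
      exact H.const fun _ => 0
  · filter_upwards [h1 j] with z e1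
    rw [e1]
    have h2 : ∑ i ∈ Finset.range m, (if i < n then c i else fun _ => 0) z * Y i j z =
        ∑ i ∈ Finset.range n, (if i < n then c i else fun _ => 0) z * Y i j z := by
      symm
      apply Finset.sum_subset (Finset.range_mono hnm)
      intro i _ hi
      rw [Finset.mem_range] at hi
      rw [if_neg hi]
      simp
    rw [h2]
    apply Finset.sum_congr rfl
    intro i hi
    rw [if_pos (Finset.mem_range.1 hi)]

theorem sp_self {n i : ℕ} (hi : i < n) : Sp P Y n (Y i) := by
  refine ⟨fun k => if k = i then fun _ => 1 else fun _ => 0, fun k => ?_, fun j =>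
    Eventually.of_forall fun z => ?_⟩
  · by_cases hk : k = i
    · simp only [if_pos hk]
      exact H.const fun _ => 1
    · simp only [if_neg hk]
      exact H.const fun _ => 0
  · rw [Finset.sum_eq_single i]
    · simp
    · intro k _ hk
      simp only [if_neg hk, zero_mul]
    · intro h
      exact absurd (Finset.mem_range.2 hi) h

theorem Sp.sum {κ : Type*} (s : Finset κ) {n : ℕ} {F : κ → ι → Pt → ℂ}
    (hF : ∀ k ∈ s, Sp P Y n (F k)) : Sp P Y n fun j z => ∑ k ∈ s, F k j z := by
  classical
  induction s using Finset.induction_on with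
  | empty => simpa using sp_zero H (Y := Y) n
  | insert i s hi ih =>
    simp only [Finset.sum_insert hi]
    exact (hF i (Finset.mem_insert_self i s)).add H
      (ih fun j hj => hF j (Finset.mem_insert_of_mem hj))

omit H in
theorem Sp.congr {n : ℕ} {F G : ι → Pt → ℂ} (hF : Sp P Y n F)
    (h : ∀ j, ∀ᶠ z in cod, G j z = F j z) : Sp P Y n G := by
  obtain ⟨c, hc, h1⟩ := hF
  refine ⟨c, hc, fun j => ?_⟩
  filter_upwards [h1 j, h j] with z e1 e2
  rw [e2, e1]

theorem Sp.deriv {u : Pt → ℂ} (hu : P u) (hY : Lad u Y) {n : ℕ} {F : ι → Pt → ℂ}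
    (hF : Sp P Y n F) : Sp P Y (n + 1) fun j => dv (F j) := by
  obtain ⟨c, hc, h1⟩ := hF
  have h2 : Sp P Y (n + 1) fun j z => ∑ i ∈ Finset.range n,
      (dv (c i) z * Y i j z + (c i z * Y (i + 1) j z + (u z * c i z) * Y i j z)) := by
    apply Sp.sum H
    intro i hi
    have hi' := Finset.mem_range.1 hi
    exact ((sp_self H (by omega)).smul H (H.deriv (hc i))).add H
      (((sp_self H (by omega)).smul H (hc i)).add H
        ((sp_self H (by omega)).smul H (H.mul hu (hc i))))
  apply h2.congr
  intro j
  have h3 := codis_deriv (h1 j)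
  have h4 := codis_deriv_sum (Finset.range n) (a := fun i z => c i z * Y i j z)
    fun i _ => (H.mero (hc i)).mul (hY.mero i j)
  have h5 : ∀ᶠ z in cod, ∀ i ∈ Finset.range n,
      dv (fun z => c i z * Y i j z) z =
        dv (c i) z * Y i j z + c i z * dv (Y i j) z := by
    rw [eventually_all_finset]
    exact fun i _ => codis_deriv_mul (H.mero (hc i)) (hY.mero i j)
  have h6 : ∀ᶠ z in cod, ∀ i ∈ Finset.range n,
      dv (Y i j) z = Y (i + 1) j z + u z * Y i j z := by
    rw [eventually_all_finset]
    exact fun i _ => hY.step i j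
  filter_upwards [h3, h4, h5, h6] with z e3 e4 e5 e6
  rw [e3, e4]
  apply Finset.sum_congr rfl
  intro i hi
  rw [e5 i hi, e6 i hi]
  ring

/-- the powers of `D - v` from those of `D - u` -/
theorem sp_shift {u v : Pt → ℂ} (hu : P u) (hv : P v) {y : ι → Pt → ℂ}
    (hy : ∀ j, Mero (y j)) (k : ℕ) :
    Sp P (fun i j => Eop u i (y j)) k fun j z => Eop v k (y j) z - Eop u k (y j) z := by
  have hY : Lad u fun i j => Eop u i (y j) := lad_Eop (H.mero hu) hy
  induction k with
  | zero =>
    apply (sp_zero H 0).congr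
    intro j
    exact Eventually.of_forall fun z => sub_self _
  | succ k ih =>
    have h1 := ih.deriv H hu hY
    have h2 : Sp P (fun i j => Eop u i (y j)) (k + 1) fun j => Eop u k (y j) :=
      sp_self H (Y := fun i j => Eop u i (y j)) (Nat.lt_succ_self k)
    have h3 : Sp P (fun i j => Eop u i (y j)) (k + 1) fun j z =>
        (dv (fun z => Eop v k (y j) z - Eop u k (y j) z) z + u z * Eop u k (y j) z) -
          v z * ((Eop v k (y j) z - Eop u k (y j) z) + Eop u k (y j) z) :=
      (h1.add H (h2.smul H hu)).sub H (((ih.mono H (Nat.le_succ k)).add H h2).smul H hv)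
    apply h3.congr
    intro j
    filter_upwards [codis_deriv_sub (mero_Eop (H.mero hv) (hy j) k) (mero_Eop (H.mero hu) (hy j) k)]
      with z hz
    rw [hz]
    change (dv (Eop v k (y j)) z - v z * Eop v k (y j) z) -
      (dv (Eop u k (y j)) z - u z * Eop u k (y j) z) = _
    ring

end

/-- **Linear differential equations for given functions.** -/
theorem frob (H : Cmp L τ) (n : ℕ) : ∀ h : Fin n → Pt → ℂ, (∀ j, OT L τ (h j)) →
    Sp (GG L τ) (fun i j => Eop (fun _ => 0) i (h j)) n fun j => Eop (fun _ => 0) n (h j) := by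
  induction n with
  | zero => exact fun h _ => ⟨fun _ _ => 0, fun _ => gg_const H fun _ => 0, fun j => j.elim0⟩
  | succ n ih =>
    intro h hh
    have HC := cl_gg H
    have g0 : GG L τ fun _ => (0 : ℂ) := gg_const H fun _ => 0
    have hm : ∀ j, Mero (h j) := fun j => (hh j).1
    rcases nz_or (hm 0) with h1 | h1
    · have hne := h1.ne (hm 0)
      -- the derivatives of the ratios
      have hv : ∀ j, OT L τ fun z => h j z * (h 0 z)⁻¹ := fun j => (hh j).mul H ((hh 0).inv H)
      obtain ⟨b, hb, hb2⟩ := ih (fun j => dv fun z => h j.succ z * (h 0 z)⁻¹)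
        fun j => (hv j.succ).deriv H
      set u : Pt → ℂ := ldv (h 0) with hu
      have gu : GG L τ u := gg_ld H (hh 0)
      -- the operators
      have key : ∀ j k, ∀ᶠ z in cod, Eop u k (h j) z =
          h 0 z * Eop (fun _ => 0) k (fun z => h j z * (h 0 z)⁻¹) z := by
        intro j k
        have e1 := Eop_gauge (s := h 0) (y := fun z => h j z * (h 0 z)⁻¹) (u := fun _ => 0) (v := u)
          (hm 0) (hv j).1 g0.ot.1 (by
            filter_upwards [hne] with z hz
            rw [hu, ldv_apply, sub_zero, div_mul_cancel₀ _ hz]) k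
        have e2 : ∀ k, ∀ᶠ z in cod, Eop u k (fun z => h 0 z * (h j z * (h 0 z)⁻¹)) z =
            Eop u k (h j) z := by
          intro k
          induction k with
          | zero =>
            filter_upwards [hne] with z hz
            change h 0 z * (h j z * (h 0 z)⁻¹) = h j z
            field_simp
          | succ k ih =>
            filter_upwards [ih, codis_deriv ih] with z e3 e4
            change dv (Eop u k fun z => h 0 z * (h j z * (h 0 z)⁻¹)) z - _ * _ = _
            rw [e3, e4]
            rfl
        filter_upwards [e1, e2 k] with z e3 e4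
        rw [← e4, e3]
      have hshift : ∀ (y : Pt → ℂ) (k : ℕ), Eop (fun _ => 0) (k + 1) y =
          Eop (fun _ => 0) k (dv y) := by
        intro y k
        exact Eop_zero_succ k y
      have hall : ∀ j, ∀ᶠ z in cod,
          Eop (fun _ => 0) n (dv fun z => h j z * (h 0 z)⁻¹) z =
            ∑ i ∈ Finset.range n, b i z *
              Eop (fun _ => 0) i (dv fun z => h j z * (h 0 z)⁻¹) z := by
        intro j
        refine Fin.cases ?_ (fun j => hb2 j) j
        have e1 : ∀ᶠ z in cod, h 0 z * (h 0 z)⁻¹ = 1 := by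
          filter_upwards [hne] with z hz
          exact mul_inv_cancel₀ hz
        have e2 : ∀ k, ∀ᶠ z in cod,
            Eop (fun _ => 0) k (dv fun z => h 0 z * (h 0 z)⁻¹) z = 0 := by
          intro k
          induction k with
          | zero =>
            filter_upwards [codis_deriv e1] with z hz
            change dv (fun z => h 0 z * (h 0 z)⁻¹) z = 0
            rw [hz]
            exact dv_const (fun _ => 1) z
          | succ k ih =>
            filter_upwards [ih, codis_deriv ih] with z e3 e4
            change dv _ z - 0 * _ = 0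
            rw [e4, zero_mul, sub_zero]
            exact dv_const (fun _ => 0) z
        have e3 : ∀ᶠ z in cod, ∀ k ∈ Finset.range (n + 1),
            Eop (fun _ => 0) k (dv fun z => h 0 z * (h 0 z)⁻¹) z = 0 := by
          rw [eventually_all_finset]
          exact fun k _ => e2 k
        filter_upwards [e3] with z hz
        rw [hz n (Finset.mem_range.2 (Nat.lt_succ_self n))]
        symm
        apply Finset.sum_eq_zero
        intro i hi
        rw [hz i (Finset.mem_range.2 (by have := Finset.mem_range.1 hi; omega)), mul_zero]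
      have hcomb : ∀ j, ∀ᶠ z in cod, Eop u (n + 1) (h j) z =
          ∑ i ∈ Finset.range n, b i z * Eop u (i + 1) (h j) z := by
        intro j
        have e1 : ∀ᶠ z in cod, ∀ k ∈ Finset.range (n + 2), Eop u k (h j) z =
            h 0 z * Eop (fun _ => 0) k (fun z => h j z * (h 0 z)⁻¹) z := by
          rw [eventually_all_finset]
          exact fun k _ => key j k
        filter_upwards [e1, hall j] with z e2 e3
        rw [e2 (n + 1) (Finset.mem_range.2 (by omega)), hshift, e3, Finset.mul_sum]
        apply Finset.sum_congr rfl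
        intro i hi
        rw [e2 (i + 1) (Finset.mem_range.2 (by have := Finset.mem_range.1 hi; omega)), hshift]
        ring
      -- conclusion
      have hsp : ∀ k, k < n + 1 → Sp (GG L τ) (fun i j => Eop (fun _ => 0) i (h j)) (n + 1)
          fun j => Eop u k (h j) := by
        intro k hk
        have e1 := (sp_shift HC g0 gu hm k).mono HC (show k ≤ n + 1 by omega)
        have e2 := e1.add HC (sp_self HC (Y := fun i j => Eop (fun _ => 0) i (h j)) hk)
        apply e2.congr
        intro j
        exact Eventually.of_forall fun z => by ring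
      have h3 : Sp (GG L τ) (fun i j => Eop (fun _ => 0) i (h j)) (n + 1) fun j =>
          Eop u (n + 1) (h j) := by
        have e1 : Sp (GG L τ) (fun i j => Eop (fun _ => 0) i (h j)) (n + 1) fun j z =>
            ∑ i ∈ Finset.range n, b i z * Eop u (i + 1) (h j) z := by
          apply Sp.sum HC
          intro i hi
          have := Finset.mem_range.1 hi
          exact (hsp (i + 1) (by omega)).smul HC (hb i)
        exact e1.congr hcomb
      have h4 := h3.sub HC (sp_shift HC g0 gu hm (n + 1))
      apply h4.congr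
      intro j
      exact Eventually.of_forall fun z => by ring
    · -- the first function is zero
      obtain ⟨b, hb, hb2⟩ := ih (fun j => h j.succ) fun j => hh j.succ
      have hz : ∀ k, ∀ᶠ z in cod, Eop (fun _ => 0) k (h 0) z = 0 := by
        intro k
        induction k with
        | zero => exact h1
        | succ k ih =>
          filter_upwards [ih, codis_deriv ih] with z e3 e4
          change dv _ z - 0 * _ = 0
          rw [e4, zero_mul, sub_zero]
          exact dv_const (fun _ => 0) z
      have h2 : Sp (GG L τ) (fun i j => Eop (fun _ => 0) i (h j)) n fun j =>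
          Eop (fun _ => 0) n (h j) := by
        refine ⟨b, hb, fun j => ?_⟩
        refine Fin.cases ?_ (fun j => hb2 j) j
        have e3 : ∀ᶠ z in cod, ∀ k ∈ Finset.range (n + 1),
            Eop (fun _ => 0) k (h 0) z = 0 := by
          rw [eventually_all_finset]
          exact fun k _ => hz k
        filter_upwards [e3] with z hz
        rw [hz n (Finset.mem_range.2 (Nat.lt_succ_self n))]
        symm
        apply Finset.sum_eq_zero
        intro i hi
        rw [hz i (Finset.mem_range.2 (by have := Finset.mem_range.1 hi; omega)), mul_zero]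
      have h3 := h2.deriv HC g0 (lad_Eop g0.ot.1 hm)
      apply h3.congr
      intro j
      exact Eventually.of_forall fun z => by
        change dv _ z - 0 * _ = _
        rw [zero_mul, sub_zero]

end Pool.Agent.N131.SV
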