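import Mathlib
import Pool.Agent.N131.SV.Frob

/-!
Sequences of functions: the linear differential equation of the coordinates of a curve in a gauge.
-/

set_option autoImplicit false

namespace Pool.Agent.N131.SV

open MeasureTheory Set Filter Topology Metric Real ValueDistribution MeromorphicOn Function
open Asymptotics
open Pool.Agent.TH143.EL (codis_ev codis_of_ev mero_id mero_ne mero_an)
open Pool.Agent.N131.SR (Wr Wr_diff)

variable {L : Idx → Filter ℝ} {τ : Idx × ℝ → ℝ}

theorem cl_sm (H : Cmp L τ) : Cl (Sm L τ) :=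
  ⟨fun h => h.1, sm_const H, fun ha hb => ha.add H hb, fun ha hb => ha.mul H hb,
    fun ha => ha.deriv H⟩

theorem cl_mero : Cl Mero :=
  ⟨fun h => h, fun c => mero_const c, fun ha hb => ha.add hb, fun ha hb => ha.mul hb,
    fun ha => ha.dv⟩

theorem Eop_congr {u y y' : Pt → ℂ} (h : ∀ᶠ z in cod, y z = y' z) (k : ℕ) :
    ∀ᶠ z in cod, Eop u k y z = Eop u k y' z := by
  induction k with
  | zero => exact h
  | succ k ih =>
    filter_upwards [ih, codis_deriv ih] with z e1 e2
    change dv (Eop u k y) z - u z * Eop u k y z = dv (Eop u k y') z - u z * Eop u k y' z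
    rw [e1, e2]

theorem Eop_sum {ι : Type*} (s : Finset ι) {u : Pt → ℂ} (hu : Mero u) {y : ι → Pt → ℂ}
    (hy : ∀ i ∈ s, Mero (y i)) (c : ι → Idx → ℂ) (k : ℕ) :
    ∀ᶠ z in cod, Eop u k (fun z => ∑ i ∈ s, c i z.1 * y i z) z =
      ∑ i ∈ s, c i z.1 * Eop u k (y i) z := by
  rw [ev_cod]
  refine Eventually.of_forall fun j => ?_
  filter_upwards [SR.Eop_sum s (hu j) (y := fun i => sl (y i) j) (fun i hi => hy i hi j)
    (fun i => c i j) k] with z hz
  have h1 : ∀ (u y : Pt → ℂ) (n : ℕ), Eop u n y (j, z) = SR.Eop (sl u j) n (sl y j) z :=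
    fun u y n => congrFun (sl_Eop u y n j) z
  simp only [h1]
  exact hz

section

variable {P : (Pt → ℂ) → Prop} (H : Cl P) {ι : Type} {Y Z : ℕ → ι → Pt → ℂ}
include H

theorem Sp.trans {n m : ℕ} {F : ι → Pt → ℂ} (hF : Sp P Y n F)
    (hY : ∀ i, i < n → Sp P Z m (Y i)) : Sp P Z m F := by
  obtain ⟨c, hc, h1⟩ := hF
  have h2 : Sp P Z m fun j z => ∑ i ∈ Finset.range n, c i z * Y i j z :=
    Sp.sum H _ fun i hi => (hY i (Finset.mem_range.1 hi)).smul H (hc i)
  exact h2.congr h1

/-- change of the gauge in a linear differential equation -/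
theorem sp_gauge {u v : Pt → ℂ} (hu : P u) (hv : P v) {y : ι → Pt → ℂ}
    (hy : ∀ j, Mero (y j)) {n : ℕ}
    (h : Sp P (fun i j => Eop u i (y j)) n fun j => Eop u n (y j)) :
    Sp P (fun i j => Eop v i (y j)) n fun j => Eop v n (y j) := by
  have h1 : Sp P (fun i j => Eop u i (y j)) n fun j => Eop v n (y j) := by
    apply ((sp_shift H hu hv hy n).add H h).congr
    intro j
    exact Eventually.of_forall fun z => by ring
  apply h1.trans H
  intro i hi
  have h2 := (sp_shift H hv hu hy i).mono H (show i ≤ n by omega)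
  have h3 := sp_self H (Y := fun i j => Eop v i (y j)) hi
  apply (h2.add H h3).congr
  intro j
  exact Eventually.of_forall fun z => by ring

end


/-- the Wronskian determinants -/
noncomputable def Wrs {n : ℕ} (g : Fin n → Pt → ℂ) (p : Pt) : ℂ := Wr (fun j => sl (g j) p.1) p.2

theorem det_shift {n : ℕ} {y : Fin n → Pt → ℂ} (hy : ∀ j, Mero (y j)) {u : Pt → ℂ}
    (hu : Mero u) : ∀ᶠ z in cod,
      (Matrix.of fun i j : Fin n => Eop u i (y j) z).det =
        (Matrix.of fun i j : Fin n => Eop (fun _ => 0) i (y j) z).det := by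
  rw [ev_cod]
  refine Eventually.of_forall fun k => ?_
  filter_upwards [SR.det_shift (fun j => hy j k) (hu k)] with z hz
  have h1 : ∀ (u y : Pt → ℂ) (n : ℕ), Eop u n y (k, z) = SR.Eop (sl u k) n (sl y k) z :=
    fun u y n => congrFun (sl_Eop u y n k) z
  simp only [h1]
  exact hz

theorem coef_order {n : ℕ} {k : Idx} {g : Fin n → Pt → ℂ} (hg : ∀ j, Differentiable ℂ (sl (g j) k))
    {u : Pt → ℂ} (hum : Meromorphic (sl u k)) {z0 : ℂ} (hu : AnalyticAt ℂ (sl u k) z0)
    (hW : Wrs g (k, z0) ≠ 0) {c : ℕ → Pt → ℂ}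
    (hc : ∀ j : Fin n, ∀ᶠ z in codiscrete ℂ, Eop u n (g j) (k, z) =
      ∑ i ∈ Finset.range n, c i (k, z) * Eop u i (g j) (k, z)) {i : ℕ} (hi : i < n) :
    0 ≤ meromorphicOrderAt (sl (c i) k) z0 := by
  refine SR.coef_order (c := fun i => sl (c i) k) hg hum hu hW (fun j => ?_) hi
  filter_upwards [hc j] with z hz
  have h1 : ∀ (u y : Pt → ℂ) (n : ℕ), Eop u n y (k, z) = SR.Eop (sl u k) n (sl y k) z :=
    fun u y n => congrFun (sl_Eop u y n k) z
  simp only [h1] at hz
  exact hz

end Pool.Agent.N131.SV
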