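import Mathlib
import Pool.Agent.N131.SV.Gauge

/-!
The field of sequences of meromorphic functions modulo the ultrafilter.
-/

set_option autoImplicit false

namespace Pool.Agent.N131.SV

open MeasureTheory Set Filter Topology Metric Real ValueDistribution MeromorphicOn Function
open Asymptotics
open Pool.Agent.TH143.EL (codis_ev codis_of_ev mero_id mero_ne mero_an)

/-- the ring of sequences of meromorphic functions -/
noncomputable def mring : Subring (Germ cod ℂ) where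
  carrier := {x | ∃ a : Pt → ℂ, Mero a ∧ (a : Germ cod ℂ) = x}
  mul_mem' := by
    rintro _ _ ⟨a, ha, rfl⟩ ⟨b, hb, rfl⟩
    exact ⟨_, ha.mul hb, rfl⟩
  one_mem' := ⟨fun _ => 1, mero_const fun _ => 1, rfl⟩
  add_mem' := by
    rintro _ _ ⟨a, ha, rfl⟩ ⟨b, hb, rfl⟩
    exact ⟨_, ha.add hb, rfl⟩
  zero_mem' := ⟨fun _ => 0, mero_const fun _ => 0, rfl⟩
  neg_mem' := by
    rintro _ ⟨a, ha, rfl⟩
    exact ⟨_, ha.neg, rfl⟩

/-- the field of sequences of meromorphic functions -/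
def MF : Type := mring

noncomputable instance : CommRing MF := inferInstanceAs (CommRing mring)

/-- the class of a sequence -/
noncomputable def mf (a : Pt → ℂ) (ha : Mero a) : MF := ⟨(a : Germ cod ℂ), a, ha, rfl⟩

theorem mf_surj (x : MF) : ∃ (a : Pt → ℂ) (ha : Mero a), mf a ha = x := by
  obtain ⟨x, a, ha, rfl⟩ := x
  exact ⟨a, ha, rfl⟩

theorem mf_eq {a b : Pt → ℂ} {ha : Mero a} {hb : Mero b} :
    mf a ha = mf b hb ↔ ∀ᶠ p in cod, a p = b p :=
  ⟨fun h => Germ.coe_eq.1 (congrArg Subtype.val h), fun h => Subtype.ext (Germ.coe_eq.2 h)⟩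

theorem mf_add {a b : Pt → ℂ} (ha : Mero a) (hb : Mero b) :
    mf a ha + mf b hb = mf (fun p => a p + b p) (ha.add hb) := rfl

theorem mf_mul {a b : Pt → ℂ} (ha : Mero a) (hb : Mero b) :
    mf a ha * mf b hb = mf (fun p => a p * b p) (ha.mul hb) := rfl

theorem mf_neg {a : Pt → ℂ} (ha : Mero a) : - mf a ha = mf (fun p => - a p) ha.neg := rfl

theorem mf_one : (1 : MF) = mf (fun _ => 1) (mero_const fun _ => 1) := rfl

theorem mf_zero : (0 : MF) = mf (fun _ => 0) (mero_const fun _ => 0) := rfl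

theorem mf_eq_zero {a : Pt → ℂ} {ha : Mero a} : mf a ha = 0 ↔ ∀ᶠ p in cod, a p = 0 := by
  rw [mf_zero, mf_eq]

theorem mf_ne_zero {a : Pt → ℂ} {ha : Mero a} (h : mf a ha ≠ 0) : NZs a := by
  rcases nz_or ha with h1 | h1
  · exact h1
  · exact absurd (mf_eq_zero.2 h1) h

theorem ne_of_mf {a : Pt → ℂ} {ha : Mero a} (h : mf a ha ≠ 0) : ∀ᶠ p in cod, a p ≠ 0 :=
  (mf_ne_zero h).ne ha

noncomputable instance : Inv MF :=
  ⟨fun x => mf (fun p => ((mf_surj x).choose p)⁻¹) (mf_surj x).choose_spec.choose.inv⟩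

theorem mf_inv {a : Pt → ℂ} (ha : Mero a) : (mf a ha)⁻¹ = mf (fun p => (a p)⁻¹) ha.inv := by
  have h1 := (mf_surj (mf a ha)).choose_spec.choose_spec
  rw [mf_eq] at h1
  exact mf_eq.2 (h1.mono fun p hp => by simp only [hp])

noncomputable instance : Field MF :=
  { (inferInstance : CommRing MF), (inferInstance : Inv MF) with
    exists_pair_ne := ⟨0, 1, fun h => by
      rw [mf_zero, mf_one, mf_eq] at h
      obtain ⟨p, hp⟩ := h.exists
      exact zero_ne_one hp⟩
    mul_inv_cancel := by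
      intro x hx
      obtain ⟨a, ha, rfl⟩ := mf_surj x
      rw [mf_inv, mf_mul, mf_one, mf_eq]
      exact (ne_of_mf hx).mono fun p hp => mul_inv_cancel₀ hp
    inv_zero := by
      rw [mf_zero, mf_inv, mf_eq]
      exact Eventually.of_forall fun p => inv_zero
    nnqsmul := _
    nnqsmul_def := fun _ _ => rfl
    qsmul := _
    qsmul_def := fun _ _ => rfl }

theorem mf_div {a b : Pt → ℂ} (ha : Mero a) (hb : Mero b) :
    mf a ha / mf b hb = mf (fun p => a p / b p) (ha.div hb) := by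
  rw [div_eq_mul_inv, mf_inv, mf_mul, mf_eq]
  exact Eventually.of_forall fun p => (div_eq_mul_inv _ _).symm

/-- the constants -/
noncomputable def cm : ℂ →+* MF where
  toFun c := mf (fun _ => c) (mero_const fun _ => c)
  map_one' := rfl
  map_zero' := rfl
  map_add' _ _ := rfl
  map_mul' _ _ := rfl

noncomputable instance : Algebra ℂ MF := cm.toAlgebra

theorem algebraMap_mf (c : ℂ) : algebraMap ℂ MF c = mf (fun _ => c) (mero_const fun _ => c) := rfl

instance : CharZero MF := charZero_of_injective_algebraMap (algebraMap ℂ MF).injective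

theorem mf_sum {ι : Type} (s : Finset ι) {a : ι → Pt → ℂ} (ha : ∀ i, Mero (a i)) :
    ∑ i ∈ s, mf (a i) (ha i) = mf (fun p => ∑ i ∈ s, a i p) (mero_sum s fun i _ => ha i) := by
  classical
  induction s using Finset.induction_on with
  | empty => simp only [Finset.sum_empty]; rfl
  | insert i s hi ih =>
    rw [Finset.sum_insert hi, ih, mf_add, mf_eq]
    exact Eventually.of_forall fun p => by simp only [Finset.sum_insert hi]

theorem mero_prod {ι : Type} (s : Finset ι) {a : ι → Pt → ℂ} (ha : ∀ i, Mero (a i)) :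
    Mero fun p => ∏ i ∈ s, a i p := by
  classical
  induction s using Finset.induction_on with
  | empty => simpa using mero_const fun _ => 1
  | insert i s hi ih =>
    simp only [Finset.prod_insert hi]
    exact (ha i).mul ih

theorem mf_prod {ι : Type} (s : Finset ι) {a : ι → Pt → ℂ} (ha : ∀ i, Mero (a i)) :
    ∏ i ∈ s, mf (a i) (ha i) = mf (fun p => ∏ i ∈ s, a i p) (mero_prod s ha) := by
  classical
  induction s using Finset.induction_on with
  | empty => simp only [Finset.prod_empty]; rfl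
  | insert i s hi ih =>
    rw [Finset.prod_insert hi, ih, mf_mul, mf_eq]
    exact Eventually.of_forall fun p => by simp only [Finset.prod_insert hi]

theorem mero_pow {a : Pt → ℂ} (ha : Mero a) (n : ℕ) : Mero fun p => a p ^ n :=
  fun k z => (ha k z).pow n

theorem mf_pow {a : Pt → ℂ} (ha : Mero a) (n : ℕ) :
    mf a ha ^ n = mf (fun p => a p ^ n) (mero_pow ha n) := by
  induction n with
  | zero => rw [pow_zero, mf_one, mf_eq]; exact Eventually.of_forall fun p => (pow_zero _).symm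
  | succ n ih =>
    rw [pow_succ, ih, mf_mul, mf_eq]
    exact Eventually.of_forall fun p => (pow_succ _ _).symm

/-- the derivative -/
noncomputable def dm0 (x : MF) : MF :=
  mf (dv (mf_surj x).choose) (mf_surj x).choose_spec.choose.dv

theorem dm0_mf {a : Pt → ℂ} (ha : Mero a) : dm0 (mf a ha) = mf (dv a) ha.dv := by
  have h1 := (mf_surj (mf a ha)).choose_spec.choose_spec
  rw [mf_eq] at h1
  exact mf_eq.2 (codis_deriv h1)

/-- the derivation -/
noncomputable def DM : Derivation ℂ MF MF :=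
  Derivation.mk'
    { toFun := dm0
      map_add' := fun x y => by
        obtain ⟨a, ha, rfl⟩ := mf_surj x
        obtain ⟨b, hb, rfl⟩ := mf_surj y
        rw [mf_add, dm0_mf, dm0_mf, dm0_mf, mf_add, mf_eq]
        exact codis_deriv_add ha hb
      map_smul' := fun c x => by
        obtain ⟨a, ha, rfl⟩ := mf_surj x
        rw [Algebra.smul_def, Algebra.smul_def, algebraMap_mf, RingHom.id_apply, mf_mul, dm0_mf,
          dm0_mf, algebraMap_mf, mf_mul, mf_eq]
        filter_upwards [codis_deriv_mul (mero_const fun _ => c) ha] with p hp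
        rw [hp, dv_const (fun _ => c) p, zero_mul, zero_add] }
    (fun x y => by
      obtain ⟨a, ha, rfl⟩ := mf_surj x
      obtain ⟨b, hb, rfl⟩ := mf_surj y
      change dm0 (mf a ha * mf b hb) = mf a ha * dm0 (mf b hb) + mf b hb * dm0 (mf a ha)
      rw [mf_mul, dm0_mf, dm0_mf, dm0_mf, mf_mul, mf_mul, mf_add, mf_eq]
      filter_upwards [codis_deriv_mul ha hb] with p hp
      rw [hp]
      ring)

theorem DM_mf {a : Pt → ℂ} (ha : Mero a) : DM (mf a ha) = mf (dv a) ha.dv := dm0_mf ha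

variable {L : Idx → Filter ℝ} {τ : Idx × ℝ → ℝ}

/-- the characteristic is `O(τ)` -/
def OB (L : Idx → Filter ℝ) (τ : Idx × ℝ → ℝ) (a : Pt → ℂ) : Prop :=
  Mero a ∧ ch a =O[Lf L] τ

section

variable (H : Cmp L τ)
include H

theorem OB.ot {a : Pt → ℂ} (h : OB L τ a) : OT L τ a := by
  refine ⟨h.1, ?_⟩
  unfold LO
  obtain ⟨C, hC⟩ := h.2.bound
  have hτ : Tendsto (fun p => |τ p|) (Lf L) atTop := by
    rw [Filter.tendsto_atTop]
    intro b
    have h1 := (H.const fun _ => b).bound (show (0 : ℝ) < 1 by norm_num)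
    filter_upwards [h1] with p hp
    rw [Real.norm_eq_abs, Real.norm_eq_abs, one_mul] at hp
    exact (le_abs_self b).trans hp
  have h2 : Tendsto (fun p => (1 + |C|) * |τ p| + 1) (Lf L) atTop :=
    tendsto_atTop_add_const_right _ _ (hτ.const_mul_atTop (by positivity))
  have h3 := Real.isLittleO_log_id_atTop.comp_tendsto h2
  have h4 : (fun p => (1 + |C|) * |τ p| + 1) =O[Lf L] τ := by
    apply IsBigO.add
    · exact ((isBigO_refl τ (Lf L)).abs_left).const_mul_left _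
    · exact (H.const fun _ => 1).isBigO
  refine IsBigO.trans_isLittleO ?_ (h3.trans_isBigO h4)
  apply IsBigO.of_bound 1
  filter_upwards [hC] with p hp
  rw [Real.norm_eq_abs, Real.norm_eq_abs] at hp
  have h5 : 0 ≤ Real.log (1 + |ch a p|) := Real.log_nonneg (by linarith [abs_nonneg (ch a p)])
  have h6 : C * |τ p| ≤ |C| * |τ p| := mul_le_mul_of_nonneg_right (le_abs_self C) (abs_nonneg _)
  have h7 : 1 + |ch a p| ≤ (1 + |C|) * |τ p| + 1 := by nlinarith [abs_nonneg (τ p)]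
  rw [Real.norm_eq_abs, Real.norm_eq_abs, one_mul, abs_of_nonneg h5]
  exact (Real.log_le_log (by positivity) h7).trans (le_abs_self _)

omit H in
theorem Sm.ob {a : Pt → ℂ} (h : Sm L τ a) : OB L τ a := ⟨h.1, h.2.isBigO⟩

omit H in
theorem O_of_ev {s t : Idx × ℝ → ℝ} (hst : ∀ᶠ r in Lf L, 0 ≤ s r ∧ s r ≤ t r)
    (ht : t =O[Lf L] τ) : s =O[Lf L] τ := by
  refine IsBigO.trans ?_ ht
  apply IsBigO.of_bound 1
  filter_upwards [hst] with r hr
  obtain ⟨h1, h2⟩ := hr
  rw [Real.norm_eq_abs, Real.norm_eq_abs, one_mul, abs_of_nonneg h1, abs_of_nonneg (h1.trans h2)]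
  exact h2

theorem OB.mul {a b : Pt → ℂ} (ha : OB L τ a) (hb : OB L τ b) : OB L τ fun z => a z * b z :=
  ⟨ha.1.mul hb.1, O_of_ev (H.ge.mono fun p hp => ⟨ch_nonneg _ p.1 hp,
    SR.char_mul (ha.1 p.1) (hb.1 p.1) hp⟩) (ha.2.add hb.2)⟩

theorem OB.add {a b : Pt → ℂ} (ha : OB L τ a) (hb : OB L τ b) : OB L τ fun z => a z + b z :=
  ⟨ha.1.add hb.1, O_of_ev (H.ge.mono fun p hp => ⟨ch_nonneg _ p.1 hp,
    SR.char_add (ha.1 p.1) (hb.1 p.1) hp⟩)
    ((ha.2.add hb.2).add (H.const fun _ => log 2).isBigO)⟩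

theorem OB.inv {a : Pt → ℂ} (ha : OB L τ a) : OB L τ fun z => (a z)⁻¹ := by
  choose C hC using fun k => SR.char_inv (ha.1 k)
  exact ⟨ha.1.inv, O_of_ev (H.ge.mono fun p hp => ⟨ch_nonneg _ p.1 hp, hC p.1 p.2⟩)
    (ha.2.add (H.const C).isBigO)⟩

theorem OB.deriv {a : Pt → ℂ} (ha : OB L τ a) : OB L τ (dv a) :=
  ⟨ha.1.dv, O_of_ev (H.ge.mono fun p hp => ⟨ch_nonneg _ p.1 hp, SR.char_deriv (ha.1 p.1) hp⟩)
    ((ha.2.const_mul_left 2).add (ld_o H (ha.ot H)).isBigO)⟩

omit H in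
theorem OB.congr {a b : Pt → ℂ} (ha : OB L τ a) (H : Cmp L τ) (hb : Mero b)
    (h : ∀ᶠ z in cod, b z = a z) : OB L τ b :=
  ⟨hb, O_of_ev (Lf_of_ev H ((ch_congr h).mono fun k hk r hr =>
    ⟨ch_nonneg _ k hr, (hk r (by positivity)).1.le⟩)) ha.2⟩

end

/-- the field of small sequences -/
noncomputable def smf (H : Cmp L τ) : IntermediateField ℂ MF where
  carrier := {x | ∃ (a : Pt → ℂ) (ha : Mero a), Sm L τ a ∧ mf a ha = x}
  mul_mem' := by
    rintro _ _ ⟨a, ha, h1, rfl⟩ ⟨b, hb, h2, rfl⟩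
    exact ⟨_, ha.mul hb, h1.mul H h2, rfl⟩
  add_mem' := by
    rintro _ _ ⟨a, ha, h1, rfl⟩ ⟨b, hb, h2, rfl⟩
    exact ⟨_, ha.add hb, h1.add H h2, rfl⟩
  algebraMap_mem' := fun c => ⟨fun _ => c, mero_const fun _ => c, sm_const H fun _ => c, rfl⟩
  inv_mem' := by
    rintro _ ⟨a, ha, h1, rfl⟩
    exact ⟨_, ha.inv, h1.inv H, (mf_inv ha).symm⟩

/-- the field of the sequences with characteristic `O(τ)` -/
noncomputable def obf (H : Cmp L τ) : IntermediateField ℂ MF where
  carrier := {x | ∃ (a : Pt → ℂ) (ha : Mero a), OB L τ a ∧ mf a ha = x}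
  mul_mem' := by
    rintro _ _ ⟨a, ha, h1, rfl⟩ ⟨b, hb, h2, rfl⟩
    exact ⟨_, ha.mul hb, h1.mul H h2, rfl⟩
  add_mem' := by
    rintro _ _ ⟨a, ha, h1, rfl⟩ ⟨b, hb, h2, rfl⟩
    exact ⟨_, ha.add hb, h1.add H h2, rfl⟩
  algebraMap_mem' := fun c => ⟨fun _ => c, mero_const fun _ => c, (sm_const H fun _ => c).ob, rfl⟩
  inv_mem' := by
    rintro _ ⟨a, ha, h1, rfl⟩
    exact ⟨_, ha.inv, h1.inv H, (mf_inv ha).symm⟩

variable {H : Cmp L τ}

theorem mem_smf {a : Pt → ℂ} {ha : Mero a} : mf a ha ∈ smf H ↔ Sm L τ a := by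
  constructor
  · rintro ⟨b, hb, h1, h2⟩
    exact h1.congr H ha ((mf_eq.1 h2).mono fun _ h => h.symm)
  · exact fun h => ⟨a, ha, h, rfl⟩

theorem mem_obf {a : Pt → ℂ} {ha : Mero a} : mf a ha ∈ obf H ↔ OB L τ a := by
  constructor
  · rintro ⟨b, hb, h1, h2⟩
    exact h1.congr H ha ((mf_eq.1 h2).mono fun _ h => h.symm)
  · exact fun h => ⟨a, ha, h, rfl⟩

theorem smf_le_obf : smf H ≤ obf H := by
  rintro _ ⟨a, ha, h1, rfl⟩
  exact ⟨a, ha, h1.ob, rfl⟩

theorem DM_smf {x : MF} (hx : x ∈ smf H) : DM x ∈ smf H := by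
  obtain ⟨a, ha, rfl⟩ := mf_surj x
  rw [mem_smf] at hx
  rw [DM_mf, mem_smf]
  exact hx.deriv H

theorem DM_obf {x : MF} (hx : x ∈ obf H) : DM x ∈ obf H := by
  obtain ⟨a, ha, rfl⟩ := mf_surj x
  rw [mem_obf] at hx
  rw [DM_mf, mem_obf]
  exact hx.deriv H

/-- the counting function of a set, in the logarithmic mean -/
noncomputable def Nc (B : Set ℂ) (r : ℝ) : ℝ :=
  (∑ᶠ z ∈ {z : ℂ | z ∈ B ∧ ‖z‖ ≤ r}, Real.log (r / ‖z‖)) + B.indicator 1 0 * Real.log r

/-- the counting functions of a sequence of sets -/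
noncomputable def N1 (Z : Idx → Set ℂ) (p : Idx × ℝ) : ℝ := Nc (Z p.1) p.2

/-- sequences of sets with small counting functions -/
structure SmS (L : Idx → Filter ℝ) (τ : Idx × ℝ → ℝ) (B : Idx → Set ℂ) : Prop where
  fin : ∀ᶠ k in (U : Filter Idx), ∀ r : ℝ, {z : ℂ | z ∈ B k ∧ ‖z‖ ≤ r}.Finite
  small : N1 B =o[Lf L] τ

end Pool.Agent.N131.SV
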