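import Mathlib
import Pool.Agent.N131.SV.Kf

/-!
Valuation rings given by sequences of points.
-/

set_option autoImplicit false

namespace Pool.Agent.N131.SV

open MeasureTheory Set Filter Topology Metric Real ValueDistribution MeromorphicOn Function
open Asymptotics
open Pool.Agent.TH143.EL (codis_ev codis_of_ev mero_id mero_ne mero_an)

/-- the orders along a sequence of points -/
noncomputable def od (a : Pt → ℂ) (z : Idx → ℂ) (k : Idx) : WithTop ℤ :=
  meromorphicOrderAt (sl a k) (z k)

theorem od_congr {a b : Pt → ℂ} (h : ∀ᶠ p in cod, a p = b p) :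
    ∀ᶠ k in (U : Filter Idx), ∀ z : ℂ, meromorphicOrderAt (sl a k) z =
      meromorphicOrderAt (sl b k) z := by
  rw [ev_cod] at h
  exact h.mono fun k hk z => meromorphicOrderAt_congr (codis_ev hk z)

/-- the valuation ring of a sequence of points -/
noncomputable def hp (z : Idx → ℂ) : ValuationSubring MF where
  carrier := {x | ∃ (a : Pt → ℂ) (ha : Mero a), mf a ha = x ∧ ∀ᶠ k in (U : Filter Idx), 0 ≤ od a z k}
  mul_mem' := by
    rintro _ _ ⟨a, ha, rfl, h1⟩ ⟨b, hb, rfl, h2⟩
    refine ⟨_, ha.mul hb, rfl, ?_⟩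
    filter_upwards [h1, h2] with k h3 h4
    have h5 : od (fun p => a p * b p) z k = od a z k + od b z k :=
      meromorphicOrderAt_mul (ha k (z k)) (hb k (z k))
    rw [h5]
    exact add_nonneg h3 h4
  one_mem' := by
    refine ⟨fun _ => 1, mero_const fun _ => 1, rfl, Eventually.of_forall fun k => ?_⟩
    have h1 : AnalyticAt ℂ (fun _ : ℂ => (1 : ℂ)) (z k) := analyticAt_const
    exact h1.meromorphicOrderAt_nonneg
  add_mem' := by
    rintro _ _ ⟨a, ha, rfl, h1⟩ ⟨b, hb, rfl, h2⟩
    refine ⟨_, ha.add hb, rfl, ?_⟩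
    filter_upwards [h1, h2] with k h3 h4
    exact (le_min h3 h4).trans (meromorphicOrderAt_add (ha k (z k)) (hb k (z k)))
  zero_mem' := by
    refine ⟨fun _ => 0, mero_const fun _ => 0, rfl, Eventually.of_forall fun k => ?_⟩
    have h1 : AnalyticAt ℂ (fun _ : ℂ => (0 : ℂ)) (z k) := analyticAt_const
    exact h1.meromorphicOrderAt_nonneg
  neg_mem' := by
    rintro _ ⟨a, ha, rfl, h1⟩
    refine ⟨_, ha.neg, rfl, ?_⟩
    filter_upwards [h1] with k h3
    have h5 : od (fun p => - a p) z k = od a z k := meromorphicOrderAt_neg.symm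
    rw [h5]
    exact h3
  mem_or_inv_mem' := by
    intro x
    obtain ⟨a, ha, rfl⟩ := mf_surj x
    have h1 : ∀ᶠ k in (U : Filter Idx), 0 ≤ od a z k ∨ 0 ≤ od (fun p => (a p)⁻¹) z k := by
      refine Eventually.of_forall fun k => ?_
      have h5 : od (fun p => (a p)⁻¹) z k = - od a z k := meromorphicOrderAt_inv
      rw [h5]
      rcases le_total 0 (od a z k) with h | h
      · exact Or.inl h
      · right
        generalize od a z k = o at h
        cases o with
        | top => exact absurd h (by simp)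
        | coe o =>
          have h6 : o ≤ 0 := by exact_mod_cast h
          have h7 : (0 : ℤ) ≤ -o := by omega
          exact_mod_cast h7
    rw [Ultrafilter.eventually_or] at h1
    rcases h1 with h1 | h1
    · exact Or.inl ⟨a, ha, rfl, h1⟩
    · exact Or.inr ⟨_, ha.inv, (mf_inv ha).symm, h1⟩

theorem mem_hp {z : Idx → ℂ} {a : Pt → ℂ} {ha : Mero a} :
    mf a ha ∈ hp z ↔ ∀ᶠ k in (U : Filter Idx), 0 ≤ od a z k := by
  constructor
  · rintro ⟨b, hb, h1, h2⟩
    filter_upwards [h2, od_congr (mf_eq.1 h1)] with k h3 h4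
    unfold od at h3 ⊢
    rwa [← h4 (z k)]
  · exact fun h => ⟨a, ha, rfl, h⟩

theorem mem_hp_nonunits {z : Idx → ℂ} {a : Pt → ℂ} {ha : Mero a} :
    mf a ha ∈ (hp z).nonunits ↔ ∀ᶠ k in (U : Filter Idx), 1 ≤ od a z k := by
  have h0 : mf a ha ∈ (hp z).nonunits ↔ mf a ha = 0 ∨ (mf a ha)⁻¹ ∉ hp z := by
    rw [ValuationSubring.mem_nonunits_iff]
    by_cases h : mf a ha = 0
    · simp [h]
    · rw [← ValuationSubring.valuation_le_one_iff, map_inv₀]
      have h1 : (hp z).valuation (mf a ha) ≠ 0 := by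
        rwa [Ne, map_eq_zero]
      simp only [h, false_or, not_le]
      rw [one_lt_inv₀ (zero_lt_iff.2 h1)]
  rw [h0]
  by_cases h : mf a ha = 0
  · simp only [h, true_or, true_iff]
    filter_upwards [od_congr (mf_eq.1 (h.trans mf_zero))] with k hk
    unfold od
    rw [hk (z k)]
    have h1 : meromorphicOrderAt (sl (fun _ => (0 : ℂ)) k) (z k) = ⊤ := by
      rw [meromorphicOrderAt_eq_top_iff]
      exact Eventually.of_forall fun _ => rfl
    rw [h1]
    exact le_top
  · simp only [h, false_or]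
    rw [mf_inv, mem_hp, ← Ultrafilter.eventually_not]
    apply eventually_congr
    have h1 := mf_ne_zero h
    filter_upwards [h1] with k hk
    have h5 : od (fun p => (a p)⁻¹) z k = - od a z k := meromorphicOrderAt_inv
    rw [h5]
    have h6 : od a z k ≠ ⊤ := hk (z k)
    generalize od a z k = o at h6
    cases o with
    | top => exact absurd rfl h6
    | coe o =>
      have h7 : -((o : ℤ) : WithTop ℤ) = ((-o : ℤ) : WithTop ℤ) := rfl
      rw [h7]
      norm_cast
      omega

theorem DM_hp {z : Idx → ℂ} {x : MF} (hx : x ∈ hp z) : DM x ∈ hp z := by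
  obtain ⟨a, ha, rfl⟩ := mf_surj x
  rw [mem_hp] at hx
  rw [DM_mf, mem_hp]
  filter_upwards [hx] with k hk
  unfold od at hk ⊢
  rcases SR.order_deriv (ha k) (z k) with h1 | ⟨n, hn, h1, -⟩
  · exact h1.2
  · rw [h1] at hk
    have h2 : (0 : ℤ) ≤ n := by exact_mod_cast hk
    omega

/-- a representative -/
noncomputable def rp (x : MF) : Pt → ℂ := (mf_surj x).choose

theorem rp_mero (x : MF) : Mero (rp x) := (mf_surj x).choose_spec.choose

theorem mf_rp (x : MF) : mf (rp x) (rp_mero x) = x := (mf_surj x).choose_spec.choose_spec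

/-- the orders of the members of a sequence -/
noncomputable def om (x : MF) (k : Idx) (z : ℂ) : WithTop ℤ := meromorphicOrderAt (sl (rp x) k) z

theorem om_mf {a : Pt → ℂ} (ha : Mero a) : ∀ᶠ k in (U : Filter Idx), ∀ z : ℂ,
    om (mf a ha) k z = meromorphicOrderAt (sl a k) z :=
  od_congr (mf_eq.1 (mf_rp (mf a ha)))

theorem mem_hp' {z : Idx → ℂ} {x : MF} :
    x ∈ hp z ↔ ∀ᶠ k in (U : Filter Idx), 0 ≤ om x k (z k) := by
  have h1 := mem_hp (z := z) (ha := rp_mero x)
  rw [mf_rp] at h1
  exact h1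

theorem mem_hp_nonunits' {z : Idx → ℂ} {x : MF} :
    x ∈ (hp z).nonunits ↔ ∀ᶠ k in (U : Filter Idx), 1 ≤ om x k (z k) := by
  have h1 := mem_hp_nonunits (z := z) (ha := rp_mero x)
  rw [mf_rp] at h1
  exact h1

/-- the order of the pole -/
noncomputable def po (x : MF) (k : Idx) (z : ℂ) : ℤ := max 0 (-((om x k z).untopD 0))

end Pool.Agent.N131.SV
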