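import Mathlib
import Pool.Agent.N131.SV.Hyp
import Pool.Agent.N131.MV.Stm

/-!
Statements of the analytic parts.
-/

set_option autoImplicit false

namespace Pool.Agent.N131.SV

open MeasureTheory Set Filter Topology Metric Real ValueDistribution MeromorphicOn Function
open Asymptotics MvPolynomial FF
open Pool.Agent.N131.SR (Wr Tf NZ Big)
open Pool.Agent.N131.MV (PV gen1 W1 R0 Inv Ri RegP LogP)
open Pool.Agent.W603.LV (Ge)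
open Pool.Agent.W602.GT (Divisorial IsPluri RegAt LogAt)

/-- (CN1) an upper bound of the counting function of the poles -/
def S_CN1 : Prop := ∀ a : ℂ → ℂ, Meromorphic a → NZ a → ∀ (ι ι' : Type) [Fintype ι] [Fintype ι']
  (e : ι → ℕ) (B : ι → Set ℂ), (∀ i r, {z : ℂ | z ∈ B i ∧ ‖z‖ ≤ r}.Finite) →
  ∀ c : ι' → ℂ → ℂ, (∀ l, Meromorphic (c l)) → ∀ C : ℕ,
  (∀ z, -(∑ i, (e i : ℤ) * (B i).indicator (1 : ℂ → ℤ) z +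
    C * ∑ l, max 0 (-((meromorphicOrderAt (c l) z).untopD 0))) ≤
      (meromorphicOrderAt a z).untopD 0) →
  ∀ r : ℝ, 1 ≤ r → ValueDistribution.logCounting a ⊤ r ≤ ∑ i, (e i : ℝ) * Nc (B i) r +
    C * ∑ l, ValueDistribution.logCounting (c l) ⊤ r

/-- (CN2) a lower bound of the counting function of the zeros -/
def S_CN2 : Prop := ∀ a : ℂ → ℂ, Meromorphic a → NZ a → ∀ (M : ℕ) (B : Set ℂ), 0 < M →
  (∀ z ∈ B, ((M : ℤ) : WithTop ℤ) ≤ meromorphicOrderAt a z) →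
  (∀ r : ℝ, {z : ℂ | z ∈ B ∧ ‖z‖ ≤ r}.Finite) ∧
  ∀ r : ℝ, 1 ≤ r → (M : ℝ) * Nc B r ≤ ValueDistribution.logCounting a 0 r

/-- (SMS) small sets -/
def S_SMS : Prop := ∀ (L : Idx → Filter ℝ) (τ : Idx × ℝ → ℝ) (H : Cmp L τ),
  (∀ B B' : Idx → Set ℂ, (∀ᶠ k in (U : Filter Idx), B k ⊆ B' k) → SmS L τ B' → SmS L τ B) ∧
  (∀ B B' : Idx → Set ℂ, SmS L τ B → SmS L τ B' → SmS L τ fun k => B k ∪ B' k) ∧
  (SmS L τ fun _ => ∅) ∧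
  (∀ x ∈ smf H, SmS L τ fun k => {z | om x k z < 0}) ∧
  ∀ h : Pt → ℂ, (∀ k, Differentiable ℂ (sl h k)) → (∀ᶠ k in (U : Filter Idx), ∃ z, h (k, z) ≠ 0) →
    Nbs h =o[Lf L] τ → SmS L τ fun k => {z | h (k, z) = 0}

/-- (MFB) constants and algebraic elements -/
def S_MFB : Prop := ∀ (L : Idx → Filter ℝ) (τ : Idx × ℝ → ℝ) (H : Cmp L τ),
  (∀ x : MF, DM x = 0 → x ∈ smf H) ∧ ∀ x : MF, IsAlgebraic (smf H) x → x ∈ smf H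

/-- the twisted derivative -/
noncomputable def Et (ℓ y : MF) : MF := DM y + ℓ * y

/-- (FRB) the linear differential equation of a curve with small Wronskian -/
def S_FRB : Prop := ∀ (L : Idx → Filter ℝ) (τ : Idx × ℝ → ℝ) (H : Cmp L τ) (n : ℕ)
  (g : Fin (n + 1) → Pt → ℂ) (hg : ∀ j, Mero (g j)) (hW : Mero (Wrs g)),
  (∀ j k, Differentiable ℂ (sl (g j) k)) → (∀ k, ∃ z, Wrs g (k, z) ≠ 0) →
  (∀ i j, OB L τ fun p => g i p / g j p) → Nbs (Wrs g) =o[Lf L] τ →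
  ∀ ρ ℓ : MF, ρ = mf (g 0) (hg 0) ^ (n + 1) / mf (Wrs g) hW →
  ℓ = DM (mf (g 0) (hg 0)) / mf (g 0) (hg 0) - DM (mf (Wrs g) hW) / ((n + 1) * mf (Wrs g) hW) →
  (∃ c : Fin (n + 1) → MF, (∀ i, c i ∈ smf H) ∧ ∀ j,
    (Et ℓ)^[n + 1] (mf (g j) (hg j) / mf (g 0) (hg 0)) =
      ∑ i, c i * (Et ℓ)^[(i : ℕ)] (mf (g j) (hg j) / mf (g 0) (hg 0))) ∧
  ρ * (Matrix.of fun i j : Fin (n + 1) =>
    (Et ℓ)^[(i : ℕ)] (mf (g j) (hg j) / mf (g 0) (hg 0))).det = 1 ∧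
  DM ρ = (n + 1) * ℓ * ρ ∧
  ∀ p : (Fin (n + 1) → Fin (n + 1)) × (Fin (n + 1) → Fin (n + 1)),
    ∀ᶠ k in (U : Filter Idx), ∀ z, Wrs g (k, z) ≠ 0 →
      0 ≤ om (ρ * ∏ s, (Et ℓ)^[(p.1 s : ℕ)] (mf (g (p.2 s)) (hg (p.2 s)) / mf (g 0) (hg 0))) k z

/-- (FLD) the differential field -/
def S_FLD : Prop := ∀ (L : Idx → Filter ℝ) (τ : Idx × ℝ → ℝ) (H : Cmp L τ) (n : ℕ)
  (x c : Fin (n + 1) → MF) (ρ ℓ : MF), x 0 = 1 → (∀ i, c i ∈ smf H) → (∀ j, x j ∈ obf H) →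
  (∀ j, (Et ℓ)^[n + 1] (x j) = ∑ i, c i * (Et ℓ)^[(i : ℕ)] (x j)) →
  ρ * (Matrix.of fun i j : Fin (n + 1) => (Et ℓ)^[(i : ℕ)] (x j)).det = 1 →
  DM ρ = (n + 1) * ℓ * ρ → ℓ ∈ obf H →
  ∀ X : Finset MF, (∀ y ∈ X, y ∈ obf H) →
  (∀ y ∈ X, IsAlgebraic (IntermediateField.adjoin (smf H) (Set.range x)) y) →
  ∃ (F : IntermediateField (smf H) MF) (D : Derivation ℂ F F)
    (U' : Matrix (Fin (n + 1)) (Fin (n + 1)) F) (ρ' ℓ' : F)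
    (A : Matrix (Fin (n + 1)) (Fin (n + 1)) (smf H)),
    PV (smf H) D n U' ρ' ℓ' A ∧ (∀ i j, ((U' i j : F) : MF) = (Et ℓ)^[(i : ℕ)] (x j)) ∧
    (ρ' : MF) = ρ ∧ (∀ y : F, ((D y : F) : MF) = DM y) ∧ (∀ y ∈ X, y ∈ F) ∧
    (∀ y : F, (y : MF) ∈ obf H) ∧ Algebra.EssFiniteType (smf H) F

/-- (ZG) common zeros of the members of a prime ideal of codimension at least two are few -/
def S_ZG : Prop := ∀ (L : Idx → Filter ℝ) (τ : Idx × ℝ → ℝ) (H : Cmp L τ)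
  (F : IntermediateField (smf H) MF) (D : Derivation ℂ F F) (n : ℕ)
  (U' : Matrix (Fin (n + 1)) (Fin (n + 1)) F) (ρ ℓ : F)
  (A : Matrix (Fin (n + 1)) (Fin (n + 1)) (smf H)), (∀ y : F, ((D y : F) : MF) = DM y) →
  (∀ y : F, (y : MF) ∈ obf H) → PV (smf H) D n U' ρ ℓ A → Algebra.EssFiniteType (smf H) F →
  ∀ m : ℕ, Algebra.trdeg (smf H) F = (m + 1 : ℕ) →
  SmS L τ (fun k => {z | ∃ p, om ((gen1 U' ρ p : F) : MF) k z < 0}) →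
  ∀ G : Finset (R0 (smf H) U' ρ), (Ideal.span (G : Set (R0 (smf H) U' ρ))).IsPrime →
  Algebra.trdeg (smf H) (R0 (smf H) U' ρ ⧸ Ideal.span (G : Set (R0 (smf H) U' ρ))) < m →
  SmS L τ fun k => {z | ∀ x ∈ G, 1 ≤ om ((x : F) : MF) k z}

/-- (PRX) proximity functions and poles from integral equations -/
def S_PRX : Prop := ∀ (L : Idx → Filter ℝ) (τ : Idx × ℝ → ℝ) (H : Cmp L τ) (q J : ℕ) (b : MF)
  (y : Fin q → MF) (g : MF), b ∈ obf H → b ≠ 0 → (∃ i0, y i0 ≠ 0) →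
  (∀ i0, y i0 ≠ 0 → ∃ p : Polynomial (MvPolynomial (Fin q ⊕ Fin (J + 1)) (smf H)), p.Monic ∧
    p.eval₂ (aeval (Sum.elim (fun a => y a / y i0)
      (fun j : Fin (J + 1) => DM^[(j : ℕ)] b / b))).toRingHom g = 0) →
  px (rp g) =o[Lf L] τ ∧ ∃ (C r : ℕ) (c : Fin r → MF), (∀ l, c l ∈ smf H) ∧
    ∀ᶠ k in (U : Filter Idx), ∀ z, -((C : ℤ) * (1 + ∑ l, po (c l) k z)) ≤ (om g k z).untopD 0

/-- (GPT) the orders at the points which are not exceptional -/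
def S_GPT : Prop := ∀ (L : Idx → Filter ℝ) (τ : Idx × ℝ → ℝ) (H : Cmp L τ)
  (F : IntermediateField (smf H) MF) (D : Derivation ℂ F F), (∀ y : F, ((D y : F) : MF) = DM y) →
  ∀ (I1 ι J : Type) [Finite I1] [Finite ι] [Finite J] (gen : I1 → F) (T : Finset (smf H))
  (Pos Neg : J → Finset F) (g : ι → F) (N : ℕ) (Gs : Finset (Finset F)),
  (∀ V : ValuationSubring F, (∀ x ∈ V, D x ∈ V) → (∀ c ∈ T, algebraMap (smf H) F c ∈ V) →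
    (∀ p, gen p ∈ V) → (∀ i, g i ∈ V) ∨
      ((∃ j, (∀ x ∈ Pos j, x ∈ V) ∧ ∀ x ∈ Neg j, x ∈ V.nonunits) ∧
        ∃ t ∈ V.nonunits, D t ∈ V ∧ D t ∉ V.nonunits ∧ ∀ i, t ^ N * g i ∈ V) ∨
      ∃ G ∈ Gs, ∀ x ∈ G, x ∈ V.nonunits) →
  ∀ B Z : Idx → Set ℂ,
  (∀ c ∈ T, ∀ᶠ k in (U : Filter Idx), ∀ z, z ∉ B k → 0 ≤ om (c : MF) k z) →
  (∀ p, ∀ᶠ k in (U : Filter Idx), ∀ z, z ∉ B k → 0 ≤ om (gen p : MF) k z) →
  (∀ G ∈ Gs, ∀ᶠ k in (U : Filter Idx), ∀ z, z ∉ B k → ∃ x ∈ G, ¬ 1 ≤ om ((x : F) : MF) k z) →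
  (∀ z : Idx → ℂ, (∃ j, (∀ x ∈ Pos j, ((x : F) : MF) ∈ hp z) ∧
    ∀ x ∈ Neg j, ((x : F) : MF) ∈ (hp z).nonunits) → ∀ᶠ k in (U : Filter Idx), z k ∈ Z k) →
  ∀ᶠ k in (U : Filter Idx), ∀ z, z ∉ B k → (∀ i, 0 ≤ (om (g i : MF) k z).untopD 0) ∨
    (z ∈ Z k ∧ ∀ i, -(N : ℤ) ≤ (om (g i : MF) k z).untopD 0)

/-- (KEY) the elements given by pluricanonical forms -/
def S_KEY : Prop := ∀ (k κ L F : Type) [Field k] [Field κ] [Field L] [Field F] [CharZero k]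
  [Algebra k κ] [Algebra κ F] [Algebra k F] [IsScalarTower k κ F] [Algebra k L] [Algebra L F]
  [IsScalarTower k L F] [Algebra.EssFiniteType k L] [Algebra.EssFiniteType κ F] (m w : ℕ),
  0 < w → Algebra.trdeg κ F = (m + 1 : ℕ) → Algebra.trdeg k L = w →
  ∀ V : Set (Derivation κ F F), Submodule.span F V = ⊤ →
  ∀ (N : ℕ) (ι J : Type) (ω : ι → (Fin w → Derivation k L L) → L) (Pos Neg : J → Finset L),
  (∀ i, IsPluri N (ω i)) → (∀ P : Place k L, Divisorial w P → ∀ i, LogAt P (ω i)) →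
  (∀ P : Place k L, Divisorial w P → (¬ ∃ j, (∀ x ∈ Pos j, P.Reg x) ∧ ∀ x ∈ Neg j, Ge P 1 x) →
    ∀ i, RegAt P (ω i)) →
  ∀ x : Fin w → L, IsTranscendenceBasis k x →
  ∀ E : Fin w → Derivation k L L, (∀ i j, E i (x j) = if i = j then 1 else 0) →
  ∃ δ : F, δ ≠ 0 ∧
    (∀ (P : Place κ F) (s : Fin m → F), Ri P s → (∀ Δ ∈ V, RegP P Δ) →
      (∀ i, Ge P 0 (algebraMap L F (ω i E) * δ)) ∨
      ((∃ j, (∀ x ∈ Pos j, P.Reg (algebraMap L F x)) ∧ ∀ x ∈ Neg j, Ge P 1 (algebraMap L F x)) ∧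
        ∀ i, Ge P (-N) (algebraMap L F (ω i E) * δ))) ∧
    ∀ (P : Place κ F) (s : Fin m → F), Ri P s → (∀ Δ ∈ V, LogP P Δ) →
      ∀ i, Ge P 0 (algebraMap L F (ω i E) * δ)

/-- (TH) the characteristic of a map from proximity functions and poles -/
def S_TH : Prop := ∀ (t : ℕ) (h a : Fin (t + 1) → ℂ → ℂ), (∀ i, Differentiable ℂ (h i)) →
  (∀ z, ∃ i, h i z ≠ 0) → (∀ i, Meromorphic (a i)) → (∃ i, NZ (a i)) →
  (∀ i j, ∀ᶠ z in codiscrete ℂ, h i z * a j z = h j z * a i z) →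
  ∀ (ι ι' : Type) [Fintype ι] [Fintype ι'] (e : ι → ℕ) (B : ι → Set ℂ),
  (∀ i r, {z : ℂ | z ∈ B i ∧ ‖z‖ ≤ r}.Finite) →
  ∀ c : ι' → ℂ → ℂ, (∀ l, Meromorphic (c l)) → ∀ C : ℕ,
  (∀ z i, -(∑ i, (e i : ℤ) * (B i).indicator (1 : ℂ → ℤ) z +
    C * ∑ l, max 0 (-((meromorphicOrderAt (c l) z).untopD 0))) ≤
      (meromorphicOrderAt (a i) z).untopD 0) →
  ∃ C0 : ℝ, ∀ r : ℝ, 1 ≤ r → Tf h r ≤ ∑ i, proximity (a i) ⊤ r +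
    (∑ i, (e i : ℝ) * Nc (B i) r + C * ∑ l, ValueDistribution.logCounting (c l) ⊤ r) + C0

/-- (TB) the characteristic of a rational map -/
def S_TB : Prop := ∀ (M t d : ℕ) (f : Fin (M + 1) → ℂ → ℂ) (h : Fin (t + 1) → ℂ → ℂ)
  (P : Fin (t + 1) → MvPolynomial (Fin (M + 1)) ℂ), (∀ i, Differentiable ℂ (f i)) →
  (∀ z, ∃ i, f i z ≠ 0) → (∀ i, Differentiable ℂ (h i)) → (∀ z, ∃ i, h i z ≠ 0) →
  (∀ i, (P i).IsHomogeneous d) →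
  (∀ i j z, h i z * eval (fun l => f l z) (P j) = h j z * eval (fun l => f l z) (P i)) →
  (∃ i z, eval (fun l => f l z) (P i) ≠ 0) →
  ∃ C : ℝ, ∀ r : ℝ, 1 ≤ r → Tf h r ≤ d * Tf f r + C

end Pool.Agent.N131.SV
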