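import Mathlib
import Pool.Agent.N131.SV.Stm2

/-!
The main estimate for sequences of curves.
-/

set_option autoImplicit false

namespace Pool.Agent.N131.SV

open MeasureTheory Set Filter Topology Metric Real ValueDistribution MeromorphicOn Function
open Asymptotics MvPolynomial FF
open Pool.Agent.N131.SR (Wr Tf NZ Big)
open Pool.Agent.N131.MV (PV gen1 W1 R0 Inv Ri RegP LogP)
open Pool.Agent.W603.LV (Ge)
open Pool.Agent.W602.GT (Divisorial IsPluri RegAt LogAt)

section shift

variable {F : Type} [Field F] [Algebra ℂ F] (D : Derivation ℂ F F) (ℓ : F)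

/-- twisted derivatives -/
def tw (y : F) : F := D y + ℓ * y

theorem tw_expand : ∃ c : ℕ → ℕ → F, ∀ i (y : F), (tw D ℓ)^[i] y =
    D^[i] y + ∑ j ∈ Finset.range i, c i j * D^[j] y := by
  have key : ∀ i, ∃ c : ℕ → F, ∀ y : F, (tw D ℓ)^[i] y =
      D^[i] y + ∑ j ∈ Finset.range i, c j * D^[j] y := by
    intro i
    induction i with
    | zero => exact ⟨fun _ => 0, fun y => by simp⟩
    | succ i ih =>
      obtain ⟨c, hc⟩ := ih
      refine ⟨fun j => (if j = 0 then 0 else if j - 1 < i then c (j - 1) else 0) +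
        (if j < i then D (c j) + ℓ * c j else if j = i then ℓ else 0), fun y => ?_⟩
      rw [Function.iterate_succ_apply', hc]
      unfold tw
      rw [map_add, map_sum]
      have e1 : ∀ j, D (c j * D^[j] y) = c j * D^[j + 1] y + D (c j) * D^[j] y := by
        intro j
        rw [Derivation.leibniz, Function.iterate_succ_apply']
        simp only [smul_eq_mul]
        ring
      simp only [e1, add_mul, Finset.sum_add_distrib]
      rw [← Function.iterate_succ_apply' (⇑D) i y]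
      have e2 : ∑ j ∈ Finset.range (i + 1),
          (if j = 0 then 0 else if j - 1 < i then c (j - 1) else 0) * D^[j] y =
          ∑ j ∈ Finset.range i, c j * D^[j + 1] y := by
        rw [Finset.sum_range_succ']
        simp only [Nat.add_sub_cancel, if_true, zero_mul, add_zero, Nat.succ_ne_zero, if_false]
        apply Finset.sum_congr rfl
        intro j hj
        rw [if_pos (Finset.mem_range.1 hj)]
      have e3 : ∑ j ∈ Finset.range (i + 1),
          (if j < i then D (c j) + ℓ * c j else if j = i then ℓ else 0) * D^[j] y =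
          ∑ j ∈ Finset.range i, (D (c j) + ℓ * c j) * D^[j] y + ℓ * D^[i] y := by
        rw [Finset.sum_range_succ]
        simp only [lt_irrefl, if_false, if_true]
        congr 1
        apply Finset.sum_congr rfl
        intro j hj
        rw [if_pos (Finset.mem_range.1 hj)]
      rw [e2, e3]
      simp only [add_mul, Finset.sum_add_distrib, mul_add, Finset.mul_sum, mul_assoc]
      ring
  choose c hc using key
  exact ⟨c, hc⟩

theorem det_tw {n : ℕ} (x : Fin n → F) : (Matrix.of fun i j : Fin n => (tw D ℓ)^[(i : ℕ)] (x j)).det =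
    (Matrix.of fun i j : Fin n => D^[(i : ℕ)] (x j)).det := by
  obtain ⟨c, hc⟩ := tw_expand D ℓ
  let M : Matrix (Fin n) (Fin n) F := Matrix.of fun i j =>
    if (j : ℕ) < i then c i j else if i = j then 1 else 0
  have h1 : (Matrix.of fun i j : Fin n => (tw D ℓ)^[(i : ℕ)] (x j)) =
      M * (Matrix.of fun i j : Fin n => D^[(i : ℕ)] (x j)) := by
    ext i j
    rw [Matrix.of_apply, Matrix.mul_apply, hc]
    simp only [M, Matrix.of_apply]
    have h2 : ∀ l : Fin n, (if (l : ℕ) < i then c i l else if i = l then 1 else 0) *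
        D^[(l : ℕ)] (x j) = (if (l : ℕ) < i then c i l * D^[(l : ℕ)] (x j) else 0) +
          (if i = l then D^[(l : ℕ)] (x j) else 0) := by
      intro l
      by_cases h3 : (l : ℕ) < i
      · have h4 : i ≠ l := fun h => by rw [h] at h3; exact lt_irrefl _ h3
        simp [h3, h4]
      · by_cases h4 : i = l
        · simp [h4]
        · simp [h3, h4]
    simp only [h2, Finset.sum_add_distrib]
    rw [Finset.sum_ite_eq Finset.univ i (fun l : Fin n => D^[(l : ℕ)] (x j)), if_pos (Finset.mem_univ i),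
      add_comm]
    congr 1
    have h5 : ∑ l : Fin n, (if (l : ℕ) < i then c i l * D^[(l : ℕ)] (x j) else 0) =
        ∑ l ∈ Finset.range n, if l < (i : ℕ) then c i l * D^[l] (x j) else 0 :=
      (Fin.sum_univ_eq_sum_range (fun l => if l < (i : ℕ) then c i l * D^[l] (x j) else 0) n)
    rw [h5, ← Finset.sum_filter]
    congr 1
    ext l
    simp only [Finset.mem_filter, Finset.mem_range]
    have := i.2
    omega
  rw [h1, Matrix.det_mul]
  have h6 : M.det = 1 := by
    rw [Matrix.det_of_isLowerTriangular M (by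
      intro i j hij
      have hij' : i < j := hij
      simp only [M, Matrix.of_apply]
      have h7 : ¬ ((j : ℕ) < i) := by
        have : (i : ℕ) < j := hij'
        omega
      rw [if_neg h7, if_neg hij'.ne])]
    apply Finset.prod_eq_one
    intro i _
    simp [M]
  rw [h6, one_mul]

end shift

theorem Et_eq (ℓ : MF) : Et ℓ = tw DM ℓ := rfl

theorem ob_det {L : Idx → Filter ℝ} {τ : Idx × ℝ → ℝ} {H : Cmp L τ} {n : ℕ} {x : Fin n → MF}
    (hx : ∀ j, x j ∈ obf H) (ℓ : MF) :
    (Matrix.of fun i j : Fin n => (Et ℓ)^[(i : ℕ)] (x j)).det ∈ obf H := by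
  rw [Et_eq, det_tw, Matrix.det_apply]
  apply sum_mem
  intro σ _
  rw [Units.smul_def, zsmul_eq_mul]
  have h1 : ∀ (i : ℕ) (y : MF), y ∈ obf H → DM^[i] y ∈ obf H := by
    intro i
    induction i with
    | zero => exact fun y hy => hy
    | succ i ih =>
      intro y hy
      rw [Function.iterate_succ_apply']
      exact DM_obf (ih y hy)
  exact mul_mem (intCast_mem _ _) (prod_mem fun i _ => h1 _ _ (hx _))

/-- **The differential field of a curve.** -/
theorem pvdata (hSMS : S_SMS) (hFRB : S_FRB) (hFLD : S_FLD) {L : Idx → Filter ℝ}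
    {τ : Idx × ℝ → ℝ} (H : Cmp L τ) {n : ℕ} {g : Fin (n + 1) → Pt → ℂ} (hg : ∀ j, Mero (g j))
    (hgd : ∀ j k, Differentiable ℂ (sl (g j) k)) (hW : ∀ k, ∃ z, Wrs g (k, z) ≠ 0)
    (hOB : ∀ i j, OB L τ fun p => g i p / g j p) (hN : Nbs (Wrs g) =o[Lf L] τ)
    (X : Finset MF) (hXob : ∀ x ∈ X, x ∈ obf H)
    (hXalg : ∀ x ∈ X, IsAlgebraic (IntermediateField.adjoin (smf H)
      (Set.range fun j => mf (g j) (hg j) / mf (g 0) (hg 0))) x) :
    ∃ (F : IntermediateField (smf H) MF) (D : Derivation ℂ F F)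
      (U' : Matrix (Fin (n + 1)) (Fin (n + 1)) F) (ρ' ℓ' : F)
      (A : Matrix (Fin (n + 1)) (Fin (n + 1)) (smf H)),
      PV (smf H) D n U' ρ' ℓ' A ∧ (∀ y : F, ((D y : F) : MF) = DM y) ∧ (∀ y ∈ X, y ∈ F) ∧
      (∀ y : F, (y : MF) ∈ obf H) ∧ Algebra.EssFiniteType (smf H) F ∧
      SmS L τ (fun k => {z | ∃ p, om ((gen1 U' ρ' p : F) : MF) k z < 0}) := by
  have hWd : ∀ k, Differentiable ℂ (sl (Wrs g) k) := fun k => SR.Wr_diff fun j => hgd j k
  have hWm : Mero (Wrs g) := fun k z => ((hWd k).analyticAt z).meromorphicAt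
  obtain ⟨⟨c, hc, heq⟩, hdet, hrho, hreg⟩ := hFRB L τ H n g hg hWm hgd hW hOB hN _ _ rfl rfl
  set ρ : MF := mf (g 0) (hg 0) ^ (n + 1) / mf (Wrs g) hWm with hρ
  set ℓ : MF := DM (mf (g 0) (hg 0)) / mf (g 0) (hg 0) -
    DM (mf (Wrs g) hWm) / ((n + 1) * mf (Wrs g) hWm) with hℓ
  have hρ0 : ρ ≠ 0 := fun h => by rw [h, zero_mul] at hdet; exact zero_ne_one hdet
  have hg0 : mf (g 0) (hg 0) ≠ 0 := by
    intro h
    apply hρ0
    rw [hρ, h, zero_pow (Nat.succ_ne_zero n), zero_div]
  have hx0 : mf (g 0) (hg 0) / mf (g 0) (hg 0) = 1 := div_self hg0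
  have hxob : ∀ j, mf (g j) (hg j) / mf (g 0) (hg 0) ∈ obf H := by
    intro j
    rw [mf_div, mem_obf]
    exact hOB j 0
  have hρob : ρ ∈ obf H := by
    have h1 := ob_det (H := H) hxob ℓ
    have h2 : ρ = ((Matrix.of fun i j : Fin (n + 1) =>
        (Et ℓ)^[(i : ℕ)] (mf (g j) (hg j) / mf (g 0) (hg 0))).det)⁻¹ :=
      eq_inv_of_mul_eq_one_left hdet
    rw [h2]
    exact inv_mem h1
  have hn1 : ((n : MF) + 1) ≠ 0 := by exact_mod_cast Nat.succ_ne_zero n
  have hℓob : ℓ ∈ obf H := by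
    have h1 : ℓ = DM ρ / (((n : MF) + 1) * ρ) := by
      rw [hrho]
      field_simp
    rw [h1]
    exact div_mem (DM_obf hρob) (mul_mem (add_mem (natCast_mem _ _) (one_mem _)) hρob)
  obtain ⟨F, D, U', ρ', ℓ', A, hPV, hU, hρ', hcoe, hXF, hFob, hess⟩ :=
    hFLD L τ H n (fun j => mf (g j) (hg j) / mf (g 0) (hg 0)) c ρ ℓ hx0 hc hxob heq hdet hrho hℓob
      X hXob hXalg
  refine ⟨F, D, U', ρ', ℓ', A, hPV, hcoe, hXF, hFob, hess, ?_⟩
  obtain ⟨hmono, -, -, -, hzero⟩ := hSMS L τ H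
  refine hmono _ _ ?_ (hzero (Wrs g) hWd (Eventually.of_forall hW) hN)
  have h1 : ∀ᶠ k in (U : Filter Idx),
      ∀ p : (Fin (n + 1) → Fin (n + 1)) × (Fin (n + 1) → Fin (n + 1)), ∀ z, Wrs g (k, z) ≠ 0 →
        0 ≤ om ((gen1 U' ρ' p : F) : MF) k z := by
    rw [eventually_all]
    intro p
    have h2 : ((gen1 U' ρ' p : F) : MF) = ρ * ∏ s, (Et ℓ)^[(p.1 s : ℕ)]
        (mf (g (p.2 s)) (hg (p.2 s)) / mf (g 0) (hg 0)) := by
      unfold gen1
      push_cast
      rw [hρ']
      congr 1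
      exact Finset.prod_congr rfl fun s _ => hU _ _
    rw [h2]
    exact hreg p
  filter_upwards [h1] with k hk z hz
  obtain ⟨p, hp⟩ := hz
  by_contra h3
  exact absurd (hk p z h3) (not_le.2 hp)

theorem sms_finset (hSMS : S_SMS) {L : Idx → Filter ℝ} {τ : Idx × ℝ → ℝ} (H : Cmp L τ)
    {α : Type} (s : Finset α) (B : α → Idx → Set ℂ) (h : ∀ a ∈ s, SmS L τ (B a)) :
    SmS L τ fun k => {z | ∃ a ∈ s, z ∈ B a k} := by
  classical
  obtain ⟨hmono, hunion, hempty, -, -⟩ := hSMS L τ H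
  induction s using Finset.induction_on with
  | empty =>
    refine hmono _ _ (Eventually.of_forall fun k z hz => ?_) hempty
    obtain ⟨a, ha, -⟩ := hz
    exact absurd ha (Finset.notMem_empty a)
  | insert a s ha ih =>
    refine hmono _ _ (Eventually.of_forall fun k z hz => ?_)
      (hunion _ _ (h a (Finset.mem_insert_self a s)) (ih fun b hb => h b (Finset.mem_insert_of_mem hb)))
    obtain ⟨b, hb, hzb⟩ := hz
    rcases Finset.mem_insert.1 hb with rfl | hb
    · exact Or.inl hzb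
    · exact Or.inr ⟨b, hb, hzb⟩

theorem po_nonneg (x : MF) (k : Idx) (z : ℂ) : 0 ≤ po x k z := le_max_left _ _

theorem le_po (x : MF) (k : Idx) (z : ℂ) : -po x k z ≤ (om x k z).untopD 0 := by
  have : -((om x k z).untopD 0) ≤ po x k z := le_max_right _ _
  omega

theorem coe_iter {L : Idx → Filter ℝ} {τ : Idx × ℝ → ℝ} {H : Cmp L τ}
    {F : IntermediateField (smf H) MF} {D : Derivation ℂ F F}
    (hcoe : ∀ y : F, ((D y : F) : MF) = DM y) (j : ℕ) (b : F) :
    ((D^[j] b : F) : MF) = DM^[j] (b : MF) := by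
  induction j with
  | zero => rfl
  | succ j ih => rw [Function.iterate_succ_apply', Function.iterate_succ_apply', hcoe, ih]

/-- **The main estimate.** -/
theorem main_seq (hBAL : MV.S_BAL) (hCAL : MV.S_CAL) (hSMS : S_SMS) (hFRB : S_FRB)
    (hFLD : S_FLD) (hZG : S_ZG) (hPRX : S_PRX) (hGPT : S_GPT) (hKEY : S_KEY)
    {L : Idx → Filter ℝ} {τ : Idx × ℝ → ℝ} (H : Cmp L τ) {n : ℕ} {g : Fin (n + 1) → Pt → ℂ}
    (hg : ∀ j, Mero (g j)) (hgd : ∀ j k, Differentiable ℂ (sl (g j) k))
    (hW : ∀ k, ∃ z, Wrs g (k, z) ≠ 0) (hOB : ∀ i j, OB L τ fun p => g i p / g j p)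
    (hN : Nbs (Wrs g) =o[Lf L] τ)
    {K : Type} [Field K] [Algebra ℂ K] {w : ℕ} (hw : 0 < w) (htr : Algebra.trdeg ℂ K = w)
    (ψ : K →ₐ[ℂ] MF) (X : Finset K) (hX : IntermediateField.adjoin ℂ (X : Set K) = ⊤)
    (hXob : ∀ x ∈ X, ψ x ∈ obf H)
    (hXalg : ∀ x ∈ X, IsAlgebraic (IntermediateField.adjoin (smf H)
      (Set.range fun j => mf (g j) (hg j) / mf (g 0) (hg 0))) (ψ x))
    {N : ℕ} {ι J : Type} [Finite ι] [Finite J] (ω : ι → (Fin w → Derivation ℂ K K) → K)
    (Pos Neg : J → Finset K) (hpl : ∀ i, IsPluri N (ω i))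
    (hlog : ∀ P : Place ℂ K, Divisorial w P → ∀ i, LogAt P (ω i))
    (hreg : ∀ P : Place ℂ K, Divisorial w P →
      (¬ ∃ j, (∀ x ∈ Pos j, P.Reg x) ∧ ∀ x ∈ Neg j, Ge P 1 x) → ∀ i, RegAt P (ω i))
    (Z : Idx → Set ℂ) (hZ : ∀ z : Idx → ℂ, (∃ j, (∀ x ∈ Pos j, ψ x ∈ hp z) ∧
      ∀ x ∈ Neg j, ψ x ∈ (hp z).nonunits) → ∀ᶠ k in (U : Filter Idx), z k ∈ Z k)
    {x : Fin w → K} (hx : IsTranscendenceBasis ℂ x) {E : Fin w → Derivation ℂ K K}
    (hE : ∀ i j, E i (x j) = if i = j then 1 else 0) :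
    ∃ (G : ι → MF) (δ : MF), δ ≠ 0 ∧ (∀ i, G i = ψ (ω i E) * δ) ∧
      (∀ i, px (rp (G i)) =o[Lf L] τ) ∧
      ∃ (C r : ℕ) (c : Fin r → MF) (B : Idx → Set ℂ), (∀ l, c l ∈ smf H) ∧ SmS L τ B ∧
        ∀ᶠ k in (U : Filter Idx), ∀ z i,
          -((N : ℤ) * (Z k).indicator (1 : ℂ → ℤ) z + C * (B k).indicator (1 : ℂ → ℤ) z +
            C * ∑ l, po (c l) k z) ≤ (om (G i) k z).untopD 0 := by
  classical
  obtain ⟨F, D, U', ρ', ℓ', A, hPV, hcoe, hXF, hFob, hess, hgen⟩ :=
    pvdata hSMS hFRB hFLD H hg hgd hW hOB hN (X.image ψ) (by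
      intro y hy
      obtain ⟨x, hx, rfl⟩ := Finset.mem_image.1 hy
      exact hXob x hx) (by
      intro y hy
      obtain ⟨x, hx, rfl⟩ := Finset.mem_image.1 hy
      exact hXalg x hx)
  have hψF : ∀ x : K, ψ x ∈ F := by
    intro x
    have h1 : (IntermediateField.adjoin ℂ (X : Set K)).map ψ ≤ F.restrictScalars ℂ := by
      rw [IntermediateField.adjoin_map, IntermediateField.adjoin_le_iff]
      rintro _ ⟨y, hy, rfl⟩
      exact hXF _ (Finset.mem_image_of_mem ψ hy)
    apply h1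
    rw [hX]
    exact ⟨x, IntermediateField.mem_top, rfl⟩
  let φ : K →+* F :=
    { toFun := fun x => ⟨ψ x, hψF x⟩
      map_one' := Subtype.ext (map_one ψ)
      map_mul' := fun x y => Subtype.ext (map_mul ψ x y)
      map_zero' := Subtype.ext (map_zero ψ)
      map_add' := fun x y => Subtype.ext (map_add ψ x y) }
  let _ : Algebra K F := φ.toAlgebra
  have hφ : ∀ x : K, ((algebraMap K F x : F) : MF) = ψ x := fun x => rfl
  have : IsScalarTower ℂ K F := IsScalarTower.of_algebraMap_eq fun c => Subtype.ext (by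
    rw [hφ, ψ.commutes]
    rfl)
  have hessK : Algebra.EssFiniteType ℂ K := IntermediateField.fg_top_iff.1 ⟨X, hX⟩
  have := hess
  obtain ⟨d, hd⟩ : ∃ d : ℕ, Algebra.trdeg (smf H) F = d :=
    Cardinal.lt_aleph0.1 (trdeg_lt_aleph0 (smf H) F)
  rcases d with - | m
  · -- the algebraic case
    have halg : Algebra.IsAlgebraic (smf H) F := by
      rw [← _root_.trdeg_eq_zero_iff, hd]
      simp
    have hsm : ∀ y : F, (y : MF) ∈ smf H := by
      intro y
      obtain ⟨c, hc⟩ := hPV.alg y (halg.isAlgebraic y)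
      rw [← hc]
      exact c.2
    have hsm' : ∀ i, ψ (ω i E) ∈ smf H := fun i => hsm (algebraMap K F (ω i E))
    obtain ⟨r, ⟨e⟩⟩ := Finite.exists_equiv_fin ι
    refine ⟨fun i => ψ (ω i E), 1, one_ne_zero, fun i => (mul_one _).symm, fun i => ?_, 1, r,
      fun l => ψ (ω (e.symm l) E), fun _ => ∅, fun l => hsm' _, (hSMS L τ H).2.2.1, ?_⟩
    · have h1 : Sm L τ (rp (ψ (ω i E))) := by
        rw [← mem_smf (H := H) (ha := rp_mero _), mf_rp]
        exact hsm' i
      refine o_of_ev (H.ge.mono fun p hp => ⟨px_nonneg _ p.1 p.2, ?_⟩) h1.2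
      have h2 : 0 ≤ ValueDistribution.logCounting (sl (rp (ψ (ω i E))) p.1) ⊤ p.2 :=
        ValueDistribution.logCounting_nonneg hp
      change proximity (sl (rp (ψ (ω i E))) p.1) ⊤ p.2 ≤
        characteristic (sl (rp (ψ (ω i E))) p.1) ⊤ p.2
      unfold characteristic
      simp only [Pi.add_apply]
      linarith
    · refine Eventually.of_forall fun k z i => ?_
      have h1 := le_po (ψ (ω i E)) k z
      have h2 : po (ψ (ω i E)) k z ≤ ∑ l, po (ψ (ω (e.symm l) E)) k z := by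
        have h3 := Finset.single_le_sum (f := fun l => po (ψ (ω (e.symm l) E)) k z)
          (fun l _ => po_nonneg _ k z) (Finset.mem_univ (e i))
        simpa using h3
      have h3 : (0 : ℤ) ≤ (N : ℤ) * (Z k).indicator (1 : ℂ → ℤ) z :=
        mul_nonneg (by positivity) (Set.indicator_nonneg (fun _ _ => zero_le_one) _)
      have h4 : (0 : ℤ) ≤ ((1 : ℕ) : ℤ) * (∅ : Set ℂ).indicator (1 : ℂ → ℤ) z :=
        mul_nonneg (by positivity) (Set.indicator_nonneg (fun _ _ => zero_le_one) _)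
      push_cast at h4 ⊢
      linarith
  · -- the transcendental case
    obtain ⟨δ, hδ, hA, hB⟩ := hKEY ℂ (smf H) K F m w hw hd htr (Inv (smf H) D) hPV.inv_span N ι J ω
      Pos Neg hpl hlog hreg x hx E hE
    obtain ⟨T, Gs, hGs, hV⟩ := hCAL ℂ (smf H) F D n U' ρ' ℓ' A hPV m hd ι J
      (fun i => algebraMap K F (ω i E) * δ) N (fun j => (Pos j).image (algebraMap K F))
      (fun j => (Neg j).image (algebraMap K F)) (by
        intro P s hs hP
        rcases hA P s hs hP with h1 | ⟨⟨j, h2, h3⟩, h4⟩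
        · exact Or.inl h1
        · refine Or.inr ⟨⟨j, ?_, ?_⟩, h4⟩
          · intro y hy
            obtain ⟨x, hx, rfl⟩ := Finset.mem_image.1 hy
            exact h2 x hx
          · intro y hy
            obtain ⟨x, hx, rfl⟩ := Finset.mem_image.1 hy
            exact h3 x hx)
    obtain ⟨l, b, J', hl, hb0, hbW, hint⟩ := hBAL ℂ (smf H) F D n U' ρ' ℓ' A hPV m hd ι
      (fun i => algebraMap K F (ω i E) * δ) fun P s hs hP i => hB P s hs hP i
    -- a spanning family
    have hWfin : Module.Finite (smf H) ↥(W1 (smf H) U' ρ' ^ l) := MV.pow_fin MV.W1_fin l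
    obtain ⟨q, y, hy⟩ := Submodule.fg_iff_exists_fin_generating_family.1
      (Module.Finite.iff_fg.1 hWfin)
    have hyne : ∃ i0, y i0 ≠ 0 := by
      by_contra hcon
      push Not at hcon
      have h1 : Submodule.span (smf H) (Set.range y) = ⊥ := by
        rw [Submodule.span_eq_bot]
        rintro _ ⟨i, rfl⟩
        exact hcon i
      rw [hy] at h1
      rw [h1, Submodule.mem_bot] at hbW
      exact hb0 hbW
    have hprx : ∀ i, px (rp ((algebraMap K F (ω i E) * δ : F) : MF)) =o[Lf L] τ ∧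
        ∃ (C r : ℕ) (c : Fin r → MF), (∀ l, c l ∈ smf H) ∧ ∀ᶠ k in (U : Filter Idx), ∀ z,
          -((C : ℤ) * (1 + ∑ l, po (c l) k z)) ≤
            (om ((algebraMap K F (ω i E) * δ : F) : MF) k z).untopD 0 := by
      intro i
      refine hPRX L τ H q J' (b : MF) (fun a => (y a : MF)) _ (hFob b)
        (fun h => hb0 (Subtype.ext h)) ?_ ?_
      · obtain ⟨i0, hi0⟩ := hyne
        exact ⟨i0, fun h => hi0 (Subtype.ext h)⟩
      · intro i0 hi0
        obtain ⟨p, hp1, hp2⟩ := hint q y hy i0 (fun h => hi0 (by rw [h]; rfl)) i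
        refine ⟨p, hp1, ?_⟩
        have h1 := congrArg (algebraMap F MF) hp2
        rw [map_zero, Polynomial.hom_eval₂] at h1
        rw [← h1]
        congr 1
        apply MvPolynomial.ringHom_ext
        · intro c
          change aeval _ (MvPolynomial.C c) = algebraMap F MF (aeval _ (MvPolynomial.C c))
          rw [aeval_C, aeval_C]
          rfl
        · intro v
          change aeval _ (MvPolynomial.X v) = algebraMap F MF (aeval _ (MvPolynomial.X v))
          rw [aeval_X, aeval_X]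
          rcases v with a | j
          · simp only [Sum.elim_inl]
            rfl
          · simp only [Sum.elim_inr]
            have h2 := coe_iter hcoe (j : ℕ) b
            change DM^[(j : ℕ)] (b : MF) / (b : MF) = ((D^[(j : ℕ)] b / b : F) : MF)
            rw [← h2]
            rfl
    choose hpx C0 r0 c0 hc0 hpo using hprx
    -- the exceptional set
    obtain ⟨hmono, hunion, hempty, hpoles, -⟩ := hSMS L τ H
    let BT : Idx → Set ℂ := fun k => {z | ∃ c ∈ T, om (c : MF) k z < 0}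
    let Bg : Idx → Set ℂ := fun k => {z | ∃ p, om ((gen1 U' ρ' p : F) : MF) k z < 0}
    let BG : Idx → Set ℂ := fun k => {z | ∃ G ∈ Gs, ∀ x ∈ G, 1 ≤ om ((x : F) : MF) k z}
    have hBT : SmS L τ BT := sms_finset hSMS H T (fun c k => {z | om (c : MF) k z < 0})
      fun c _ => hpoles c c.2
    have hBG : SmS L τ BG := sms_finset hSMS H Gs
      (fun G k => {z | ∀ x ∈ G, 1 ≤ om ((x : F) : MF) k z}) fun G hG =>
        hZG L τ H F D n U' ρ' ℓ' A hcoe hFob hPV hess m hd hgen G (hGs G hG).1 (hGs G hG).2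
    have hBB : SmS L τ fun k => (BT k ∪ Bg k) ∪ BG k := hunion _ _ (hunion _ _ hBT hgen) hBG
    have hgpt := hGPT L τ H F D hcoe _ ι J (gen1 U' ρ') T
      (fun j => (Pos j).image (algebraMap K F)) (fun j => (Neg j).image (algebraMap K F))
      (fun i => algebraMap K F (ω i E) * δ) N (Gs.image fun G => G.image Subtype.val) (by
        intro V h1 h2 h3
        rcases hV V h1 h2 h3 with h4 | h4 | ⟨G, hG, h4⟩
        · exact Or.inl h4
        · exact Or.inr (Or.inl h4)
        · refine Or.inr (Or.inr ⟨G.image Subtype.val, Finset.mem_image_of_mem _ hG, ?_⟩)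
          intro x hx
          obtain ⟨x', hx', rfl⟩ := Finset.mem_image.1 hx
          exact h4 x' hx') (fun k => (BT k ∪ Bg k) ∪ BG k) Z
      (by
        intro c hc
        refine Eventually.of_forall fun k z hz => ?_
        by_contra h1
        exact hz (Or.inl (Or.inl ⟨c, hc, not_le.1 h1⟩)))
      (by
        intro p
        refine Eventually.of_forall fun k z hz => ?_
        by_contra h1
        exact hz (Or.inl (Or.inr ⟨p, not_le.1 h1⟩)))
      (by
        intro G hG
        obtain ⟨G', hG', rfl⟩ := Finset.mem_image.1 hG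
        refine Eventually.of_forall fun k z hz => ?_
        by_contra h1
        push Not at h1
        exact hz (Or.inr ⟨G', hG', fun x hx => h1 _ (Finset.mem_image_of_mem _ hx)⟩))
      (by
        rintro z ⟨j, h1, h2⟩
        refine hZ z ⟨j, fun x hx => ?_, fun x hx => ?_⟩
        · exact h1 _ (Finset.mem_image_of_mem _ hx)
        · exact h2 _ (Finset.mem_image_of_mem _ hx))
    -- the result
    obtain ⟨r, ⟨e⟩⟩ := Finite.exists_equiv_fin (Σ i, Fin (r0 i))
    have := Fintype.ofFinite ι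
    refine ⟨fun i => ψ (ω i E) * (δ : MF), (δ : MF), fun h => hδ (Subtype.ext h), fun i => rfl,
      fun i => hpx i, ∑ i, C0 i, r, fun l => c0 (e.symm l).1 (e.symm l).2,
      fun k => (BT k ∪ Bg k) ∪ BG k, fun l => hc0 _ _, hBB, ?_⟩
    filter_upwards [hgpt, eventually_all.2 hpo] with k hk1 hk2 z i
    have hN0 : (0 : ℤ) ≤ (N : ℤ) * (Z k).indicator (1 : ℂ → ℤ) z :=
      mul_nonneg (by positivity) (Set.indicator_nonneg (fun _ _ => zero_le_one) _)
    have hs0 : (0 : ℤ) ≤ ∑ l, po (c0 (e.symm l).1 (e.symm l).2) k z :=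
      Finset.sum_nonneg fun _ _ => po_nonneg _ _ _
    have hC0 : (0 : ℤ) ≤ ((∑ i, C0 i : ℕ) : ℤ) := by positivity
    have hB0 : (0 : ℤ) ≤ ((BT k ∪ Bg k) ∪ BG k).indicator (1 : ℂ → ℤ) z :=
      Set.indicator_nonneg (fun _ _ => zero_le_one) _
    have hCs : (0 : ℤ) ≤ ((∑ i, C0 i : ℕ) : ℤ) * ∑ l, po (c0 (e.symm l).1 (e.symm l).2) k z :=
      mul_nonneg hC0 hs0
    by_cases hz : z ∈ (BT k ∪ Bg k) ∪ BG k
    · have h1 := hk2 i z
      have h2 : (C0 i : ℤ) ≤ ((∑ i, C0 i : ℕ) : ℤ) := by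
        exact_mod_cast Finset.single_le_sum (f := C0) (fun _ _ => Nat.zero_le _)
          (Finset.mem_univ i)
      have h3 : ∑ l, po (c0 i l) k z ≤ ∑ l, po (c0 (e.symm l).1 (e.symm l).2) k z := by
        have h4 : ∑ l, po (c0 (e.symm l).1 (e.symm l).2) k z =
            ∑ i, ∑ l, po (c0 i l) k z := by
          rw [← Fintype.sum_sigma' (fun i l => po (c0 i l) k z)]
          exact e.symm.sum_comp fun v => po (c0 v.1 v.2) k z
        rw [h4]
        exact Finset.single_le_sum (f := fun i => ∑ l, po (c0 i l) k z)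
          (fun _ _ => Finset.sum_nonneg fun _ _ => po_nonneg _ _ _) (Finset.mem_univ i)
      have h5 : (0 : ℤ) ≤ ∑ l, po (c0 i l) k z := Finset.sum_nonneg fun _ _ => po_nonneg _ _ _
      rw [Set.indicator_of_mem hz, Pi.one_apply, mul_one]
      have h6 : (C0 i : ℤ) * (1 + ∑ l, po (c0 i l) k z) ≤
          ((∑ i, C0 i : ℕ) : ℤ) * (1 + ∑ l, po (c0 (e.symm l).1 (e.symm l).2) k z) := by
        apply mul_le_mul h2 (by linarith) (by linarith) hC0
      have h7 : -((C0 i : ℤ) * (1 + ∑ l, po (c0 i l) k z)) ≤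
        (om (ψ (ω i E) * (δ : MF)) k z).untopD 0 := h1
      linarith
    · rw [Set.indicator_of_notMem hz, mul_zero]
      rcases hk1 z hz with h1 | ⟨h1, h2⟩
      · have h3 : 0 ≤ (om (ψ (ω i E) * (δ : MF)) k z).untopD 0 := h1 i
        linarith
      · have h3 : -(N : ℤ) ≤ (om (ψ (ω i E) * (δ : MF)) k z).untopD 0 := h2 i
        rw [Set.indicator_of_mem h1, Pi.one_apply, mul_one]
        linarith

end Pool.Agent.N131.SV
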