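import Mathlib
import Pool.Agent.N131.SV.Stm2

/-!
Counting functions of locally finite sets: upper and lower bounds.
-/

set_option autoImplicit false

namespace Pool.Agent.N131.SV

open Filter Topology

/-- the divisor of a locally finite set -/
noncomputable def cnInd (B : Set ℂ) (hB : ∀ r : ℝ, {z : ℂ | z ∈ B ∧ ‖z‖ ≤ r}.Finite) :
    Function.locallyFinsupp ℂ ℤ where
  toFun := B.indicator 1
  supportWithinDomain' := by simp
  supportLocallyFiniteWithinDomain' := by
    intro z _
    refine ⟨Metric.ball z 1, Metric.ball_mem_nhds z one_pos, (hB (‖z‖ + 1)).subset ?_⟩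
    rintro w ⟨hw, hw2⟩
    refine ⟨?_, ?_⟩
    · by_contra hc
      exact hw2 (Set.indicator_of_notMem hc _)
    · have h1 : dist w z < 1 := hw
      have h2 : ‖w‖ ≤ ‖z‖ + ‖w - z‖ := norm_le_insert' w z
      rw [dist_eq_norm] at h1
      linarith

theorem cnInd_apply (B : Set ℂ) (hB : ∀ r : ℝ, {z : ℂ | z ∈ B ∧ ‖z‖ ≤ r}.Finite) (z : ℂ) :
    cnInd B hB z = B.indicator 1 z := rfl

theorem cn_log (B : Set ℂ) (hB : ∀ r : ℝ, {z : ℂ | z ∈ B ∧ ‖z‖ ≤ r}.Finite) {r : ℝ}
    (hr : 1 ≤ r) : Function.locallyFinsuppWithin.logCounting (cnInd B hB) r = Nc B r := by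
  classical
  have hr0 : 0 < r := by linarith
  have habs : |r| = r := abs_of_pos hr0
  set F := (hB r).toFinset with hF
  have hF' : ∀ z, z ∈ F ↔ z ∈ B ∧ ‖z‖ ≤ r := fun z => by rw [hF, Set.Finite.mem_toFinset]; rfl
  change ∑ᶠ z, (Function.locallyFinsuppWithin.toClosedBall r (cnInd B hB) z : ℝ) *
    Real.log (r * ‖z‖⁻¹) + (cnInd B hB 0) * Real.log r = _
  unfold Nc
  congr 1
  · rw [finsum_eq_sum_of_support_subset (s := F),
      finsum_mem_eq_finite_toFinset_sum _ (hB r)]
    · apply Finset.sum_congr rfl
      intro z hz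
      have hz' := (hF' z).1 hz
      rw [Function.locallyFinsuppWithin.toClosedBall_eval_within _
        (by rw [habs, mem_closedBall_zero_iff]; exact hz'.2), cnInd_apply,
        Set.indicator_of_mem hz'.1, div_eq_mul_inv]
      simp
    · intro z hz
      have hzb : z ∈ Metric.closedBall (0 : ℂ) |r| := by
        by_contra hcon
        apply hz
        simp only
        rw [Function.locallyFinsuppWithin.apply_eq_zero_of_notMem _ hcon]
        simp
      have hz2 : ‖z‖ ≤ r := by rwa [habs, mem_closedBall_zero_iff] at hzb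
      rw [Finset.mem_coe, hF']
      refine ⟨?_, hz2⟩
      by_contra hc
      apply hz
      simp only
      rw [Function.locallyFinsuppWithin.toClosedBall_eval_within _ hzb, cnInd_apply,
        Set.indicator_of_notMem hc]
      simp
  · rw [cnInd_apply]
    by_cases h : (0 : ℂ) ∈ B
    · simp [h]
    · simp [h]

/-- evaluation -/
noncomputable def cnEv (z : ℂ) : Function.locallyFinsupp ℂ ℤ →+ ℤ where
  toFun D := D z
  map_zero' := rfl
  map_add' _ _ := rfl

theorem t_CN1 : S_CN1 := by
  intro a ha hna ι ι' _ _ e B hB c hc C hle r hr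
  have key : (MeromorphicOn.divisor a Set.univ)⁻ ≤
      ∑ i, e i • cnInd (B i) (hB i) + C • ∑ l, (MeromorphicOn.divisor (c l) Set.univ)⁻ := by
    intro z
    have h1 : (MeromorphicOn.divisor a Set.univ)⁻ z =
        max 0 (-((meromorphicOrderAt a z).untopD 0)) := by
      rw [Function.locallyFinsuppWithin.negPart_apply,
        MeromorphicOn.divisor_apply (fun z _ => ha z) (Set.mem_univ z)]
      rw [negPart_def, sup_comm]
      rfl
    have h2 : ∀ l, (MeromorphicOn.divisor (c l) Set.univ)⁻ z =
        max 0 (-((meromorphicOrderAt (c l) z).untopD 0)) := by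
      intro l
      rw [Function.locallyFinsuppWithin.negPart_apply,
        MeromorphicOn.divisor_apply (fun z _ => hc l z) (Set.mem_univ z)]
      rw [negPart_def, sup_comm]
      rfl
    have h3 : (∑ i, e i • cnInd (B i) (hB i) +
        C • ∑ l, (MeromorphicOn.divisor (c l) Set.univ)⁻) z =
        ∑ i, (e i : ℤ) * (B i).indicator (1 : ℂ → ℤ) z +
          C * ∑ l, max 0 (-((meromorphicOrderAt (c l) z).untopD 0)) := by
      change cnEv z (∑ i, e i • cnInd (B i) (hB i) +
        C • ∑ l, (MeromorphicOn.divisor (c l) Set.univ)⁻) = _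
      rw [map_add, map_sum, map_nsmul, map_sum, nsmul_eq_mul]
      simp only [map_nsmul, nsmul_eq_mul]
      congr 2
      exact Finset.sum_congr rfl fun l _ => h2 l
    rw [h1, h3]
    apply max_le
    · apply add_nonneg
      · apply Finset.sum_nonneg
        intro i _
        apply mul_nonneg (by positivity)
        exact Set.indicator_nonneg (fun _ _ => by simp) _
      · apply mul_nonneg (by positivity)
        exact Finset.sum_nonneg fun l _ => le_max_left _ _
    · linarith [hle z]
  have h4 := Function.locallyFinsuppWithin.logCounting_le key hr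
  rw [ValueDistribution.logCounting_top]
  refine h4.trans (le_of_eq ?_)
  rw [map_add, map_sum, map_nsmul, map_sum]
  simp only [map_nsmul, Pi.add_apply, Finset.sum_apply, nsmul_eq_mul]
  congr 1
  · refine Finset.sum_congr rfl fun i _ => ?_
    rw [Pi.mul_apply, Pi.natCast_apply, cn_log _ _ hr]
  · simp only [ValueDistribution.logCounting_top, Pi.mul_apply, Pi.natCast_apply,
      Finset.sum_apply]

theorem t_CN2 : S_CN2 := by
  intro a ha hna M B hM hB
  have hd : ∀ z, (MeromorphicOn.divisor a Set.univ) z = (meromorphicOrderAt a z).untop₀ := fun z =>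
    MeromorphicOn.divisor_apply (fun z _ => ha z) (Set.mem_univ z)
  have h1 : ∀ z ∈ B, (M : ℤ) ≤ (MeromorphicOn.divisor a Set.univ) z := by
    intro z hz
    rw [hd]
    have h2 := hB z hz
    have h3 := hna z
    obtain ⟨k, hk⟩ := WithTop.ne_top_iff_exists.1 h3
    rw [← hk] at h2 ⊢
    rw [WithTop.untop₀_coe]
    exact WithTop.coe_le_coe.1 h2
  have hfin : ∀ r : ℝ, {z : ℂ | z ∈ B ∧ ‖z‖ ≤ r}.Finite := by
    intro r
    have h2 := (Function.locallyFinsupp.locallyFiniteSupport
      (MeromorphicOn.divisor a Set.univ)).finite_inter_support_of_isCompact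
      (isCompact_closedBall (0 : ℂ) r)
    refine h2.subset ?_
    rintro z ⟨hz, hzr⟩
    refine ⟨by simpa using hzr, ?_⟩
    have h3 := h1 z hz
    intro h0
    rw [Function.locallyFinsuppWithin.toFun_eq_coe] at h0
    rw [h0] at h3
    omega
  refine ⟨hfin, fun r hr => ?_⟩
  have key : M • cnInd B hfin ≤ (MeromorphicOn.divisor a Set.univ)⁺ := by
    intro z
    rw [Function.locallyFinsuppWithin.posPart_apply]
    change M • (cnInd B hfin z) ≤ _
    rw [cnInd_apply]
    by_cases hz : z ∈ B
    · rw [Set.indicator_of_mem hz]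
      refine le_trans ?_ (le_posPart _)
      simpa using h1 z hz
    · rw [Set.indicator_of_notMem hz]
      simp
  have h4 := Function.locallyFinsuppWithin.logCounting_le key hr
  rw [ValueDistribution.logCounting_zero]
  refine le_trans (le_of_eq ?_) h4
  rw [map_nsmul, Pi.smul_apply, cn_log _ _ hr, nsmul_eq_mul]

end Pool.Agent.N131.SV
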