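import Mathlib
import Pool.Agent.N131.SR.Gt
import Pool.Agent.N131.SV.Asm
import Pool.Agent.W602.GT.Orb
import Pool.Agent.W602.GT.Gm

/-!
Sequences of curves which are generic in a projective variety.
-/

set_option autoImplicit false

namespace Pool.Agent.N131.SV

open MeasureTheory Set Filter Topology Metric Real ValueDistribution MeromorphicOn Function
open Asymptotics MvPolynomial FF
open Pool.Agent.N131.SR (Wr Tf NZ Big)
open Pool.Agent.W602.GT (IsForm coords val exists_embedding)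

/-- bases of the span -/
theorem wdata {m n : ℕ} {G : Fin m → ℂ → ℂ} (hG : ∀ k, Differentiable ℂ (G k))
    {g : Fin n → ℂ → ℂ} (ind : LinearIndependent ℂ g)
    (span : Submodule.span ℂ (Set.range g) = Submodule.span ℂ (Set.range G)) :
    ∃ (a : Fin n → Fin m → ℂ) (b : Fin m → Fin n → ℂ), (∀ k z, g k z = ∑ j, a k j * G j z) ∧
      (∀ j z, G j z = ∑ k, b j k * g k z) ∧ (∀ k, Differentiable ℂ (g k)) ∧
      ∃ z, Wr g z ≠ 0 := by
  obtain ⟨a, ha⟩ := SR.exists_coef span.le
  obtain ⟨b, hb⟩ := SR.exists_coef span.ge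
  have hgd : ∀ k, Differentiable ℂ (g k) := by
    intro k
    have h1 : g k = fun z => ∑ j, a k j * G j z := funext fun z => ha k z
    rw [h1]
    exact Differentiable.fun_sum fun j _ => (hG j).const_mul _
  have hW : ∃ z, Wr g z ≠ 0 := by
    obtain ⟨z, hz⟩ := Pool.Agent.H159R3.NV.wron_ne g hgd (by
      intro c hc
      have h1 := Fintype.linearIndependent_iff.1 ind c (by
        funext z
        have := hc z
        simpa using this)
      exact funext h1)
    refine ⟨z, ?_⟩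
    unfold Wr
    rw [← Matrix.det_transpose]
    exact hz
  exact ⟨a, b, ha, hb, hgd, hW⟩

variable {M : ℕ} {K : Type} [Field K] [Algebra ℂ K]

section forms

variable (y : Fin (M + 1) → K)

open Classical in
/-- the form which belongs to an element of the index set -/
noncomputable def aof (G : MvPolynomial ℕ ℂ) : MvPolynomial (Fin (M + 1)) ℂ :=
  if h : ∃ F : MvPolynomial (Fin (M + 1)) ℂ, IsForm F ∧ aeval y F ≠ 0 ∧
    rename (fun j : Fin (M + 1) => (j : ℕ)) F = G then h.choose else 1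

theorem aof_spec (G : MvPolynomial ℕ ℂ) : IsForm (aof y G) ∧ aeval y (aof y G) ≠ 0 := by
  unfold aof
  split_ifs with h
  · exact ⟨h.choose_spec.1, h.choose_spec.2.1⟩
  · exact ⟨⟨0, isHomogeneous_one _ _⟩, by rw [map_one]; exact one_ne_zero⟩

theorem aof_rename {F : MvPolynomial (Fin (M + 1)) ℂ} (hF : IsForm F) (h0 : aeval y F ≠ 0) :
    aof y (rename (fun j : Fin (M + 1) => (j : ℕ)) F) = F := by
  have h : ∃ F' : MvPolynomial (Fin (M + 1)) ℂ, IsForm F' ∧ aeval y F' ≠ 0 ∧
    rename (fun j : Fin (M + 1) => (j : ℕ)) F' = rename (fun j : Fin (M + 1) => (j : ℕ)) F :=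
    ⟨F, hF, h0, rfl⟩
  unfold aof
  rw [dif_pos h]
  exact rename_injective _ Fin.val_injective h.choose_spec.2.2

/-- the product of the forms -/
noncomputable def ak (k : Idx) : MvPolynomial (Fin (M + 1)) ℂ := ∏ G ∈ k, aof y G

theorem ak_form (k : Idx) : IsForm (ak y k) := by
  unfold ak IsForm
  choose d hd using fun G => (aof_spec y G).1
  exact ⟨∑ G ∈ k, d G, IsHomogeneous.prod _ _ _ fun G _ => hd G⟩

theorem ak_ne (k : Idx) : aeval y (ak y k) ≠ 0 := by
  unfold ak
  rw [map_prod]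
  exact Finset.prod_ne_zero_iff.2 fun G _ => (aof_spec y G).2

theorem ak_dvd {F : MvPolynomial (Fin (M + 1)) ℂ} (hF : IsForm F) (h0 : aeval y F ≠ 0) :
    ∀ᶠ k in (U : Filter Idx), F ∣ ak y k := by
  filter_upwards [ev_mem (rename (fun j : Fin (M + 1) => (j : ℕ)) F)] with k hk
  have h1 := Finset.dvd_prod_of_mem (aof y) hk
  rwa [aof_rename y hF h0] at h1

end forms

/-- generic sequences of curves -/
structure Gsq (y : Fin (M + 1) → K) (f : Fin (M + 1) → Pt → ℂ) : Prop where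
  diff : ∀ j k, Differentiable ℂ (sl (f j) k)
  ne : ∀ p, ∃ j, f j p ≠ 0
  van : ∀ G : MvPolynomial (Fin (M + 1)) ℂ, IsForm G → aeval y G = 0 →
    ∀ᶠ k in (U : Filter Idx), ∀ z, eval (fun j => f j (k, z)) G = 0
  nz' : ∀ G : MvPolynomial (Fin (M + 1)) ℂ, IsForm G → aeval y G ≠ 0 →
    ∀ᶠ k in (U : Filter Idx), ∃ z, eval (fun j => f j (k, z)) G ≠ 0

theorem nz_of_gen {y : Fin (M + 1) → K} {f : Fin (M + 1) → Pt → ℂ}
    (h : ∀ k, ∃ z, eval (fun j => f j (k, z)) (ak y k) ≠ 0)
    {G : MvPolynomial (Fin (M + 1)) ℂ} (hG : IsForm G) (h0 : aeval y G ≠ 0) :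
    ∀ᶠ k in (U : Filter Idx), ∃ z, eval (fun j => f j (k, z)) G ≠ 0 := by
  filter_upwards [ak_dvd y hG h0] with k hk
  obtain ⟨z, hz⟩ := h k
  refine ⟨z, fun h1 => hz ?_⟩
  obtain ⟨B, hB⟩ := hk
  rw [hB, map_mul, h1, zero_mul]

theorem mero_diff {a : Pt → ℂ} (h : ∀ k, Differentiable ℂ (sl a k)) : Mero a :=
  fun k => SR.diff_mero (h k)

theorem aeval_mf {m : ℕ} {f : Fin m → Pt → ℂ} (hf : ∀ j, Mero (f j))
    (hF : ∀ G : MvPolynomial (Fin m) ℂ, Mero fun p => eval (fun j => f j p) G)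
    (G : MvPolynomial (Fin m) ℂ) :
    aeval (fun j => mf (f j) (hf j)) G = mf (fun p => eval (fun j => f j p) G) (hF G) := by
  induction G using MvPolynomial.induction_on with
  | C c =>
    rw [aeval_C, algebraMap_mf, mf_eq]
    exact Eventually.of_forall fun p => by simp
  | add F G h1 h2 =>
    rw [map_add, h1, h2, mf_add, mf_eq]
    exact Eventually.of_forall fun p => by simp
  | mul_X F j h1 =>
    rw [map_mul, aeval_X, h1, mf_mul, mf_eq]
    exact Eventually.of_forall fun p => by simp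

variable {y : Fin (M + 1) → K} {f : Fin (M + 1) → Pt → ℂ}

namespace Gsq

variable (h : Gsq y f)
include h

theorem mero (j : Fin (M + 1)) : Mero (f j) := mero_diff (h.diff j)

theorem fdiff (G : MvPolynomial (Fin (M + 1)) ℂ) (k : Idx) :
    Differentiable ℂ (sl (fun p => eval (fun j => f j p) G) k) :=
  SR.form_diff (f := fun j => sl (f j) k) (fun j => h.diff j k) G

theorem fmero (G : MvPolynomial (Fin (M + 1)) ℂ) : Mero fun p => eval (fun j => f j p) G :=
  mero_diff (h.fdiff G)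

theorem nz {G : MvPolynomial (Fin (M + 1)) ℂ} (hG : IsForm G) (h0 : aeval y G ≠ 0) :
    ∀ᶠ k in (U : Filter Idx), ∃ z, eval (fun j => f j (k, z)) G ≠ 0 :=
  h.nz' G hG h0

theorem mf_nz {G : MvPolynomial (Fin (M + 1)) ℂ} (hG : IsForm G) (h0 : aeval y G ≠ 0) :
    mf (fun p => eval (fun j => f j p) G) (h.fmero G) ≠ 0 := by
  intro h1
  rw [mf_eq_zero, ev_cod] at h1
  obtain ⟨k, hk1, hk2⟩ := (h1.and (h.nz hG h0)).exists
  have h3 := SR.diff_ne (h.fdiff G k) hk2
  obtain ⟨z, hz1, hz2⟩ := (hk1.and h3).exists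
  exact hz2 hz1

/-- the generic point -/
theorem genpt {G : MvPolynomial (Fin (M + 1)) ℂ} (hG : IsForm G) :
    val y G = 0 ↔ val (fun j => mf (f j) (h.mero j)) G = 0 := by
  unfold val
  rw [aeval_mf h.mero h.fmero]
  constructor
  · intro h0
    rw [mf_eq_zero, ev_cod]
    exact (h.van G hG h0).mono fun k hk => Eventually.of_forall hk
  · intro h0
    by_contra h1
    exact h.mf_nz hG h1 h0

theorem emb (hy : coords ℂ y = ⊤) {l : Fin (M + 1)} (hl : y l ≠ 0) :
    ∃ ψ : K →ₐ[ℂ] MF, ∀ j, ψ (y j / y l) = mf (f j) (h.mero j) / mf (f l) (h.mero l) := by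
  refine exists_embedding hl ?_ hy fun G hG => h.genpt hG
  have h1 := h.mf_nz (G := X l) ⟨1, isHomogeneous_X _ _⟩ (by rwa [aeval_X])
  intro h2
  apply h1
  rw [mf_eq_zero] at h2 ⊢
  exact h2.mono fun p hp => by simpa using hp

theorem mf_X_ne {l : Fin (M + 1)} (hl : y l ≠ 0) : mf (f l) (h.mero l) ≠ 0 := by
  have h1 := h.mf_nz (G := X l) ⟨1, isHomogeneous_X _ _⟩ (by rwa [aeval_X])
  intro h2
  apply h1
  rw [mf_eq_zero] at h2 ⊢
  exact h2.mono fun p hp => by simpa using hp

/-- values of forms -/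
theorem psi_form {l : Fin (M + 1)} (hl : y l ≠ 0) {ψ : K →ₐ[ℂ] MF}
    (hψ : ∀ j, ψ (y j / y l) = mf (f j) (h.mero j) / mf (f l) (h.mero l))
    {G : MvPolynomial (Fin (M + 1)) ℂ} {d : ℕ} (hG : G.IsHomogeneous d) :
    ψ (aeval y G / y l ^ d) = mf (fun p => eval (fun j => f j p) G) (h.fmero G) /
      mf (f l) (h.mero l) ^ d := by
  have e1 : aeval y G / y l ^ d = aeval (fun j => y j / y l) G := by
    have h1 := Pool.Agent.W602.GT.val_smul hG (y l) (fun j => y j / y l)
    unfold val at h1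
    have h2 : (fun j => y l * (y j / y l)) = y := funext fun j => mul_div_cancel₀ _ hl
    rw [h2] at h1
    rw [h1, mul_div_cancel_left₀ _ (pow_ne_zero _ hl)]
  have e2 : aeval (fun j => mf (f j) (h.mero j)) G / mf (f l) (h.mero l) ^ d =
      aeval (fun j => mf (f j) (h.mero j) / mf (f l) (h.mero l)) G := by
    have hl' := h.mf_X_ne hl
    have h1 := Pool.Agent.W602.GT.val_smul hG (mf (f l) (h.mero l))
      (fun j => mf (f j) (h.mero j) / mf (f l) (h.mero l))
    unfold val at h1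
    have h2 : (fun j => mf (f l) (h.mero l) * (mf (f j) (h.mero j) / mf (f l) (h.mero l))) =
        fun j => mf (f j) (h.mero j) := funext fun j => mul_div_cancel₀ _ hl'
    rw [h2] at h1
    rw [h1, mul_div_cancel_left₀ _ (pow_ne_zero _ hl')]
  rw [← aeval_mf h.mero h.fmero, e1, e2]
  rw [← AlgHom.comp_apply, comp_aeval]
  congr 2
  funext j
  exact hψ j

/-- ratios of forms of the same degree -/
theorem psi_ratio {l : Fin (M + 1)} (hl : y l ≠ 0) {ψ : K →ₐ[ℂ] MF}
    (hψ : ∀ j, ψ (y j / y l) = mf (f j) (h.mero j) / mf (f l) (h.mero l))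
    {G G' : MvPolynomial (Fin (M + 1)) ℂ} {d : ℕ} (hG : G.IsHomogeneous d)
    (hG' : G'.IsHomogeneous d) : ψ (aeval y G / aeval y G') =
      mf (fun p => eval (fun j => f j p) G) (h.fmero G) /
        mf (fun p => eval (fun j => f j p) G') (h.fmero G') := by
  have h1 := h.psi_form hl hψ hG
  have h2 := h.psi_form hl hψ hG'
  have hl' := h.mf_X_ne hl
  have h3 : aeval y G / aeval y G' = (aeval y G / y l ^ d) / (aeval y G' / y l ^ d) := by
    rw [div_div_div_cancel_right₀ (pow_ne_zero _ hl)]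
  rw [h3, map_div₀, h1, h2, div_div_div_cancel_right₀ (pow_ne_zero _ hl')]

end Gsq

end Pool.Agent.N131.SV
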