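import Mathlib
import Pool.Agent.N131.SV.Sq

/-!
Images of generic sequences of curves under rational maps.
-/

set_option autoImplicit false

namespace Pool.Agent.N131.SV

open MeasureTheory Set Filter Topology Metric Real ValueDistribution MeromorphicOn Function
open Asymptotics MvPolynomial FF
open Pool.Agent.N131.SR (Wr Tf NZ Big)
open Pool.Agent.W602.GT (IsForm coords val exists_embedding Divisorial IsPluri RegAt LogAt)

variable {M m : ℕ} {K K' : Type} [Field K] [Algebra ℂ K] [Field K'] [Algebra ℂ K']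

/-- a dominant rational map: `x` is the image of `y` under the forms `P` of the same degree -/
structure RMap (y : Fin (M + 1) → K') (x : Fin (m + 1) → K) (φ : K →ₐ[ℂ] K') (p : ℕ)
    (P : Fin (m + 1) → MvPolynomial (Fin (M + 1)) ℂ) : Prop where
  hom : ∀ i, (P i).IsHomogeneous p
  rel : ∀ i j, φ (x i) * aeval y (P j) = φ (x j) * aeval y (P i)
  ne : ∃ i, aeval y (P i) ≠ 0

variable {y : Fin (M + 1) → K'} {x : Fin (m + 1) → K} {φ : K →ₐ[ℂ] K'} {p : ℕ}
  {P : Fin (m + 1) → MvPolynomial (Fin (M + 1)) ℂ}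

namespace RMap

variable (h : RMap y x φ p P)
include h

theorem P_ne {i : Fin (m + 1)} (hi : x i ≠ 0) : aeval y (P i) ≠ 0 := by
  intro h0
  obtain ⟨j, hj⟩ := h.ne
  have h1 := h.rel i j
  rw [h0, mul_zero] at h1
  rcases mul_eq_zero.1 h1 with h2 | h2
  · exact hi ((map_eq_zero φ).1 h2)
  · exact hj h2

theorem ratio {j : Fin (m + 1)} (hj : x j ≠ 0) (i : Fin (m + 1)) :
    φ (x i / x j) = aeval y (P i) / aeval y (P j) := by
  rw [map_div₀, div_eq_div_iff ((map_ne_zero φ).2 hj) (h.P_ne hj), h.rel i j, mul_comm]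

theorem form {j : Fin (m + 1)} (hj : x j ≠ 0) {G : MvPolynomial (Fin (m + 1)) ℂ} {d : ℕ}
    (hG : G.IsHomogeneous d) :
    φ (aeval x G / x j ^ d) = aeval y (aeval P G) / aeval y (P j) ^ d := by
  have hPj := h.P_ne hj
  have e1 : aeval x G / x j ^ d = aeval (fun i => x i / x j) G := by
    have h1 := Pool.Agent.W602.GT.val_smul hG (x j) (fun i => x i / x j)
    unfold val at h1
    have h2 : (fun i => x j * (x i / x j)) = x := funext fun i => mul_div_cancel₀ _ hj
    rw [h2] at h1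
    rw [h1, mul_div_cancel_left₀ _ (pow_ne_zero _ hj)]
  have e2 : aeval y (aeval P G) / aeval y (P j) ^ d =
      aeval (fun i => aeval y (P i) / aeval y (P j)) G := by
    have h1 := Pool.Agent.W602.GT.val_smul hG (aeval y (P j))
      (fun i => aeval y (P i) / aeval y (P j))
    unfold val at h1
    have h2 : (fun i => aeval y (P j) * (aeval y (P i) / aeval y (P j))) =
        fun i => aeval y (P i) := funext fun i => mul_div_cancel₀ _ hPj
    rw [h2] at h1
    have h3 : aeval y (aeval P G) = aeval (fun i => aeval y (P i)) G := aeval_bind₁ _ _ _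
    rw [h3, h1, mul_div_cancel_left₀ _ (pow_ne_zero _ hPj)]
  rw [e1, e2, ← AlgHom.comp_apply, comp_aeval]
  congr 2
  funext i
  exact h.ratio hj i

theorem form_zero (hx : ∃ i, x i ≠ 0) {G : MvPolynomial (Fin (m + 1)) ℂ} {d : ℕ}
    (hG : G.IsHomogeneous d) : aeval x G = 0 ↔ aeval y (aeval P G) = 0 := by
  obtain ⟨j, hj⟩ := hx
  have h1 := h.form hj hG
  constructor
  · intro h0
    rw [h0, zero_div, map_zero, eq_comm, div_eq_zero_iff] at h1
    exact h1.resolve_right (pow_ne_zero _ (h.P_ne hj))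
  · intro h0
    rw [h0, zero_div, map_eq_zero, div_eq_zero_iff] at h1
    exact h1.resolve_right (pow_ne_zero _ hj)

end RMap

/-- values of forms at points with proportional coordinates -/
theorem eval_prop {m : ℕ} {a b : Fin (m + 1) → ℂ} (h : ∀ i j, a i * b j = a j * b i)
    (ha : ∃ i, a i ≠ 0) (hb : ∃ i, b i ≠ 0) {G : MvPolynomial (Fin (m + 1)) ℂ}
    (hG : IsForm G) : eval a G = 0 ↔ eval b G = 0 := by
  obtain ⟨d, hd⟩ := hG
  obtain ⟨i, hi⟩ := ha
  obtain ⟨j, hj⟩ := hb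
  have hb' : b i ≠ 0 := by
    intro h0
    have := h i j
    rw [h0, mul_zero] at this
    exact (mul_ne_zero hi hj) this
  have h1 := Pool.Agent.W602.GT.val_smul hd (a i / b i) b
  unfold val at h1
  have h2 : (fun l => a i / b i * b l) = a := by
    funext l
    rw [div_mul_eq_mul_div, div_eq_iff hb', h i l]
  rw [h2] at h1
  have h3 : eval a G = (a i / b i) ^ d * eval b G := h1
  rw [h3]
  constructor
  · intro h4
    exact (mul_eq_zero.1 h4).resolve_left (pow_ne_zero _ (div_ne_zero hi hb'))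
  · intro h4
    rw [h4, mul_zero]

theorem Gsq.image {F : Fin (M + 1) → Pt → ℂ} (hG : Gsq y F) (h : RMap y x φ p P)
    (hx : ∃ i, x i ≠ 0) {f : Fin (m + 1) → Pt → ℂ}
    (hfd : ∀ j k, Differentiable ℂ (sl (f j) k)) (hfne : ∀ q, ∃ j, f j q ≠ 0)
    (hrel : ∀ i j q, f i q * eval (fun l => F l q) (P j) = f j q * eval (fun l => F l q) (P i)) :
    Gsq x f := by
  obtain ⟨i0, hi0⟩ := h.ne
  have hev : ∀ (G : MvPolynomial (Fin (m + 1)) ℂ) (q : Pt),
      eval (fun l => F l q) (aeval P G) = eval (fun i => eval (fun l => F l q) (P i)) G :=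
    fun G q => aeval_bind₁ _ _ _
  have hform : ∀ {G : MvPolynomial (Fin (m + 1)) ℂ}, IsForm G → IsForm (aeval P G) := by
    rintro G ⟨d, hd⟩
    exact ⟨_, hd.aeval P h.hom⟩
  have hfG : ∀ (G : MvPolynomial (Fin (m + 1)) ℂ) k,
      Differentiable ℂ (fun z => eval (fun j => f j (k, z)) G) := fun G k =>
    SR.form_diff (f := fun j => sl (f j) k) (fun j => hfd j k) G
  have hne := hG.nz ⟨p, h.hom i0⟩ hi0
  have key : ∀ {G : MvPolynomial (Fin (m + 1)) ℂ}, IsForm G → ∀ᶠ k in (U : Filter Idx),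
      ∀ᶠ z in codiscrete ℂ, (eval (fun j => f j (k, z)) G = 0 ↔
        eval (fun l => F l (k, z)) (aeval P G) = 0) := by
    intro G hGf
    filter_upwards [hne] with k hk
    have h1 := SR.diff_ne (hG.fdiff (P i0) k) hk
    filter_upwards [h1] with z hz
    rw [hev]
    exact eval_prop (fun i j => hrel i j (k, z)) (hfne (k, z)) ⟨i0, hz⟩ hGf
  refine ⟨hfd, hfne, fun G hGf h0 => ?_, fun G hGf h0 => ?_⟩
  · have h1 := (h.form_zero hx hGf.choose_spec).1 h0
    filter_upwards [key hGf, hG.van _ (hform hGf) h1] with k hk hk2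
    by_contra hcon
    push Not at hcon
    have h2 := SR.diff_ne (hfG G k) hcon
    obtain ⟨z, hz1, hz2⟩ := (hk.and h2).exists
    exact hz2 (hz1.2 (hk2 z))
  · have h1 : aeval y (aeval P G) ≠ 0 := fun h2 =>
      h0 ((h.form_zero hx hGf.choose_spec).2 h2)
    filter_upwards [key hGf, hG.nz (hform hGf) h1] with k hk hk2
    have h2 := SR.diff_ne (hG.fdiff (aeval P G) k) hk2
    obtain ⟨z, hz1, hz2⟩ := (hk.and h2).exists
    exact ⟨z, fun h3 => hz2 (hz1.1 h3)⟩

theorem Gsq.compat {F : Fin (M + 1) → Pt → ℂ} (hG : Gsq y F) (h : RMap y x φ p P)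
    {f : Fin (m + 1) → Pt → ℂ} (hf : Gsq x f)
    (hrel : ∀ i j q, f i q * eval (fun l => F l q) (P j) = f j q * eval (fun l => F l q) (P i))
    {l0 : Fin (M + 1)} (hl0 : y l0 ≠ 0) {ψ : K' →ₐ[ℂ] MF}
    (hψ : ∀ j, ψ (y j / y l0) = mf (F j) (hG.mero j) / mf (F l0) (hG.mero l0))
    {j : Fin (m + 1)} (hj : x j ≠ 0) (i : Fin (m + 1)) :
    ψ (φ (x i / x j)) = mf (f i) (hf.mero i) / mf (f j) (hf.mero j) := by
  rw [h.ratio hj, hG.psi_ratio hl0 hψ (h.hom i) (h.hom j),
    div_eq_div_iff (hG.mf_nz ⟨p, h.hom j⟩ (h.P_ne hj)) (hf.mf_X_ne hj), mf_mul, mf_mul, mf_eq]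
  exact Eventually.of_forall fun q => by
    rw [mul_comm, hrel j i q, mul_comm]

end Pool.Agent.N131.SV
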