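import Mathlib
import Pool.Agent.N131.SV.Rel

/-!
The main estimate for generic sequences of curves.
-/

set_option autoImplicit false

namespace Pool.Agent.N131.SV

open MeasureTheory Set Filter Topology Metric Real ValueDistribution MeromorphicOn Function
open Asymptotics MvPolynomial FF
open Pool.Agent.N131.SR (Wr Tf NZ Big)
open Pool.Agent.W602.GT (IsForm coords val exists_embedding Divisorial IsPluri RegAt LogAt)
open Pool.Agent.W603.LV (Ge)
open Pool.Agent.TH143.EL (codis_ev)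

variable {M : ℕ} {K : Type} [Field K] [Algebra ℂ K]

/-- the characteristics of the curves -/
noncomputable def Tq (f : Fin (M + 1) → Pt → ℂ) (p : Idx × ℝ) : ℝ :=
  Tf (fun j => sl (f j) p.1) p.2

/-- the boundary condition: the place has its centre in the set of the common zeros of the forms
`Q` -/
def Bd {r : ℕ} (Q : Fin (r + 1) → MvPolynomial (Fin (M + 1)) ℂ) (q : Fin (r + 1) → ℕ)
    (y : Fin (M + 1) → K) (P : Place ℂ K) : Prop :=
  ∃ j, y j ≠ 0 ∧ (∀ i, P.Reg (y i / y j)) ∧ ∀ l, Ge P 1 (aeval y (Q l) / y j ^ q l)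

variable {y : Fin (M + 1) → K} {f : Fin (M + 1) → Pt → ℂ} {L : Idx → Filter ℝ}

theorem Gsq.ob (h : Gsq y f) (H : Cmp L (Tq f)) {l : Fin (M + 1)} (hl : y l ≠ 0)
    (i : Fin (M + 1)) : mf (f i) (h.mero i) / mf (f l) (h.mero l) ∈ obf H := by
  rw [mf_div, mem_obf]
  have hnz : ∀ᶠ k in (U : Filter Idx), ∃ z, f l (k, z) ≠ 0 := by
    have h1 := h.nz (G := X l) ⟨1, isHomogeneous_X _ _⟩ (by rwa [aeval_X])
    exact h1.mono fun k hk => by simpa using hk
  have h1 : ∀ k, ∃ C : ℝ, (∃ z, f l (k, z) ≠ 0) → ∀ r, 1 ≤ r →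
      characteristic (fun z => f i (k, z) / f l (k, z)) ⊤ r ≤ Tf (fun j => sl (f j) k) r + C := by
    intro k
    by_cases hk : ∃ z, f l (k, z) ≠ 0
    · obtain ⟨C, hC⟩ := SR.ratio_le (f := fun j => sl (f j) k) (fun j => h.diff j k)
        (fun z => h.ne (k, z)) i l hk
      exact ⟨C, fun _ => hC⟩
    · exact ⟨0, fun h => absurd h hk⟩
  choose C hC using h1
  refine ⟨(h.mero i).div (h.mero l), ?_⟩
  refine O_of_ev (t := fun p => Tq f p + C p.1) (Lf_of_ev H ?_)
    ((isBigO_refl _ _).add (H.const C).isBigO)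
  filter_upwards [hnz] with k hk r hr
  exact ⟨ch_nonneg _ k hr, hC k hk r hr⟩

theorem adjoin_coords (hy : coords ℂ y = ⊤) {l : Fin (M + 1)} (hl : y l ≠ 0) :
    IntermediateField.adjoin ℂ (Set.range fun i => y i / y l) = ⊤ := by
  rw [eq_top_iff, ← hy]
  unfold coords
  rw [IntermediateField.adjoin_le_iff]
  rintro _ ⟨i, j, hj, rfl⟩
  have h1 : y i / y j = (y i / y l) / (y j / y l) := by
    rw [div_div_div_cancel_right₀ hl]
  rw [h1]
  exact div_mem (IntermediateField.subset_adjoin _ _ ⟨i, rfl⟩)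
    (IntermediateField.subset_adjoin _ _ ⟨j, rfl⟩)

theorem Gsq.ob_all (h : Gsq y f) (H : Cmp L (Tq f)) (hy : coords ℂ y = ⊤) {l : Fin (M + 1)}
    (hl : y l ≠ 0) {ψ : K →ₐ[ℂ] MF}
    (hψ : ∀ j, ψ (y j / y l) = mf (f j) (h.mero j) / mf (f l) (h.mero l)) (x : K) :
    ψ x ∈ obf H := by
  have h1 : (IntermediateField.adjoin ℂ (Set.range fun i => y i / y l)).map ψ ≤ obf H := by
    rw [IntermediateField.adjoin_map, IntermediateField.adjoin_le_iff]
    rintro _ ⟨_, ⟨i, rfl⟩, rfl⟩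
    change ψ (y i / y l) ∈ obf H
    rw [hψ]
    exact h.ob H hl i
  apply h1
  rw [adjoin_coords hy hl]
  exact ⟨x, IntermediateField.mem_top, rfl⟩

/-- points of the boundary -/
theorem Gsq.bdry (h : Gsq y f) {l0 : Fin (M + 1)} (hl0 : y l0 ≠ 0) {ψ : K →ₐ[ℂ] MF}
    (hψ : ∀ j, ψ (y j / y l0) = mf (f j) (h.mero j) / mf (f l0) (h.mero l0)) {r : ℕ}
    {Q : Fin (r + 1) → MvPolynomial (Fin (M + 1)) ℂ} {q : Fin (r + 1) → ℕ}
    (hQ : ∀ l, (Q l).IsHomogeneous (q l)) {z : Idx → ℂ} {j : Fin (M + 1)} (hj : y j ≠ 0)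
    (h1 : ∀ i, ψ (y i / y j) ∈ hp z)
    (h2 : ∀ l, ψ (aeval y (Q l) / y j ^ q l) ∈ (hp z).nonunits) :
    ∀ᶠ k in (U : Filter Idx), ∀ l, eval (fun j => f j (k, z k)) (Q l) = 0 := by
  have hψj : ∀ i, ψ (y i / y j) = mf (fun p => f i p / f j p) ((h.mero i).div (h.mero j)) := by
    intro i
    have h3 : y i / y j = (y i / y l0) / (y j / y l0) := by
      rw [div_div_div_cancel_right₀ hl0]
    rw [h3, map_div₀, hψ, hψ, div_div_div_cancel_right₀ (h.mf_X_ne hl0), mf_div]
  have hψj' : ∀ i, ψ (y i / y j) = mf (f i) (h.mero i) / mf (f j) (h.mero j) := by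
    intro i
    rw [hψj, mf_div]
  have e1 : ∀ᶠ k in (U : Filter Idx), ∀ i, 0 ≤ meromorphicOrderAt (sl (fun p => f i p / f j p) k)
      (z k) := by
    rw [eventually_all]
    intro i
    have h3 := h1 i
    rw [hψj i, mem_hp] at h3
    exact h3
  have e2 : ∀ᶠ k in (U : Filter Idx), ∀ l, 1 ≤ meromorphicOrderAt
      (sl (fun p => eval (fun j => f j p) (Q l) / f j p ^ q l) k) (z k) := by
    rw [eventually_all]
    intro l
    have h3 := h2 l
    rw [h.psi_form hj hψj' (hQ l), mf_pow, mf_div, mem_hp_nonunits] at h3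
    exact h3
  have e3 : ∀ᶠ k in (U : Filter Idx), ∃ w, f j (k, w) ≠ 0 := by
    have h1 := h.nz (G := X j) ⟨1, isHomogeneous_X _ _⟩ (by rwa [aeval_X])
    exact h1.mono fun k hk => by simpa using hk
  filter_upwards [e1, e2, e3] with k h3 h4 h5
  have han : ∀ i, AnalyticAt ℂ (sl (f i) k) (z k) := fun i => (h.diff i k).analyticAt _
  have hjo : meromorphicOrderAt (sl (f j) k) (z k) ≠ ⊤ := by
    intro h6
    rw [meromorphicOrderAt_eq_top_iff] at h6
    have h7 := SR.diff_ne (h.diff j k) h5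
    have h8 := codis_ev h7 (z k)
    obtain ⟨w, hw1, hw2⟩ := (h6.and h8).exists
    exact hw2 hw1
  have hj0 : f j (k, z k) ≠ 0 := by
    intro h6
    obtain ⟨i, hi⟩ := h.ne (k, z k)
    have h7 := h3 i
    have h8 : meromorphicOrderAt (sl (fun p => f i p / f j p) k) (z k) =
        meromorphicOrderAt (sl (f i) k) (z k) + -meromorphicOrderAt (sl (f j) k) (z k) := by
      have h9 : sl (fun p => f i p / f j p) k = sl (f i) k * (sl (f j) k)⁻¹ := by
        funext w
        exact div_eq_mul_inv _ _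
      rw [h9, meromorphicOrderAt_mul (han i).meromorphicAt (han j).meromorphicAt.inv,
        meromorphicOrderAt_inv]
    have h9 : meromorphicOrderAt (sl (f i) k) (z k) = 0 := by
      rw [(han i).meromorphicOrderAt_eq, (han i).analyticOrderAt_eq_zero.2 hi]
      rfl
    have h10 : 1 ≤ meromorphicOrderAt (sl (f j) k) (z k) := by
      have h11 : analyticOrderAt (sl (f j) k) (z k) ≠ 0 := fun h12 =>
        ((han j).analyticOrderAt_eq_zero.1 h12) h6
      rw [(han j).meromorphicOrderAt_eq]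
      generalize analyticOrderAt (sl (f j) k) (z k) = o at h11
      cases o with
      | top => exact le_top
      | coe o =>
        have h13 : 1 ≤ o := Nat.one_le_iff_ne_zero.2 (by exact_mod_cast h11)
        change (1 : WithTop ℤ) ≤ (((o : ℕ) : ℤ) : WithTop ℤ)
        exact_mod_cast h13
    rw [h8, h9] at h7
    generalize meromorphicOrderAt (sl (f j) k) (z k) = o at h7 h10 hjo
    cases o with
    | top => exact hjo rfl
    | coe o =>
      have h11 : (1 : ℤ) ≤ o := by exact_mod_cast h10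
      have h12 : (0 : WithTop ℤ) ≤ ((0 + -o : ℤ) : WithTop ℤ) := h7
      have h13 : (0 : ℤ) ≤ 0 + -o := by exact_mod_cast h12
      omega
  intro l
  by_contra h6
  have hQa : AnalyticAt ℂ (sl (fun p => eval (fun j => f j p) (Q l)) k) (z k) :=
    (h.fdiff (Q l) k).analyticAt _
  have h7 : meromorphicOrderAt (sl (fun p => eval (fun j => f j p) (Q l) / f j p ^ q l) k) (z k) =
      0 := by
    have h8 : AnalyticAt ℂ (sl (fun p => eval (fun j => f j p) (Q l) / f j p ^ q l) k) (z k) :=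
      hQa.div ((han j).pow _) (pow_ne_zero _ hj0)
    rw [h8.meromorphicOrderAt_eq, h8.analyticOrderAt_eq_zero.2 (div_ne_zero h6 (pow_ne_zero _ hj0))]
    rfl
  have h8 := h4 l
  rw [h7] at h8
  exact absurd h8 (by norm_num)

/-- transfer of algebraic elements -/
theorem alg_transfer {K₁ K₂ : Type} [Field K₁] [Field K₂] [Algebra ℂ K₁] [Algebra ℂ K₂]
    (ψ : K₁ →ₐ[ℂ] K₂) {P : IntermediateField ℂ K₁} {κ : Type} [Field κ] [Algebra κ K₂]
    (E : IntermediateField κ K₂) (hPE : ∀ x ∈ P, ψ x ∈ E) {x : K₁} (hx : IsAlgebraic P x) :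
    IsAlgebraic E (ψ x) := by
  let σ : P →+* E :=
    { toFun := fun x => ⟨ψ x, hPE x x.2⟩
      map_one' := Subtype.ext (map_one ψ)
      map_mul' := fun x y => Subtype.ext (map_mul ψ (x : K₁) (y : K₁))
      map_zero' := Subtype.ext (map_zero ψ)
      map_add' := fun x y => Subtype.ext (map_add ψ (x : K₁) (y : K₁)) }
  obtain ⟨p, hp, hpx⟩ := hx
  refine ⟨p.map σ, (Polynomial.map_ne_zero_iff σ.injective).2 hp, ?_⟩
  rw [Polynomial.aeval_def, Polynomial.eval₂_map]
  have h1 : (algebraMap E K₂).comp σ = (ψ : K₁ →+* K₂).comp (algebraMap P K₁) := RingHom.ext fun x => rfl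
  rw [h1]
  have h2 := Polynomial.hom_eval₂ p (algebraMap P K₁) (ψ : K₁ →+* K₂) x
  rw [Polynomial.aeval_def] at hpx
  rw [hpx, map_zero] at h2
  exact h2.symm

/-- **The main estimate for generic sequences of curves.** The curves `F` belong to the point `y`
of `K'`, their images `f` under the forms `P` belong to the point `x` of `K`. -/
theorem core_seq (hBAL : MV.S_BAL) (hCAL : MV.S_CAL) (hSMS : S_SMS) (hFRB : S_FRB)
    (hFLD : S_FLD) (hZG : S_ZG) (hPRX : S_PRX) (hGPT : S_GPT) (hKEY : S_KEY)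
    {K' : Type} [Field K'] [Algebra ℂ K'] {M' : ℕ} {y' : Fin (M' + 1) → K'}
    {F' : Fin (M' + 1) → Pt → ℂ}
    (h : Gsq y' F') (H : Cmp L (Tq F')) (hy : coords ℂ y' = ⊤) {l0 : Fin (M' + 1)}
    (hl0 : y' l0 ≠ 0) {ν e : ℕ}
    {pr : Fin (ν + 1) → MvPolynomial (Fin (M' + 1)) ℂ} (hpr : ∀ i, (pr i).IsHomogeneous e)
    (hpralg : Algebra.IsAlgebraic (IntermediateField.adjoin ℂ
      {z | ∃ i j, aeval y' (pr j) ≠ 0 ∧ z = aeval y' (pr i) / aeval y' (pr j)}) K')
    {n : ℕ} {g : Fin (n + 1) → Pt → ℂ} (hgd : ∀ j k, Differentiable ℂ (sl (g j) k))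
    (hW : ∀ k, ∃ z, Wrs g (k, z) ≠ 0) {a : Fin (n + 1) → Fin (ν + 1) → Idx → ℂ}
    {b : Fin (ν + 1) → Fin (n + 1) → Idx → ℂ}
    (ha : ∀ i p, g i p = ∑ j, a i j p.1 * eval (fun l => F' l p) (pr j))
    (hb : ∀ j p, eval (fun l => F' l p) (pr j) = ∑ i, b j i p.1 * g i p)
    (hN : Nbs (Wrs g) =o[Lf L] Tq F')
    {φ : K →ₐ[ℂ] K'} {p : ℕ} {P : Fin (M + 1) → MvPolynomial (Fin (M' + 1)) ℂ}
    (hP : RMap y' y φ p P) (hf : Gsq y f)
    (hrel : ∀ i j q, f i q * eval (fun l => F' l q) (P j) = f j q * eval (fun l => F' l q) (P i))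
    (hyK : coords ℂ y = ⊤) {w : ℕ} (hw : 0 < w) (htr : Algebra.trdeg ℂ K = w)
    {m0 : Fin (M + 1)} (hm0 : y m0 ≠ 0) {N t : ℕ}
    (ω : Fin (t + 1) → (Fin w → Derivation ℂ K K) → K) (hpl : ∀ i, IsPluri N (ω i))
    (hlog : ∀ P : Place ℂ K, Divisorial w P → ∀ i, LogAt P (ω i)) {r : ℕ}
    {Q : Fin (r + 1) → MvPolynomial (Fin (M + 1)) ℂ} {q : Fin (r + 1) → ℕ}
    (hQ : ∀ l, (Q l).IsHomogeneous (q l))
    (hreg : ∀ P : Place ℂ K, Divisorial w P → ¬ Bd Q q y P → ∀ i, RegAt P (ω i))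
    {x : Fin w → K} (hx : IsTranscendenceBasis ℂ x) {E : Fin w → Derivation ℂ K K}
    (hE : ∀ i j, E i (x j) = if i = j then 1 else 0) :
    ∃ ψ : K' →ₐ[ℂ] MF, (∀ j, ψ (y' j / y' l0) = mf (F' j) (h.mero j) / mf (F' l0) (h.mero l0)) ∧
      (∀ x, ψ x ∈ obf H) ∧ ∃ (G : Fin (t + 1) → MF) (δ : MF), δ ≠ 0 ∧
        (∀ i, G i = ψ (φ (ω i E)) * δ) ∧ (∀ i, px (rp (G i)) =o[Lf L] Tq F') ∧
        ∃ (C r' : ℕ) (c : Fin r' → MF) (B : Idx → Set ℂ), (∀ l, c l ∈ smf H) ∧
          SmS L (Tq F') B ∧ ∀ᶠ k in (U : Filter Idx), ∀ z i,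
            -((N : ℤ) * ({z | ∀ l, eval (fun j => f j (k, z)) (Q l) = 0} : Set ℂ).indicator
              (1 : ℂ → ℤ) z + C * (B k).indicator (1 : ℂ → ℤ) z +
              C * ∑ l, po (c l) k z) ≤ (om (G i) k z).untopD 0 := by
  classical
  obtain ⟨ψ, hψ⟩ := h.emb hy hl0
  have hob := h.ob_all H hy hl0 hψ
  refine ⟨ψ, hψ, hob, ?_⟩
  have hg : ∀ j, Mero (g j) := fun j => mero_diff (hgd j)
  have hl' := h.mf_X_ne hl0
  -- the basis in terms of forms
  have hsq : ∀ c : Idx → ℂ, mf (fun p => c p.1) (mero_const c) ∈ smf H := fun c =>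
    mem_smf.2 (sm_const H c)
  have hgm : ∀ i, mf (g i) (hg i) = mf (F' l0) (h.mero l0) ^ e *
      ∑ j, mf (fun p => a i j p.1) (mero_const (a i j)) * ψ (aeval y' (pr j) / y' l0 ^ e) := by
    intro i
    rw [Finset.mul_sum]
    have h1 : ∀ j, mf (F' l0) (h.mero l0) ^ e *
        (mf (fun p => a i j p.1) (mero_const (a i j)) * ψ (aeval y' (pr j) / y' l0 ^ e)) =
        mf (fun p => a i j p.1 * eval (fun l => F' l p) (pr j))
          ((mero_const (a i j)).mul (h.fmero (pr j))) := by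
      intro j
      rw [h.psi_form hl0 hψ (hpr j), ← mf_mul (mero_const (a i j)) (h.fmero (pr j))]
      field_simp
    rw [Finset.sum_congr rfl fun j _ => h1 j, mf_sum, mf_eq]
    exact Eventually.of_forall fun p => ha i p
  have hOB : ∀ i j, OB L (Tq F') fun p => g i p / g j p := by
    intro i j
    rw [← mem_obf (H := H) (ha := (hg i).div (hg j)), ← mf_div (hg i) (hg j), hgm i, hgm j,
      mul_div_mul_left _ _ (pow_ne_zero _ hl')]
    exact div_mem (sum_mem fun l _ => mul_mem (smf_le_obf (hsq _)) (hob _))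
      (sum_mem fun l _ => mul_mem (smf_le_obf (hsq _)) (hob _))
  -- algebraic elements
  have hPE : ∀ x ∈ IntermediateField.adjoin ℂ
      {z | ∃ i j, aeval y' (pr j) ≠ 0 ∧ z = aeval y' (pr i) / aeval y' (pr j)},
      ψ x ∈ IntermediateField.adjoin (smf H)
        (Set.range fun j => mf (g j) (hg j) / mf (g 0) (hg 0)) := by
    set E0 := IntermediateField.adjoin (smf H)
        (Set.range fun j => mf (g j) (hg j) / mf (g 0) (hg 0)) with hE0
    have h1 : (IntermediateField.adjoin ℂ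
        {z | ∃ i j, aeval y' (pr j) ≠ 0 ∧ z = aeval y' (pr i) / aeval y' (pr j)}).map ψ ≤
        E0.restrictScalars ℂ := by
      rw [IntermediateField.adjoin_map, IntermediateField.adjoin_le_iff]
      rintro _ ⟨_, ⟨i, j, hj, rfl⟩, rfl⟩
      change ψ (aeval y' (pr i) / aeval y' (pr j)) ∈ E0
      rw [h.psi_ratio hl0 hψ (hpr i) (hpr j)]
      have h2 : ∀ j, mf (fun p => eval (fun l => F' l p) (pr j)) (h.fmero (pr j)) /
          mf (g 0) (hg 0) ∈ E0 := by
        intro j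
        have h3 : mf (fun p => eval (fun l => F' l p) (pr j)) (h.fmero (pr j)) =
            ∑ i, mf (fun p => b j i p.1) (mero_const (b j i)) * mf (g i) (hg i) := by
          simp only [mf_mul]
          rw [mf_sum, mf_eq]
          exact Eventually.of_forall fun p => hb j p
        rw [h3, Finset.sum_div]
        refine sum_mem fun i _ => ?_
        rw [mul_div_assoc]
        refine mul_mem ?_ (IntermediateField.subset_adjoin _ _ ⟨i, rfl⟩)
        exact E0.algebraMap_mem (⟨_, hsq (b j i)⟩ : smf H)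
      have hg0 : mf (g 0) (hg 0) ≠ 0 := by
        intro h3
        rw [mf_eq_zero, ev_cod] at h3
        obtain ⟨k, hk⟩ := h3.exists
        obtain ⟨z, hz⟩ := hW k
        apply hz
        have h4 : ∀ z, g 0 (k, z) = 0 := by
          by_contra hcon
          push Not at hcon
          have h5 := SR.diff_ne (hgd 0 k) hcon
          obtain ⟨z, hz1, hz2⟩ := (hk.and h5).exists
          exact hz2 hz1
        unfold Wrs Wr
        apply Matrix.det_eq_zero_of_column_eq_zero 0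
        intro i
        have h5 : sl (g 0) k = fun _ => 0 := funext h4
        rw [Matrix.of_apply]
        change iteratedDeriv (i : ℕ) (sl (g 0) k) z = 0
        rw [h5]
        simp
      have h4 := div_mem (h2 i) (h2 j)
      rwa [div_div_div_cancel_right₀ hg0] at h4
    exact fun x hx => h1 ⟨x, hx, rfl⟩
  -- the boundary data
  let J := {j : Fin (M + 1) // y j ≠ 0}
  let Pos : J → Finset K := fun j => Finset.univ.image fun i => y i / y j
  let Neg : J → Finset K := fun j => Finset.univ.image fun l => aeval y (Q l) / y j ^ q l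
  have hBd : ∀ P : Place ℂ K, (∃ j, (∀ x ∈ Pos j, P.Reg x) ∧ ∀ x ∈ Neg j, Ge P 1 x) ↔
      Bd Q q y P := by
    intro P
    constructor
    · rintro ⟨j, h1, h2⟩
      exact ⟨j, j.2, fun i => h1 _ (Finset.mem_image_of_mem _ (Finset.mem_univ i)),
        fun l => h2 _ (Finset.mem_image_of_mem _ (Finset.mem_univ l))⟩
    · rintro ⟨j, hj, h1, h2⟩
      refine ⟨⟨j, hj⟩, ?_, ?_⟩
      · intro x hx
        obtain ⟨i, -, rfl⟩ := Finset.mem_image.1 hx
        exact h1 i
      · intro x hx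
        obtain ⟨l, -, rfl⟩ := Finset.mem_image.1 hx
        exact h2 l
  have hψ' : ∀ j, (ψ.comp φ) (y j / y m0) = mf (f j) (hf.mero j) / mf (f m0) (hf.mero m0) :=
    fun j => h.compat hP hf hrel hl0 hψ hm0 j
  refine main_seq hBAL hCAL hSMS hFRB hFLD hZG hPRX hGPT hKEY H hg hgd hW hOB hN hw htr
    (ψ.comp φ) (Finset.univ.image fun i => y i / y m0) (by
      rw [Finset.coe_image, Finset.coe_univ, Set.image_univ]
      exact adjoin_coords hyK hm0) (fun x _ => hob (φ x))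
    (fun x _ => alg_transfer ψ _ hPE (hpralg.isAlgebraic (φ x))) ω Pos Neg hpl hlog
    (fun P hP hnB => hreg P hP fun hB => hnB ((hBd P).2 hB))
    (fun k => {z | ∀ l, eval (fun j => f j (k, z)) (Q l) = 0}) ?_ hx hE
  rintro z ⟨j, h1, h2⟩
  exact hf.bdry hm0 hψ' hQ j.2 (fun i => h1 _ (Finset.mem_image_of_mem _ (Finset.mem_univ i)))
    fun l => h2 _ (Finset.mem_image_of_mem _ (Finset.mem_univ l))

end Pool.Agent.N131.SV
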