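import Mathlib
import Pool.Agent.N131.SV.Core

/-!
From the failure of an inequality to generic sequences of curves.
-/

set_option autoImplicit false

namespace Pool.Agent.N131.SV

open MeasureTheory Set Filter Topology Metric Real ValueDistribution MeromorphicOn Function
open Asymptotics MvPolynomial FF
open Pool.Agent.N131.SR (Wr Tf NZ Big Nb exists_big)
open Pool.Agent.W602.GT (IsForm coords val exists_embedding Divisorial IsPluri RegAt LogAt)
open Pool.Agent.W603.LV (Ge)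

variable {M : ℕ} {K : Type} [Field K] [Algebra ℂ K]

theorem engine {y : Fin (M + 1) → K} {ι : Type} {S X : ι → ℝ → ℝ} {P : ι → Prop}
    {V : ι → MvPolynomial (Fin (M + 1)) ℂ → Prop}
    (hno : ∀ A : MvPolynomial (Fin (M + 1)) ℂ, IsForm A → aeval y A ≠ 0 → ∀ C : ℝ,
      ∃ i, P i ∧ V i A ∧ ¬ ∃ E : Set ℝ, volume E < ⊤ ∧
        ∀ r, 1 ≤ r → r ∉ E → S i r ≤ C * X i r) :
    ∃ (i : Idx → ι) (L : Idx → Filter ℝ), (∀ k, P (i k) ∧ V (i k) (ak y k)) ∧
      (∀ k, Big (L k)) ∧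
      ∀ k, ∀ᶠ r in L k, 1 ≤ r ∧ ((k.card : ℝ) + 1) * X (i k) r < S (i k) r := by
  have h1 : ∀ k : Idx, ∃ i, (P i ∧ V i (ak y k)) ∧ ∃ L : Filter ℝ, Big L ∧ ∀ᶠ r in L, 1 ≤ r ∧
      ((k.card : ℝ) + 1) * X i r < S i r := by
    intro k
    obtain ⟨i, h2, h3, h4⟩ := hno (ak y k) (ak_form y k) (ak_ne y k) ((k.card : ℝ) + 1)
    refine ⟨i, ⟨h2, h3⟩, ?_⟩
    have h5 : volume {r | 1 ≤ r ∧ (1 ≤ r ∧ ((k.card : ℝ) + 1) * X i r < S i r)} = ⊤ := by
      by_contra hc3
      apply h4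
      refine ⟨_, lt_top_iff_ne_top.2 hc3, fun r h3 h4 => ?_⟩
      by_contra h5
      apply h4
      push Not at h5
      exact ⟨h3, h3, h5⟩
    obtain ⟨L, hL, hLP⟩ := exists_big
      (P := fun _ r => 1 ≤ r ∧ ((k.card : ℝ) + 1) * X i r < S i r)
      (fun _ _ _ _ h => h) (fun _ => h5)
    exact ⟨L, hL, hLP 0⟩
  choose i hi L hL hP using h1
  exact ⟨i, L, hi, hL, hP⟩

theorem eng_small {L : Idx → Filter ℝ} (hL : ∀ k, Big (L k)) {S X τ : Idx × ℝ → ℝ}
    (hS : ∀ k, ∀ᶠ r in L k, 1 ≤ r ∧ ((k.card : ℝ) + 1) * X (k, r) < S (k, r))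
    (hX : ∀ k r, 1 ≤ r → Real.log r ≤ X (k, r)) {b : ℝ} (C : Idx → ℝ)
    (hSτ : ∀ᶠ k in (U : Filter Idx), ∀ r, 1 ≤ r → S (k, r) ≤ b * τ (k, r) + C k)
    (hb : 0 ≤ b) :
    X =o[Lf L] τ ∧ ∀ᶠ p in Lf L, 1 ≤ p.2 ∧ 0 ≤ X p ∧ 0 < S p ∧ 0 ≤ τ p := by
  have key : ∀ c : ℝ, 0 < c → ∀ᶠ p in Lf L, 1 ≤ p.2 ∧ 0 ≤ X p ∧ 0 < S p ∧ 0 ≤ τ p ∧
      X p ≤ c * τ p := by
    intro c hc
    obtain ⟨m, hm⟩ := exists_nat_gt ((b + 1) / c)
    rw [ev_Lf]
    filter_upwards [ev_card (m + 1), hSτ] with k hk hSk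
    have h1 : ∀ᶠ r : ℝ in L k, Real.exp |C k| ≤ r := (hL k).top (eventually_ge_atTop _)
    filter_upwards [hS k, h1] with r hr hr1
    have h2 := hX k r hr.1
    have h3 := Real.log_nonneg hr.1
    have h4 : 0 ≤ X (k, r) := h3.trans h2
    have h5 : |C k| ≤ Real.log r := by
      rw [← Real.log_exp |C k|]
      exact Real.log_le_log (Real.exp_pos _) hr1
    have h6 := hSk r hr.1
    have h7 := le_abs_self (C k)
    have h8 : ((m : ℝ) + 1) ≤ k.card := by exact_mod_cast hk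
    have h9 : (k.card : ℝ) * X (k, r) < b * τ (k, r) := by
      have := hr.2
      nlinarith
    have h10 : 0 ≤ (k.card : ℝ) * X (k, r) := mul_nonneg (by positivity) h4
    have h11 : 0 < b * τ (k, r) := lt_of_le_of_lt h10 h9
    have h12 : 0 < τ (k, r) := by
      by_contra hcon
      push Not at hcon
      have := mul_nonneg hb (neg_nonneg.2 hcon)
      linarith
    refine ⟨hr.1, h4, ?_, h12.le, ?_⟩
    · exact lt_of_le_of_lt (by positivity) hr.2
    · have h13 : b < c * m := by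
        have h14 : (b + 1) < m * c := by
          rwa [div_lt_iff₀ hc] at hm
        linarith
      have h15 : b * τ (k, r) ≤ c * m * τ (k, r) := mul_le_mul_of_nonneg_right h13.le h12.le
      have hm0 : (0 : ℝ) < (m : ℝ) + 1 := by positivity
      have h16 : ((m : ℝ) + 1) * X (k, r) ≤ (k.card : ℝ) * X (k, r) :=
        mul_le_mul_of_nonneg_right h8 h4
      have h17 : ((m : ℝ) + 1) * X (k, r) ≤ ((m : ℝ) + 1) * (c * τ (k, r)) := by
        have h18 : 0 ≤ c * τ (k, r) := by positivity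
        nlinarith
      exact le_of_mul_le_mul_left h17 hm0
  constructor
  · rw [isLittleO_iff]
    intro c hc
    filter_upwards [key c hc] with p hp
    rw [Real.norm_eq_abs, Real.norm_eq_abs, abs_of_nonneg hp.2.1, abs_of_nonneg hp.2.2.2.1]
    exact hp.2.2.2.2
  · filter_upwards [key 1 one_pos] with p hp
    exact ⟨hp.1, hp.2.1, hp.2.2.1, hp.2.2.2.1⟩

theorem Nc_nonneg {B : Set ℂ} {r : ℝ} (hr : 1 ≤ r) : 0 ≤ Nc B r := by
  unfold Nc
  apply add_nonneg
  · apply finsum_nonneg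
    intro z
    apply finsum_nonneg
    rintro ⟨-, hz⟩
    rcases eq_or_ne z 0 with rfl | h0
    · simp
    · apply Real.log_nonneg
      rw [le_div_iff₀ (norm_pos_iff.2 h0), one_mul]
      exact hz
  · exact mul_nonneg (Set.indicator_nonneg (fun _ _ => zero_le_one) _) (Real.log_nonneg hr)

theorem count_o {L : Idx → Filter ℝ} {τ : Idx × ℝ → ℝ} {H : Cmp L τ} {c : MF} (hc : c ∈ smf H) :
    (fun p : Idx × ℝ => ValueDistribution.logCounting (sl (rp c) p.1) ⊤ p.2) =o[Lf L] τ := by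
  have h1 : Sm L τ (rp c) := by
    rw [← mem_smf (H := H) (ha := rp_mero _), mf_rp]
    exact hc
  refine o_of_ev (H.ge.mono fun p hp => ⟨ValueDistribution.logCounting_nonneg hp, ?_⟩) h1.2
  have h2 : 0 ≤ proximity (sl (rp c) p.1) ⊤ p.2 := proximity_nonneg p.2
  change ValueDistribution.logCounting (sl (rp c) p.1) ⊤ p.2 ≤
    characteristic (sl (rp c) p.1) ⊤ p.2
  unfold characteristic
  simp only [Pi.add_apply]
  linarith

theorem frame_scale {w N : ℕ} {ω : (Fin w → Derivation ℂ K K) → K} (hω : IsPluri N ω)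
    {x : Fin w → K} (hx : IsTranscendenceBasis ℂ x) {E : Fin w → Derivation ℂ K K}
    (hE : ∀ i j, E i (x j) = if i = j then 1 else 0) (D : Fin w → Derivation ℂ K K) :
    ω D = (Matrix.of fun i j => D i (x j)).det ^ N * ω E := by
  have h1 : D = fun i => ∑ j, (Matrix.of fun i j => D i (x j)) i j • E j := by
    funext i
    apply Pool.Agent.W602.GT.der_ext x hx
    intro l
    have h2 : (∑ j, (Matrix.of fun i j => D i (x j)) i j • E j) (x l) =
        ∑ j, D i (x j) * E j (x l) := by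
      rw [MV.der_sum]
      rfl
    rw [h2]
    simp only [hE]
    simp
  conv_lhs => rw [h1]
  exact hω _ E

end Pool.Agent.N131.SV
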