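import Mathlib
import Pool.Agent.N131.SV.Eng

/-!
The master inequality.
-/

set_option autoImplicit false

namespace Pool.Agent.N131.SV

open MeasureTheory Set Filter Topology Metric Real ValueDistribution MeromorphicOn Function
open Asymptotics MvPolynomial FF
open Pool.Agent.N131.SR (Wr Tf NZ Big Nb exists_big)
open Pool.Agent.W602.GT (IsForm coords val exists_embedding Divisorial IsPluri RegAt LogAt)
open Pool.Agent.W603.LV (Ge)

variable {M M' : ℕ} {K K' : Type} [Field K] [Algebra ℂ K] [Field K'] [Algebra ℂ K']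

/-- entire curves in the closure of the point `y` -/
structure EC (y : Fin (M + 1) → K) (f : Fin (M + 1) → ℂ → ℂ) : Prop where
  diff : ∀ j, Differentiable ℂ (f j)
  ne : ∀ z, ∃ j, f j z ≠ 0
  van : ∀ G : MvPolynomial (Fin (M + 1)) ℂ, IsForm G → aeval y G = 0 →
    ∀ z, eval (fun j => f j z) G = 0

/-- bases of the span of the projection -/
structure PB {ν n : ℕ} (pr : Fin (ν + 1) → MvPolynomial (Fin (M + 1)) ℂ)
    (f : Fin (M + 1) → ℂ → ℂ) (g : Fin n → ℂ → ℂ) : Prop where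
  ind : LinearIndependent ℂ g
  span : Submodule.span ℂ (Set.range g) =
    Submodule.span ℂ (Set.range fun i z => eval (fun j => f j z) (pr i))

/-- reduced representations of the composition with a rational map -/
structure RM {t : ℕ} (B : Fin (t + 1) → MvPolynomial (Fin (M + 1)) ℂ)
    (f : Fin (M + 1) → ℂ → ℂ) (h : Fin (t + 1) → ℂ → ℂ) : Prop where
  diff : ∀ j, Differentiable ℂ (h j)
  ne : ∀ z, ∃ j, h j z ≠ 0
  rel : ∀ i j z, h i z * eval (fun l => f l z) (B j) = h j z * eval (fun l => f l z) (B i)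

theorem gsq_of {y : Fin (M + 1) → K} {f : Idx → Fin (M + 1) → ℂ → ℂ} (hf : ∀ k, EC y (f k))
    (hg : ∀ k, ∃ z, eval (fun j => f k j z) (ak y k) ≠ 0) :
    Gsq y fun j p => f p.1 j p.2 where
  diff j k := (hf k).diff j
  ne p := (hf p.1).ne p.2
  van G hG h0 := Eventually.of_forall fun k z => (hf k).van G hG h0 z
  nz' G hG h0 := nz_of_gen (f := fun j p => f p.1 j p.2) hg hG h0

/-- no basis is empty -/
theorem n_pos {y : Fin (M + 1) → K} {f : Idx → Fin (M + 1) → ℂ → ℂ}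
    (h : Gsq y fun j p => f p.1 j p.2) {ν e : ℕ}
    {pr : Fin (ν + 1) → MvPolynomial (Fin (M + 1)) ℂ} (hpr : ∀ i, (pr i).IsHomogeneous e)
    (hpr0 : ∃ i, aeval y (pr i) ≠ 0) {n : ℕ} {g : Idx → Fin n → ℂ → ℂ}
    (hg : ∀ k, PB pr (f k) (g k)) : n ≠ 0 := by
  rintro rfl
  obtain ⟨i, hi⟩ := hpr0
  obtain ⟨k, z, hz⟩ := (h.nz ⟨e, hpr i⟩ hi).exists
  apply hz
  have h1 := (hg k).span
  have h2 : Submodule.span ℂ (Set.range (g k)) = ⊥ := by
    rw [Submodule.span_eq_bot]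
    rintro _ ⟨j, rfl⟩
    exact j.elim0
  rw [h2] at h1
  have h3 : (fun z => eval (fun j => f k j z) (pr i)) ∈
      Submodule.span ℂ (Set.range fun i z => eval (fun j => f k j z) (pr i)) :=
    Submodule.subset_span ⟨i, rfl⟩
  rw [← h1, Submodule.mem_bot] at h3
  exact congrFun h3 z

variable {w : ℕ}

/-- **The master inequality, for bases with `n` elements.** -/
theorem fin1n (hBAL : MV.S_BAL) (hCAL : MV.S_CAL) (hSMS : S_SMS) (hFRB : S_FRB)
    (hFLD : S_FLD) (hZG : S_ZG) (hPRX : S_PRX) (hGPT : S_GPT) (hKEY : S_KEY) (hTH : S_TH)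
    (hTB : S_TB) {y' : Fin (M' + 1) → K'} (hy : coords ℂ y' = ⊤) (hyne : ∃ l, y' l ≠ 0)
    {ν e : ℕ} {pr : Fin (ν + 1) → MvPolynomial (Fin (M' + 1)) ℂ}
    (hpr : ∀ i, (pr i).IsHomogeneous e) (hpr0 : ∃ i, aeval y' (pr i) ≠ 0)
    (hpralg : Algebra.IsAlgebraic (IntermediateField.adjoin ℂ
      {z | ∃ i j, aeval y' (pr j) ≠ 0 ∧ z = aeval y' (pr i) / aeval y' (pr j)}) K')
    {y : Fin (M + 1) → K} (hyK : coords ℂ y = ⊤) (hyKne : ∃ l, y l ≠ 0) (hw : 0 < w)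
    (htr : Algebra.trdeg ℂ K = w) {φ : K →ₐ[ℂ] K'} {p : ℕ}
    {P : Fin (M + 1) → MvPolynomial (Fin (M' + 1)) ℂ} (hP : RMap y' y φ p P) {N t : ℕ}
    {ω : Fin (t + 1) → (Fin w → Derivation ℂ K K) → K} (hpl : ∀ i, IsPluri N (ω i))
    (hlog : ∀ P : Place ℂ K, Divisorial w P → ∀ i, LogAt P (ω i)) {r : ℕ}
    {Q : Fin (r + 1) → MvPolynomial (Fin (M + 1)) ℂ} {q : Fin (r + 1) → ℕ}
    (hQ : ∀ l, (Q l).IsHomogeneous (q l)) (hQ0 : ∃ l, aeval y (Q l) ≠ 0)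
    (hreg : ∀ P : Place ℂ K, Divisorial w P → ¬ Bd Q q y P → ∀ i, RegAt P (ω i)) {b : ℕ}
    {B : Fin (t + 1) → MvPolynomial (Fin (M' + 1)) ℂ} (hB : ∀ i, (B i).IsHomogeneous b)
    (hBω : ∀ i j D, φ (ω i D) * aeval y' (B j) = φ (ω j D) * aeval y' (B i))
    (hB0 : ∃ i, aeval y' (B i) ≠ 0) (hω0 : ∃ i D, ω i D ≠ 0) {ε : ℝ} (hε : 0 < ε) (n : ℕ) :
    ∃ A : MvPolynomial (Fin (M' + 1)) ℂ, IsForm A ∧ aeval y' A ≠ 0 ∧ ∃ C : ℝ,
      ∀ (F : Fin (M' + 1) → ℂ → ℂ) (f : Fin (M + 1) → ℂ → ℂ) (g : Fin n → ℂ → ℂ)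
        (h : Fin (t + 1) → ℂ → ℂ),
        EC y' F → RM P F f → PB pr F g → RM B F h → (∃ z, eval (fun j => F j z) A ≠ 0) →
        ∃ E : Set ℝ, volume E < ⊤ ∧ ∀ r, 1 ≤ r → r ∉ E →
          Tf h r - N * Nc {z | ∀ l, eval (fun j => f j z) (Q l) = 0} r - ε * Tf F r ≤
            C * (Nb (Wr g) r + Real.log r) := by
  classical
  by_contra hcon
  push Not at hcon
  obtain ⟨i, L, hi, hL, hS⟩ := engine (y := y')
    (ι := (Fin (M' + 1) → ℂ → ℂ) × (Fin (M + 1) → ℂ → ℂ) × (Fin n → ℂ → ℂ) ×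
      (Fin (t + 1) → ℂ → ℂ))
    (S := fun c r => Tf c.2.2.2 r - N * Nc {z | ∀ l, eval (fun j => c.2.1 j z) (Q l) = 0} r -
      ε * Tf c.1 r)
    (X := fun c r => Nb (Wr c.2.2.1) r + Real.log r)
    (P := fun c => EC y' c.1 ∧ RM P c.1 c.2.1 ∧ PB pr c.1 c.2.2.1 ∧ RM B c.1 c.2.2.2)
    (V := fun c A => ∃ z, eval (fun j => c.1 j z) A ≠ 0) (by
      intro A hA hA0 C
      obtain ⟨F, f, g, h, h1, h2, h3, h4, h5, h6⟩ := hcon A hA hA0 C
      refine ⟨(F, f, g, h), ⟨h1, h2, h3, h4⟩, h5, ?_⟩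
      rintro ⟨E, hE, hb⟩
      obtain ⟨r, hr, hrE, h7⟩ := h6 E hE
      exact absurd (hb r hr hrE) (not_le.2 h7))
  -- the sequences
  let Fs : Fin (M' + 1) → Pt → ℂ := fun j p => (i p.1).1 j p.2
  let fs : Fin (M + 1) → Pt → ℂ := fun j p => (i p.1).2.1 j p.2
  let gs : Fin n → Pt → ℂ := fun j p => (i p.1).2.2.1 j p.2
  let hs : Fin (t + 1) → Pt → ℂ := fun j p => (i p.1).2.2.2 j p.2
  have hG : Gsq y' Fs := gsq_of (f := fun k => (i k).1) (fun k => (hi k).1.1) fun k => (hi k).2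
  have hn0 : n ≠ 0 := n_pos (f := fun k => (i k).1) hG hpr hpr0 (g := fun k => (i k).2.2.1)
    fun k => (hi k).1.2.2.1
  obtain ⟨n, rfl⟩ := Nat.exists_eq_succ_of_ne_zero hn0
  obtain ⟨l0, hl0⟩ := hyne
  obtain ⟨i0, hi0⟩ := hB0
  obtain ⟨lQ, hlQ⟩ := hQ0
  have hfrel : ∀ i j q, fs i q * eval (fun l => Fs l q) (P j) =
      fs j q * eval (fun l => Fs l q) (P i) := fun i' j q => (hi q.1).1.2.1.rel i' j q.2
  have hGf : Gsq y fs := hG.image hP hyKne (fun j k => (hi k).1.2.1.diff j)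
    (fun q => (hi q.1).1.2.1.ne q.2) hfrel
  obtain ⟨m0, hm0⟩ := hyKne
  -- the constants
  have hTBk : ∀ k, ∃ C : ℝ, (∃ z, eval (fun l => Fs l (k, z)) (B i0) ≠ 0) → ∀ r : ℝ, 1 ≤ r →
      Tf (i k).2.2.2 r ≤ b * Tf (i k).1 r + C := by
    intro k
    by_cases hk : ∃ z, eval (fun l => Fs l (k, z)) (B i0) ≠ 0
    · obtain ⟨z, hz⟩ := hk
      obtain ⟨C, hC⟩ := hTB M' t b (i k).1 (i k).2.2.2 B (hi k).1.1.diff (hi k).1.1.ne
        (hi k).1.2.2.2.diff (hi k).1.2.2.2.ne hB (hi k).1.2.2.2.rel ⟨i0, z, hz⟩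
      exact ⟨C, fun _ => hC⟩
    · exact ⟨0, fun h => absurd h hk⟩
  choose C1 hC1 using hTBk
  choose C2 hC2 using fun k => SR.Tf_lower (hi k).1.1.diff (hi k).1.1.ne
  have hB0ev : ∀ᶠ k in (U : Filter Idx), ∃ z, eval (fun l => Fs l (k, z)) (B i0) ≠ 0 :=
    hG.nz ⟨b, hB i0⟩ hi0
  let S : Idx × ℝ → ℝ := fun p => Tf (i p.1).2.2.2 p.2 -
    N * Nc {z | ∀ l, eval (fun j => (i p.1).2.1 j z) (Q l) = 0} p.2 - ε * Tf (i p.1).1 p.2
  let X : Idx × ℝ → ℝ := fun p => Nb (Wr (i p.1).2.2.1) p.2 + Real.log p.2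
  obtain ⟨hXo, hpos⟩ := eng_small (S := S) (X := X) (τ := Tq Fs) hL hS
    (fun k r hr => by
      have h1 := SR.Nb_nonneg (h := Wr (i k).2.2.1) hr
      change Real.log r ≤ Nb (Wr (i k).2.2.1) r + Real.log r
      linarith) (b := b) (fun k => C1 k + ε * C2 k) (by
      filter_upwards [hB0ev] with k hk r hr
      have h1 := hC1 k hk r hr
      have h2 := hC2 k r hr
      have h3 : 0 ≤ (N : ℝ) * Nc {z | ∀ l, eval (fun j => (i k).2.1 j z) (Q l) = 0} r :=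
        mul_nonneg (by positivity) (Nc_nonneg hr)
      have h4 : -(ε * C2 k) ≤ ε * Tf (i k).1 r := by
        have := mul_le_mul_of_nonneg_left h2 hε.le
        linarith
      change Tf (i k).2.2.2 r - N * Nc {z | ∀ l, eval (fun j => (i k).2.1 j z) (Q l) = 0} r -
        ε * Tf (i k).1 r ≤ b * Tf (i k).1 r + (C1 k + ε * C2 k)
      linarith) (by positivity)
  have hlogo : (fun p : Idx × ℝ => Real.log p.2) =o[Lf L] Tq Fs := by
    refine o_of_ev (hpos.mono fun p hp => ⟨Real.log_nonneg hp.1, ?_⟩) hXo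
    have h1 := SR.Nb_nonneg (h := Wr (i p.1).2.2.1) hp.1
    change Real.log p.2 ≤ Nb (Wr (i p.1).2.2.1) p.2 + Real.log p.2
    linarith
  have H : Cmp L (Tq Fs) := ⟨hL, hlogo⟩
  have hN : Nbs (Wrs gs) =o[Lf L] Tq Fs := by
    refine o_of_ev (hpos.mono fun p hp => ⟨SR.Nb_nonneg hp.1, ?_⟩) hXo
    have h1 := Real.log_nonneg hp.1
    change Nb (Wr (i p.1).2.2.1) p.2 ≤ Nb (Wr (i p.1).2.2.1) p.2 + Real.log p.2
    linarith
  -- the bases
  have hwd := fun k => wdata (G := fun i' z => eval (fun j => (i k).1 j z) (pr i'))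
    (fun j => SR.form_diff (hi k).1.1.diff (pr j)) (hi k).1.2.2.1.ind (hi k).1.2.2.1.span
  choose a b' ha hb' hgd hW using hwd
  obtain ⟨x, hx⟩ := Pool.Agent.W602.GT.basis_of_trdeg htr
  obtain ⟨E, hE⟩ := Pool.Agent.W602.GT.exists_dual hx
  have hE' : ∀ i j, E i (x j) = if i = j then 1 else 0 := by
    intro i j
    have h1 := congrFun (congrFun hE i) j
    rwa [Matrix.of_apply, Matrix.one_apply] at h1
  obtain ⟨ψ, hψ, hob, G, δ, hδ, hGω, hpx, C, r', c, Bs, hc, hBs, hord⟩ :=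
    core_seq hBAL hCAL hSMS hFRB hFLD hZG hPRX hGPT hKEY hG H hy hl0 hpr hpralg
      (g := gs) (a := fun i j k => a k i j) (b := fun j i k => b' k j i)
      (fun j k => hgd k j) hW (fun i p => ha p.1 i p.2) (fun j p => hb' p.1 j p.2) hN hP hGf hfrel
      hyK hw htr hm0 ω hpl hlog hQ hreg hx hE'
  -- the map
  have hhm : ∀ j, Mero (hs j) := fun j => mero_diff fun k => (hi k).1.2.2.2.diff j
  have hrel : ∀ i j, mf (hs i) (hhm i) * G j = mf (hs j) (hhm j) * G i := by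
    have hBne : ψ (aeval y' (B i0) / y' l0 ^ b) ≠ 0 := by
      rw [Ne, map_eq_zero]
      exact div_ne_zero hi0 (pow_ne_zero _ hl0)
    have h1 : ∀ i j, mf (hs i) (hhm i) * ψ (aeval y' (B j) / y' l0 ^ b) =
        mf (hs j) (hhm j) * ψ (aeval y' (B i) / y' l0 ^ b) := by
      intro i j
      rw [hG.psi_form hl0 hψ (hB i), hG.psi_form hl0 hψ (hB j), ← mul_div_assoc,
        ← mul_div_assoc, mf_mul, mf_mul]
      congr 1
      rw [mf_eq]
      exact Eventually.of_forall fun p => (hi p.1).1.2.2.2.rel i j p.2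
    have h2 : ∀ i j, G i * ψ (aeval y' (B j) / y' l0 ^ b) =
        G j * ψ (aeval y' (B i) / y' l0 ^ b) := by
      intro i j
      rw [hGω, hGω]
      have h3 : ψ (φ (ω i E)) * ψ (aeval y' (B j) / y' l0 ^ b) =
          ψ (φ (ω j E)) * ψ (aeval y' (B i) / y' l0 ^ b) := by
        rw [← map_mul, ← map_mul, ← mul_div_assoc, ← mul_div_assoc, hBω i j E]
      linear_combination δ * h3
    intro i j
    have h3 := h1 i i0
    have h4 := h1 j i0
    have h5 := h2 i i0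
    have h6 := h2 j i0
    apply mul_right_cancel₀ (mul_ne_zero hBne hBne)
    calc mf (hs i) (hhm i) * G j * (ψ (aeval y' (B i0) / y' l0 ^ b) *
          ψ (aeval y' (B i0) / y' l0 ^ b))
        = (mf (hs i) (hhm i) * ψ (aeval y' (B i0) / y' l0 ^ b)) *
          (G j * ψ (aeval y' (B i0) / y' l0 ^ b)) := by ring
      _ = (mf (hs i0) (hhm i0) * ψ (aeval y' (B i) / y' l0 ^ b)) *
          (G i0 * ψ (aeval y' (B j) / y' l0 ^ b)) := by rw [h3, h6]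
      _ = (mf (hs i0) (hhm i0) * ψ (aeval y' (B j) / y' l0 ^ b)) *
          (G i0 * ψ (aeval y' (B i) / y' l0 ^ b)) := by ring
      _ = (mf (hs j) (hhm j) * ψ (aeval y' (B i0) / y' l0 ^ b)) *
          (G i * ψ (aeval y' (B i0) / y' l0 ^ b)) := by rw [← h4, ← h5]
      _ = _ := by ring
  have hGne : ∃ i, G i ≠ 0 := by
    obtain ⟨i, D, hD⟩ := hω0
    refine ⟨i, ?_⟩
    rw [hGω]
    refine mul_ne_zero ?_ hδ
    rw [Ne, map_eq_zero, map_eq_zero]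
    intro h1
    apply hD
    rw [frame_scale (hpl i) hx hE' D, h1, mul_zero]
  obtain ⟨i1, hi1⟩ := hGne
  -- the estimate of the characteristic
  have e1 : ∀ᶠ k in (U : Filter Idx), NZ (sl (rp (G i1)) k) := by
    have h1 : mf (rp (G i1)) (rp_mero _) ≠ 0 := by rw [mf_rp]; exact hi1
    exact mf_ne_zero h1
  have e2 : ∀ᶠ k in (U : Filter Idx), ∀ i j, ∀ᶠ z in codiscrete ℂ,
      hs i (k, z) * rp (G j) (k, z) = hs j (k, z) * rp (G i) (k, z) := by
    rw [eventually_all]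
    intro i
    rw [eventually_all]
    intro j
    have h1 := hrel i j
    rw [← mf_rp (G j), ← mf_rp (G i), mf_mul, mf_mul, mf_eq, ev_cod] at h1
    exact h1
  have e3 : ∀ᶠ k in (U : Filter Idx), ∃ z, eval (fun l => fs l (k, z)) (Q lQ) ≠ 0 :=
    hGf.nz ⟨q lQ, hQ lQ⟩ hlQ
  let Zs : Idx → Set ℂ := fun k => {z | ∀ l, eval (fun j => fs j (k, z)) (Q l) = 0}
  let R : Idx × ℝ → ℝ := fun p => ∑ i, px (rp (G i)) p + (C * N1 Bs p +
    C * ∑ l, ValueDistribution.logCounting (sl (rp (c l)) p.1) ⊤ p.2)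
  have e4 : ∀ᶠ k in (U : Filter Idx), ∃ C0 : ℝ, ∀ r : ℝ, 1 ≤ r → Tf (i k).2.2.2 r ≤
      N * Nc (Zs k) r + R (k, r) + C0 := by
    filter_upwards [e1, e2, e3, hBs.fin, hord] with k h1 h2 h3 h4 h5
    obtain ⟨C0, hC0⟩ := hTH t (i k).2.2.2 (fun i => sl (rp (G i)) k) (hi k).1.2.2.2.diff
      (hi k).1.2.2.2.ne (fun i => rp_mero (G i) k) ⟨i1, h1⟩ h2 (Fin 2) (Fin r') ![N, C]
      ![Zs k, Bs k] (by
        intro j r
        fin_cases j
        · refine (SR.zeros_finite (h := fun z => eval (fun j => fs j (k, z)) (Q lQ))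
            (hGf.fdiff (Q lQ) k) h3 r).subset fun z hz => ⟨hz.1 lQ, hz.2⟩
        · exact h4 r) (fun l => sl (rp (c l)) k) (fun l => rp_mero (c l) k) C (by
        intro z j
        have h6 := h5 z j
        rw [Fin.sum_univ_two]
        exact h6)
    refine ⟨C0, fun r hr => ?_⟩
    have h6 := hC0 r hr
    rw [Fin.sum_univ_two] at h6
    have h7 : ∑ i, px (rp (G i)) (k, r) = ∑ i, proximity (sl (rp (G i)) k) ⊤ r := rfl
    change Tf (i k).2.2.2 r ≤ N * Nc (Zs k) r + (∑ i, px (rp (G i)) (k, r) + (C * Nc (Bs k) r +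
      C * ∑ l, ValueDistribution.logCounting (sl (rp (c l)) k) ⊤ r)) + C0
    rw [h7]
    simp only [Matrix.cons_val_zero, Matrix.cons_val_one] at h6
    linarith
  have e5 : ∀ k, ∃ C0 : ℝ, (∃ C0 : ℝ, ∀ r : ℝ, 1 ≤ r → Tf (i k).2.2.2 r ≤
      N * Nc (Zs k) r + R (k, r) + C0) → ∀ r : ℝ, 1 ≤ r → Tf (i k).2.2.2 r ≤
      N * Nc (Zs k) r + R (k, r) + C0 := by
    intro k
    by_cases hk : ∃ C0 : ℝ, ∀ r : ℝ, 1 ≤ r → Tf (i k).2.2.2 r ≤
        N * Nc (Zs k) r + R (k, r) + C0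
    · obtain ⟨C0, hC0⟩ := hk
      exact ⟨C0, fun _ => hC0⟩
    · exact ⟨0, fun h => absurd h hk⟩
  choose C0 hC0 using e5
  have hR : (fun p => R p + C0 p.1) =o[Lf L] Tq Fs := by
    refine IsLittleO.add ?_ (H.const C0)
    refine IsLittleO.add ?_ ((hBs.small.const_mul_left _).add
      (IsLittleO.const_mul_left ?_ _))
    · have h1 : (∑ i, px (rp (G i))) =o[Lf L] Tq Fs := IsLittleO.sum fun i _ => hpx i
      exact h1.congr_left fun p => by rw [Finset.sum_apply]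
    · have h1 : (∑ l, fun p : Idx × ℝ =>
          ValueDistribution.logCounting (sl (rp (c l)) p.1) ⊤ p.2) =o[Lf L] Tq Fs :=
        IsLittleO.sum fun l _ => count_o (hc l)
      exact h1.congr_left fun p => by rw [Finset.sum_apply]
  have e6 : ∀ᶠ p in Lf L, Tf (i p.1).2.2.2 p.2 ≤ N * Nc (Zs p.1) p.2 + R p + C0 p.1 :=
    Lf_of_ev H (e4.mono fun k hk r hr => hC0 k hk r hr)
  haveI := Lf_neBot fun k => (H.big k).ne
  obtain ⟨p, ⟨h1, h2⟩, h3⟩ := (((isLittleO_iff.1 hR) (half_pos hε)).and e6).and hpos |>.exists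
  rw [Real.norm_eq_abs, Real.norm_eq_abs, abs_of_nonneg h3.2.2.2] at h1
  have h4 := le_abs_self (R p + C0 p.1)
  have h5 : 0 < Tf (i p.1).2.2.2 p.2 - N * Nc (Zs p.1) p.2 - ε * Tq Fs p := h3.2.2.1
  have h6 : 0 ≤ ε / 2 * Tq Fs p := mul_nonneg (by positivity) h3.2.2.2
  linarith

end Pool.Agent.N131.SV
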