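import Mathlib
import Pool.Agent.N131.SV.Fin1

/-!
Varieties of logarithmic general type.
-/

set_option autoImplicit false

namespace Pool.Agent.N131.SV

open MeasureTheory Set Filter Topology Metric Real ValueDistribution MeromorphicOn Function
open Asymptotics MvPolynomial FF
open Pool.Agent.N131.SR (Wr Tf NZ Big Nb exists_big)
open Pool.Agent.W602.GT (IsForm coords val exists_embedding Divisorial IsPluri RegAt LogAt
  LogGeneralType)
open Pool.Agent.W603.LV (Ge)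

variable {M M' : ℕ} {K K' : Type} [Field K] [Algebra ℂ K] [Field K'] [Algebra ℂ K'] {w : ℕ}

/-- **Varieties of logarithmic general type, for bases with `n` elements.** -/
theorem fin2n (hBAL : MV.S_BAL) (hCAL : MV.S_CAL) (hSMS : S_SMS) (hMFB : S_MFB) (hFRB : S_FRB)
    (hFLD : S_FLD) (hZG : S_ZG) (hPRX : S_PRX) (hGPT : S_GPT) (hKEY : S_KEY) (hCN1 : S_CN1)
    (hTB : S_TB) {y' : Fin (M' + 1) → K'} (hy : coords ℂ y' = ⊤) (hyne : ∃ l, y' l ≠ 0)
    {ν e : ℕ} {pr : Fin (ν + 1) → MvPolynomial (Fin (M' + 1)) ℂ}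
    (hpr : ∀ i, (pr i).IsHomogeneous e) (hpr0 : ∃ i, aeval y' (pr i) ≠ 0)
    (hpralg : Algebra.IsAlgebraic (IntermediateField.adjoin ℂ
      {z | ∃ i j, aeval y' (pr j) ≠ 0 ∧ z = aeval y' (pr i) / aeval y' (pr j)}) K')
    {y : Fin (M + 1) → K} (hyK : coords ℂ y = ⊤) (hyKne : ∃ l, y l ≠ 0) (hw : 0 < w)
    {φ : K →ₐ[ℂ] K'} {p : ℕ} {P : Fin (M + 1) → MvPolynomial (Fin (M' + 1)) ℂ}
    (hP : RMap y' y φ p P) {r : ℕ}
    {Q : Fin (r + 1) → MvPolynomial (Fin (M + 1)) ℂ} {q : Fin (r + 1) → ℕ}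
    (hQ : ∀ l, (Q l).IsHomogeneous (q l)) (hQ0 : ∃ l, aeval y (Q l) ≠ 0)
    (hLG : LogGeneralType ℂ K w (Bd Q q y)) {ε : ℝ} (hε : 0 < ε) (n : ℕ) :
    ∃ A : MvPolynomial (Fin (M' + 1)) ℂ, IsForm A ∧ aeval y' A ≠ 0 ∧ ∃ C : ℝ,
      ∀ (F : Fin (M' + 1) → ℂ → ℂ) (f : Fin (M + 1) → ℂ → ℂ) (g : Fin n → ℂ → ℂ),
        EC y' F → RM P F f → PB pr F g → (∃ z, eval (fun j => F j z) A ≠ 0) →
        ∃ E : Set ℝ, volume E < ⊤ ∧ ∀ r, 1 ≤ r → r ∉ E →
          Tf f r - ε * Tf F r ≤ C * (Nc {z | ∀ l, eval (fun j => f j z) (Q l) = 0} r +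
            Nb (Wr g) r + Real.log r) := by
  classical
  obtain ⟨htr, N, hNpos, ω, hpl, hlog, hreg, D0, hD0, hind⟩ := hLG
  by_contra hcon
  push Not at hcon
  obtain ⟨i, L, hi, hL, hS⟩ := engine (y := y')
    (ι := (Fin (M' + 1) → ℂ → ℂ) × (Fin (M + 1) → ℂ → ℂ) × (Fin n → ℂ → ℂ))
    (S := fun c r => Tf c.2.1 r - ε * Tf c.1 r)
    (X := fun c r => Nc {z | ∀ l, eval (fun j => c.2.1 j z) (Q l) = 0} r +
            Nb (Wr c.2.2) r + Real.log r)
    (P := fun c => EC y' c.1 ∧ RM P c.1 c.2.1 ∧ PB pr c.1 c.2.2)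
    (V := fun c A => ∃ z, eval (fun j => c.1 j z) A ≠ 0) (by
      intro A hA hA0 C
      obtain ⟨F, f, g, h1, h2, h3, h4, h5⟩ := hcon A hA hA0 C
      refine ⟨(F, f, g), ⟨h1, h2, h3⟩, h4, ?_⟩
      rintro ⟨E, hE, hb⟩
      obtain ⟨r, hr, hrE, h6⟩ := h5 E hE
      exact absurd (hb r hr hrE) (not_le.2 h6))
  let Fs : Fin (M' + 1) → Pt → ℂ := fun j p => (i p.1).1 j p.2
  let fs : Fin (M + 1) → Pt → ℂ := fun j p => (i p.1).2.1 j p.2
  let gs : Fin n → Pt → ℂ := fun j p => (i p.1).2.2 j p.2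
  have hG : Gsq y' Fs := gsq_of (f := fun k => (i k).1) (fun k => (hi k).1.1) fun k => (hi k).2
  have hn0 : n ≠ 0 := n_pos (f := fun k => (i k).1) hG hpr hpr0 (g := fun k => (i k).2.2)
    fun k => (hi k).1.2.2
  obtain ⟨n, rfl⟩ := Nat.exists_eq_succ_of_ne_zero hn0
  obtain ⟨l0, hl0⟩ := hyne
  obtain ⟨lQ, hlQ⟩ := hQ0
  have hfrel : ∀ i j q, fs i q * eval (fun l => Fs l q) (P j) =
      fs j q * eval (fun l => Fs l q) (P i) := fun i' j q => (hi q.1).1.2.1.rel i' j q.2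
  have hGf : Gsq y fs := hG.image hP hyKne (fun j k => (hi k).1.2.1.diff j)
    (fun q => (hi q.1).1.2.1.ne q.2) hfrel
  obtain ⟨m0, hm0⟩ := hyKne
  have hP0 := hP.P_ne hm0
  -- the constants
  have hTBk : ∀ k, ∃ C : ℝ, (∃ z, eval (fun l => Fs l (k, z)) (P m0) ≠ 0) → ∀ r : ℝ, 1 ≤ r →
      Tf (i k).2.1 r ≤ p * Tf (i k).1 r + C := by
    intro k
    by_cases hk : ∃ z, eval (fun l => Fs l (k, z)) (P m0) ≠ 0
    · obtain ⟨z, hz⟩ := hk
      obtain ⟨C, hC⟩ := hTB M' M p (i k).1 (i k).2.1 P (hi k).1.1.diff (hi k).1.1.ne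
        (hi k).1.2.1.diff (hi k).1.2.1.ne hP.hom (hi k).1.2.1.rel ⟨m0, z, hz⟩
      exact ⟨C, fun _ => hC⟩
    · exact ⟨0, fun h => absurd h hk⟩
  choose C1 hC1 using hTBk
  choose C2 hC2 using fun k => SR.Tf_lower (hi k).1.1.diff (hi k).1.1.ne
  have hP0ev : ∀ᶠ k in (U : Filter Idx), ∃ z, eval (fun l => Fs l (k, z)) (P m0) ≠ 0 :=
    hG.nz ⟨p, hP.hom m0⟩ hP0
  let Zs : Idx → Set ℂ := fun k => {z | ∀ l, eval (fun j => fs j (k, z)) (Q l) = 0}
  let X : Idx × ℝ → ℝ := fun p => Nc (Zs p.1) p.2 + Nb (Wr (i p.1).2.2) p.2 + Real.log p.2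
  let S : Idx × ℝ → ℝ := fun p => Tf (i p.1).2.1 p.2 - ε * Tf (i p.1).1 p.2
  obtain ⟨hXo, hpos⟩ := eng_small (S := S) (X := X) (τ := Tq Fs) hL hS
    (fun k r hr => by
      have h1 := SR.Nb_nonneg (h := Wr (i k).2.2) hr
      have h2 := Nc_nonneg (B := Zs k) hr
      change Real.log r ≤ Nc (Zs k) r + Nb (Wr (i k).2.2) r + Real.log r
      linarith) (b := p) (fun k => C1 k + ε * C2 k) (by
      filter_upwards [hP0ev] with k hk r hr
      have h1 := hC1 k hk r hr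
      have h2 := hC2 k r hr
      have h4 : -(ε * C2 k) ≤ ε * Tf (i k).1 r := by
        have := mul_le_mul_of_nonneg_left h2 hε.le
        linarith
      change Tf (i k).2.1 r - ε * Tf (i k).1 r ≤ p * Tf (i k).1 r + (C1 k + ε * C2 k)
      linarith) (by positivity)
  have hXd : ∀ p, X p = Nc (Zs p.1) p.2 + Nb (Wr (i p.1).2.2) p.2 + Real.log p.2 := fun p => rfl
  have hnn : ∀ᶠ p : Idx × ℝ in Lf L, 0 ≤ Nc (Zs p.1) p.2 ∧ 0 ≤ Nb (Wr (i p.1).2.2) p.2 ∧
      0 ≤ Real.log p.2 := hpos.mono fun p hp => ⟨Nc_nonneg hp.1, SR.Nb_nonneg hp.1,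
        Real.log_nonneg hp.1⟩
  have hlogo : (fun p : Idx × ℝ => Real.log p.2) =o[Lf L] Tq Fs :=
    o_of_ev (hnn.mono fun p hp => ⟨hp.2.2, by rw [hXd]; linarith [hp.1, hp.2.1]⟩) hXo
  have H : Cmp L (Tq Fs) := ⟨hL, hlogo⟩
  have hN : Nbs (Wrs gs) =o[Lf L] Tq Fs :=
    o_of_ev (hnn.mono fun p hp => ⟨hp.2.1, by
      rw [hXd]
      change Nb (Wr (i p.1).2.2) p.2 ≤ _
      linarith [hp.1, hp.2.2]⟩) hXo
  have hZo : N1 Zs =o[Lf L] Tq Fs :=
    o_of_ev (hnn.mono fun p hp => ⟨hp.1, by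
      rw [hXd]
      change Nc (Zs p.1) p.2 ≤ _
      linarith [hp.2.1, hp.2.2]⟩) hXo
  -- the bases
  have hwd := fun k => wdata (G := fun i' z => eval (fun j => (i k).1 j z) (pr i'))
    (fun j => SR.form_diff (hi k).1.1.diff (pr j)) (hi k).1.2.2.ind (hi k).1.2.2.span
  choose a b' ha hb' hgd hW using hwd
  obtain ⟨x, hx⟩ := Pool.Agent.W602.GT.basis_of_trdeg htr
  obtain ⟨E, hE⟩ := Pool.Agent.W602.GT.exists_dual hx
  have hE' : ∀ i j, E i (x j) = if i = j then 1 else 0 := by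
    intro i j
    have h1 := congrFun (congrFun hE i) j
    rwa [Matrix.of_apply, Matrix.one_apply] at h1
  obtain ⟨ψ, hψ, hob, G, δ, hδ, hGω, hpx, C, r', c, Bs, hc, hBs, hord⟩ :=
    core_seq hBAL hCAL hSMS hFRB hFLD hZG hPRX hGPT hKEY hG H hy hl0 hpr hpralg
      (g := gs) (a := fun i j k => a k i j) (b := fun j i k => b' k j i)
      (fun j k => hgd k j) hW (fun i p => ha p.1 i p.2) (fun j p => hb' p.1 j p.2) hN hP hGf hfrel
      hyK hw htr hm0 ω hpl hlog hQ hreg hx hE'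
  -- all elements are small
  have e3 : ∀ᶠ k in (U : Filter Idx), ∃ z, eval (fun l => fs l (k, z)) (Q lQ) ≠ 0 :=
    hGf.nz ⟨q lQ, hQ lQ⟩ hlQ
  have hGs : ∀ j, G j ∈ smf H := by
    intro j
    by_cases hj : G j = 0
    · rw [hj]; exact zero_mem _
    have hj' : NZs (rp (G j)) := by
      have h1 : mf (rp (G j)) (rp_mero _) ≠ 0 := by rw [mf_rp]; exact hj
      exact mf_ne_zero h1
    rw [← mf_rp (G j), mem_smf]
    refine ⟨rp_mero _, ?_⟩
    let R : Idx × ℝ → ℝ := fun p => px (rp (G j)) p + (N * N1 Zs p + (C * N1 Bs p +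
      C * ∑ l, ValueDistribution.logCounting (sl (rp (c l)) p.1) ⊤ p.2))
    have hR : R =o[Lf L] Tq Fs := by
      refine (hpx j).add ((hZo.const_mul_left _).add ((hBs.small.const_mul_left _).add
        (IsLittleO.const_mul_left ?_ _)))
      have h1 : (∑ l, fun p : Idx × ℝ =>
          ValueDistribution.logCounting (sl (rp (c l)) p.1) ⊤ p.2) =o[Lf L] Tq Fs :=
        IsLittleO.sum fun l _ => count_o (hc l)
      exact h1.congr_left fun p => by rw [Finset.sum_apply]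
    refine o_of_ev (Lf_of_ev H ?_) hR
    filter_upwards [hj', e3, hBs.fin, hord] with k h1 h3 h4 h5 r hr
    refine ⟨ch_nonneg _ k hr, ?_⟩
    have h6 := hCN1 (sl (rp (G j)) k) (rp_mero (G j) k) h1 (Fin 2) (Fin r') ![N, C]
      ![Zs k, Bs k] (by
        intro j r
        fin_cases j
        · refine (SR.zeros_finite (h := fun z => eval (fun j => fs j (k, z)) (Q lQ))
            (hGf.fdiff (Q lQ) k) h3 r).subset fun z hz => ⟨hz.1 lQ, hz.2⟩
        · exact h4 r) (fun l => sl (rp (c l)) k) (fun l => rp_mero (c l) k) C (by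
        intro z
        have h6 := h5 z j
        rw [Fin.sum_univ_two]
        exact h6) r hr
    rw [Fin.sum_univ_two] at h6
    simp only [Matrix.cons_val_zero, Matrix.cons_val_one] at h6
    change characteristic (sl (rp (G j)) k) ⊤ r ≤ proximity (sl (rp (G j)) k) ⊤ r +
      (N * Nc (Zs k) r + (C * Nc (Bs k) r +
        C * ∑ l, ValueDistribution.logCounting (sl (rp (c l)) k) ⊤ r))
    unfold characteristic
    simp only [Pi.add_apply]
    linarith
  -- the ratios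
  have hE0 : ω 0 E ≠ 0 := by
    intro h1
    apply hD0
    rw [frame_scale (hpl 0) hx hE' D0, h1, mul_zero]
  have hdet : (Matrix.of fun i j => D0 i (x j)).det ^ N ≠ 0 := by
    intro h1
    apply hD0
    rw [frame_scale (hpl 0) hx hE' D0, h1, zero_mul]
  have hu : ∀ j : Fin w, (ψ.comp φ) (ω j.succ D0 / ω 0 D0) ∈ smf H := by
    intro j
    rw [frame_scale (hpl _) hx hE' D0, frame_scale (hpl 0) hx hE' D0,
      mul_div_mul_left _ _ hdet, map_div₀]
    have h1 : (ψ.comp φ) (ω j.succ E) / (ψ.comp φ) (ω 0 E) = G j.succ / G 0 := by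
      rw [hGω, hGω, mul_div_mul_right _ _ hδ]
      rfl
    rw [h1]
    exact div_mem (hGs _) (hGs _)
  have hub : IsTranscendenceBasis ℂ fun j : Fin w => ω j.succ D0 / ω 0 D0 := by
    apply hind.isTranscendenceBasis_of_trdeg_le_of_finite
    rw [htr]
    simp
  have hall : ∀ z : K, (ψ.comp φ) z ∈ smf H := by
    intro z
    obtain ⟨-, halg⟩ := hMFB L (Tq Fs) H
    apply halg
    have h1 := hub.isAlgebraic_field
    have h2 := alg_transfer (ψ.comp φ) (κ := smf H) (⊥ : IntermediateField (smf H) MF) (P :=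
      IntermediateField.adjoin ℂ (Set.range fun j : Fin w => ω j.succ D0 / ω 0 D0)) (by
        intro z hz
        have h3 : (IntermediateField.adjoin ℂ
            (Set.range fun j : Fin w => ω j.succ D0 / ω 0 D0)).map (ψ.comp φ) ≤ smf H := by
          rw [IntermediateField.adjoin_map, IntermediateField.adjoin_le_iff]
          rintro _ ⟨_, ⟨j, rfl⟩, rfl⟩
          exact hu j
        rw [IntermediateField.mem_bot]
        exact ⟨⟨(ψ.comp φ) z, h3 ⟨z, hz, rfl⟩⟩, rfl⟩) (h1.isAlgebraic z)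
    obtain ⟨p, hp, hpz⟩ := h2
    have hsurj : ∀ s : (⊥ : IntermediateField (smf H) MF), ∃ c : smf H,
        algebraMap (smf H) MF c = (s : MF) := fun s => IntermediateField.mem_bot.1 s.2
    let e := IntermediateField.botEquiv (smf H) MF
    refine ⟨p.map e.toRingEquiv.toRingHom, (Polynomial.map_ne_zero_iff
      e.toRingEquiv.toRingHom.injective).2 hp, ?_⟩
    rw [Polynomial.aeval_def, Polynomial.eval₂_map]
    have h4 : (algebraMap (smf H) MF).comp e.toRingEquiv.toRingHom =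
        algebraMap (⊥ : IntermediateField (smf H) MF) MF := by
      ext s
      obtain ⟨c, hc⟩ := hsurj s
      have h5 : s = algebraMap (smf H) (⊥ : IntermediateField (smf H) MF) c :=
        Subtype.ext hc.symm
      change algebraMap (smf H) MF (e s) = (s : MF)
      rw [h5]
      change algebraMap (smf H) MF (e (algebraMap (smf H) _ c)) = _
      rw [e.commutes]
      rfl
    rw [h4, ← Polynomial.aeval_def]
    exact hpz
  -- the curves are small
  have hnz : ∀ᶠ k in (U : Filter Idx), ∃ z, fs m0 (k, z) ≠ 0 := by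
    have h1 := hGf.nz (G := MvPolynomial.X m0) ⟨1, isHomogeneous_X _ _⟩ (by rwa [aeval_X])
    exact h1.mono fun k hk => by simpa using hk
  have hsm : ∀ j, Sm L (Tq Fs) fun p => fs j p / fs m0 p := by
    intro j
    rw [← mem_smf (H := H) (ha := (hGf.mero j).div (hGf.mero m0)),
      ← mf_div (hGf.mero j) (hGf.mero m0), ← hG.compat hP hGf hfrel hl0 hψ hm0 j]
    exact hall _
  have h1 : ∀ k, ∃ C : ℝ, (∃ z, fs m0 (k, z) ≠ 0) → ∀ r, 1 ≤ r →
      Tf (i k).2.1 r ≤ ∑ i, characteristic (fun z => fs i (k, z) / fs m0 (k, z)) ⊤ r + C := by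
    intro k
    by_cases hk : ∃ z, fs m0 (k, z) ≠ 0
    · obtain ⟨C, hC⟩ := SR.Tf_le (f := (i k).2.1) (hi k).1.2.1.diff (hi k).1.2.1.ne m0 hk
      exact ⟨C, fun _ => hC⟩
    · exact ⟨0, fun h => absurd h hk⟩
  choose C3 hC3 using h1
  have h2 : (fun p : Idx × ℝ => ∑ i, ch (fun z => fs i z / fs m0 z) p + C3 p.1) =o[Lf L]
      Tq Fs := by
    refine IsLittleO.add ?_ (H.const C3)
    have h3 : (∑ i, ch (fun z => fs i z / fs m0 z)) =o[Lf L] Tq Fs :=
      IsLittleO.sum fun i _ => (hsm i).2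
    refine h3.congr_left fun r => ?_
    rw [Finset.sum_apply]
  have h3 : ∀ᶠ p in Lf L, Tf (i p.1).2.1 p.2 ≤ ∑ i, ch (fun z => fs i z / fs m0 z) p +
      C3 p.1 := by
    refine Lf_of_ev H ?_
    filter_upwards [hnz] with k hk r hr
    exact hC3 k hk r hr
  have := Lf_neBot fun k => (H.big k).ne
  obtain ⟨p, ⟨⟨h4, h5⟩, h6⟩⟩ := (((isLittleO_iff.1 h2) (half_pos hε)).and
    h3).and hpos |>.exists
  rw [Real.norm_eq_abs, Real.norm_eq_abs, abs_of_nonneg h6.2.2.2] at h4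
  have h7 := le_abs_self (∑ i, ch (fun z => fs i z / fs m0 z) p + C3 p.1)
  have h8 : 0 < Tf (i p.1).2.1 p.2 - ε * Tq Fs p := h6.2.2.1
  have h9 : 0 ≤ ε / 2 * Tq Fs p := mul_nonneg (by positivity) h6.2.2.2
  linarith

end Pool.Agent.N131.SV
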