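import Pool.Agent.N131.SV.Stm2

/-!
The differential field generated by the solutions of a linear differential equation (S_FLD).
-/

set_option autoImplicit false
set_option linter.unusedSectionVars false

namespace Pool.Agent.N131.SV

open Pool.Agent.N131.MV (PV)

section abs

variable {M : Type} [Field M] [CharZero M] [Algebra ℂ M]

/-- a derivation which maps the generators into a field maps the generated field into it -/
theorem fld_adjoin (κ : IntermediateField ℂ M) (δ : Derivation ℂ M M) (S : Set M)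
    (hκ : ∀ x ∈ κ, δ x ∈ κ)
    (hS : ∀ y ∈ S, δ y ∈ IntermediateField.adjoin κ S) :
    ∀ y ∈ IntermediateField.adjoin κ S, δ y ∈ IntermediateField.adjoin κ S := by
  intro y hy
  induction hy using IntermediateField.adjoin_induction with
  | mem y hy => exact hS y hy
  | algebraMap a =>
    exact (IntermediateField.adjoin κ S).algebraMap_mem (⟨δ a, hκ a a.2⟩ : κ)
  | add x y _ _ h1 h2 => rw [map_add]; exact add_mem h1 h2
  | inv x hx h1 =>
    rw [Derivation.leibniz_inv, smul_eq_mul]
    exact mul_mem (neg_mem (pow_mem (inv_mem hx) 2)) h1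
  | mul x y hx hy h1 h2 =>
    rw [Derivation.leibniz, smul_eq_mul, smul_eq_mul]
    exact add_mem (mul_mem hx h2) (mul_mem hy h1)

/-- the derivative of an algebraic element -/
theorem fld_alg {κ : IntermediateField ℂ M} (δ : Derivation ℂ M M) (K F : IntermediateField κ M)
    (hKF : K ≤ F) (hK : ∀ x ∈ K, δ x ∈ K) {y : M} (hy : IsAlgebraic K y) (hyF : y ∈ F) :
    δ y ∈ F := by
  have key : ∀ p : Polynomial K, ∃ A ∈ F, δ (Polynomial.aeval y p) =
      A + Polynomial.aeval y (Polynomial.derivative p) * δ y := by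
    intro p
    induction p using Polynomial.induction_on' with
    | add p q hp hq =>
      obtain ⟨A, hA, h1⟩ := hp
      obtain ⟨B, hB, h2⟩ := hq
      refine ⟨A + B, add_mem hA hB, ?_⟩
      rw [map_add, map_add, h1, h2, Polynomial.derivative_add, map_add]
      ring
    | monomial n a =>
      refine ⟨y ^ n * δ (a : M), mul_mem (pow_mem hyF n) (hKF (hK a a.2)), ?_⟩
      rw [Polynomial.derivative_monomial, Polynomial.aeval_monomial, Polynomial.aeval_monomial,
        Derivation.leibniz, Derivation.leibniz_pow]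
      simp only [smul_eq_mul, nsmul_eq_mul]
      have e1 : (algebraMap K M) a = (a : M) := rfl
      have e2 : (algebraMap K M) (a * (n : K)) = (a : M) * (n : M) := by
        rw [map_mul, map_natCast]
        rfl
      rw [e1, e2]
      ring
  have hint : IsIntegral K y := hy.isIntegral
  obtain ⟨A, hA, h1⟩ := key (minpoly K y)
  rw [minpoly.aeval, map_zero] at h1
  have hsep : Polynomial.aeval y (Polynomial.derivative (minpoly K y)) ≠ 0 :=
    (minpoly.irreducible hint).separable.aeval_derivative_ne_zero (minpoly.aeval K y)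
  have hP : Polynomial.aeval y (Polynomial.derivative (minpoly K y)) ∈ F := by
    rw [Polynomial.aeval_eq_sum_range]
    refine sum_mem fun i _ => ?_
    rw [Algebra.smul_def]
    exact mul_mem (hKF (SetLike.coe_mem _)) (pow_mem hyF i)
  have h2 : δ y = -A / Polynomial.aeval y (Polynomial.derivative (minpoly K y)) := by
    rw [eq_div_iff hsep]
    linear_combination -h1
  rw [h2]
  exact div_mem (neg_mem hA) hP

end abs

section main

variable {M : Type} [Field M] [CharZero M] [Algebra ℂ M]

/-- an algebraic element stays algebraic over a larger subfield -/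
theorem fld_tower {κ : IntermediateField ℂ M} {K K' : IntermediateField κ M} (h : K ≤ K') {y : M}
    (hy : IsAlgebraic K y) : IsAlgebraic K' y :=
  hy.ringHom_of_comp_eq (IntermediateField.inclusion h).toRingHom (RingHom.id M)
    (IntermediateField.inclusion h).toRingHom.injective (RingHom.ext fun _ => rfl)

/-- the field generated by the solutions and the algebraic elements is algebraic over the field
generated by the solutions -/
theorem fld_gen {κ : IntermediateField ℂ M} (S X : Set M) (F : IntermediateField κ M)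
    (hF : F = IntermediateField.adjoin κ (S ∪ X))
    (hX : ∀ y ∈ X, IsAlgebraic (IntermediateField.adjoin κ S) y) (S' : Set F)
    (hS' : ∀ y : M, y ∈ S → ∃ z ∈ S', (z : M) = y) :
    Algebra.IsAlgebraic (IntermediateField.adjoin κ S') F := by
  have hSF : S ⊆ F := by
    rw [hF]
    exact fun y hy => IntermediateField.subset_adjoin _ _ (Or.inl hy)
  have hE1F : IntermediateField.adjoin κ S ≤ F := IntermediateField.adjoin_le_iff.2 hSF
  have h1 : ∀ y ∈ F, IsAlgebraic (IntermediateField.adjoin κ S) y := by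
    intro y hy
    rw [hF] at hy
    induction hy using IntermediateField.adjoin_induction with
    | mem y hy =>
      rcases hy with hy | hy
      · exact isAlgebraic_algebraMap
          (⟨y, IntermediateField.subset_adjoin _ _ hy⟩ : IntermediateField.adjoin κ S)
      · exact hX y hy
    | algebraMap a =>
      exact isAlgebraic_algebraMap
        (algebraMap κ (IntermediateField.adjoin κ S) a : IntermediateField.adjoin κ S)
    | add x y _ _ h1 h2 => exact h1.add h2
    | inv x _ h1 => exact h1.inv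
    | mul x y _ _ h1 h2 => exact h1.mul h2
  have hmem : ∀ e (he : e ∈ IntermediateField.adjoin κ S),
      (⟨e, hE1F he⟩ : F) ∈ IntermediateField.adjoin κ S' := by
    intro e he
    induction he using IntermediateField.adjoin_induction with
    | mem y hy =>
      obtain ⟨z, hz, hzy⟩ := hS' y hy
      have : (⟨y, hSF hy⟩ : F) = z := Subtype.ext hzy.symm
      rw [this]
      exact IntermediateField.subset_adjoin _ _ hz
    | algebraMap a => exact (IntermediateField.adjoin κ S').algebraMap_mem a
    | add x y hx hy h1 h2 => exact add_mem h1 h2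
    | inv x hx h1 => exact inv_mem h1
    | mul x y hx hy h1 h2 => exact mul_mem h1 h2
  let f : IntermediateField.adjoin κ S →+* IntermediateField.adjoin κ S' :=
    { toFun := fun e => ⟨⟨e, hE1F e.2⟩, hmem e e.2⟩
      map_one' := rfl
      map_mul' := fun _ _ => rfl
      map_zero' := rfl
      map_add' := fun _ _ => rfl }
  refine ⟨fun y => ?_⟩
  have h2 : IsAlgebraic (IntermediateField.adjoin κ S') (y : M) :=
    (h1 y y.2).ringHom_of_comp_eq f (RingHom.id M) f.injective (RingHom.ext fun _ => rfl)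
  exact (isAlgebraic_algebraMap_iff (R := IntermediateField.adjoin κ S') (S := F) (A := M)
    (algebraMap F M).injective).1 h2

theorem fld_main (δ : Derivation ℂ M M) (κ O : IntermediateField ℂ M) (hκ : ∀ x ∈ κ, δ x ∈ κ)
    (hκO : κ ≤ O) (hO : ∀ x ∈ O, δ x ∈ O) (hcst : ∀ x, δ x = 0 → x ∈ κ)
    (halg : ∀ x : M, IsAlgebraic κ x → x ∈ κ) (n : ℕ) (x c : Fin (n + 1) → M) (ρ ℓ : M)
    (u : ℕ → Fin (n + 1) → M) (hu0 : ∀ j, u 0 j = x j)
    (hu : ∀ i j, u (i + 1) j = δ (u i j) + ℓ * u i j) (hx0 : x 0 = 1) (hc : ∀ i, c i ∈ κ)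
    (hx : ∀ j, x j ∈ O) (heq : ∀ j, u (n + 1) j = ∑ i : Fin (n + 1), c i * u i j)
    (hdet : ρ * (Matrix.of fun i j : Fin (n + 1) => u i j).det = 1)
    (hρ : δ ρ = (n + 1) * ℓ * ρ) (hℓ : ℓ ∈ O) (X : Finset M) (hX : ∀ y ∈ X, y ∈ O)
    (hXa : ∀ y ∈ X, IsAlgebraic (IntermediateField.adjoin κ (Set.range x)) y) :
    ∃ (F : IntermediateField κ M) (D : Derivation ℂ F F)
      (U' : Matrix (Fin (n + 1)) (Fin (n + 1)) F) (ρ' ℓ' : F)
      (A : Matrix (Fin (n + 1)) (Fin (n + 1)) κ),
      PV κ D n U' ρ' ℓ' A ∧ (∀ i j, ((U' i j : F) : M) = u i j) ∧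
      (ρ' : M) = ρ ∧ (∀ y : F, ((D y : F) : M) = δ y) ∧ (∀ y ∈ X, y ∈ F) ∧
      (∀ y : F, (y : M) ∈ O) ∧ Algebra.EssFiniteType κ F := by
  classical
  set S0 : Set M := Set.range fun p : Fin (n + 1) × Fin (n + 1) => u p.1 p.2 with hS0
  set E1 := IntermediateField.adjoin κ S0 with hE1
  set F := IntermediateField.adjoin κ (S0 ∪ X) with hF
  have hE1F : E1 ≤ F := IntermediateField.adjoin.mono _ _ _ Set.subset_union_left
  have hu1 : ∀ i j : Fin (n + 1), u i j ∈ E1 := fun i j =>
    IntermediateField.subset_adjoin _ _ ⟨(i, j), rfl⟩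
  have hκ1 : ∀ a ∈ κ, a ∈ E1 := fun a ha => E1.algebraMap_mem (⟨a, ha⟩ : κ)
  have hℓ1 : ℓ ∈ E1 := by
    rcases Nat.eq_zero_or_pos n with h | h
    · subst h
      have h1 : ρ = 1 := by
        rw [Matrix.det_fin_one, Matrix.of_apply] at hdet
        have h2 : u ((0 : Fin (0 + 1)) : ℕ) 0 = 1 := (hu0 0).trans hx0
        rwa [h2, mul_one] at hdet
      rw [h1, Derivation.map_one_eq_zero] at hρ
      have h3 : ℓ = 0 := by
        have h4 := hρ.symm
        simpa using h4
      rw [h3]
      exact zero_mem _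
    · have h1 : u 1 0 = ℓ := (hu 0 0).trans (by
        rw [hu0, hx0, Derivation.map_one_eq_zero, zero_add, mul_one])
      rw [← h1]
      exact hu1 ⟨1, by omega⟩ 0
  have hdE : (Matrix.of fun i j : Fin (n + 1) => u i j).det ∈ E1 := by
    rw [Matrix.det_apply]
    refine sum_mem fun σ _ => ?_
    rw [Units.smul_def]
    refine zsmul_mem (prod_mem fun i _ => ?_) _
    exact hu1 _ _
  have hρ1 : ρ ∈ E1 := by
    rw [eq_inv_of_mul_eq_one_left hdet]
    exact inv_mem hdE
  have hδu : ∀ i j, δ (u i j) = u (i + 1) j - ℓ * u i j := fun i j => by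
    rw [hu]
    ring
  have hE1δ : ∀ y ∈ E1, δ y ∈ E1 := by
    refine fld_adjoin κ δ S0 hκ ?_
    rintro _ ⟨⟨i, j⟩, rfl⟩
    simp only
    rw [hδu]
    refine sub_mem ?_ (mul_mem hℓ1 (hu1 i j))
    rcases Nat.lt_or_ge (i : ℕ) n with h | h
    · exact hu1 ⟨i + 1, by omega⟩ j
    · have h1 : (i : ℕ) = n := by omega
      rw [h1, heq]
      exact sum_mem fun l _ => mul_mem (hκ1 _ (hc l)) (hu1 l j)
  have hxE : IntermediateField.adjoin κ (Set.range x) ≤ E1 := by
    rw [IntermediateField.adjoin_le_iff]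
    rintro _ ⟨j, rfl⟩
    rw [← hu0]
    exact hu1 0 j
  have hXE : ∀ y ∈ X, IsAlgebraic E1 y := fun y hy => fld_tower hxE (hXa y hy)
  have hFδ : ∀ y ∈ F, δ y ∈ F := by
    refine fld_adjoin κ δ (S0 ∪ X) hκ ?_
    rintro y (hy | hy)
    · exact hE1F (hE1δ y (IntermediateField.subset_adjoin _ _ hy))
    · exact fld_alg δ E1 F hE1F hE1δ (hXE y hy) (IntermediateField.subset_adjoin _ _ (Or.inr hy))
  have huO : ∀ i j, u i j ∈ O := by
    intro i
    induction i with
    | zero => intro j; rw [hu0]; exact hx j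
    | succ i ih => intro j; rw [hu]; exact add_mem (hO _ (ih j)) (mul_mem hℓ (ih j))
  have hFO : ∀ y ∈ F, y ∈ O := by
    intro y hy
    rw [hF] at hy
    induction hy using IntermediateField.adjoin_induction with
    | mem y hy =>
      rcases hy with ⟨⟨i, j⟩, rfl⟩ | hy
      · exact huO _ _
      · exact hX y hy
    | algebraMap a => exact hκO a.2
    | add x y _ _ h1 h2 => exact add_mem h1 h2
    | inv x _ h1 => exact inv_mem h1
    | mul x y _ _ h1 h2 => exact mul_mem h1 h2
  let D : Derivation ℂ F F := Derivation.mk'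
    { toFun := fun y => ⟨δ y, hFδ y y.2⟩
      map_add' := fun a b => Subtype.ext (map_add δ (a : M) (b : M))
      map_smul' := fun r a => Subtype.ext (δ.map_smul r (a : M)) }
    (fun a b => Subtype.ext (δ.leibniz (a : M) (b : M)))
  have hD : ∀ y : F, ((D y : F) : M) = δ y := fun y => rfl
  let U' : Matrix (Fin (n + 1)) (Fin (n + 1)) F := Matrix.of fun i j => ⟨u i j, hE1F (hu1 i j)⟩
  have hU' : ∀ i j, ((U' i j : F) : M) = u i j := fun i j => rfl
  let ρ' : F := ⟨ρ, hE1F hρ1⟩
  let ℓ' : F := ⟨ℓ, hE1F hℓ1⟩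
  let A : Matrix (Fin (n + 1)) (Fin (n + 1)) κ := Matrix.of fun i j =>
    if (i : ℕ) < n then (if (j : ℕ) = i + 1 then 1 else 0) else ⟨c j, hc j⟩
  have hA : ∀ i j, ∑ l, ((A i l : κ) : M) * u l j = u (i + 1) j := by
    intro i j
    rcases Nat.lt_or_ge (i : ℕ) n with h | h
    · rw [Finset.sum_eq_single (⟨i + 1, by omega⟩ : Fin (n + 1))]
      · simp only [A, Matrix.of_apply, if_pos h, if_true]
        exact one_mul _
      · intro l _ hl
        have h1 : (l : ℕ) ≠ i + 1 := fun h2 => hl (Fin.ext h2)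
        simp only [A, Matrix.of_apply, if_pos h, if_neg h1]
        exact zero_mul _
      · intro h1
        exact absurd (Finset.mem_univ _) h1
    · have h1 : (i : ℕ) = n := by omega
      rw [h1, heq]
      refine Finset.sum_congr rfl fun l _ => ?_
      have h2 : ¬ (i : ℕ) < n := by omega
      simp only [A, Matrix.of_apply, if_neg h2]
  refine ⟨F, D, U', ρ', ℓ', A, ?_, hU', rfl, hD, ?_, fun y => hFO y y.2, ?_⟩
  · refine ⟨?_, ?_, ?_, ?_, ?_, ?_, ?_, ?_⟩
    · exact fun a => ⟨⟨δ a, hκ a a.2⟩, Subtype.ext rfl⟩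
    · intro y hy
      have h1 : δ (y : M) = 0 := congrArg Subtype.val hy
      exact ⟨⟨y, hcst y h1⟩, Subtype.ext rfl⟩
    · intro y hy
      have h1 : IsAlgebraic κ (y : M) := hy.algebraMap (A := M)
      exact ⟨⟨y, halg y h1⟩, Subtype.ext rfl⟩
    · exact Subtype.ext ((hu0 0).trans hx0)
    · ext i j
      rw [Matrix.map_apply, Matrix.sub_mul, Matrix.smul_mul, Matrix.one_mul, Matrix.sub_apply,
        Matrix.smul_apply, Matrix.mul_apply]
      have e1 : (((∑ l, (A.map (algebraMap κ F)) i l * U' l j : F)) : M) =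
          ∑ l, ((A i l : κ) : M) * u l j := by
        rw [AddSubmonoidClass.coe_finsetSum]
        rfl
      change δ (u i j) = (((∑ l, (A.map (algebraMap κ F)) i l * U' l j : F)) : M) - ℓ * u i j
      rw [e1, hA, hδu]
    · apply Subtype.ext
      have e1 : ((U'.det : F) : M) = (Matrix.of fun i j : Fin (n + 1) => u i j).det := by
        have h1 := RingHom.map_det (algebraMap F M) U'
        exact h1
      change ρ * ((U'.det : F) : M) = 1
      rw [e1]
      exact hdet
    · apply Subtype.ext
      change δ ρ = _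
      rw [hρ]
      simp [ℓ', ρ']
    · refine fld_gen S0 X F hF hXE _ ?_
      rintro _ ⟨⟨i, j⟩, rfl⟩
      exact ⟨U' i j, ⟨(i, j), rfl⟩, rfl⟩
  · exact fun y hy => IntermediateField.subset_adjoin _ _ (Or.inr hy)
  · rw [IntermediateField.essFiniteType_iff]
    exact IntermediateField.fg_adjoin_of_finite
      ((Set.finite_range _).union (Finset.finite_toSet X))

end main

/-- **FLD** -/
theorem t_FLD (h : S_MFB) : S_FLD := by
  intro L τ H n x c ρ ℓ hx0 hc hx heq hdet hρ hℓ X hX hXa
  obtain ⟨hcst, halg⟩ := h L τ H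
  exact fld_main DM (smf H) (obf H) (fun _ => DM_smf) smf_le_obf (fun _ => DM_obf) hcst halg n x c
    ρ ℓ (fun i j => (Et ℓ)^[i] (x j)) (fun j => rfl)
    (fun i j => by
      rw [Function.iterate_succ_apply']
      rfl) hx0 hc hx heq hdet hρ hℓ X hX hXa

end Pool.Agent.N131.SV
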