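import Pool.Agent.N131.SV.Stm2

/-!
The linear differential equation of a curve with small Wronskian (subtask 5923 of helper131, by
helper456).
-/

set_option autoImplicit false
set_option linter.all false

namespace Pool.Agent.N131.SV

open MeasureTheory Set Filter Topology Metric Real ValueDistribution MeromorphicOn Function
open Asymptotics
open Pool.Agent.TH143.EL (codis_ev codis_of_ev mero_id mero_ne mero_an)
open Pool.Agent.N131.SR (Wr Wr_diff)

variable {L : Idx → Filter ℝ} {τ : Idx × ℝ → ℝ}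

/-! ### auxiliary facts -/

theorem frb_mero {a : Pt → ℂ} (ha : ∀ k, Differentiable ℂ (sl a k)) : Mero a :=
  fun k z => ((ha k).analyticAt z).meromorphicAt

theorem frb_ne {a : Pt → ℂ} (ha : ∀ k, Differentiable ℂ (sl a k))
    (h : ∀ k, ∃ z, a (k, z) ≠ 0) : ∀ᶠ z in cod, a z ≠ 0 := by
  rw [ev_cod]
  refine Eventually.of_forall fun k => ?_
  apply codis_of_ev
  intro x
  rcases ((ha k).analyticAt x).eventually_eq_zero_or_eventually_ne_zero with h2 | h2
  · exfalso
    obtain ⟨z, hz⟩ := h k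
    apply hz
    have h3 : AnalyticOnNhd ℂ (sl a k) univ := fun z _ => (ha k).analyticAt z
    exact h3.eqOn_zero_of_preconnected_of_eventuallyEq_zero isPreconnected_univ (mem_univ x) h2
      (mem_univ z)
  · exact h2

theorem frb_iter (y : Pt → ℂ) (n : ℕ) (z : Pt) :
    Eop (fun _ => 0) n y z = iteratedDeriv n (sl y z.1) z.2 := by
  have h1 := congrFun (sl_Eop (fun _ => 0) y n z.1) z.2
  have h2 : SR.Eop (sl (fun _ : Pt => (0 : ℂ)) z.1) n (sl y z.1) = iteratedDeriv n (sl y z.1) :=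
    SR.Eop_zero_fn n _
  rw [← h2]
  exact h1

theorem frb_ot_eop (H : Cmp L τ) {y : Pt → ℂ} (hy : OT L τ y) (k : ℕ) :
    OT L τ (Eop (fun _ => 0) k y) := by
  induction k with
  | zero => exact hy
  | succ k ih =>
    have h1 : Eop (fun _ => 0) (k + 1) y = dv (Eop (fun _ => 0) k y) := by
      funext z
      change dv (Eop (fun _ => 0) k y) z - 0 * _ = _
      rw [zero_mul, sub_zero]
    rw [h1]
    exact ih.deriv H

theorem frb_wdiff {n : ℕ} {g : Fin n → Pt → ℂ} (hg : ∀ j k, Differentiable ℂ (sl (g j) k)) (k : Idx) :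
    Differentiable ℂ (sl (Wrs g) k) := Wr_diff fun j => hg j k

/-- determinants of classes -/
theorem frb_mdet {m : ℕ} {F : Fin m → Fin m → Pt → ℂ} (hF : ∀ i j, Mero (F i j)) :
    Mero fun p => (Matrix.of fun i j => F i j p).det := by
  simp only [Matrix.det_apply]
  apply mero_sum
  intro σ _
  have h1 : Mero fun p => ∏ i, F (σ i) i p := mero_prod Finset.univ fun i => hF (σ i) i
  have h2 := (mero_const fun _ => ((Equiv.Perm.sign σ : ℤ) : ℂ)).mul h1
  have h3 : (fun p => Equiv.Perm.sign σ • ∏ i, Matrix.of (fun i j => F i j p) (σ i) i) =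
      fun p => ((Equiv.Perm.sign σ : ℤ) : ℂ) * ∏ i, F (σ i) i p := by
    funext p
    rw [Units.smul_def, zsmul_eq_mul]
    rfl
  rw [h3]
  exact h2

theorem frb_det {m : ℕ} {F : Fin m → Fin m → Pt → ℂ} (hF : ∀ i j, Mero (F i j)) :
    (Matrix.of fun i j => mf (F i j) (hF i j)).det =
      mf (fun p => (Matrix.of fun i j => F i j p).det) (frb_mdet hF) := by
  have h1 : ∀ σ : Equiv.Perm (Fin m), Equiv.Perm.sign σ • ∏ i, (Matrix.of fun i j => mf (F i j) (hF i j)) (σ i) i =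
      mf (fun p => ((Equiv.Perm.sign σ : ℤ) : ℂ) * ∏ i, F (σ i) i p)
        ((mero_const fun _ => ((Equiv.Perm.sign σ : ℤ) : ℂ)).mul
          (mero_prod Finset.univ fun i => hF (σ i) i)) := by
    intro σ
    rw [Units.smul_def, zsmul_eq_mul]
    have h2 : (((Equiv.Perm.sign σ : ℤ)) : MF) =
        mf (fun _ => ((Equiv.Perm.sign σ : ℤ) : ℂ)) (mero_const fun _ => _) := by
      rw [← algebraMap_mf, map_intCast]
    have h3 : ∏ i, (Matrix.of fun i j => mf (F i j) (hF i j)) (σ i) i =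
        mf (fun p => ∏ i, F (σ i) i p) (mero_prod Finset.univ fun i => hF (σ i) i) :=
      mf_prod Finset.univ fun i => hF (σ i) i
    rw [h2, h3, mf_mul]
  rw [Matrix.det_apply, Finset.sum_congr rfl fun σ _ => h1 σ, mf_sum, mf_eq]
  refine Eventually.of_forall fun p => ?_
  rw [Matrix.det_apply]
  apply Finset.sum_congr rfl
  intro σ _
  rw [Units.smul_def, zsmul_eq_mul]
  rfl

section data

variable {n : ℕ} {g : Fin (n + 1) → Pt → ℂ}

/-- the affine coordinates -/
noncomputable def frb_x (g : Fin (n + 1) → Pt → ℂ) (j : Fin (n + 1)) : Pt → ℂ :=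
  fun p => g j p / g 0 p

/-- the Wronskian of the affine coordinates -/
noncomputable def frb_D (g : Fin (n + 1) → Pt → ℂ) : Pt → ℂ := fun z =>
  Matrix.det (Matrix.of fun i j : Fin (n + 1) => Eop (fun _ => 0) i (frb_x g j) z)

/-- the gauge of the affine coordinates -/
noncomputable def frb_u (g : Fin (n + 1) → Pt → ℂ) : Pt → ℂ :=
  fun z => ((n : ℂ) + 1)⁻¹ * ldv (frb_D g) z

/-- the gauge of the homogeneous coordinates -/
noncomputable def frb_l (g : Fin (n + 1) → Pt → ℂ) : Pt → ℂ :=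
  fun z => ((n : ℂ) + 1)⁻¹ * ldv (Wrs g) z

theorem frb_n0 (n : ℕ) : (n : ℂ) + 1 ≠ 0 := by exact_mod_cast Nat.succ_ne_zero n

/-- the first homogeneous coordinate does not vanish identically -/
theorem frb_g0 (hW : ∀ k, ∃ z, Wrs g (k, z) ≠ 0) (k : Idx) : ∃ z, g 0 (k, z) ≠ 0 := by
  by_contra hcon
  push Not at hcon
  obtain ⟨z, hz⟩ := hW k
  apply hz
  unfold Wrs Wr
  apply Matrix.det_eq_zero_of_column_eq_zero 0
  intro i
  rw [Matrix.of_apply]
  have h1 : sl (g 0) k = fun _ => 0 := funext hcon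
  change iteratedDeriv (i : ℕ) (sl (g 0) k) z = 0
  rw [h1]
  simp

variable (H : Cmp L τ) (hgd : ∀ j k, Differentiable ℂ (sl (g j) k))
  (hW : ∀ k, ∃ z, Wrs g (k, z) ≠ 0) (hOB : ∀ i j, OB L τ fun p => g i p / g j p)

section

include hgd hW

theorem frb_g0ne : ∀ᶠ z in cod, g 0 z ≠ 0 := frb_ne (hgd 0) (frb_g0 hW)

theorem frb_wne : ∀ᶠ z in cod, Wrs g z ≠ 0 := frb_ne (frb_wdiff hgd) hW

theorem frb_gx (j : Fin (n + 1)) : ∀ᶠ z in cod, g j z = g 0 z * frb_x g j z := by
  filter_upwards [frb_g0ne hgd hW] with z hz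
  unfold frb_x
  field_simp

end

section

include hOB

theorem frb_xm (j : Fin (n + 1)) : Mero (frb_x g j) := (hOB j 0).1

include H

theorem frb_xot (j : Fin (n + 1)) : OT L τ (frb_x g j) := (hOB j 0).ot H

theorem frb_Dot : OT L τ (frb_D g) := by
  unfold frb_D
  simp only [Matrix.det_apply]
  apply OT.sum H
  intro σ _
  have h1 : OT L τ fun z => ∏ i, Eop (fun _ => 0) ((σ i : Fin (n + 1)) : ℕ) (frb_x g i) z :=
    OT.prod H _ fun i _ => frb_ot_eop H (frb_xot H hOB i) _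
  have h2 := (sm_const H fun _ => ((Equiv.Perm.sign σ : ℤ) : ℂ)).ot.mul H h1
  have h3 : (fun z => Equiv.Perm.sign σ • ∏ i, Matrix.of (fun i j : Fin (n + 1) =>
      Eop (fun _ => 0) i (frb_x g j) z) (σ i) i) = fun z => ((Equiv.Perm.sign σ : ℤ) : ℂ) *
        ∏ i, Eop (fun _ => 0) ((σ i : Fin (n + 1)) : ℕ) (frb_x g i) z := by
    funext z
    rw [Units.smul_def, zsmul_eq_mul]
    rfl
  rw [h3]
  exact h2

theorem frb_ugg : GG L τ (frb_u g) :=
  (gg_const H fun _ => ((n : ℂ) + 1)⁻¹).mul H (gg_ld H (frb_Dot H hOB))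

theorem frb_um : Mero (frb_u g) := (frb_ugg H hOB).ot.1

include hgd hW

/-- the Wronskian of the homogeneous coordinates -/
theorem frb_wr : ∀ᶠ z in cod, Wrs g z = g 0 z ^ (n + 1) * frb_D g z := by
  have hsne := frb_g0ne hgd hW
  have hsm : Mero (g 0) := frb_mero (hgd 0)
  set u : Pt → ℂ := fun z => -ldv (g 0) z with hu
  have hum : Mero u := hsm.ldv.neg
  have e1 : ∀ᶠ z in cod, ∀ i : Fin (n + 1), ∀ k : Fin (n + 1),
      Eop (fun _ => 0) i (g k) z = g 0 z * Eop u i (frb_x g k) z := by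
    rw [eventually_all]
    intro i
    rw [eventually_all]
    intro k
    filter_upwards [Eop_congr (u := fun _ => 0) (frb_gx hgd hW k) i,
      Eop_gauge (v := fun _ => 0) hsm (frb_xm hOB k) hum (by
        filter_upwards [hsne] with z hz
        rw [hu]
        simp only
        rw [ldv_apply]
        field_simp
        ring) i] with z e1 e2
    rw [e1, e2]
  filter_upwards [e1, det_shift (fun j => frb_xm hOB j) hum] with z e2 e3
  unfold frb_D
  rw [← e3]
  have e4 : (Matrix.of fun i j : Fin (n + 1) => iteratedDeriv i (sl (g j) z.1) z.2) =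
      g 0 z • (Matrix.of fun i j : Fin (n + 1) => Eop u i (frb_x g j) z) := by
    ext i j
    rw [Matrix.smul_apply, Matrix.of_apply, Matrix.of_apply, smul_eq_mul, ← e2 i j, frb_iter]
  unfold Wrs Wr
  rw [e4, Matrix.det_smul, Fintype.card_fin]

/-- the relation of the gauges -/
theorem frb_rel : ∀ᶠ z in cod, dv (g 0) z = (frb_l g z - frb_u g z) * g 0 z := by
  have hwr := frb_wr H hgd hW hOB
  have e1 := codis_deriv hwr
  filter_upwards [e1, hwr, frb_g0ne hgd hW, frb_wne hgd hW, an_of_mero (frb_Dot H hOB).1]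
    with z h1 h2 h3 h4 h5
  have h6 : HasDerivAt (fun w => sl (g 0) z.1 w ^ (n + 1) * sl (frb_D g) z.1 w)
      ((((n + 1 : ℕ) : ℂ) * g 0 z ^ (n + 1 - 1) * dv (g 0) z) * frb_D g z +
        g 0 z ^ (n + 1) * dv (frb_D g) z) z.2 :=
    ((((hgd 0) z.1) z.2).hasDerivAt.pow (n + 1)).mul h5.differentiableAt.hasDerivAt
  have h6' : dv (fun z => g 0 z ^ (n + 1) * frb_D g z) z =
      (((n + 1 : ℕ) : ℂ) * g 0 z ^ (n + 1 - 1) * dv (g 0) z) * frb_D g z +
        g 0 z ^ (n + 1) * dv (frb_D g) z := h6.deriv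
  rw [h6'] at h1
  have h7 : frb_D g z ≠ 0 := by
    intro h8
    rw [h8, mul_zero] at h2
    exact h4 h2
  have hdd := frb_n0 n
  unfold frb_l frb_u
  rw [ldv_apply, ldv_apply, h1, h2, Nat.add_sub_cancel, pow_succ]
  push_cast
  field_simp
  ring

/-- the change of the gauge -/
theorem frb_key (j : Fin (n + 1)) (i : ℕ) :
    ∀ᶠ z in cod, Eop (frb_l g) i (g j) z = g 0 z * Eop (frb_u g) i (frb_x g j) z := by
  filter_upwards [Eop_congr (u := frb_l g) (frb_gx hgd hW j) i,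
    Eop_gauge (frb_mero (hgd 0)) (frb_xm hOB j) (frb_um H hOB) (frb_rel H hgd hW hOB) i] with z e1 e2
  rw [e1, e2]

theorem frb_lm : Mero (frb_l g) :=
  (mero_const fun _ => ((n : ℂ) + 1)⁻¹).mul (frb_mero (frb_wdiff hgd)).ldv

/-- the linear differential equations -/
theorem frb_ode (hN : Nbs (Wrs g) =o[Lf L] τ) : ∃ c : ℕ → Pt → ℂ, (∀ i < n + 1, Sm L τ (c i)) ∧
    ∀ j, ∀ᶠ z in cod, Eop (frb_u g) (n + 1) (frb_x g j) z =
      ∑ i ∈ Finset.range (n + 1), c i z * Eop (frb_u g) i (frb_x g j) z := by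
  have hfr := frob H (n + 1) (frb_x g) (frb_xot H hOB)
  obtain ⟨c, hc, hceq⟩ := sp_gauge (cl_gg H) (gg_const H fun _ => 0) (frb_ugg H hOB)
    (fun j => frb_xm hOB j) hfr
  have key2 : ∀ j, ∀ᶠ z in cod, ∀ i ∈ Finset.range (n + 2),
      Eop (frb_l g) i (g j) z = g 0 z * Eop (frb_u g) i (frb_x g j) z := by
    intro j
    rw [eventually_all_finset]
    exact fun i _ => frb_key H hgd hW hOB j i
  have hent : ∀ j : Fin (n + 1), ∀ᶠ z in cod, Eop (frb_l g) (n + 1) (g j) z =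
      ∑ i ∈ Finset.range (n + 1), c i z * Eop (frb_l g) i (g j) z := by
    intro j
    filter_upwards [key2 j, hceq j] with z e1 e2
    rw [e1 (n + 1) (Finset.mem_range.2 (Nat.lt_succ_self _)), e2, Finset.mul_sum]
    apply Finset.sum_congr rfl
    intro i hi
    rw [e1 i (Finset.mem_range.2 (by have := Finset.mem_range.1 hi; omega))]
    ring
  refine ⟨c, ?_, hceq⟩
  intro i hi
  refine sm_of_poles H (hc i) (h1 := Wrs g) (h2 := Wrs g) (frb_wdiff hgd) (frb_wdiff hgd) hW hW ?_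
    hN hN
  have h1 : ∀ᶠ k in (U : Filter Idx), ∀ j : Fin (n + 1), ∀ᶠ z in codiscrete ℂ,
      Eop (frb_l g) (n + 1) (g j) (k, z) =
        ∑ i ∈ Finset.range (n + 1), c i (k, z) * Eop (frb_l g) i (g j) (k, z) :=
    eventually_all.2 fun j => ev_cod.1 (hent j)
  filter_upwards [h1] with k hk z hz1 _
  refine coef_order (fun j => hgd j k) (frb_lm H hgd hW hOB k) ?_ hz1 hk hi
  change AnalyticAt ℂ (fun z => ((n : ℂ) + 1)⁻¹ * logDeriv (sl (Wrs g) k) z) z
  apply AnalyticAt.mul analyticAt_const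
  exact (((frb_wdiff hgd k).analyticAt z).deriv).div ((frb_wdiff hgd k).analyticAt z) hz1

end

end data

/-- the classes of the iterates of the twisted derivative -/
theorem frb_et {u : Pt → ℂ} (hu : Mero u) {ℓ : MF} (hℓ : ℓ = - mf u hu) {y : Pt → ℂ} (hy : Mero y)
    (k : ℕ) : (Et ℓ)^[k] (mf y hy) = mf (Eop u k y) (mero_Eop hu hy k) := by
  induction k with
  | zero => rfl
  | succ k ih =>
    rw [Function.iterate_succ_apply', ih, Et, DM_mf, hℓ, mf_neg, mf_mul, mf_add, mf_eq]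
    refine Eventually.of_forall fun p => ?_
    change dv (Eop u k y) p + -u p * Eop u k y p = dv (Eop u k y) p - u p * Eop u k y p
    ring

theorem t_FRB : S_FRB := by
  intro L τ H n g hg hW hgd hW0 hOB hN ρ ℓ hρ hℓ
  have hG0 : mf (g 0) (hg 0) ≠ 0 := by
    intro h
    obtain ⟨z, h1, h2⟩ := ((mf_eq_zero.1 h).and (frb_g0ne hgd hW0)).exists
    exact h2 h1
  have hWW : mf (Wrs g) hW ≠ 0 := by
    intro h
    obtain ⟨z, h1, h2⟩ := ((mf_eq_zero.1 h).and (frb_wne hgd hW0)).exists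
    exact h2 h1
  have hn1 : (n : MF) + 1 ≠ 0 := by exact_mod_cast Nat.succ_ne_zero n
  have hum := frb_um (g := g) H hOB
  have hlm := frb_lm H hgd hW0 hOB
  -- the constants
  have hc1 : (n : MF) + 1 = mf (fun _ => (n : ℂ) + 1) (mero_const fun _ => (n : ℂ) + 1) := by
    rw [← algebraMap_mf, map_add, map_natCast, map_one]
  -- the gauge of the homogeneous coordinates
  have hl1 : mf (frb_l g) hlm * (((n : MF) + 1) * mf (Wrs g) hW) = DM (mf (Wrs g) hW) := by
    rw [hc1, DM_mf, mf_mul, mf_mul, mf_eq]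
    filter_upwards [frb_wne hgd hW0] with z hz
    have hdd := frb_n0 n
    unfold frb_l
    rw [ldv_apply]
    field_simp
  have hl2 : DM (mf (Wrs g) hW) / ((n + 1) * mf (Wrs g) hW) = mf (frb_l g) hlm := by
    rw [← hl1, mul_div_assoc, div_self (mul_ne_zero hn1 hWW), mul_one]
  have hu1 : DM (mf (g 0) (hg 0)) = (mf (frb_l g) hlm - mf (frb_u g) hum) * mf (g 0) (hg 0) := by
    rw [DM_mf, sub_eq_add_neg, mf_neg, mf_add, mf_mul, mf_eq]
    filter_upwards [frb_rel H hgd hW0 hOB] with z hz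
    rw [hz, sub_eq_add_neg]
  have hℓu : ℓ = - mf (frb_u g) hum := by
    rw [hℓ, hl2, hu1, mul_div_assoc, div_self hG0, mul_one]
    ring
  have hx : ∀ j, mf (g j) (hg j) / mf (g 0) (hg 0) = mf (frb_x g j) (frb_xm hOB j) := fun j =>
    mf_div (hg j) (hg 0)
  have hit : ∀ (j : Fin (n + 1)) (k : ℕ), (Et ℓ)^[k] (mf (g j) (hg j) / mf (g 0) (hg 0)) =
      mf (Eop (frb_u g) k (frb_x g j)) (mero_Eop hum (frb_xm hOB j) k) := by
    intro j k
    rw [hx j]
    exact frb_et hum hℓu (frb_xm hOB j) k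
  refine ⟨?_, ?_, ?_, ?_⟩
  · -- the linear differential equations
    obtain ⟨c, hc, hceq⟩ := frb_ode H hgd hW0 hOB hN
    have hcm : ∀ i : Fin (n + 1), Mero (c i) := fun i => (hc i i.2).1
    refine ⟨fun i => mf (c i) (hcm i), fun i => mem_smf.2 (hc i i.2), fun j => ?_⟩
    rw [hit j (n + 1)]
    have h1 : ∀ i : Fin (n + 1), mf (c i) (hcm i) *
        (Et ℓ)^[(i : ℕ)] (mf (g j) (hg j) / mf (g 0) (hg 0)) =
        mf (fun p => c i p * Eop (frb_u g) i (frb_x g j) p)
          ((hcm i).mul (mero_Eop hum (frb_xm hOB j) i)) := by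
      intro i
      rw [hit j i, mf_mul]
    rw [Finset.sum_congr rfl fun i _ => h1 i, mf_sum, mf_eq]
    filter_upwards [hceq j] with z hz
    rw [hz, ← Fin.sum_univ_eq_sum_range (fun i => c i z * Eop (frb_u g) i (frb_x g j) z) (n + 1)]
  · -- the determinant
    have h1 : (Matrix.of fun i j : Fin (n + 1) =>
        (Et ℓ)^[(i : ℕ)] (mf (g j) (hg j) / mf (g 0) (hg 0))) =
        Matrix.of fun i j : Fin (n + 1) => mf (Eop (frb_u g) i (frb_x g j))
          (mero_Eop hum (frb_xm hOB j) i) := by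
      ext i j
      rw [Matrix.of_apply, Matrix.of_apply, hit j i]
    rw [h1, frb_det, hρ, mf_pow, mf_div, mf_mul, mf_one, mf_eq]
    filter_upwards [frb_wr H hgd hW0 hOB, frb_wne hgd hW0,
      det_shift (fun j => frb_xm hOB j) hum] with z h2 h3 h4
    rw [h4]
    change g 0 z ^ (n + 1) / Wrs g z * frb_D g z = 1
    rw [div_mul_eq_mul_div, ← h2, div_self h3]
  · -- the derivative
    have hd1 : DM ρ = ((mf (Wrs g) hW)⁻¹) ^ 2 * (mf (Wrs g) hW *
        (((n : MF) + 1) * (mf (g 0) (hg 0) ^ n * DM (mf (g 0) (hg 0)))) -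
          mf (g 0) (hg 0) ^ (n + 1) * DM (mf (Wrs g) hW)) := by
      rw [hρ, Derivation.leibniz_div, Derivation.leibniz_pow]
      simp only [smul_eq_mul, nsmul_eq_mul, Nat.add_sub_cancel]
      push_cast
      ring
    rw [hd1, hℓ, hρ]
    field_simp
    ring
  · -- the generators
    intro p
    have h1 : ρ * ∏ s, (Et ℓ)^[(p.1 s : ℕ)] (mf (g (p.2 s)) (hg (p.2 s)) / mf (g 0) (hg 0)) =
        mf (fun z => (Wrs g z)⁻¹ * ∏ s, Eop (frb_l g) (p.1 s : ℕ) (g (p.2 s)) z)
          (hW.inv.mul (mero_prod Finset.univ fun s => mero_Eop hlm (hg (p.2 s)) (p.1 s : ℕ))) := by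
      have h2 : ∏ s, (Et ℓ)^[(p.1 s : ℕ)] (mf (g (p.2 s)) (hg (p.2 s)) / mf (g 0) (hg 0)) =
          mf (fun z => ∏ s, Eop (frb_u g) (p.1 s : ℕ) (frb_x g (p.2 s)) z)
            (mero_prod Finset.univ fun s => mero_Eop hum (frb_xm hOB (p.2 s)) (p.1 s : ℕ)) := by
        rw [← mf_prod Finset.univ fun s => mero_Eop hum (frb_xm hOB (p.2 s)) (p.1 s : ℕ)]
        exact Finset.prod_congr rfl fun s _ => hit (p.2 s) (p.1 s : ℕ)
      rw [h2, hρ, mf_pow, mf_div, mf_mul, mf_eq]
      have h3 : ∀ᶠ z in cod, ∀ s, Eop (frb_l g) (p.1 s : ℕ) (g (p.2 s)) z =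
          g 0 z * Eop (frb_u g) (p.1 s : ℕ) (frb_x g (p.2 s)) z :=
        eventually_all.2 fun s => frb_key H hgd hW0 hOB (p.2 s) (p.1 s : ℕ)
      filter_upwards [h3] with z hz
      rw [Finset.prod_congr rfl fun s _ => hz s, Finset.prod_mul_distrib, Finset.prod_const,
        Finset.card_univ, Fintype.card_fin]
      ring
    rw [h1]
    filter_upwards [om_mf (hW.inv.mul (mero_prod Finset.univ fun s =>
      mero_Eop hlm (hg (p.2 s)) (p.1 s : ℕ)))] with k hk z hz
    rw [hk z]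
    apply AnalyticAt.meromorphicOrderAt_nonneg
    have hw := (frb_wdiff hgd k).analyticAt z
    have hlan : AnalyticAt ℂ (sl (frb_l g) k) z := by
      change AnalyticAt ℂ (fun z => ((n : ℂ) + 1)⁻¹ * logDeriv (sl (Wrs g) k) z) z
      apply AnalyticAt.mul analyticAt_const
      exact (hw.deriv).div hw hz
    apply AnalyticAt.mul (hw.inv hz)
    apply Finset.analyticAt_fun_prod
    intro s _
    have h4 := SR.an_Eop hlan ((hgd (p.2 s) k).analyticAt z) (p.1 s : ℕ)
    rw [← sl_Eop] at h4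
    exact h4

end Pool.Agent.N131.SV
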