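import Mathlib
import Pool.Agent.N131.SV.Stm2

/-!
The alternative at the points of a sequence, from the alternative at valuation rings (`S_GPT`).
-/

set_option autoImplicit false

namespace Pool.Agent.N131.SV

open MeasureTheory Set Filter Topology Metric Real ValueDistribution MeromorphicOn Function
open Asymptotics

theorem gpt_dv {x : MF} {z : Idx → ℂ} (h1 : ∀ᶠ k in (U : Filter Idx), 1 ≤ om x k (z k))
    (h2 : ∀ᶠ k in (U : Filter Idx), 0 ≤ om (DM x) k (z k))
    (h3 : ∀ᶠ k in (U : Filter Idx), ¬ 1 ≤ om (DM x) k (z k)) :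
    ∀ᶠ k in (U : Filter Idx), om x k (z k) = 1 := by
  have h4 : DM x = mf (dv (rp x)) (rp_mero x).dv := by
    conv_lhs => rw [← mf_rp x]
    exact DM_mf _
  have h5 := om_mf (rp_mero x).dv
  rw [← h4] at h5
  filter_upwards [h1, h2, h3, h5] with k h1 h2 h3 h5
  have h6 := h5 (z k)
  have h7 : sl (dv (rp x)) k = deriv (sl (rp x) k) := rfl
  rw [h7] at h6
  change 1 ≤ meromorphicOrderAt (sl (rp x) k) (z k) at h1
  change meromorphicOrderAt (sl (rp x) k) (z k) = 1
  rw [h6] at h2 h3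
  rcases eq_or_ne (meromorphicOrderAt (sl (rp x) k) (z k)) ⊤ with h8 | h8
  · exfalso
    apply h3
    have h9 : meromorphicOrderAt (deriv (sl (rp x) k)) (z k) = ⊤ := by
      rw [meromorphicOrderAt_eq_top_iff] at h8 ⊢
      have h10 : sl (rp x) k =ᶠ[𝓝[≠] (z k)] fun _ => 0 := h8
      have h11 := h10.nhdsNE_deriv
      filter_upwards [h11] with w hw
      rw [hw]
      simp
    rw [h9]
    exact le_top
  · obtain ⟨n, hn⟩ := WithTop.ne_top_iff_exists.1 h8
    rw [← hn] at h1 ⊢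
    have hn1 : (1 : ℤ) ≤ n := by exact_mod_cast h1
    have hn0 : n ≠ 0 := by omega
    have h9 := meromorphicOrderAt_deriv_eq_sub_one (f := sl (rp x) k) (x := z k) (n := n)
      (by exact_mod_cast hn0) hn.symm
    rw [h9] at h3
    have h10 : ¬ (1 : ℤ) ≤ n - 1 := fun h => h3 (by exact_mod_cast h)
    have h11 : n = 1 := by omega
    rw [h11]
    rfl

theorem gpt_nu {K : Type*} [Field K] (A : ValuationSubring K) (x : K) :
    x ∈ A.nonunits ↔ x = 0 ∨ x⁻¹ ∉ A := by
  rw [ValuationSubring.mem_nonunits_iff]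
  by_cases h : x = 0
  · simp [h]
  · rw [← ValuationSubring.valuation_le_one_iff, map_inv₀]
    have h1 : A.valuation x ≠ 0 := by
      rwa [Ne, map_eq_zero]
    simp only [h, false_or, not_le]
    rw [one_lt_inv₀ (zero_lt_iff.2 h1)]

theorem gpt_untop {o : WithTop ℤ} {n : ℤ} (h : (n : WithTop ℤ) ≤ o) (hn : n ≤ 0) :
    n ≤ o.untopD 0 := by
  cases o with
  | top => simpa using hn
  | coe o =>
    have h1 : n ≤ o := by exact_mod_cast h
    simpa using h1

theorem t_GPT : S_GPT := by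
  intro L τ H F D hD I1 ι J _ _ _ gen T Pos Neg g N Gs hV B Z hT hgen hGs hZ
  by_contra hcon
  rw [← Ultrafilter.eventually_not] at hcon
  have hex : ∀ k : Idx, ∃ w : ℂ, (¬ ∀ z, z ∉ B k → (∀ i, 0 ≤ (om (g i : MF) k z).untopD 0) ∨
      (z ∈ Z k ∧ ∀ i, -(N : ℤ) ≤ (om (g i : MF) k z).untopD 0)) →
      w ∉ B k ∧ ¬ ((∀ i, 0 ≤ (om (g i : MF) k w).untopD 0) ∨
      (w ∈ Z k ∧ ∀ i, -(N : ℤ) ≤ (om (g i : MF) k w).untopD 0)) := by
    intro k
    by_cases h : ∀ z, z ∉ B k → (∀ i, 0 ≤ (om (g i : MF) k z).untopD 0) ∨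
      (z ∈ Z k ∧ ∀ i, -(N : ℤ) ≤ (om (g i : MF) k z).untopD 0)
    · exact ⟨0, fun h' => absurd h h'⟩
    · have h' := h
      push Not at h'
      obtain ⟨w, hw1, hw2⟩ := h'
      refine ⟨w, fun _ => ⟨hw1, ?_⟩⟩
      rintro (h3 | h3)
      · obtain ⟨i, hi⟩ := hw2.1
        exact absurd (h3 i) (not_le.2 hi)
      · obtain ⟨i, hi⟩ := hw2.2 h3.1
        exact absurd (h3.2 i) (not_le.2 hi)
  choose z hz using hex
  have hzB : ∀ᶠ k in (U : Filter Idx), z k ∉ B k := hcon.mono fun k hk => (hz k hk).1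
  have hzP : ∀ᶠ k in (U : Filter Idx), ¬ ((∀ i, 0 ≤ (om (g i : MF) k (z k)).untopD 0) ∨
      (z k ∈ Z k ∧ ∀ i, -(N : ℤ) ≤ (om (g i : MF) k (z k)).untopD 0)) :=
    hcon.mono fun k hk => (hz k hk).2
  have hm : ∀ x : F, x ∈ (hp z).comap (algebraMap F MF) ↔ (x : MF) ∈ hp z :=
    fun x => ValuationSubring.mem_comap
  have hn : ∀ x : F, x ∈ ((hp z).comap (algebraMap F MF)).nonunits ↔
      (x : MF) ∈ (hp z).nonunits := by
    intro x
    rw [gpt_nu, gpt_nu, hm]
    simp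
  have hs1 : ∀ x ∈ (hp z).comap (algebraMap F MF), D x ∈ (hp z).comap (algebraMap F MF) := by
    intro x hx
    rw [hm] at hx ⊢
    rw [hD]
    exact DM_hp hx
  have hs2 : ∀ c ∈ T, algebraMap (smf H) F c ∈ (hp z).comap (algebraMap F MF) := by
    intro c hc
    rw [hm, mem_hp']
    filter_upwards [hT c hc, hzB] with k hk1 hk2
    exact hk1 (z k) hk2
  have hs3 : ∀ p, gen p ∈ (hp z).comap (algebraMap F MF) := by
    intro p
    rw [hm, mem_hp']
    filter_upwards [hgen p, hzB] with k hk1 hk2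
    exact hk1 (z k) hk2
  rcases hV ((hp z).comap (algebraMap F MF)) hs1 hs2 hs3 with h1 |
    ⟨⟨j, hj1, hj2⟩, t, ht, hdt, hdt', h1⟩ | ⟨G, hG, h1⟩
  · have h2 : ∀ᶠ k in (U : Filter Idx), ∀ i, 0 ≤ om (g i : MF) k (z k) := by
      rw [eventually_all]
      intro i
      exact mem_hp'.1 ((hm _).1 (h1 i))
    obtain ⟨k, hk1, hk2⟩ := (h2.and hzP).exists
    exact hk2 (Or.inl fun i => gpt_untop (by exact_mod_cast hk1 i) le_rfl)
  · have h2 := hZ z ⟨j, fun x hx => (hm x).1 (hj1 x hx), fun x hx => (hn x).1 (hj2 x hx)⟩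
    have h3 : ∀ᶠ k in (U : Filter Idx), om (t : MF) k (z k) = 1 := by
      apply gpt_dv
      · exact mem_hp_nonunits'.1 ((hn t).1 ht)
      · rw [← hD]
        exact mem_hp'.1 ((hm _).1 hdt)
      · rw [← hD, Ultrafilter.eventually_not, ← mem_hp_nonunits', ← hn]
        exact hdt'
    have h4 : ∀ᶠ k in (U : Filter Idx), ∀ i, ((-(N : ℤ) : ℤ) : WithTop ℤ) ≤ om (g i : MF) k (z k) := by
      rw [eventually_all]
      intro i
      have h5 := (hm _).1 (h1 i)
      have h6 : ((t ^ N * g i : F) : MF) = mf (fun p => (rp (t : MF) p) ^ N * rp (g i : MF) p)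
          ((mero_pow (rp_mero (t : MF)) N).mul (rp_mero (g i : MF))) := by
        rw [← mf_mul (mero_pow (rp_mero (t : MF)) N) (rp_mero (g i : MF)),
          ← mf_pow (rp_mero (t : MF)), mf_rp, mf_rp]
        rfl
      rw [h6, mem_hp] at h5
      filter_upwards [h3, h5] with k h3 h5
      have h7 : od (fun p => (rp (t : MF) p) ^ N * rp (g i : MF) p) z k =
          (N : WithTop ℤ) * om (t : MF) k (z k) + om (g i : MF) k (z k) := by
        have e1 : od (fun p => (rp (t : MF) p) ^ N * rp (g i : MF) p) z k =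
          meromorphicOrderAt ((sl (rp (t : MF)) k) ^ N * sl (rp (g i : MF)) k) (z k) := rfl
        rw [e1, meromorphicOrderAt_mul ((rp_mero (t : MF) k (z k)).pow N) (rp_mero (g i : MF) k (z k)),
          meromorphicOrderAt_pow (rp_mero (t : MF) k (z k))]
        rfl
      rw [h7, h3, mul_one] at h5
      generalize om (g i : MF) k (z k) = o at h5
      cases o with
      | top => exact le_top
      | coe o =>
        have h8 : (0 : ℤ) ≤ N + o := by
          exact_mod_cast h5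
        have h9 : -(N : ℤ) ≤ o := by omega
        exact_mod_cast h9
    obtain ⟨k, ⟨hk1, hk2⟩, hk3⟩ := ((h4.and h2).and hzP).exists
    exact hk3 (Or.inr ⟨hk2, fun i => gpt_untop (hk1 i) (by omega)⟩)
  · have h2 : ∀ᶠ k in (U : Filter Idx), ∀ x ∈ G, 1 ≤ om ((x : F) : MF) k (z k) := by
      rw [eventually_all_finset]
      intro x hx
      exact mem_hp_nonunits'.1 ((hn x).1 (h1 x hx))
    obtain ⟨k, ⟨hk1, hk2⟩, hk3⟩ := ((h2.and (hGs G hG)).and hzB).exists
    obtain ⟨x, hx, hx'⟩ := hk2 (z k) hk3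
    exact hx' (hk1 x hx)

end Pool.Agent.N131.SV
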