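import Mathlib
import Pool.Agent.N131.SV.Stm2

/-!
Constants and algebraic elements of the field of sequences are small.
-/

set_option autoImplicit false

namespace Pool.Agent.N131.SV

open Set Filter Topology Function

theorem mfb_const {f : ℂ → ℂ} (hf : Meromorphic f) (h : ∀ᶠ z in codiscrete ℂ, deriv f z = 0) :
    ∃ c : ℂ, ∀ᶠ z in codiscrete ℂ, f z = c := by
  have h1 : {z | AnalyticAt ℂ f z ∧ deriv f z = 0} ∈ codiscrete ℂ :=
    (Pool.Agent.TH143.EL.mero_an hf).and h
  obtain ⟨z₀, hz₀⟩ := Pool.Agent.TH143.EL.codis_ne h1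
  refine ⟨f z₀, ?_⟩
  filter_upwards [h1] with z hz
  exact (Pool.Agent.TH143.EL.codis_open h1).is_const_of_deriv_eq_zero
    (Pool.Agent.TH143.EL.codis_pre h1)
    (fun w hw => hw.1.differentiableAt.differentiableWithinAt) (fun w hw => hw.2) hz hz₀

theorem t_MFB : S_MFB := by
  intro L τ H
  constructor
  · intro x hx
    obtain ⟨a, ha, rfl⟩ := mf_surj x
    rw [DM_mf, mf_eq_zero, ev_cod] at hx
    have h1 : ∀ k, ∃ c : ℂ, (∀ᶠ z in codiscrete ℂ, dv a (k, z) = 0) →
        ∀ᶠ z in codiscrete ℂ, a (k, z) = c := by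
      intro k
      by_cases hk : ∀ᶠ z in codiscrete ℂ, dv a (k, z) = 0
      · obtain ⟨c, hc⟩ := mfb_const (ha k) hk
        exact ⟨c, fun _ => hc⟩
      · exact ⟨0, fun h => absurd h hk⟩
    choose c hc using h1
    have h2 : mf a ha = mf (fun p => c p.1) (mero_const c) := by
      rw [mf_eq, ev_cod]
      exact hx.mono fun k hk => hc k hk
    rw [h2, mem_smf]
    exact sm_const H c
  · intro x hx
    obtain ⟨a, ha, rfl⟩ := mf_surj x
    rw [mem_smf]
    obtain ⟨P, hP, hPx⟩ := hx
    choose b hb hbe using fun i => mf_surj ((P.coeff i : smf H) : MF)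
    have hbs : ∀ i, Sm L τ (b i) := fun i => by
      have := (P.coeff i).2
      rw [← hbe i, mem_smf] at this
      exact this
    refine alg_small H ha (m := P.natDegree) hbs ⟨P.natDegree, le_rfl, ?_⟩ ?_
    · intro h
      have h3 : ((P.coeff P.natDegree : smf H) : MF) = 0 := by
        rw [← hbe, mf_eq_zero]
        exact h
      have h4 : P.coeff P.natDegree = 0 := Subtype.ext h3
      exact hP (Polynomial.leadingCoeff_eq_zero.1 h4)
    · have h5 : ∑ k ∈ Finset.range (P.natDegree + 1), mf (b k) (hb k) * mf a ha ^ k = 0 := by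
        rw [Polynomial.aeval_eq_sum_range] at hPx
        rw [← hPx]
        refine Finset.sum_congr rfl fun i _ => ?_
        rw [Algebra.smul_def, hbe i]
        rfl
      have h6 : ∀ k, mf (b k) (hb k) * mf a ha ^ k =
          mf (fun p => b k p * a p ^ k) ((hb k).mul (mero_pow ha k)) := fun k => by
        rw [mf_pow, mf_mul]
      rw [Finset.sum_congr rfl fun k _ => h6 k,
        mf_sum _ fun k => (hb k).mul (mero_pow ha k), mf_eq_zero] at h5
      exact h5

end Pool.Agent.N131.SV
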