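import Mathlib
import Pool.Agent.N131.SV.Stm2

/-!
Proximity functions and poles from integral equations.
-/

set_option autoImplicit false

namespace Pool.Agent.N131.SV

open Filter

/-! ### bounds for integral elements -/

/-- families of functions which behave as (the positive parts of) logarithms of absolute values -/
structure PrxVl {M Λ : Type} [Field M] (l : Filter Λ) (φ : M → Λ → ℝ) (c : ℝ) : Prop where
  c0 : 0 ≤ c
  nonneg : ∀ x t, 0 ≤ φ x t
  zero : ∀ᶠ t in l, φ 0 t = 0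
  add : ∀ x y, ∀ᶠ t in l, φ (x + y) t ≤ max (φ x t) (φ y t) + c
  mul : ∀ x y, ∀ᶠ t in l, φ (x * y) t ≤ φ x t + φ y t
  pow : ∀ x (n : ℕ), ∀ᶠ t in l, φ (x ^ n) t = n * φ x t

section

variable {A M Λ σ : Type} [Field A] [Field M] [Algebra A M] [Fintype σ] {l : Filter Λ}
  {φ : M → Λ → ℝ} {c : ℝ}

/-- the bound -/
def PrxBd (A : Type) {M Λ σ : Type} [Field A] [Field M] [Algebra A M] [Fintype σ] (l : Filter Λ)
    (φ : M → Λ → ℝ) (e : σ → M) (x : M) : Prop :=
  ∃ (K : ℕ) (F : Finset A), ∀ᶠ t in l,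
    φ x t ≤ K * (1 + ∑ a ∈ F, φ (algebraMap A M a) t + ∑ s, φ (e s) t)

theorem prx_sum (V : PrxVl l φ c) (z : ℕ → M) (m : ℕ) : ∀ᶠ t in l, ∀ B : ℝ, 0 ≤ B →
    (∀ i < m, φ (z i) t ≤ B) → φ (∑ i ∈ Finset.range m, z i) t ≤ B + c * m := by
  induction m with
  | zero =>
    filter_upwards [V.zero] with t ht B hB _
    simp only [Finset.range_zero, Finset.sum_empty, ht, Nat.cast_zero, mul_zero, add_zero]
    exact hB
  | succ m ih =>
    filter_upwards [ih, V.add (∑ i ∈ Finset.range m, z i) (z m)] with t h1 h2 B hB h3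
    rw [Finset.sum_range_succ]
    have h4 := h1 B hB fun i hi => h3 i (by omega)
    have h5 := h3 m (by omega)
    have h6 : (0 : ℝ) ≤ c * m := mul_nonneg V.c0 (Nat.cast_nonneg m)
    push_cast
    have h7 : max (φ (∑ i ∈ Finset.range m, z i) t) (φ (z m) t) ≤ B + c * m :=
      max_le h4 (by linarith)
    linarith

theorem prx_mono (V : PrxVl l φ c) (e : σ → M) {F F' : Finset A} (hF : F ⊆ F') {K K' : ℕ}
    (hK : K ≤ K') (t : Λ) :
    (K : ℝ) * (1 + ∑ a ∈ F, φ (algebraMap A M a) t + ∑ s, φ (e s) t) ≤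
      (K' : ℝ) * (1 + ∑ a ∈ F', φ (algebraMap A M a) t + ∑ s, φ (e s) t) := by
  have h1 : ∑ a ∈ F, φ (algebraMap A M a) t ≤ ∑ a ∈ F', φ (algebraMap A M a) t :=
    Finset.sum_le_sum_of_subset_of_nonneg hF fun a _ _ => V.nonneg _ _
  have h2 : 0 ≤ ∑ a ∈ F, φ (algebraMap A M a) t := Finset.sum_nonneg fun a _ => V.nonneg _ _
  have h3 : 0 ≤ ∑ s, φ (e s) t := Finset.sum_nonneg fun s _ => V.nonneg _ _
  have h4 : (K : ℝ) ≤ K' := by exact_mod_cast hK
  have h5 : (0 : ℝ) ≤ K := Nat.cast_nonneg K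
  exact mul_le_mul h4 (by linarith) (by linarith) (by linarith)

theorem PrxBd.of_const (V : PrxVl l φ c) (e : σ → M) (a : A) :
    PrxBd A l φ e (algebraMap A M a) := by
  classical
  refine ⟨1, {a}, Eventually.of_forall fun t => ?_⟩
  have h3 : 0 ≤ ∑ s, φ (e s) t := Finset.sum_nonneg fun s _ => V.nonneg _ _
  rw [Finset.sum_singleton]
  push_cast
  linarith

theorem PrxBd.of_gen (V : PrxVl l φ c) (e : σ → M) (s : σ) : PrxBd A l φ e (e s) := by
  classical
  refine ⟨1, ∅, Eventually.of_forall fun t => ?_⟩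
  have h3 : φ (e s) t ≤ ∑ s, φ (e s) t :=
    Finset.single_le_sum (f := fun s => φ (e s) t) (fun s _ => V.nonneg _ _) (Finset.mem_univ s)
  rw [Finset.sum_empty]
  push_cast
  linarith

theorem PrxBd.add (V : PrxVl l φ c) {e : σ → M} {x y : M} (hx : PrxBd A l φ e x)
    (hy : PrxBd A l φ e y) : PrxBd A l φ e (x + y) := by
  classical
  obtain ⟨K, F, h1⟩ := hx
  obtain ⟨K', F', h2⟩ := hy
  obtain ⟨C, hC⟩ := exists_nat_ge c
  refine ⟨K + K' + C, F ∪ F', ?_⟩
  filter_upwards [h1, h2, V.add x y] with t h3 h4 h5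
  have h6 := h3.trans (prx_mono V e (Finset.subset_union_left (s₁ := F) (s₂ := F')) le_rfl t)
  have h7 := h4.trans (prx_mono V e (Finset.subset_union_right (s₁ := F) (s₂ := F')) le_rfl t)
  have h8 : 0 ≤ ∑ a ∈ F ∪ F', φ (algebraMap A M a) t := Finset.sum_nonneg fun a _ => V.nonneg _ _
  have h9 : 0 ≤ ∑ s, φ (e s) t := Finset.sum_nonneg fun s _ => V.nonneg _ _
  have h10 := V.nonneg x t
  have h11 := V.nonneg y t
  have h12 : max (φ x t) (φ y t) ≤ φ x t + φ y t := max_le (by linarith) (by linarith)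
  have h13 : (C : ℝ) ≤ C * (1 + ∑ a ∈ F ∪ F', φ (algebraMap A M a) t + ∑ s, φ (e s) t) := by
    have h14 : (0 : ℝ) ≤ C := Nat.cast_nonneg C
    nlinarith
  push_cast
  linarith

theorem PrxBd.mul (V : PrxVl l φ c) {e : σ → M} {x y : M} (hx : PrxBd A l φ e x)
    (hy : PrxBd A l φ e y) : PrxBd A l φ e (x * y) := by
  classical
  obtain ⟨K, F, h1⟩ := hx
  obtain ⟨K', F', h2⟩ := hy
  refine ⟨K + K', F ∪ F', ?_⟩
  filter_upwards [h1, h2, V.mul x y] with t h3 h4 h5
  have h6 := h3.trans (prx_mono V e (Finset.subset_union_left (s₁ := F) (s₂ := F')) le_rfl t)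
  have h7 := h4.trans (prx_mono V e (Finset.subset_union_right (s₁ := F) (s₂ := F')) le_rfl t)
  push_cast
  linarith

theorem PrxBd.aeval (V : PrxVl l φ c) (e : σ → M) (P : MvPolynomial σ A) :
    PrxBd A l φ e (MvPolynomial.aeval e P) := by
  induction P using MvPolynomial.induction_on with
  | C a =>
    rw [MvPolynomial.aeval_C]
    exact PrxBd.of_const V e a
  | add p q hp hq =>
    rw [map_add]
    exact hp.add V hq
  | mul_X p s hp =>
    rw [map_mul, MvPolynomial.aeval_X]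
    exact hp.mul V (PrxBd.of_gen V e s)

theorem PrxBd.finsum (V : PrxVl l φ c) {e : σ → M} (z : ℕ → M) (m : ℕ)
    (hz : ∀ i, PrxBd A l φ e (z i)) : ∃ (K : ℕ) (F : Finset A), ∀ᶠ t in l,
    ∑ i ∈ Finset.range m, φ (z i) t ≤
      K * (1 + ∑ a ∈ F, φ (algebraMap A M a) t + ∑ s, φ (e s) t) := by
  classical
  induction m with
  | zero =>
    refine ⟨0, ∅, Eventually.of_forall fun t => ?_⟩
    simp
  | succ m ih =>
    obtain ⟨K, F, h1⟩ := ih
    obtain ⟨K', F', h2⟩ := hz m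
    refine ⟨K + K', F ∪ F', ?_⟩
    filter_upwards [h1, h2] with t h3 h4
    rw [Finset.sum_range_succ]
    have h6 := h3.trans (prx_mono V e (Finset.subset_union_left (s₁ := F) (s₂ := F')) le_rfl t)
    have h7 := h4.trans (prx_mono V e (Finset.subset_union_right (s₁ := F) (s₂ := F')) le_rfl t)
    push_cast
    linarith

/-- integral elements -/
theorem PrxBd.integral (V : PrxVl l φ c) (e : σ → M) {x : M}
    {p : Polynomial (MvPolynomial σ A)} (hp : p.Monic)
    (hx : p.eval₂ (MvPolynomial.aeval e).toRingHom x = 0) : PrxBd A l φ e x := by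
  classical
  set n := p.natDegree with hn
  set q : ℕ → M := fun i => MvPolynomial.aeval e (p.coeff i) with hq
  have hn0 : n ≠ 0 := by
    intro h0
    have h1 : p = 1 := Polynomial.eq_one_of_monic_natDegree_zero hp (hn ▸ h0)
    rw [h1, Polynomial.eval₂_one] at hx
    exact one_ne_zero hx
  have hrel : x ^ n = ∑ i ∈ Finset.range n, ((-1) * q i) * x ^ i := by
    rw [Polynomial.eval₂_eq_sum_range, Finset.sum_range_succ, ← hn] at hx
    have h1 : (MvPolynomial.aeval e).toRingHom (p.coeff n) = (1 : M) := by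
      rw [hn, hp.coeff_natDegree, map_one]
    rw [h1, one_mul] at hx
    have h2 : ∑ i ∈ Finset.range n, ((-1) * q i) * x ^ i =
        -∑ i ∈ Finset.range n, (MvPolynomial.aeval e).toRingHom (p.coeff i) * x ^ i := by
      rw [← Finset.sum_neg_distrib]
      refine Finset.sum_congr rfl fun i _ => ?_
      simp only [hq, AlgHom.toRingHom_eq_coe, RingHom.coe_coe]
      ring
    rw [h2]
    linear_combination hx
  have hone : PrxBd A l φ e (-1 : M) := by
    have := PrxBd.of_const (A := A) V e (-1)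
    rwa [map_neg, map_one] at this
  obtain ⟨K, F, h1⟩ := PrxBd.finsum V (fun i => (-1) * q i) n
    fun i => hone.mul V (PrxBd.aeval V e (p.coeff i))
  obtain ⟨C, hC⟩ := exists_nat_ge (c * n)
  have hev : ∀ᶠ t in l, ∀ i ∈ Finset.range n, φ (((-1) * q i) * x ^ i) t ≤
      φ ((-1) * q i) t + i * φ x t := by
    rw [eventually_all_finset]
    intro i _
    filter_upwards [V.mul ((-1) * q i) (x ^ i), V.pow x i] with t h2 h3
    rw [h3] at h2
    exact h2
  refine ⟨K + C, F, ?_⟩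
  filter_upwards [h1, hev, V.pow x n, prx_sum V (fun i => ((-1) * q i) * x ^ i) n]
    with t h2 h3 h4 h5
  have hx0 := V.nonneg x t
  have h6 := h5 (∑ i ∈ Finset.range n, φ ((-1) * q i) t + (n - 1 : ℝ) * φ x t) (by
    have h7 : 0 ≤ ∑ i ∈ Finset.range n, φ ((-1) * q i) t :=
      Finset.sum_nonneg fun i _ => V.nonneg _ _
    have h8 : (1 : ℝ) ≤ n := by exact_mod_cast Nat.one_le_iff_ne_zero.2 hn0
    have h9 : 0 ≤ (n - 1 : ℝ) * φ x t := mul_nonneg (by linarith) hx0
    linarith) (fun i hi => by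
    refine (h3 i (Finset.mem_range.2 hi)).trans ?_
    have h7 : φ ((-1) * q i) t ≤ ∑ i ∈ Finset.range n, φ ((-1) * q i) t :=
      Finset.single_le_sum (f := fun i => φ ((-1) * q i) t) (fun s _ => V.nonneg _ _)
        (Finset.mem_range.2 hi)
    have h8 : (i : ℝ) ≤ n - 1 := by
      have : i + 1 ≤ n := hi
      have h9 : ((i + 1 : ℕ) : ℝ) ≤ n := by exact_mod_cast this
      push_cast at h9
      linarith
    have h10 := mul_le_mul_of_nonneg_right h8 hx0
    linarith)
  rw [← hrel, h4] at h6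
  have h8 : 0 ≤ ∑ a ∈ F, φ (algebraMap A M a) t := Finset.sum_nonneg fun a _ => V.nonneg _ _
  have h9 : 0 ≤ ∑ s, φ (e s) t := Finset.sum_nonneg fun s _ => V.nonneg _ _
  have h13 : (C : ℝ) ≤ C * (1 + ∑ a ∈ F, φ (algebraMap A M a) t + ∑ s, φ (e s) t) := by
    have h14 : (0 : ℝ) ≤ C := Nat.cast_nonneg C
    nlinarith
  push_cast
  linarith

end

section

variable {A M Λ : Type} [Field A] [Field M] [Algebra A M] {l : Filter Λ} {φ : M → Λ → ℝ} {c : ℝ}

/-- the bound without the quotients -/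
theorem prx_asm (V : PrxVl l φ c) {q J : ℕ} (y : Fin q → M) (v : Fin (J + 1) → M) (g : M)
    (hint : ∀ i0, y i0 ≠ 0 → ∃ p : Polynomial (MvPolynomial (Fin q ⊕ Fin (J + 1)) A), p.Monic ∧
      p.eval₂ (MvPolynomial.aeval (Sum.elim (fun a => y a / y i0) v)).toRingHom g = 0)
    (hmax : ∀ᶠ t in l, ∃ i0, y i0 ≠ 0 ∧ ∀ a, φ (y a / y i0) t = 0) :
    ∃ (K : ℕ) (F : Finset A), ∀ᶠ t in l,
      φ g t ≤ K * (1 + ∑ a ∈ F, φ (algebraMap A M a) t + ∑ j, φ (v j) t) := by
  classical
  have h0 : ∀ i : {i : Fin q // y i ≠ 0},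
      PrxBd A l φ (Sum.elim (fun a => y a / y i.1) v) g := by
    intro i
    obtain ⟨p, hp, hpg⟩ := hint i.1 i.2
    exact PrxBd.integral V _ hp hpg
  choose K F hKF using h0
  refine ⟨∑ i, K i, Finset.univ.biUnion F, ?_⟩
  have h1 : ∀ᶠ t in l, ∀ i, φ g t ≤ K i * (1 + ∑ a ∈ F i, φ (algebraMap A M a) t +
      ∑ s, φ ((Sum.elim (fun a => y a / y i.1) v : Fin q ⊕ Fin (J + 1) → M) s) t) := by
    rw [eventually_all]
    exact hKF
  filter_upwards [h1, hmax] with t h2 ⟨i0, hi0, h3⟩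
  have h4 := h2 ⟨i0, hi0⟩
  rw [Fintype.sum_sum_type] at h4
  simp only [Sum.elim_inl, Sum.elim_inr, h3, Finset.sum_const_zero, zero_add] at h4
  refine h4.trans ?_
  exact prx_mono V v (Finset.subset_biUnion_of_mem F (Finset.mem_univ _))
    (Finset.single_le_sum (f := K) (fun _ _ => Nat.zero_le _) (Finset.mem_univ _)) t

end

/-! ### proximity functions -/

open MeasureTheory Set Topology Metric Real ValueDistribution MeromorphicOn Function
open Asymptotics MvPolynomial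
open Pool.Agent.N131.SR (NZ)

theorem prx_codis {g : ℂ → ℂ} (hg : Meromorphic g) {ι : Type} (F : Finset ι) (x : ι → ℂ → ℂ)
    (hx : ∀ i, Meromorphic (x i)) (K : ℝ)
    (h : ∀ᶠ z in codiscrete ℂ, log⁺ ‖g z‖ ≤ K * (1 + ∑ i ∈ F, log⁺ ‖x i z‖)) {r : ℝ}
    (hr : r ≠ 0) :
    proximity g ⊤ r ≤ K * (1 + ∑ i ∈ F, proximity (x i) ⊤ r) := by
  have c1 : CircleIntegrable (fun z => log⁺ ‖g z‖) 0 r :=
    (hg.meromorphicOn (s := sphere (0 : ℂ) |r|)).circleIntegrable_posLog_norm
  have cx : ∀ i ∈ F, CircleIntegrable (fun z => log⁺ ‖x i z‖) 0 r := fun i _ =>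
    ((hx i).meromorphicOn (s := sphere (0 : ℂ) |r|)).circleIntegrable_posLog_norm
  have cs : CircleIntegrable (fun z => ∑ i ∈ F, log⁺ ‖x i z‖) 0 r := by
    have h1 := CircleIntegrable.sum F cx
    have h2 : (∑ i ∈ F, fun z => log⁺ ‖x i z‖) = fun z => ∑ i ∈ F, log⁺ ‖x i z‖ := by
      funext z
      rw [Finset.sum_apply]
    rwa [h2] at h1
  have c1' : CircleIntegrable (fun _ : ℂ => (1 : ℝ)) 0 r := circleIntegrable_const _ _ _
  have ca : CircleIntegrable (fun z => 1 + ∑ i ∈ F, log⁺ ‖x i z‖) 0 r := c1'.add cs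
  have c2 : CircleIntegrable (fun z => K * (1 + ∑ i ∈ F, log⁺ ‖x i z‖)) 0 r := by
    have h1 := CircleIntegrable.const_smul (a := K) ca
    exact h1
  have he : (fun z => log⁺ ‖g z‖) =ᶠ[codiscreteWithin (sphere 0 |r|)]
      fun z => min (log⁺ ‖g z‖) (K * (1 + ∑ i ∈ F, log⁺ ‖x i z‖)) := by
    have h1 : ∀ᶠ z in codiscreteWithin (sphere (0 : ℂ) |r|),
        log⁺ ‖g z‖ ≤ K * (1 + ∑ i ∈ F, log⁺ ‖x i z‖) :=
      h.filter_mono (codiscreteWithin_mono (by tauto))
    filter_upwards [h1] with z hz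
    exact (min_eq_left hz).symm
  have c3 := c1.congr_codiscreteWithin he
  have e1 : proximity g ⊤ r = circleAverage (fun z => log⁺ ‖g z‖) 0 r := by
    rw [proximity_top]
  rw [e1, circleAverage_congr_codiscreteWithin he hr]
  refine (circleAverage_mono c3 c2 fun z _ => min_le_right _ _).trans (le_of_eq ?_)
  have e2 : circleAverage (fun z => K * (1 + ∑ i ∈ F, log⁺ ‖x i z‖)) 0 r =
      K • circleAverage (fun z => 1 + ∑ i ∈ F, log⁺ ‖x i z‖) 0 r :=
    circleAverage_fun_smul (a := K) (f := fun z => 1 + ∑ i ∈ F, log⁺ ‖x i z‖)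
  rw [e2, circleAverage_fun_add c1' cs, circleAverage_const, circleAverage_fun_sum cx, smul_eq_mul]
  congr 2

variable {L : Idx → Filter ℝ} {τ : Idx × ℝ → ℝ}

theorem prx_px (H : Cmp L τ) {ι : Type} (F : Finset ι) (x : ι → MF) (g : MF) (K : ℕ)
    (hx : ∀ i ∈ F, px (rp (x i)) =o[Lf L] τ)
    (h : ∀ᶠ p in cod, log⁺ ‖rp g p‖ ≤ K * (1 + ∑ i ∈ F, log⁺ ‖rp (x i) p‖)) :
    px (rp g) =o[Lf L] τ := by
  have h1 : (∑ i ∈ F, px (rp (x i))) =o[Lf L] τ := IsLittleO.sum hx
  have h2 : (fun p => (K : ℝ) * ((fun _ => (1 : ℝ)) p + (∑ i ∈ F, px (rp (x i))) p)) =o[Lf L] τ :=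
    ((H.const fun _ => 1).add h1).const_mul_left _
  refine o_of_ev (Lf_of_ev H ?_) h2
  rw [ev_cod] at h
  refine h.mono fun k hk r hr => ⟨px_nonneg _ k r, ?_⟩
  have h3 := prx_codis (rp_mero g k) F (fun i => sl (rp (x i)) k) (fun i => rp_mero (x i) k) K hk
    (r := r) (by positivity)
  rw [Finset.sum_apply]
  exact h3

/-! ### representatives -/

theorem prx_rp {x : MF} {a : Pt → ℂ} (ha : Mero a) (h : mf a ha = x) :
    ∀ᶠ p in cod, rp x p = a p := by
  subst h
  exact mf_eq.1 (mf_rp _)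

theorem prx_rp_add (x y : MF) : ∀ᶠ p in cod, rp (x + y) p = rp x p + rp y p :=
  prx_rp ((rp_mero x).add (rp_mero y)) (by rw [← mf_add (rp_mero x) (rp_mero y), mf_rp, mf_rp])

theorem prx_rp_mul (x y : MF) : ∀ᶠ p in cod, rp (x * y) p = rp x p * rp y p :=
  prx_rp ((rp_mero x).mul (rp_mero y)) (by rw [← mf_mul (rp_mero x) (rp_mero y), mf_rp, mf_rp])

theorem prx_rp_div (x y : MF) : ∀ᶠ p in cod, rp (x / y) p = rp x p / rp y p :=
  prx_rp ((rp_mero x).div (rp_mero y)) (by rw [← mf_div (rp_mero x) (rp_mero y), mf_rp, mf_rp])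

theorem prx_rp_pow (x : MF) (n : ℕ) : ∀ᶠ p in cod, rp (x ^ n) p = rp x p ^ n :=
  prx_rp (mero_pow (rp_mero x) n) (by rw [← mf_pow (rp_mero x), mf_rp])

theorem prx_rp_zero : ∀ᶠ p in cod, rp 0 p = 0 :=
  prx_rp (mero_const fun _ => 0) mf_zero.symm

theorem prx_V1 : PrxVl cod (fun (x : MF) (p : Pt) => log⁺ ‖rp x p‖) (Real.log 2) where
  c0 := Real.log_nonneg (by norm_num)
  nonneg := fun _ _ => posLog_nonneg
  zero := by
    filter_upwards [prx_rp_zero] with p hp
    rw [hp, norm_zero, posLog_zero]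
  add := fun x y => by
    filter_upwards [prx_rp_add x y] with p hp
    rw [hp]
    have h1 : ‖rp x p + rp y p‖ ≤ 2 * max ‖rp x p‖ ‖rp y p‖ := by
      have h2 := norm_add_le (rp x p) (rp y p)
      have h3 := le_max_left ‖rp x p‖ ‖rp y p‖
      have h4 := le_max_right ‖rp x p‖ ‖rp y p‖
      linarith
    have h5 : log⁺ (2 : ℝ) = Real.log 2 := posLog_eq_log (by norm_num)
    have h6 : log⁺ (max ‖rp x p‖ ‖rp y p‖) ≤ max (log⁺ ‖rp x p‖) (log⁺ ‖rp y p‖) := by
      rcases le_total ‖rp x p‖ ‖rp y p‖ with h7 | h7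
      · rw [max_eq_right h7]
        exact le_max_right _ _
      · rw [max_eq_left h7]
        exact le_max_left _ _
    have h8 := (posLog_le_posLog (norm_nonneg _) h1).trans posLog_mul
    linarith
  mul := fun x y => by
    filter_upwards [prx_rp_mul x y] with p hp
    rw [hp, norm_mul]
    exact posLog_mul
  pow := fun x n => by
    filter_upwards [prx_rp_pow x n] with p hp
    rw [hp, norm_pow, posLog_pow]

/-- at almost all members, at all points -/
noncomputable def prxF : Filter Pt := (U : Filter Idx).bind fun k => (⊤ : Filter ℂ).map (Prod.mk k)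

theorem ev_prxF {P : Pt → Prop} :
    (∀ᶠ p in prxF, P p) ↔ ∀ᶠ k in (U : Filter Idx), ∀ z, P (k, z) := by
  refine Filter.eventually_bind.trans ?_
  simp only [Filter.eventually_map, Filter.eventually_top]

/-- the order of the pole from the order -/
def prxP (w : WithTop ℤ) : ℤ := max 0 (-(w.untopD 0))

theorem prxP_nonneg (w : WithTop ℤ) : 0 ≤ prxP w := le_max_left _ _

theorem prxP_anti {w w' : WithTop ℤ} (h : w ≤ w') : prxP w' ≤ prxP w := by
  cases w' with
  | top =>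
    have : prxP ⊤ = 0 := by simp [prxP]
    rw [this]
    exact prxP_nonneg w
  | coe b =>
    cases w with
    | top => exact absurd (top_le_iff.1 h) (by simp)
    | coe a =>
      have h1 : a ≤ b := by exact_mod_cast h
      show max 0 (-b) ≤ max 0 (-a)
      exact max_le_max le_rfl (by omega)

theorem prxP_min (w w' : WithTop ℤ) : prxP (min w w') ≤ max (prxP w) (prxP w') := by
  rcases le_total w w' with h | h
  · rw [min_eq_left h]
    exact le_max_left _ _
  · rw [min_eq_right h]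
    exact le_max_right _ _

theorem prxP_add (w w' : WithTop ℤ) : prxP (w + w') ≤ prxP w + prxP w' := by
  cases w with
  | top =>
    rw [top_add]
    have : prxP ⊤ = 0 := by simp [prxP]
    rw [this]
    exact add_nonneg le_rfl (prxP_nonneg w')
  | coe a =>
    cases w' with
    | top =>
      rw [add_top]
      have : prxP ⊤ = 0 := by simp [prxP]
      rw [this]
      exact add_nonneg (prxP_nonneg _) le_rfl
    | coe b =>
      show max 0 (-(a + b)) ≤ max 0 (-a) + max 0 (-b)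
      omega

theorem prxP_nmul (w : WithTop ℤ) (n : ℕ) : prxP ((n : WithTop ℤ) * w) = n * prxP w := by
  rcases Nat.eq_zero_or_pos n with h | h
  · subst h
    simp [prxP]
  cases w with
  | top =>
    have h1 : ((n : WithTop ℤ) * (⊤ : WithTop ℤ)) = ⊤ := by
      apply WithTop.mul_top
      exact_mod_cast h.ne'
    have : prxP ⊤ = 0 := by simp [prxP]
    rw [h1, this, mul_zero]
  | coe a =>
    have h1 : ((n : WithTop ℤ) * ((a : ℤ) : WithTop ℤ)) = (((n : ℤ) * a : ℤ) : WithTop ℤ) := by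
      rw [WithTop.coe_mul]
      rfl
    rw [h1]
    show max 0 (-((n : ℤ) * a)) = n * max 0 (-a)
    have h2 : (0 : ℤ) < n := by exact_mod_cast h
    rcases le_total a 0 with h3 | h3
    · have e1 : max 0 (-a) = -a := max_eq_right (by omega)
      have e2 : max 0 (-((n : ℤ) * a)) = -((n : ℤ) * a) := max_eq_right (by nlinarith)
      rw [e1, e2]
      ring
    · have e1 : max 0 (-a) = 0 := max_eq_left (by omega)
      have e2 : max 0 (-((n : ℤ) * a)) = 0 := max_eq_left (by nlinarith)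
      rw [e1, e2, mul_zero]

theorem prx_po (x : MF) (k : Idx) (z : ℂ) : po x k z = prxP (om x k z) := rfl

theorem prx_om {x : MF} {a : Pt → ℂ} (h : ∀ᶠ p in cod, rp x p = a p) :
    ∀ᶠ p in prxF, om x p.1 p.2 = meromorphicOrderAt (sl a p.1) p.2 := by
  rw [ev_prxF]
  exact od_congr h

theorem prx_V2 : PrxVl prxF (fun (x : MF) (p : Pt) => (po x p.1 p.2 : ℝ)) 0 where
  c0 := le_rfl
  nonneg := fun x p => by
    show (0 : ℝ) ≤ (po x p.1 p.2 : ℝ)
    exact_mod_cast prxP_nonneg _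
  zero := by
    filter_upwards [prx_om prx_rp_zero] with p hp
    rw [prx_po, hp]
    have h1 : meromorphicOrderAt (sl (fun _ : Pt => (0 : ℂ)) p.1) p.2 = ⊤ := by
      rw [meromorphicOrderAt_eq_top_iff]
      exact Eventually.of_forall fun _ => rfl
    rw [h1]
    simp [prxP]
  add := fun x y => by
    filter_upwards [prx_om (prx_rp_add x y)] with p hp
    rw [prx_po, hp, prx_po, prx_po, add_zero]
    have h1 : min (om x p.1 p.2) (om y p.1 p.2) ≤
        meromorphicOrderAt (sl (fun p => rp x p + rp y p) p.1) p.2 :=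
      meromorphicOrderAt_add (rp_mero x p.1 p.2) (rp_mero y p.1 p.2)
    exact_mod_cast (prxP_anti h1).trans (prxP_min _ _)
  mul := fun x y => by
    filter_upwards [prx_om (prx_rp_mul x y)] with p hp
    rw [prx_po, hp, prx_po, prx_po]
    have h1 : meromorphicOrderAt (sl (fun p => rp x p * rp y p) p.1) p.2 =
        om x p.1 p.2 + om y p.1 p.2 :=
      meromorphicOrderAt_mul (rp_mero x p.1 p.2) (rp_mero y p.1 p.2)
    rw [h1]
    exact_mod_cast prxP_add _ _
  pow := fun x n => by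
    filter_upwards [prx_om (prx_rp_pow x n)] with p hp
    rw [prx_po, hp, prx_po]
    have h1 : meromorphicOrderAt (sl (fun p => rp x p ^ n) p.1) p.2 =
        (n : WithTop ℤ) * om x p.1 p.2 :=
      meromorphicOrderAt_pow (rp_mero x p.1 p.2)
    rw [h1, prxP_nmul]
    push_cast
    rfl

/-! ### the generic choice of the denominators -/

theorem prx_max1 {q : ℕ} (y : Fin q → MF) (hy : ∃ i0, y i0 ≠ 0) : ∀ᶠ p in cod, ∃ i0, y i0 ≠ 0 ∧
    ∀ a, log⁺ ‖rp (y a / y i0) p‖ = 0 := by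
  classical
  obtain ⟨i1, hi1⟩ := hy
  have : Nonempty {i : Fin q // y i ≠ 0} := ⟨⟨i1, hi1⟩⟩
  have h1 : ∀ᶠ p in cod, ∀ a i, rp (y a / y i) p = rp (y a) p / rp (y i) p := by
    rw [eventually_all]
    intro a
    rw [eventually_all]
    intro i
    exact prx_rp_div _ _
  have h2 : ∀ᶠ p in cod, ∀ a, y a = 0 → rp (y a) p = 0 := by
    rw [eventually_all]
    intro a
    by_cases ha : y a = 0
    · rw [ha]
      filter_upwards [prx_rp_zero] with p hp _
      exact hp
    · exact Eventually.of_forall fun p h => absurd h ha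
  filter_upwards [h1, h2] with p h3 h4
  obtain ⟨i0, hi0⟩ := Finite.exists_max fun i : {i : Fin q // y i ≠ 0} => ‖rp (y i.1) p‖
  refine ⟨i0.1, i0.2, fun a => ?_⟩
  rw [h3, posLog_eq_zero_iff, abs_of_nonneg (norm_nonneg _), norm_div]
  by_cases ha : y a = 0
  · rw [h4 a ha, norm_zero, zero_div]
    exact zero_le_one
  · exact div_le_one_of_le₀ (hi0 ⟨a, ha⟩) (norm_nonneg _)

theorem prx_max2 {q : ℕ} (y : Fin q → MF) (hy : ∃ i0, y i0 ≠ 0) :
    ∀ᶠ p in prxF, ∃ i0, y i0 ≠ 0 ∧ ∀ a, (po (y a / y i0) p.1 p.2 : ℝ) = 0 := by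
  classical
  obtain ⟨i1, hi1⟩ := hy
  have : Nonempty {i : Fin q // y i ≠ 0} := ⟨⟨i1, hi1⟩⟩
  have h1 : ∀ᶠ p in prxF, ∀ a i, om (y a / y i) p.1 p.2 = om (y a) p.1 p.2 + -(om (y i) p.1 p.2) := by
    rw [eventually_all]
    intro a
    rw [eventually_all]
    intro i
    filter_upwards [prx_om (prx_rp_div (y a) (y i))] with p hp
    rw [hp]
    have h2 : (sl (fun p => rp (y a) p / rp (y i) p) p.1) =
        (sl (rp (y a)) p.1) * (sl (rp (y i)) p.1)⁻¹ := by
      funext z
      exact div_eq_mul_inv _ _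
    rw [h2, meromorphicOrderAt_mul (rp_mero (y a) p.1 p.2) (rp_mero (y i) p.1 p.2).inv,
      meromorphicOrderAt_inv]
    rfl
  have h2 : ∀ᶠ p in prxF, ∀ a, y a ≠ 0 → om (y a) p.1 p.2 ≠ ⊤ := by
    rw [eventually_all]
    intro a
    by_cases ha : y a = 0
    · exact Eventually.of_forall fun p h => absurd ha h
    · have h3 : mf (rp (y a)) (rp_mero (y a)) ≠ 0 := by
        rw [mf_rp]
        exact ha
      rw [ev_prxF]
      filter_upwards [mf_ne_zero h3] with k hk z _
      exact hk z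
  have h5 : ∀ᶠ p in prxF, (po (0 : MF) p.1 p.2 : ℝ) = 0 := prx_V2.zero
  filter_upwards [h1, h2, h5] with p h3 h4 h6
  obtain ⟨i0, hi0⟩ := Finite.exists_min fun i : {i : Fin q // y i ≠ 0} => om (y i.1) p.1 p.2
  refine ⟨i0.1, i0.2, fun a => ?_⟩
  by_cases ha : y a = 0
  · rw [ha, zero_div]
    exact h6
  · have h7 : prxP (om (y a / y i0.1) p.1 p.2) = 0 := by
      rw [h3]
      have h8 := h4 a ha
      have h9 := h4 i0.1 i0.2
      have h10 : om (y i0.1) p.1 p.2 ≤ om (y a) p.1 p.2 := hi0 ⟨a, ha⟩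
      generalize om (y a) p.1 p.2 = u at *
      generalize om (y i0.1) p.1 p.2 = w at *
      cases u with
      | top => exact absurd rfl h8
      | coe u =>
        cases w with
        | top => exact absurd rfl h9
        | coe w =>
          have h11 : w ≤ u := by exact_mod_cast h10
          show max 0 (-(u + -w)) = 0
          exact max_eq_left (by omega)
    rw [prx_po, h7]
    exact Int.cast_zero

/-! ### the logarithmic derivatives -/

theorem prx_gg (H : Cmp L τ) {b : MF} (hb : b ∈ obf H) (hb0 : b ≠ 0) (j : ℕ) :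
    ∃ (a : Pt → ℂ) (ha : Mero a), GG L τ a ∧ mf a ha = DM^[j] b / b := by
  have hbo : OT L τ (rp b) := by
    have h1 : mf (rp b) (rp_mero b) ∈ obf H := by
      rw [mf_rp]
      exact hb
    exact (mem_obf.1 h1).ot H
  have hl : mf (ldv (rp b)) (rp_mero b).ldv = DM b / b := by
    have e := DM_mf (rp_mero b)
    have e2 := mf_div (rp_mero b).dv (rp_mero b)
    rw [← e, mf_rp] at e2
    rw [e2, mf_eq]
    exact Eventually.of_forall fun p => ldv_apply _ _
  induction j with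
  | zero =>
    refine ⟨fun _ => 1, mero_const fun _ => 1, gg_const H fun _ => 1, ?_⟩
    rw [Function.iterate_zero_apply, div_self hb0, mf_one]
  | succ j ih =>
    obtain ⟨a, ha, hg, he⟩ := ih
    have hg2 := gg_ld H hbo
    refine ⟨fun p => dv a p + a p * ldv (rp b) p, ha.dv.add (ha.mul (rp_mero b).ldv),
      (hg.deriv H).add H (hg.mul H hg2), ?_⟩
    rw [← mf_add ha.dv (ha.mul (rp_mero b).ldv), ← mf_mul ha (rp_mero b).ldv, ← DM_mf ha, he, hl,
      Function.iterate_succ_apply']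
    set x := DM^[j] b with hx
    have h1 : DM x = (x / b) * DM b + b * DM (x / b) := by
      have h2 : x = (x / b) * b := (div_mul_cancel₀ x hb0).symm
      nth_rewrite 1 [h2]
      rw [Derivation.leibniz, smul_eq_mul, smul_eq_mul]
    rw [h1, add_div, mul_div_assoc, mul_div_cancel_left₀ _ hb0]
    ring

theorem prx_gg_rp (H : Cmp L τ) {x : MF} (hx : ∃ (a : Pt → ℂ) (ha : Mero a), GG L τ a ∧
    mf a ha = x) : px (rp x) =o[Lf L] τ ∧ ∃ M : ℕ, ∀ᶠ p in prxF, (po x p.1 p.2 : ℝ) ≤ M := by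
  obtain ⟨a, ha, hg, he⟩ := hx
  have h1 := prx_rp ha he
  constructor
  · refine o_of_ev (Lf_of_ev H ((ch_congr h1).mono fun k hk r hr => ?_)) hg.pr
    exact ⟨px_nonneg _ k r, ((hk r (by positivity)).2).le⟩
  · obtain ⟨M, hM⟩ := hg.pl
    refine ⟨M, ?_⟩
    have h2 : ∀ᶠ p in prxF, ((-(M : ℤ) : ℤ) : WithTop ℤ) ≤ meromorphicOrderAt (sl a p.1) p.2 := by
      rw [ev_prxF]
      exact hM
    filter_upwards [h2, prx_om h1] with p h3 h4
    rw [prx_po, h4]
    have h5 := prxP_anti h3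
    have h6 : prxP ((-(M : ℤ) : ℤ) : WithTop ℤ) = M := by
      show max 0 (-(-(M : ℤ))) = M
      omega
    rw [h6] at h5
    exact_mod_cast h5

theorem t_PRX : S_PRX := by
  classical
  intro L τ H q J b y g hb hb0 hy hint
  have hv : ∀ j : Fin (J + 1), px (rp (DM^[(j : ℕ)] b / b)) =o[Lf L] τ ∧
      ∃ M : ℕ, ∀ᶠ p in prxF, (po (DM^[(j : ℕ)] b / b) p.1 p.2 : ℝ) ≤ M :=
    fun j => prx_gg_rp H (prx_gg H hb hb0 j)
  constructor
  · obtain ⟨K, F, hK⟩ := prx_asm prx_V1 y (fun j : Fin (J + 1) => DM^[(j : ℕ)] b / b) g hint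
      (prx_max1 y hy)
    let X : (smf H) ⊕ Fin (J + 1) → MF := Sum.elim (fun a => algebraMap (smf H) MF a)
      fun j => DM^[(j : ℕ)] b / b
    refine prx_px H (F.disjSum Finset.univ) X g K ?_ ?_
    · intro i hi
      cases i with
      | inl a =>
        show px (rp (a : MF)) =o[Lf L] τ
        have h1 : mf (rp (a : MF)) (rp_mero (a : MF)) ∈ smf H := by
          rw [mf_rp]
          exact a.2
        have h2 : ch (rp (a : MF)) =o[Lf L] τ := (mem_smf.1 h1).2
        refine H.o_of_le (fun k r hr => ⟨px_nonneg _ k r, ?_⟩) h2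
        have h3 : 0 ≤ ValueDistribution.logCounting (sl (rp (a : MF)) k) ⊤ r :=
          logCounting_nonneg hr
        show proximity (sl (rp (a : MF)) k) ⊤ r ≤ characteristic (sl (rp (a : MF)) k) ⊤ r
        unfold characteristic
        simp only [Pi.add_apply]
        linarith
      | inr j => exact (hv j).1
    · filter_upwards [hK] with p hp
      rw [Finset.sum_disjSum]
      rw [add_assoc] at hp
      exact hp
  · obtain ⟨K, F, hK⟩ := prx_asm prx_V2 y (fun j : Fin (J + 1) => DM^[(j : ℕ)] b / b) g hint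
      (prx_max2 y hy)
    choose M hM using fun j => (hv j).2
    let e := F.equivFin
    refine ⟨K * (1 + ∑ j, M j), F.card, fun l => ((e.symm l).1 : MF), fun l => (e.symm l).1.2, ?_⟩
    have hM' : ∀ᶠ p in prxF, ∀ j : Fin (J + 1), (po (DM^[(j : ℕ)] b / b) p.1 p.2 : ℝ) ≤ M j := by
      rw [eventually_all]
      exact hM
    have h1 : ∀ᶠ p in prxF, -(((K * (1 + ∑ j, M j) : ℕ) : ℤ) *
        (1 + ∑ l, po ((e.symm l).1 : MF) p.1 p.2)) ≤ (om g p.1 p.2).untopD 0 := by
      filter_upwards [hK, hM'] with p h2 h3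
      have h4 : ∑ j, (po (DM^[((j : Fin (J + 1)) : ℕ)] b / b) p.1 p.2 : ℝ) ≤ ∑ j, (M j : ℝ) :=
        Finset.sum_le_sum fun j _ => h3 j
      have h5 : ∑ l, po ((e.symm l).1 : MF) p.1 p.2 = ∑ a ∈ F, po (a : MF) p.1 p.2 := by
        rw [← Finset.sum_coe_sort F (fun a => po (a : MF) p.1 p.2)]
        exact Equiv.sum_comp e.symm (fun a : F => po ((a : smf H) : MF) p.1 p.2)
      rw [h5]
      set s := ∑ a ∈ F, po (a : MF) p.1 p.2 with hs
      have hs0 : 0 ≤ s := Finset.sum_nonneg fun a _ => prxP_nonneg _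
      have h6 : ∑ a ∈ F, (po (algebraMap (smf H) MF a) p.1 p.2 : ℝ) = (s : ℝ) := by
        rw [hs]
        push_cast
        rfl
      rw [h6] at h2
      have h7 : (po g p.1 p.2 : ℝ) ≤ K * (1 + s + ∑ j, (M j : ℝ)) :=
        h2.trans (mul_le_mul_of_nonneg_left (by linarith) (Nat.cast_nonneg K))
      have h8 : po g p.1 p.2 ≤ K * (1 + s + ∑ j, (M j : ℤ)) := by
        have h9 : (po g p.1 p.2 : ℝ) ≤ ((K * (1 + s + ∑ j, (M j : ℤ)) : ℤ) : ℝ) := by
          push_cast
          exact h7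
        exact_mod_cast h9
      have h10 : -((om g p.1 p.2).untopD 0) ≤ po g p.1 p.2 := le_max_right _ _
      have h11 : (0 : ℤ) ≤ ∑ j, (M j : ℤ) := Finset.sum_nonneg fun j _ => Int.natCast_nonneg _
      have h12 : (K : ℤ) * (1 + s + ∑ j, (M j : ℤ)) ≤ K * ((1 + ∑ j, (M j : ℤ)) * (1 + s)) := by
        apply mul_le_mul_of_nonneg_left _ (Int.natCast_nonneg K)
        nlinarith
      push_cast
      linarith
    rw [ev_prxF] at h1
    exact h1

end Pool.Agent.N131.SV
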