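import Pool.Agent.N131.SV.Stm2

/-!
Small sequences of sets.
-/

set_option autoImplicit false

namespace Pool.Agent.N131.SV

open MeasureTheory Set Filter Topology Metric Real ValueDistribution MeromorphicOn Function
open Asymptotics
open Pool.Agent.N131.SR (NZ Nb zeros_finite)

theorem sms_term {r : ℝ} (z : ℂ) (hz : ‖z‖ ≤ r) : 0 ≤ Real.log (r / ‖z‖) := by
  rcases eq_or_ne z 0 with h0 | h0
  · rw [h0]
    simp
  · exact Real.log_nonneg ((one_le_div (norm_pos_iff.2 h0)).2 hz)

theorem sms_ind (B : Set ℂ) : 0 ≤ B.indicator (1 : ℂ → ℝ) 0 :=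
  Set.indicator_nonneg (fun _ _ => zero_le_one) 0

theorem sms_nonneg (B : Set ℂ) {r : ℝ} (hr : 1 ≤ r) : 0 ≤ Nc B r := by
  unfold Nc
  apply add_nonneg
  · apply finsum_nonneg
    intro z
    apply finsum_nonneg
    rintro ⟨-, hz⟩
    exact sms_term z hz
  · exact mul_nonneg (sms_ind B) (Real.log_nonneg hr)

theorem sms_eq (B : Set ℂ) (r : ℝ) (hf : {z : ℂ | z ∈ B ∧ ‖z‖ ≤ r}.Finite) :
    Nc B r = ∑ z ∈ hf.toFinset, Real.log (r / ‖z‖) + B.indicator 1 0 * Real.log r := by
  unfold Nc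
  rw [finsum_mem_eq_finite_toFinset_sum _ hf]

theorem sms_mono {B B' : Set ℂ} (h : B ⊆ B') {r : ℝ} (hr : 1 ≤ r)
    (hf : {z : ℂ | z ∈ B' ∧ ‖z‖ ≤ r}.Finite) : Nc B r ≤ Nc B' r := by
  have hs : {z : ℂ | z ∈ B ∧ ‖z‖ ≤ r} ⊆ {z : ℂ | z ∈ B' ∧ ‖z‖ ≤ r} := fun z hz => ⟨h hz.1, hz.2⟩
  rw [sms_eq B r (hf.subset hs), sms_eq B' r hf]
  refine add_le_add ?_ (mul_le_mul_of_nonneg_right ?_ (Real.log_nonneg hr))
  · refine Finset.sum_le_sum_of_subset_of_nonneg ?_ fun z hz _ => ?_
    · exact Set.Finite.toFinset_subset_toFinset.2 hs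
    · exact sms_term z ((Set.Finite.mem_toFinset hf).1 hz).2
  · exact Set.indicator_le_indicator_of_subset h (fun _ => zero_le_one) 0

theorem sms_union {B B' : Set ℂ} {r : ℝ} (hr : 1 ≤ r) (hf : {z : ℂ | z ∈ B ∧ ‖z‖ ≤ r}.Finite)
    (hf' : {z : ℂ | z ∈ B' ∧ ‖z‖ ≤ r}.Finite) : Nc (B ∪ B') r ≤ Nc B r + Nc B' r := by
  classical
  have e : {z : ℂ | z ∈ B ∪ B' ∧ ‖z‖ ≤ r} = {z : ℂ | z ∈ B ∧ ‖z‖ ≤ r} ∪ {z : ℂ | z ∈ B' ∧ ‖z‖ ≤ r} := by
    ext z
    constructor
    · rintro ⟨h1 | h1, h2⟩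
      · exact Or.inl ⟨h1, h2⟩
      · exact Or.inr ⟨h1, h2⟩
    · rintro (⟨h1, h2⟩ | ⟨h1, h2⟩)
      · exact ⟨Or.inl h1, h2⟩
      · exact ⟨Or.inr h1, h2⟩
  have hfu : {z : ℂ | z ∈ B ∪ B' ∧ ‖z‖ ≤ r}.Finite := by
    rw [e]
    exact hf.union hf'
  rw [sms_eq _ r hfu, sms_eq B r hf, sms_eq B' r hf']
  have h1 : ∑ z ∈ hfu.toFinset, Real.log (r / ‖z‖) ≤
      ∑ z ∈ hf.toFinset, Real.log (r / ‖z‖) + ∑ z ∈ hf'.toFinset, Real.log (r / ‖z‖) := by
    rw [← Finset.sum_union_inter]
    have h2 : hfu.toFinset = hf.toFinset ∪ hf'.toFinset := by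
      ext z
      simp only [Set.Finite.mem_toFinset, Finset.mem_union]
      rw [e]
      rfl
    rw [h2]
    have h3 : 0 ≤ ∑ z ∈ hf.toFinset ∩ hf'.toFinset, Real.log (r / ‖z‖) := by
      refine Finset.sum_nonneg fun z hz => ?_
      exact sms_term z ((Set.Finite.mem_toFinset hf).1 (Finset.mem_inter.1 hz).1).2
    linarith
  have h4 : (B ∪ B').indicator (1 : ℂ → ℝ) 0 ≤ B.indicator 1 0 + B'.indicator 1 0 := by
    have hB := sms_ind B
    have hB' := sms_ind B'
    by_cases hu : (0 : ℂ) ∈ B ∪ B'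
    · rw [Set.indicator_of_mem hu]
      rcases hu with hu | hu
      · rw [Set.indicator_of_mem hu]
        linarith
      · rw [Set.indicator_of_mem hu]
        linarith
    · rw [Set.indicator_of_notMem hu]
      linarith
  have h5 := mul_le_mul_of_nonneg_right h4 (Real.log_nonneg hr)
  linarith

theorem sms_empty (r : ℝ) : Nc ∅ r = 0 := by
  have hf : {z : ℂ | z ∈ (∅ : Set ℂ) ∧ ‖z‖ ≤ r}.Finite := by
    have : {z : ℂ | z ∈ (∅ : Set ℂ) ∧ ‖z‖ ≤ r} = ∅ := by
      ext z
      simp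
    rw [this]
    exact Set.finite_empty
  have h1 : hf.toFinset = ∅ := by
    ext z
    simp
  rw [sms_eq _ r hf, h1, Finset.sum_empty, Set.indicator_empty, zero_add]
  simp

theorem t_SMS (h : S_CN2) : S_SMS := by
  intro L τ H
  have mono : ∀ B B' : Idx → Set ℂ, (∀ᶠ k in (U : Filter Idx), B k ⊆ B' k) → SmS L τ B' →
      SmS L τ B := by
    intro B B' hB h'
    refine ⟨?_, o_of_ev (Lf_of_ev H ?_) h'.small⟩
    · filter_upwards [hB, h'.fin] with k hk hf r
      exact (hf r).subset fun z hz => ⟨hk hz.1, hz.2⟩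
    · filter_upwards [hB, h'.fin] with k hk hf r hr
      exact ⟨sms_nonneg _ hr, sms_mono hk hr (hf r)⟩
  have emp : SmS L τ fun _ => ∅ := by
    refine ⟨Eventually.of_forall fun k r => ?_, ?_⟩
    · have : {z : ℂ | z ∈ (∅ : Set ℂ) ∧ ‖z‖ ≤ r} = ∅ := by
        ext z
        simp
      rw [this]
      exact Set.finite_empty
    · have : N1 (fun _ => (∅ : Set ℂ)) = fun _ => (0 : ℝ) := by
        funext p
        exact sms_empty p.2
      rw [this]
      exact isLittleO_zero _ _
  refine ⟨mono, ?_, emp, ?_, ?_⟩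
  · intro B B' h1 h2
    refine ⟨?_, o_of_ev (Lf_of_ev H ?_) (h1.small.add h2.small)⟩
    · filter_upwards [h1.fin, h2.fin] with k hf hf' r
      refine ((hf r).union (hf' r)).subset ?_
      rintro z ⟨hz | hz, hz2⟩
      · exact Or.inl ⟨hz, hz2⟩
      · exact Or.inr ⟨hz, hz2⟩
    · filter_upwards [h1.fin, h2.fin] with k hf hf' r hr
      exact ⟨sms_nonneg _ hr, sms_union hr (hf r) (hf' r)⟩
  · intro x hx
    have hsm : Sm L τ (rp x) := by
      rw [← mf_rp x] at hx
      exact mem_smf.1 hx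
    by_cases hx0 : x = 0
    · refine mono _ (fun _ => ∅) ?_ emp
      have h1 : mf (rp x) (rp_mero x) = mf (fun _ => 0) (mero_const fun _ => 0) := by
        rw [mf_rp, hx0]
        exact mf_zero
      filter_upwards [od_congr (mf_eq.1 h1)] with k hk z hz
      have h2 : om x k z = ⊤ := by
        unfold om
        rw [hk z, meromorphicOrderAt_eq_top_iff]
        exact Eventually.of_forall fun _ => rfl
      have h3 : om x k z < 0 := hz
      rw [h2] at h3
      exact absurd h3 (by simp)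
    · have hne : mf (rp x) (rp_mero x) ≠ 0 := by
        rw [mf_rp]
        exact hx0
      have key : ∀ᶠ k in (U : Filter Idx),
          (∀ r : ℝ, {z : ℂ | z ∈ {z | om x k z < 0} ∧ ‖z‖ ≤ r}.Finite) ∧
          ∀ r : ℝ, 1 ≤ r → Nc {z | om x k z < 0} r ≤ ch (rp x) (k, r) := by
        filter_upwards [mf_ne_zero hne] with k hk
        have hinv : ∀ z, meromorphicOrderAt (sl (rp x) k)⁻¹ z = -meromorphicOrderAt (sl (rp x) k) z :=
          fun z => meromorphicOrderAt_inv
        have h1 := h (sl (rp x) k)⁻¹ (rp_mero x k).inv (fun z => by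
            rw [hinv]
            intro h2
            have h3 := hk z
            revert h2 h3
            generalize meromorphicOrderAt (sl (rp x) k) z = o
            cases o with
            | top => intro _ h; exact h rfl
            | coe o => intro h _; exact absurd h (by exact WithTop.coe_ne_top))
          1 {z | om x k z < 0} one_pos (fun z hz => by
            rw [hinv]
            have h2 : meromorphicOrderAt (sl (rp x) k) z < 0 := hz
            revert h2
            generalize meromorphicOrderAt (sl (rp x) k) z = o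
            cases o with
            | top => intro h; exact absurd h (by simp)
            | coe o =>
              intro h
              have h3 : o < 0 := by exact_mod_cast h
              have h4 : ((1 : ℕ) : ℤ) ≤ -o := by push_cast; omega
              exact_mod_cast h4)
        refine ⟨h1.1, fun r hr => ?_⟩
        have h2 := h1.2 r hr
        rw [Nat.cast_one, one_mul, ← logCounting_inv, inv_inv] at h2
        refine h2.trans ?_
        have h3 : 0 ≤ proximity (sl (rp x) k) ⊤ r := proximity_nonneg r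
        change _ ≤ proximity (sl (rp x) k) ⊤ r + ValueDistribution.logCounting (sl (rp x) k) ⊤ r
        linarith
      refine ⟨key.mono fun k hk => hk.1, o_of_ev (Lf_of_ev H ?_) hsm.2⟩
      exact key.mono fun k hk r hr => ⟨sms_nonneg _ hr, hk.2 r hr⟩
  · intro g hd hne hsmall
    refine ⟨?_, ?_⟩
    · filter_upwards [hne] with k hk r
      exact zeros_finite (hd k) hk r
    · exact hsmall

end Pool.Agent.N131.SV
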