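import Mathlib
import Pool.Agent.N131.SV.Stm2

/-!
The characteristic of a map from proximity functions and poles (S_TH) and of a rational map (S_TB)
(helper855, project MV of helper131).
-/

set_option autoImplicit false

namespace Pool.Agent.N131.SV

open MeasureTheory Set Filter Topology Metric Real ValueDistribution MeromorphicOn Function
open Asymptotics MvPolynomial
open Pool.Agent.N131.SR (Tf NZ curve_int curve_pos)
open Pool.Agent.TH143.EL (codis_ev)

theorem th_mero {a : ℂ → ℂ} (ha : Differentiable ℂ a) : Meromorphic a := fun z =>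
  (ha.analyticAt z).meromorphicAt

theorem th_nz {a : ℂ → ℂ} (ha : Differentiable ℂ a) (h : ∃ z, a z ≠ 0) : NZ a := by
  obtain ⟨z, hz⟩ := h
  rcases Pool.Agent.N131.SR.nz_or (th_mero ha) with h1 | h1
  · exact h1
  · exfalso
    have h2 : ∀ᶠ w in 𝓝[≠] z, a w ≠ 0 :=
      (ha.continuous.continuousAt.eventually_ne hz).filter_mono nhdsWithin_le_nhds
    obtain ⟨w, h3, h4⟩ := ((codis_ev h1 z).and h2).exists
    exact h4 h3

/-- the quotient of the two representations of the same map -/
theorem th_quot {t : ℕ} {h a : Fin (t + 1) → ℂ → ℂ} (hh : ∀ i, Differentiable ℂ (h i))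
    (h0 : ∀ z, ∃ i, h i z ≠ 0) (ha : ∀ i, Meromorphic (a i)) (hnz : ∃ i, NZ (a i))
    (hr : ∀ i j, ∀ᶠ z in codiscrete ℂ, h i z * a j z = h j z * a i z) :
    ∃ m : ℂ → ℂ, Meromorphic m ∧ NZ m ∧ (∀ j, ∀ᶠ z in codiscrete ℂ, a j z = m z * h j z) ∧
      ∀ z, ∃ j, meromorphicOrderAt (a j) z = meromorphicOrderAt m z := by
  obtain ⟨i0, hi0⟩ := hnz
  have hh0 : ∃ z, h i0 z ≠ 0 := by
    by_contra hcon
    push Not at hcon
    obtain ⟨j, hj⟩ := h0 0
    have h1 := th_nz (hh j) ⟨0, hj⟩
    have h2 := h1.ne (th_mero (hh j))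
    obtain ⟨z, h3, h4, h5⟩ := ((hi0.ne (ha i0)).and (h2.and (hr i0 j))).exists
    rw [hcon z, zero_mul] at h5
    exact (mul_ne_zero h4 h3) h5.symm
  have hhnz := th_nz (hh i0) hh0
  have hhm := th_mero (hh i0)
  have hmm : Meromorphic fun z => a i0 z / h i0 z := (ha i0).div hhm
  have hrel : ∀ j, ∀ᶠ z in codiscrete ℂ, a j z = (fun z => a i0 z / h i0 z) z * h j z := by
    intro j
    filter_upwards [hhnz.ne hhm, hr i0 j] with z h1 h2
    show a j z = a i0 z / h i0 z * h j z
    rw [div_mul_eq_mul_div, eq_div_iff h1]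
    linear_combination h2
  refine ⟨fun z => a i0 z / h i0 z, hmm, ?_, hrel, ?_⟩
  · apply Pool.Agent.N131.SR.nz_of_ne hmm
    apply Eventually.frequently
    filter_upwards [hhnz.ne hhm, hi0.ne (ha i0)] with z h1 h2
    exact div_ne_zero h2 h1
  · intro z
    obtain ⟨j, hj⟩ := h0 z
    refine ⟨j, ?_⟩
    have h1 : a j =ᶠ[𝓝[≠] z] (fun w => a i0 w / h i0 w) * h j := codis_ev (hrel j) z
    rw [meromorphicOrderAt_congr h1, meromorphicOrderAt_mul (hmm z) (th_mero (hh j) z)]
    have h2 : meromorphicOrderAt (h j) z = 0 := by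
      rw [((hh j).analyticAt z).meromorphicOrderAt_eq,
        ((hh j).analyticAt z).analyticOrderAt_eq_zero.2 hj]
      rfl
    rw [h2, add_zero]

/-- Jensen's inequality -/
theorem th_avg {m : ℂ → ℂ} (hm : Meromorphic m) {r : ℝ} (hr : 1 ≤ r) :
    log ‖meromorphicTrailingCoeffAt m 0‖ - ValueDistribution.logCounting m ⊤ r ≤
      circleAverage (fun z => Real.log ‖m z‖) 0 r := by
  have h1 := logCounting_zero_sub_logCounting_top_eq_circleAverage_sub_const hm
    (show r ≠ 0 by positivity)
  have h2 : 0 ≤ ValueDistribution.logCounting m 0 r := ValueDistribution.logCounting_nonneg hr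
  rw [Pi.sub_apply] at h1
  linarith

/-- the average of the logarithm of the norm of the reduced representation -/
theorem th_le {t : ℕ} {h : Fin (t + 1) → ℂ → ℂ} (hh : ∀ i, Differentiable ℂ (h i))
    (h0 : ∀ z, ∃ i, h i z ≠ 0) {m : ℂ → ℂ} (hm : Meromorphic m) (hnz : NZ m) {φ : ℂ → ℝ} {r : ℝ}
    (hr : r ≠ 0) (hφ : CircleIntegrable φ 0 r)
    (hle : ∀ᶠ z in codiscrete ℂ, ∀ j, ‖m z * h j z‖ ≤ Real.exp (φ z)) :
    Tf h r ≤ circleAverage φ 0 r - circleAverage (fun z => Real.log ‖m z‖) 0 r := by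
  unfold Tf
  have h1 : CircleIntegrable (fun z => Real.log ‖m z‖) 0 r :=
    hm.meromorphicOn.circleIntegrable_log_norm
  rw [← circleAverage_fun_sub hφ h1]
  apply Pool.Agent.Helper160.Nev.circleAverage_mono_codiscrete hr
  · exact curve_int hh h0 r
  · exact hφ.sub h1
  · have h2 : ∀ᶠ z in codiscreteWithin (sphere (0 : ℂ) |r|), m z ≠ 0 ∧
        ∀ j, ‖m z * h j z‖ ≤ Real.exp (φ z) :=
      ((hnz.ne hm).and hle).filter_mono (codiscreteWithin_mono (subset_univ _))
    filter_upwards [h2] with z hz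
    obtain ⟨hz1, hz2⟩ := hz
    have h5 : 0 < ‖m z‖ := norm_pos_iff.2 hz1
    have h6 : ‖(fun j => h j z : Fin (t + 1) → ℂ)‖ ≤ Real.exp (φ z - Real.log ‖m z‖) := by
      rw [pi_norm_le_iff_of_nonneg (Real.exp_pos _).le]
      intro j
      rw [Real.exp_sub, Real.exp_log h5, le_div_iff₀ h5]
      have := hz2 j
      rw [norm_mul] at this
      linarith
    have h7 := Real.log_le_log (curve_pos h0 z) h6
    rw [Real.log_exp] at h7
    exact h7

theorem t_TH (hC : S_CN1) : S_TH := by
  intro t h a hh h0 ha hnz hr ι ι' _ _ e B hB c hc C hord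
  obtain ⟨m, hm, hmnz, hrel, hmo⟩ := th_quot hh h0 ha hnz hr
  refine ⟨-log ‖meromorphicTrailingCoeffAt m 0‖, fun r hr1 => ?_⟩
  have hr0 : r ≠ 0 := by positivity
  have k1 := hC m hm hmnz ι ι' e B hB c hc C (fun z => by
    obtain ⟨j, hj⟩ := hmo z
    rw [← hj]
    exact hord z j) r hr1
  have k2 := th_avg hm hr1
  have h2 : ∀ i ∈ (Finset.univ : Finset (Fin (t + 1))),
      CircleIntegrable (fun z => log⁺ ‖a i z‖) 0 r := fun i _ =>
    (ha i).meromorphicOn.circleIntegrable_posLog_norm
  have k3 : ∑ i, proximity (a i) ⊤ r = circleAverage (fun z => ∑ i, log⁺ ‖a i z‖) 0 r := by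
    rw [circleAverage_fun_sum h2]
    apply Finset.sum_congr rfl
    intro i _
    rw [proximity_top]
  have k4 := th_le hh h0 hm hmnz hr0 (CircleIntegrable.fun_sum _ h2) (by
    have h3 : ∀ᶠ z in codiscrete ℂ, ∀ j, a j z = m z * h j z := by
      rw [eventually_all]
      exact hrel
    filter_upwards [h3] with z hz j
    rw [← hz j]
    have h4 : ‖a j z‖ ≤ Real.exp (log⁺ ‖a j z‖) := by
      rcases eq_or_lt_of_le (norm_nonneg (a j z)) with h5 | h5
      · rw [← h5]
        exact (Real.exp_pos _).le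
      · calc ‖a j z‖ = Real.exp (Real.log ‖a j z‖) := (Real.exp_log h5).symm
          _ ≤ _ := Real.exp_le_exp.2 (by rw [posLog_apply]; exact le_max_right _ _)
    refine h4.trans (Real.exp_le_exp.2 ?_)
    exact Finset.single_le_sum (f := fun j => log⁺ ‖a j z‖) (fun i _ => posLog_nonneg)
      (Finset.mem_univ j))
  rw [k3]
  linarith

/-- the size of a form -/
theorem th_form {M d : ℕ} (P : MvPolynomial (Fin (M + 1)) ℂ) (hP : P.IsHomogeneous d) :
    ∃ K : ℝ, 1 ≤ K ∧ ∀ v : Fin (M + 1) → ℂ, ‖eval v P‖ ≤ K * ‖v‖ ^ d := by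
  classical
  refine ⟨1 + ∑ s ∈ P.support, ‖P.coeff s‖, ?_, ?_⟩
  · have : 0 ≤ ∑ s ∈ P.support, ‖P.coeff s‖ := Finset.sum_nonneg fun s _ => norm_nonneg _
    linarith
  · intro v
    rw [eval_eq]
    have h1 : ‖∑ s ∈ P.support, P.coeff s * ∏ i ∈ s.support, v i ^ s i‖ ≤
        ∑ s ∈ P.support, ‖P.coeff s‖ * ‖v‖ ^ d := by
      refine norm_sum_le_of_le _ ?_
      intro s hs
      rw [norm_mul, norm_prod]
      apply mul_le_mul_of_nonneg_left _ (norm_nonneg _)
      have h2 : ∏ i ∈ s.support, ‖v i ^ s i‖ ≤ ∏ i ∈ s.support, ‖v‖ ^ s i := by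
        apply Finset.prod_le_prod
        · intro i _
          exact norm_nonneg _
        · intro i _
          rw [norm_pow]
          exact pow_le_pow_left₀ (norm_nonneg _) (norm_le_pi_norm v i) _
      refine h2.trans (le_of_eq ?_)
      rw [Finset.prod_pow_eq_pow_sum]
      congr 1
      have h3 := hP (mem_support_iff.1 hs)
      rw [Finsupp.weight_apply] at h3
      simp only [Pi.one_apply, smul_eq_mul, mul_one] at h3
      exact h3
    refine h1.trans ?_
    rw [← Finset.sum_mul]
    apply mul_le_mul_of_nonneg_right _ (by positivity)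
    linarith

theorem th_form_diff {N : ℕ} {f : Fin (N + 1) → ℂ → ℂ} (hf : ∀ j, Differentiable ℂ (f j))
    (G : MvPolynomial (Fin (N + 1)) ℂ) : Differentiable ℂ fun z => eval (fun j => f j z) G := by
  induction G using MvPolynomial.induction_on with
  | C c =>
    simp only [eval_C]
    exact differentiable_const c
  | add p q hp hq =>
    simp only [map_add]
    exact hp.add hq
  | mul_X p i hp =>
    simp only [map_mul, eval_X]
    exact hp.mul (hf i)

theorem t_TB : S_TB := by
  intro M t d f h P hf hf0 hh h0 hP hrel hne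
  have had : ∀ i, Differentiable ℂ fun z => eval (fun l => f l z) (P i) := fun i =>
    th_form_diff hf (P i)
  obtain ⟨m, hm, hmnz, hmr, hmo⟩ := th_quot hh h0
    (a := fun i z => eval (fun l => f l z) (P i)) (fun i => th_mero (had i))
    (by
      obtain ⟨i, z, hiz⟩ := hne
      exact ⟨i, th_nz (had i) ⟨z, hiz⟩⟩)
    (fun i j => Eventually.of_forall fun z => hrel i j z)
  choose K hK1 hK using fun i => th_form (P i) (hP i)
  obtain ⟨K', hK'⟩ : ∃ K' : ℝ, K' = ∑ i, K i := ⟨_, rfl⟩
  have hKle : ∀ i, K i ≤ K' := fun i => by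
    rw [hK']
    exact Finset.single_le_sum (f := K) (fun j _ => zero_le_one.trans (hK1 j)) (Finset.mem_univ i)
  have hK'1 : 1 ≤ K' := (hK1 0).trans (hKle 0)
  refine ⟨Real.log K' - log ‖meromorphicTrailingCoeffAt m 0‖, fun r hr1 => ?_⟩
  have hr0 : r ≠ 0 := by positivity
  have k1 : ValueDistribution.logCounting m ⊤ r = 0 := by
    rw [logCounting_top]
    have : (divisor m univ)⁻ = 0 := by
      rw [negPart_eq_zero]
      intro z
      obtain ⟨j, hj⟩ := hmo z
      change 0 ≤ divisor m univ z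
      rw [divisor_apply hm.meromorphicOn (mem_univ z), ← hj]
      have h1 := ((had j).analyticAt z).meromorphicOrderAt_nonneg
      have h2 : meromorphicOrderAt (fun z => eval (fun l => f l z) (P j)) z ≠ ⊤ := by
        rw [hj]
        exact hmnz z
      lift meromorphicOrderAt (fun z => eval (fun l => f l z) (P j)) z to ℤ using h2 with n
      rw [WithTop.untop₀_coe]
      exact_mod_cast h1
    rw [this, map_zero]
    rfl
  have k2 := th_avg hm hr1
  have hci := curve_int hf hf0 r
  have hcd : CircleIntegrable (fun z => (d : ℝ) * Real.log ‖fun j => f j z‖) 0 r :=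
    hci.const_mul _
  have hcc : CircleIntegrable (fun _ : ℂ => Real.log K') 0 r := circleIntegrable_const _ _ _
  have hφ : CircleIntegrable (fun z => Real.log K' + d * Real.log ‖fun j => f j z‖) 0 r :=
    hcc.add hcd
  have k4 := th_le hh h0 hm hmnz hr0 hφ (by
    have h3 : ∀ᶠ z in codiscrete ℂ, ∀ j, eval (fun l => f l z) (P j) = m z * h j z := by
      rw [eventually_all]
      exact hmr
    filter_upwards [h3] with z hz j
    rw [← hz j]
    have h4 := curve_pos hf0 z
    rw [Real.exp_add, Real.exp_log (by linarith), Real.exp_nat_mul, Real.exp_log h4]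
    refine (hK j _).trans ?_
    exact mul_le_mul_of_nonneg_right (hKle j) (by positivity))
  have k5 : circleAverage (fun z => Real.log K' + d * Real.log ‖fun j => f j z‖) 0 r =
      Real.log K' + d * Tf f r := by
    rw [circleAverage_fun_add hcc hcd, circleAverage_const]
    unfold Tf
    rw [← smul_eq_mul, ← circleAverage_fun_smul]
    rfl
  rw [k5] at k4
  rw [k1] at k2
  linarith

end Pool.Agent.N131.SV
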