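import Mathlib
import Pool.Agent.N131.SV.Stm2

/-!
Few common zeros of the members of a prime ideal of codimension two (helper401).
-/

set_option autoImplicit false

namespace Pool.Agent.N131.SV

open MeasureTheory Set Filter Topology Metric Real ValueDistribution MeromorphicOn Function
open Asymptotics MvPolynomial FF
open Pool.Agent.N131.SR (Wr Tf NZ Big)
open Pool.Agent.N131.MV (PV gen1 W1 R0 Inv Ri RegP LogP)

theorem zg_pt {ι σ : Type} [Fintype ι] (S : Finset σ) (c : σ → ℂ) (w : ι → ℂ) (e : σ → ι → ℕ)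
    (l : ℕ) (he : ∀ α ∈ S, ∀ p, e α p ≤ l) :
    log⁺ ‖∑ α ∈ S, c α * ∏ p, w p ^ e α p‖ ≤
      (∑ α ∈ S, log⁺ ‖c α‖ + ∑ p, (l : ℝ) * log⁺ ‖w p‖) + log S.card := by
  have h1 : ‖∑ α ∈ S, c α * ∏ p, w p ^ e α p‖ ≤
      (∑ α ∈ S, ‖c α‖) * ∏ p, (max 1 ‖w p‖) ^ l := by
    refine (norm_sum_le _ _).trans ?_
    rw [Finset.sum_mul]
    refine Finset.sum_le_sum fun α hα => ?_
    rw [norm_mul]
    apply mul_le_mul_of_nonneg_left _ (norm_nonneg _)
    rw [norm_prod]
    refine Finset.prod_le_prod (fun p _ => norm_nonneg _) fun p _ => ?_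
    rw [norm_pow]
    calc ‖w p‖ ^ e α p ≤ (max 1 ‖w p‖) ^ e α p := by gcongr; exact le_max_right _ _
      _ ≤ (max 1 ‖w p‖) ^ l := pow_le_pow_right₀ (le_max_left _ _) (he α hα p)
  have h2 : ∀ x : ℝ, 0 ≤ x → log⁺ (max 1 x) ≤ log⁺ x := by
    intro x hx
    rcases le_total 1 x with h | h
    · rw [max_eq_right h]
    · rw [max_eq_left h]
      simp [posLog_nonneg]
  calc log⁺ ‖∑ α ∈ S, c α * ∏ p, w p ^ e α p‖
      ≤ log⁺ ((∑ α ∈ S, ‖c α‖) * ∏ p, (max 1 ‖w p‖) ^ l) := posLog_le_posLog (norm_nonneg _) h1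
    _ ≤ log⁺ (∑ α ∈ S, ‖c α‖) + log⁺ (∏ p, (max 1 ‖w p‖) ^ l) := posLog_mul
    _ ≤ (log S.card + ∑ α ∈ S, log⁺ ‖c α‖) + ∑ p, log⁺ ((max 1 ‖w p‖) ^ l) :=
        add_le_add (posLog_sum _ _) (posLog_prod _ _)
    _ ≤ (log S.card + ∑ α ∈ S, log⁺ ‖c α‖) + ∑ p, (l : ℝ) * log⁺ ‖w p‖ := by
        gcongr with p _
        rw [posLog_pow]
        exact mul_le_mul_of_nonneg_left (h2 _ (norm_nonneg _)) (Nat.cast_nonneg _)
    _ = _ := by ring

theorem zg_mero {ι σ : Type} [Fintype ι] (S : Finset σ) (c : σ → ℂ → ℂ) (w : ι → ℂ → ℂ)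
    (e : σ → ι → ℕ) (hc : ∀ α, Meromorphic (c α)) (hw : ∀ p, Meromorphic (w p)) :
    Meromorphic fun z => ∑ α ∈ S, c α z * ∏ p, w p z ^ e α p := by
  apply Meromorphic.fun_sum
  intro α _
  apply (hc α).fun_mul
  apply Meromorphic.fun_prod
  intro p _
  exact fun z => (hw p z).pow _

theorem zg_prox {ι σ : Type} [Fintype ι] (S : Finset σ) (c : σ → ℂ → ℂ) (w : ι → ℂ → ℂ)
    (e : σ → ι → ℕ) (l : ℕ) (he : ∀ α ∈ S, ∀ p, e α p ≤ l) (hc : ∀ α, Meromorphic (c α))
    (hw : ∀ p, Meromorphic (w p)) (r : ℝ) :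
    proximity (fun z => ∑ α ∈ S, c α z * ∏ p, w p z ^ e α p) ⊤ r ≤
      (∑ α ∈ S, proximity (c α) ⊤ r + ∑ p, (l : ℝ) * proximity (w p) ⊤ r) + log S.card := by
  have hci : ∀ i ∈ S, CircleIntegrable (fun z => log⁺ ‖c i z‖) 0 r :=
    fun i _ => MeromorphicOn.circleIntegrable_posLog_norm (fun x _ => hc i x)
  have hwi : ∀ i ∈ Finset.univ, CircleIntegrable (fun z => (l : ℝ) * log⁺ ‖w i z‖) 0 r := by
    intro i _
    have := (MeromorphicOn.circleIntegrable_posLog_norm (c := 0) (R := r) (fun x _ => hw i x))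
    exact this.const_smul (a := (l : ℝ))
  simp only [proximity_top]
  have h0 : CircleIntegrable (fun z => (∑ α ∈ S, log⁺ ‖c α z‖ + ∑ p, (l : ℝ) * log⁺ ‖w p z‖) +
      log S.card) 0 r := by
    apply CircleIntegrable.add
    · apply CircleIntegrable.add
      · exact CircleIntegrable.fun_sum S hci
      · exact CircleIntegrable.fun_sum _ hwi
    · exact circleIntegrable_const _ 0 r
  calc circleAverage (fun z => log⁺ ‖∑ α ∈ S, c α z * ∏ p, w p z ^ e α p‖) 0 r
      ≤ circleAverage (fun z => (∑ α ∈ S, log⁺ ‖c α z‖ + ∑ p, (l : ℝ) * log⁺ ‖w p z‖) +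
        log S.card) 0 r := by
        apply circleAverage_mono
        · exact MeromorphicOn.circleIntegrable_posLog_norm fun x _ => zg_mero S c w e hc hw x
        · exact h0
        · intro z _
          exact zg_pt S (fun α => c α z) (fun p => w p z) e l he
    _ = _ := by
        rw [circleAverage_fun_add, circleAverage_fun_add, circleAverage_fun_sum hci, circleAverage_fun_sum hwi,
          circleAverage_const]
        · congr 2
          refine Finset.sum_congr rfl fun p _ => ?_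
          exact circleAverage_fun_smul (a := (l : ℝ))
        · exact CircleIntegrable.fun_sum S hci
        · exact CircleIntegrable.fun_sum _ hwi
        · exact (CircleIntegrable.fun_sum S hci).add (CircleIntegrable.fun_sum _ hwi)
        · exact circleIntegrable_const _ 0 r

/-- the order is at least `-m` -/
def Lb (m : ℤ) (f : ℂ → ℂ) (z : ℂ) : Prop := ((-m : ℤ) : WithTop ℤ) ≤ meromorphicOrderAt f z

theorem Lb.mul {m m' : ℤ} {f g : ℂ → ℂ} {z : ℂ} (hf : MeromorphicAt f z) (hg : MeromorphicAt g z)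
    (h : Lb m f z) (h' : Lb m' g z) : Lb (m + m') (fun z => f z * g z) z := by
  unfold Lb at *
  have h1 : meromorphicOrderAt (fun z => f z * g z) z = meromorphicOrderAt f z +
    meromorphicOrderAt g z := meromorphicOrderAt_mul hf hg
  rw [h1]
  refine le_trans (le_of_eq ?_) (add_le_add h h')
  rw [← WithTop.coe_add]
  congr 1
  ring

theorem Lb.mono {m m' : ℤ} {f : ℂ → ℂ} {z : ℂ} (h : Lb m f z) (hm : m ≤ m') : Lb m' f z := by
  unfold Lb at *
  refine le_trans ?_ h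
  exact_mod_cast (neg_le_neg hm)

theorem Lb.one {z : ℂ} : Lb 0 (fun _ => (1 : ℂ)) z := by
  unfold Lb
  have h1 : AnalyticAt ℂ (fun _ : ℂ => (1 : ℂ)) z := analyticAt_const
  simpa using h1.meromorphicOrderAt_nonneg

theorem Lb.pow {m : ℤ} {f : ℂ → ℂ} {z : ℂ} (hf : MeromorphicAt f z) (h : Lb m f z) (n : ℕ) :
    Lb (n * m) (fun z => f z ^ n) z := by
  induction n with
  | zero => simpa using Lb.one
  | succ n ih =>
    have h1 := ih.mul (hf.pow n) hf h
    have h2 : (fun z => f z ^ (n + 1)) = fun z => f z ^ n * f z := by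
      funext z
      rw [pow_succ]
    rw [h2]
    refine h1.mono (le_of_eq ?_)
    push_cast
    ring

theorem Lb.prod {ι : Type} (s : Finset ι) {m : ι → ℤ} {f : ι → ℂ → ℂ} {z : ℂ}
    (hf : ∀ i, MeromorphicAt (f i) z) (h : ∀ i ∈ s, Lb (m i) (f i) z) :
    Lb (∑ i ∈ s, m i) (fun z => ∏ i ∈ s, f i z) z := by
  classical
  induction s using Finset.induction_on with
  | empty => simpa using Lb.one
  | insert i s hi ih =>
    simp only [Finset.sum_insert hi, Finset.prod_insert hi]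
    exact (h i (Finset.mem_insert_self i s)).mul (hf i)
      (MeromorphicAt.fun_prod fun i _ => hf i)
      (ih fun j hj => h j (Finset.mem_insert_of_mem hj))

theorem Lb.sum {ι : Type} (s : Finset ι) {m : ℤ} {f : ι → ℂ → ℂ} {z : ℂ}
    (hf : ∀ i, MeromorphicAt (f i) z) (h : ∀ i ∈ s, Lb m (f i) z) :
    Lb m (fun z => ∑ i ∈ s, f i z) z := by
  classical
  induction s using Finset.induction_on with
  | empty =>
    unfold Lb
    have h1 : meromorphicOrderAt (fun z : ℂ => ∑ i ∈ (∅ : Finset ι), f i z) z = ⊤ := by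
      rw [meromorphicOrderAt_eq_top_iff]
      exact Eventually.of_forall fun _ => Finset.sum_empty
    rw [h1]
    exact le_top
  | insert i s hi ih =>
    simp only [Finset.sum_insert hi]
    have h1 := ih fun j hj => h j (Finset.mem_insert_of_mem hj)
    have h2 := h i (Finset.mem_insert_self i s)
    exact (le_min h2 h1).trans (meromorphicOrderAt_add (hf i) (MeromorphicAt.fun_sum fun i _ => hf i))

theorem zg_lb0 (x : WithTop ℤ) : ((-((x.untop₀)⁻) : ℤ) : WithTop ℤ) ≤ x := by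
  cases x with
  | top => exact le_top
  | coe o =>
    simp only [WithTop.untop₀_coe]
    norm_cast
    rw [negPart_def]
    have := le_sup_left (a := -o) (b := 0)
    omega

theorem zg_lb1 {x : WithTop ℤ} {m : ℤ} (hm : 0 ≤ m) (h : ((-m : ℤ) : WithTop ℤ) ≤ x) :
    (x.untop₀)⁻ ≤ m := by
  cases x with
  | top => simpa using hm
  | coe o =>
    simp only [WithTop.untop₀_coe]
    have h1 : -m ≤ o := by exact_mod_cast h
    rw [negPart_def]
    exact sup_le (by omega) hm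

theorem zg_ord {ι σ : Type} [Fintype ι] (S : Finset σ) (c : σ → ℂ → ℂ) (w : ι → ℂ → ℂ)
    (e : σ → ι → ℕ) (l : ℕ) (he : ∀ α ∈ S, ∀ p, e α p ≤ l) (hc : ∀ α, Meromorphic (c α))
    (hw : ∀ p, Meromorphic (w p)) (z : ℂ) :
    ((meromorphicOrderAt (fun z => ∑ α ∈ S, c α z * ∏ p, w p z ^ e α p) z).untop₀)⁻ ≤
      ∑ α ∈ S, ((meromorphicOrderAt (c α) z).untop₀)⁻ +
        l * ∑ p, ((meromorphicOrderAt (w p) z).untop₀)⁻ := by
  have h0 : ∀ x : ℤ, 0 ≤ x⁻ := fun x => negPart_nonneg x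
  apply zg_lb1
  · exact add_nonneg (Finset.sum_nonneg fun _ _ => h0 _)
      (mul_nonneg (Int.natCast_nonneg l) (Finset.sum_nonneg fun _ _ => h0 _))
  · refine Lb.sum S (f := fun α z => c α z * ∏ p, w p z ^ e α p) (fun α => ?_) fun α hα => ?_
    · exact (hc α z).mul (MeromorphicAt.fun_prod fun p _ => (hw p z).pow _)
    · have h1 : Lb (((meromorphicOrderAt (c α) z).untop₀)⁻) (c α) z := zg_lb0 _
      have h2 : ∀ p, Lb (((meromorphicOrderAt (w p) z).untop₀)⁻) (w p) z := fun p => zg_lb0 _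
      have h3 := h1.mul (hc α z) (MeromorphicAt.fun_prod fun p _ => (hw p z).pow (e α p))
        (Lb.prod Finset.univ (fun p => (hw p z).pow (e α p)) fun p _ => (h2 p).pow (hw p z) (e α p))
      refine h3.mono (add_le_add ?_ ?_)
      · exact Finset.single_le_sum (f := fun α => ((meromorphicOrderAt (c α) z).untop₀)⁻)
          (fun _ _ => h0 _) hα
      · rw [Finset.mul_sum]
        refine Finset.sum_le_sum fun p _ => ?_
        apply mul_le_mul_of_nonneg_right _ (h0 _)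
        exact_mod_cast he α hα p

theorem zg_count {ι σ : Type} [Fintype ι] (S : Finset σ) (c : σ → ℂ → ℂ) (w : ι → ℂ → ℂ)
    (e : σ → ι → ℕ) (l : ℕ) (he : ∀ α ∈ S, ∀ p, e α p ≤ l) (hc : ∀ α, Meromorphic (c α))
    (hw : ∀ p, Meromorphic (w p)) {r : ℝ} (hr : 1 ≤ r) :
    ValueDistribution.logCounting (fun z => ∑ α ∈ S, c α z * ∏ p, w p z ^ e α p) ⊤ r ≤
      ∑ α ∈ S, ValueDistribution.logCounting (c α) ⊤ r +
        ∑ p, (l : ℝ) * ValueDistribution.logCounting (w p) ⊤ r := by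
  have h1 : (divisor (fun z => ∑ α ∈ S, c α z * ∏ p, w p z ^ e α p) univ)⁻ ≤
      ∑ α ∈ S, (divisor (c α) univ)⁻ + l • ∑ p, (divisor (w p) univ)⁻ := by
    intro z
    have h2 : ∀ (T : Finset σ), (∑ α ∈ T, (divisor (c α) univ)⁻) z = ∑ α ∈ T, (divisor (c α) univ z)⁻ := by
      intro T
      classical
      induction T using Finset.induction_on with
      | empty => rfl
      | insert i s hi ih =>
        rw [Finset.sum_insert hi, Finset.sum_insert hi, ← ih]
        rfl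
    have h3 : ∀ (T : Finset ι), (∑ α ∈ T, (divisor (w α) univ)⁻) z = ∑ α ∈ T, (divisor (w α) univ z)⁻ := by
      intro T
      classical
      induction T using Finset.induction_on with
      | empty => rfl
      | insert i s hi ih =>
        rw [Finset.sum_insert hi, Finset.sum_insert hi, ← ih]
        rfl
    have h4 : (∑ α ∈ S, (divisor (c α) univ)⁻ + l • ∑ p, (divisor (w p) univ)⁻) z =
        ∑ α ∈ S, (divisor (c α) univ z)⁻ + l * ∑ p, (divisor (w p) univ z)⁻ := by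
      rw [← h2, ← h3]
      have h6 : ∀ D : Function.locallyFinsupp ℂ ℤ, (l • D) z = l * D z := by
        intro D
        have h7 : (l • D) z = l • (D z) := rfl
        rw [h7, nsmul_eq_mul]
      rw [← h6]
      rfl
    rw [h4]
    have h5 := zg_ord S c w e l he hc hw z
    simp only [divisor_apply (hc _).meromorphicOn (mem_univ z),
      divisor_apply (hw _).meromorphicOn (mem_univ z)]
    change (divisor (fun z => ∑ α ∈ S, c α z * ∏ p, w p z ^ e α p) univ z)⁻ ≤ _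
    rw [divisor_apply (zg_mero S c w e hc hw).meromorphicOn (mem_univ z)]
    exact h5
  have h2 := locallyFinsuppWithin.logCounting_le h1 hr
  rw [map_add, map_sum, map_nsmul, map_sum] at h2
  simp only [Pi.add_apply, Finset.sum_apply, nsmul_eq_mul, Finset.mul_sum] at h2
  simp only [logCounting_top]
  exact h2

theorem zg_char {ι σ : Type} [Fintype ι] (S : Finset σ) (c : σ → ℂ → ℂ) (w : ι → ℂ → ℂ)
    (e : σ → ι → ℕ) (l : ℕ) (he : ∀ α ∈ S, ∀ p, e α p ≤ l) (hc : ∀ α, Meromorphic (c α))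
    (hw : ∀ p, Meromorphic (w p)) {r : ℝ} (hr : 1 ≤ r) :
    characteristic (fun z => ∑ α ∈ S, c α z * ∏ p, w p z ^ e α p) ⊤ r ≤
      (∑ α ∈ S, characteristic (c α) ⊤ r + l * ∑ p, characteristic (w p) ⊤ r) + log S.card := by
  have h1 := zg_prox S c w e l he hc hw r
  have h2 := zg_count S c w e l he hc hw hr
  unfold characteristic
  simp only [Pi.add_apply, Finset.sum_add_distrib, mul_add, Finset.mul_sum] at *
  linarith

theorem zg_nc_nonneg (B : Set ℂ) {r : ℝ} (hr : 1 ≤ r) : 0 ≤ Nc B r := by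
  unfold Nc
  apply add_nonneg
  · refine finsum_nonneg fun z => finsum_nonneg fun hz => ?_
    rcases eq_or_ne z 0 with h | h
    · rw [h, norm_zero, div_zero, Real.log_zero]
    · apply Real.log_nonneg
      rw [le_div_iff₀ (norm_pos_iff.2 h), one_mul]
      exact hz.2
  · apply mul_nonneg _ (Real.log_nonneg hr)
    exact Set.indicator_nonneg (fun _ _ => zero_le_one) _

theorem zg_nc_split (Z B : Set ℂ) (r : ℝ) (h1 : {z : ℂ | z ∈ Z ∧ ‖z‖ ≤ r}.Finite) :
    Nc Z r = Nc (Z \ B) r + Nc (Z ∩ B) r := by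
  unfold Nc
  have e1 : {z : ℂ | z ∈ Z ∧ ‖z‖ ≤ r} = {z : ℂ | z ∈ Z \ B ∧ ‖z‖ ≤ r} ∪ {z : ℂ | z ∈ Z ∩ B ∧ ‖z‖ ≤ r} := by
    ext z
    simp only [mem_ofPred_eq, mem_union, Set.mem_sdiff, mem_inter_iff]
    tauto
  have e2 : Disjoint {z : ℂ | z ∈ Z \ B ∧ ‖z‖ ≤ r} {z : ℂ | z ∈ Z ∩ B ∧ ‖z‖ ≤ r} := by
    rw [Set.disjoint_left]
    intro z hz hz'
    exact hz.1.2 hz'.1.2
  rw [e1, finsum_mem_union e2 (h1.subset fun z hz => ⟨hz.1.1, hz.2⟩)
    (h1.subset fun z hz => ⟨hz.1.1, hz.2⟩)]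
  have e3 : Z.indicator (1 : ℂ → ℝ) 0 = (Z \ B).indicator 1 0 + (Z ∩ B).indicator 1 0 := by
    by_cases hZ : (0 : ℂ) ∈ Z <;> by_cases hB : (0 : ℂ) ∈ B <;> simp [Set.indicator, hZ, hB]
  rw [e3]
  ring

/-- many derivatives vanish -/
theorem zg_drop {f : ℂ → ℂ} {z : ℂ} {N : ℕ} (h1 : 1 ≤ meromorphicOrderAt f z)
    (h2 : ((N : ℤ) : WithTop ℤ) ≤ meromorphicOrderAt (deriv f) z) :
    (((N + 1 : ℕ) : ℤ) : WithTop ℤ) ≤ meromorphicOrderAt f z := by
  rcases eq_or_ne (meromorphicOrderAt f z) ⊤ with h | h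
  · rw [h]; exact le_top
  · obtain ⟨n, hn⟩ := WithTop.ne_top_iff_exists.1 h
    have hn1 : 1 ≤ n := by
      rw [← hn] at h1
      exact_mod_cast h1
    have h3 := meromorphicOrderAt_deriv_eq_sub_one (f := f) (x := z) (n := n)
      (by
        have : n ≠ 0 := by omega
        exact_mod_cast this) hn.symm
    rw [h3] at h2
    rw [← hn]
    have h4 : (N : ℤ) ≤ n - 1 := by exact_mod_cast h2
    have h5 : ((N + 1 : ℕ) : ℤ) ≤ n := by push_cast; omega
    exact_mod_cast h5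

/-- many derivatives are not units -/
theorem zg_iter (z : Idx → ℂ) : ∀ (N : ℕ) (x : MF), 0 < N →
    (∀ j < N, DM^[j] x ∈ (hp z).nonunits) →
    ∀ᶠ k in (U : Filter Idx), ((N : ℤ) : WithTop ℤ) ≤ om x k (z k) := by
  intro N
  induction N with
  | zero =>
    intro x h
    exact absurd h (lt_irrefl _)
  | succ N ih =>
    intro x _ h
    have h1 := mem_hp_nonunits'.1 (h 0 (Nat.succ_pos N))
    rw [Function.iterate_zero_apply] at h1
    rcases Nat.eq_zero_or_pos N with hN | hN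
    · subst hN
      exact h1.mono fun k hk => by simpa using hk
    · have h2 := ih (DM x) hN (fun j hj => by
        have := h (j + 1) (by omega)
        rwa [Function.iterate_succ_apply] at this)
      have h3 : DM x = mf (dv (rp x)) (rp_mero x).dv := by
        rw [← DM_mf (rp_mero x), mf_rp]
      rw [h3] at h2
      filter_upwards [h1, h2, om_mf (rp_mero x).dv] with k h4 h5 h6
      rw [h6 (z k)] at h5
      exact zg_drop h4 h5

/-- polynomials in the valuation ring -/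
theorem zg_hp {κ I : Type} [Field κ] [Algebra κ MF] [Fintype I] (V : ValuationSubring MF)
    (w : I → MF) (Q : MvPolynomial I κ) (hQ : ∀ α ∈ Q.support, algebraMap κ MF (Q.coeff α) ∈ V)
    (hw : ∀ p, w p ∈ V) : aeval w Q ∈ V := by
  rw [aeval_def, eval₂_eq']
  refine sum_mem fun α hα => mul_mem (hQ α hα) (prod_mem fun p _ => pow_mem (hw p) _)

theorem zg_nonunits {J : Type} [Fintype J] (V : ValuationSubring MF) (a b : J → MF)
    (ha : ∀ i, a i ∈ V) (hb : ∀ i, b i ∈ V.nonunits) : ∑ i, a i * b i ∈ V.nonunits := by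
  rw [ValuationSubring.mem_nonunits_iff]
  apply Valuation.map_sum_lt _ one_ne_zero
  intro i _
  rw [map_mul]
  have h1 := (ValuationSubring.valuation_le_one_iff V (a i)).2 (ha i)
  have h2 := (ValuationSubring.mem_nonunits_iff V).1 (hb i)
  exact (mul_le_of_le_one_left' h1).trans_lt h2

/-- finite unions of small sets -/
theorem zg_union {L : Idx → Filter ℝ} {τ : Idx × ℝ → ℝ} {J : Type} (h2 : S_SMS) (H : Cmp L τ)
    (s : Finset J) (B : J → Idx → Set ℂ) (hB : ∀ i ∈ s, SmS L τ (B i)) :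
    SmS L τ fun k => {z | ∃ i ∈ s, z ∈ B i k} := by
  classical
  obtain ⟨-, e2, e3, -⟩ := h2 L τ H
  induction s using Finset.induction_on with
  | empty =>
    have h : (fun k : Idx => {z : ℂ | ∃ i ∈ (∅ : Finset J), z ∈ B i k}) = fun _ => ∅ := by
      funext k
      ext z
      simp
    rw [h]
    exact e3
  | insert i s hi ih =>
    have h : (fun k : Idx => {z : ℂ | ∃ j ∈ insert i s, z ∈ B j k}) =
        fun k => B i k ∪ {z | ∃ j ∈ s, z ∈ B j k} := by
      funext k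
      ext z
      simp
    rw [h]
    exact e2 _ _ (hB i (Finset.mem_insert_self i s))
      (ih fun j hj => hB j (Finset.mem_insert_of_mem hj))

section

variable {L : Idx → Filter ℝ} {τ : Idx × ℝ → ℝ}

theorem zg_step (h0 : MV.S_GCD) (h1 : S_CN2) (h2 : S_SMS) (H : Cmp L τ)
    (F : IntermediateField (smf H) MF) (D : Derivation ℂ F F) (n : ℕ)
    (U' : Matrix (Fin (n + 1)) (Fin (n + 1)) F) (ρ ℓ : F)
    (A : Matrix (Fin (n + 1)) (Fin (n + 1)) (smf H)) (hD : ∀ y : F, ((D y : F) : MF) = DM y)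
    (hPV : PV (smf H) D n U' ρ ℓ A) (hF : Algebra.EssFiniteType (smf H) F)
    (m : ℕ) (hm : Algebra.trdeg (smf H) F = (m + 1 : ℕ))
    (hgen : SmS L τ (fun k => {z | ∃ p, om ((gen1 U' ρ p : F) : MF) k z < 0}))
    (G : Finset (R0 (smf H) U' ρ)) (hG : (Ideal.span (G : Set (R0 (smf H) U' ρ))).IsPrime)
    (hG' : Algebra.trdeg (smf H) (R0 (smf H) U' ρ ⧸ Ideal.span (G : Set (R0 (smf H) U' ρ))) < m)
    (M : ℕ) (hM : 1 ≤ M) : ∃ (B : Idx → Set ℂ) (S1 : Idx × ℝ → ℝ), SmS L τ B ∧ S1 =o[Lf L] τ ∧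
      ∀ᶠ k in (U : Filter Idx),
        (∀ r : ℝ, {z : ℂ | z ∈ {z | ∀ x ∈ G, 1 ≤ om ((x : F) : MF) k z} \ B k ∧ ‖z‖ ≤ r}.Finite) ∧
        ∀ r : ℝ, 1 ≤ r → (M : ℝ) * Nc ({z | ∀ x ∈ G, 1 ≤ om ((x : F) : MF) k z} \ B k) r ≤
          ∑ p, ch (rp ((gen1 U' ρ p : F) : MF)) (k, r) + S1 (k, r) := by
  classical
  obtain ⟨e1, e2, e3, e4, e5⟩ := h2 L τ H
  obtain ⟨l, Q, hl, hQ, hQ0, hj⟩ := h0 ℂ (smf H) F D n U' ρ ℓ A hPV m hm G hG hG' M
  choose! rr hrr using hj
  -- the exceptional set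
  obtain ⟨B1, hB1⟩ : ∃ B1 : ℕ × G → Idx → Set ℂ, B1 = fun i k =>
      {z | ∃ α ∈ (rr i.1 i.2).support, om ((((rr i.1 i.2).coeff α : smf H) : MF)) k z < 0} := ⟨_, rfl⟩
  have hB1s : ∀ i, SmS L τ (B1 i) := by
    intro i
    rw [hB1]
    exact zg_union h2 H _ (fun α k => {z | om ((((rr i.1 i.2).coeff α : smf H) : MF)) k z < 0})
      fun α _ => e4 _ (SetLike.coe_mem _)
  obtain ⟨B, hB⟩ : ∃ B : Idx → Set ℂ, B = fun k =>
      {z | ∃ i ∈ Finset.range (M * l) ×ˢ (Finset.univ : Finset G), z ∈ B1 i k} ∪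
        {z | ∃ p, om ((gen1 U' ρ p : F) : MF) k z < 0} := ⟨_, rfl⟩
  have hBs : SmS L τ B := by
    rw [hB]
    exact e2 _ _ (zg_union h2 H _ B1 fun i _ => hB1s i) hgen
  obtain ⟨P', hP'⟩ : ∃ P' : MF, P' = ((aeval (gen1 U' ρ) Q : F) : MF) := ⟨_, rfl⟩
  have hit : ∀ (j : ℕ) (y : F), ((D^[j] y : F) : MF) = DM^[j] (y : MF) := by
    intro j
    induction j with
    | zero => intro y; rfl
    | succ j ih =>
      intro y
      rw [Function.iterate_succ_apply', Function.iterate_succ_apply', hD, ih]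
  have hval : ∀ Q' : MvPolynomial ((Fin (n + 1) → Fin (n + 1)) × (Fin (n + 1) → Fin (n + 1)))
      (smf H), ((aeval (gen1 U' ρ) Q' : F) : MF) =
        aeval (fun p => ((gen1 U' ρ p : F) : MF)) Q' := by
    intro Q'
    exact MvPolynomial.comp_aeval_apply (gen1 U' ρ) F.val Q'
  -- the order of the zeros
  have hord : ∀ᶠ k in (U : Filter Idx), ∀ z, (∀ x ∈ G, 1 ≤ om ((x : F) : MF) k z) → z ∉ B k →
      (((M * l : ℕ) : ℤ) : WithTop ℤ) ≤ om P' k z := by
    by_contra hcon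
    rw [← Ultrafilter.eventually_not] at hcon
    have hcon' : ∀ᶠ k in (U : Filter Idx), ∃ z, (∀ x ∈ G, 1 ≤ om ((x : F) : MF) k z) ∧ z ∉ B k ∧
        ¬ (((M * l : ℕ) : ℤ) : WithTop ℤ) ≤ om P' k z := by
      refine hcon.mono fun k hk => ?_
      by_contra h
      apply hk
      intro z h3 h4
      by_contra h5
      exact h ⟨z, h3, h4, h5⟩
    obtain ⟨z, hz⟩ : ∃ z : Idx → ℂ, ∀ᶠ k in (U : Filter Idx),
        (∀ x ∈ G, 1 ≤ om ((x : F) : MF) k (z k)) ∧ z k ∉ B k ∧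
        ¬ (((M * l : ℕ) : ℤ) : WithTop ℤ) ≤ om P' k (z k) := by
      refine ⟨fun k => if h : ∃ z, (∀ x ∈ G, 1 ≤ om ((x : F) : MF) k z) ∧ z ∉ B k ∧
        ¬ (((M * l : ℕ) : ℤ) : WithTop ℤ) ≤ om P' k z then h.choose else 0, ?_⟩
      refine hcon'.mono fun k hk => ?_
      simp only [dif_pos hk]
      exact hk.choose_spec
    have hgV : ∀ p, ((gen1 U' ρ p : F) : MF) ∈ hp z := by
      intro p
      refine mem_hp'.2 (hz.mono fun k hk => ?_)
      by_contra hc
      apply hk.2.1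
      rw [hB]
      exact Or.inr ⟨p, not_le.1 hc⟩
    have hcV : ∀ j < M * l, ∀ x : G, ∀ α ∈ (rr j x).support,
        algebraMap (smf H) MF ((rr j x).coeff α) ∈ hp z := by
      intro j hj x α hα
      refine mem_hp'.2 (hz.mono fun k hk => ?_)
      by_contra hc
      apply hk.2.1
      rw [hB]
      refine Or.inl ⟨(j, x), ?_, ?_⟩
      · rw [Finset.mem_product]
        exact ⟨Finset.mem_range.2 hj, Finset.mem_univ x⟩
      · rw [hB1]
        exact ⟨α, hα, not_le.1 hc⟩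
    have hxV : ∀ x : G, (((x : R0 (smf H) U' ρ) : F) : MF) ∈ (hp z).nonunits := by
      intro x
      exact mem_hp_nonunits'.2 (hz.mono fun k hk => hk.1 x x.2)
    have hNU : ∀ j < M * l, DM^[j] P' ∈ (hp z).nonunits := by
      intro j hj
      rw [hP', ← hit, hrr j hj]
      have h3 : ((∑ x : G, aeval (gen1 U' ρ) (rr j x) * ((x : R0 (smf H) U' ρ) : F) : F) : MF) =
          ∑ x : G, aeval (fun p => ((gen1 U' ρ p : F) : MF)) (rr j x) *
            (((x : R0 (smf H) U' ρ) : F) : MF) := by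
        have h4 : ∀ y : F, (y : MF) = F.val y := fun y => rfl
        rw [h4, map_sum]
        refine Finset.sum_congr rfl fun x _ => ?_
        rw [map_mul, ← h4, ← h4, hval]
      rw [h3]
      exact zg_nonunits (hp z) _ _ (fun x => zg_hp (hp z) _ _ (hcV j hj x) hgV) hxV
    have h5 := zg_iter z (M * l) P' (Nat.mul_pos hM hl) hNU
    obtain ⟨k, h6, h7⟩ := (h5.and hz).exists
    exact h7.2.2 h6
  -- the characteristic
  have hP0 : P' ≠ 0 := by
    rw [hP']
    intro h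
    exact hQ0 (Subtype.ext h)
  have hnz : NZs (rp P') := mf_ne_zero (a := rp P') (ha := rp_mero P') (by rwa [mf_rp])
  choose C hC using fun k => SR.char_inv (rp_mero P' k)
  have hterm : ∀ α : ((Fin (n + 1) → Fin (n + 1)) × (Fin (n + 1) → Fin (n + 1))) →₀ ℕ,
      algebraMap (smf H) MF (Q.coeff α) * ∏ p, ((gen1 U' ρ p : F) : MF) ^ α p =
        mf (fun q => rp (algebraMap (smf H) MF (Q.coeff α)) q *
          ∏ p, rp ((gen1 U' ρ p : F) : MF) q ^ α p)
          ((rp_mero _).mul (mero_prod Finset.univ fun p => mero_pow (rp_mero _) (α p))) := by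
    intro α
    rw [← mf_mul (rp_mero _) (mero_prod Finset.univ fun p => mero_pow (rp_mero _) (α p)),
      ← mf_prod Finset.univ (fun p => mero_pow (rp_mero _) (α p)), mf_rp]
    congr 1
    refine Finset.prod_congr rfl fun p _ => ?_
    rw [← mf_pow (rp_mero _), mf_rp]
  have hexp : P' = mf (fun q => ∑ α ∈ Q.support, rp (algebraMap (smf H) MF (Q.coeff α)) q *
      ∏ p, rp ((gen1 U' ρ p : F) : MF) q ^ α p) (mero_sum Q.support fun α _ =>
        (rp_mero _).mul (mero_prod Finset.univ fun p => mero_pow (rp_mero _) (α p))) := by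
    rw [hP', hval, aeval_def, eval₂_eq', Finset.sum_congr rfl fun α _ => hterm α, mf_sum]
  have hcg : ∀ᶠ k in (U : Filter Idx), ∀ r : ℝ, r ≠ 0 → ch (rp P') (k, r) =
      characteristic (fun z => ∑ α ∈ Q.support, rp (algebraMap (smf H) MF (Q.coeff α)) (k, z) *
        ∏ p, rp ((gen1 U' ρ p : F) : MF) (k, z) ^ α p) ⊤ r := by
    have h3 := ch_congr (mf_eq.1 ((mf_rp P').trans hexp))
    exact h3.mono fun k hk r hr => (hk r hr).1
  have hdeg : ∀ α ∈ Q.support, ∀ p, α p ≤ l := by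
    intro α hα p
    exact (MvPolynomial.monomial_le_degreeOf p hα).trans
      ((MvPolynomial.degreeOf_le_totalDegree Q p).trans hQ.totalDegree_le)
  have hl0 : (0 : ℝ) < l := by exact_mod_cast hl
  refine ⟨B, fun q => (l : ℝ)⁻¹ * ((∑ α ∈ Q.support, ch (rp (algebraMap (smf H) MF (Q.coeff α))) q +
    Real.log (Q.support.card : ℝ)) + C q.1), hBs, ?_, ?_⟩
  · apply IsLittleO.const_mul_left
    refine IsLittleO.add (IsLittleO.add (IsLittleO.fun_sum fun α _ => ?_) (H.const fun _ => _))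
      (H.const C)
    have h3 : mf (rp (algebraMap (smf H) MF (Q.coeff α))) (rp_mero _) ∈ smf H := by
      rw [mf_rp]
      exact SetLike.coe_mem _
    exact (mem_smf.1 h3).2
  · filter_upwards [hord, hcg, hnz] with k g1 g2 g3
    obtain ⟨f1, f2⟩ := h1 (sl (rp P') k) (rp_mero P' k) g3 (M * l)
      ({z | ∀ x ∈ G, 1 ≤ om ((x : F) : MF) k z} \ B k) (Nat.mul_pos hM hl)
      (fun z hz => g1 z hz.1 hz.2)
    refine ⟨f1, fun r hr => ?_⟩
    have f3 := f2 r hr
    have f4 : ValueDistribution.logCounting (sl (rp P') k) 0 r ≤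
        characteristic (fun z => (sl (rp P') k z)⁻¹) ⊤ r := by
      have e : (fun z => (sl (rp P') k z)⁻¹) = (sl (rp P') k)⁻¹ := rfl
      rw [e, ← logCounting_inv]
      unfold characteristic
      have := proximity_nonneg (f := (sl (rp P') k)⁻¹) (a := ⊤) r
      simp only [Pi.add_apply, Pi.zero_apply] at *
      linarith
    have f5 := hC k r
    have f6 := g2 r (by positivity)
    have f7 := zg_char Q.support (fun α => sl (rp (algebraMap (smf H) MF (Q.coeff α))) k)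
      (fun p => sl (rp ((gen1 U' ρ p : F) : MF)) k) (fun α p => α p) l hdeg
      (fun α => rp_mero _ k) (fun p => rp_mero _ k) hr
    have f8 : characteristic (sl (rp P') k) ⊤ r ≤
        (∑ α ∈ Q.support, ch (rp (algebraMap (smf H) MF (Q.coeff α))) (k, r) +
          l * ∑ p, ch (rp ((gen1 U' ρ p : F) : MF)) (k, r)) + Real.log Q.support.card :=
      (le_of_eq f6).trans f7
    apply le_of_mul_le_mul_left _ hl0
    rw [mul_add, mul_inv_cancel_left₀ hl0.ne']
    push_cast at f3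
    have f9 : (l : ℝ) * ((M : ℝ) * Nc ({z | ∀ x ∈ G, 1 ≤ om ((x : F) : MF) k z} \ B k) r) =
        (M : ℝ) * l * Nc ({z | ∀ x ∈ G, 1 ≤ om ((x : F) : MF) k z} \ B k) r := by ring
    rw [f9]
    linarith

end

/-- (ZG) common zeros of the members of a prime ideal of codimension at least two are few -/
theorem t_ZG (h0 : MV.S_GCD) (h1 : S_CN2) (h2 : S_SMS) : S_ZG := by
  intro L τ H F D n U' ρ ℓ A hD hob hPV hF m hm hgen G hG hG'
  obtain ⟨e1, -⟩ := h2 L τ H
  have key := fun M hM => zg_step h0 h1 h2 H F D n U' ρ ℓ A hD hPV hF m hm hgen G hG hG' M hM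
  have hfin : ∀ᶠ k in (U : Filter Idx), ∀ r : ℝ,
      {z : ℂ | z ∈ {z | ∀ x ∈ G, 1 ≤ om ((x : F) : MF) k z} ∧ ‖z‖ ≤ r}.Finite := by
    obtain ⟨B, S1, hB, hS1, hk⟩ := key 1 le_rfl
    filter_upwards [hk, hB.fin] with k h3 h4 r
    refine ((h3.1 r).union (h4 r)).subset fun z hz => ?_
    by_cases h : z ∈ B k
    · exact Or.inr ⟨h, hz.2⟩
    · exact Or.inl ⟨⟨hz.1, h⟩, hz.2⟩
  refine ⟨hfin, ?_⟩
  have hW : (fun q => ∑ p, ch (rp ((gen1 U' ρ p : F) : MF)) q) =O[Lf L] τ := by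
    refine IsBigO.fun_sum fun p _ => ?_
    have h3 : mf (rp ((gen1 U' ρ p : F) : MF)) (rp_mero _) ∈ obf H := by
      rw [mf_rp]
      exact hob _
    exact (mem_obf.1 h3).2
  obtain ⟨C0, hC0, hC0'⟩ := hW.exists_pos
  rw [isLittleO_iff]
  intro ε hε
  obtain ⟨M, hM⟩ := exists_nat_gt (3 * C0 / ε)
  have hM0 : (0 : ℝ) < M := lt_of_le_of_lt (by positivity) hM
  have hM1 : 1 ≤ M := by exact_mod_cast hM0
  have hMε : 3 * C0 ≤ M * ε := by
    rw [div_lt_iff₀ hε] at hM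
    exact hM.le
  obtain ⟨B, S1, hB, hS1, hk⟩ := key M hM1
  have hZB : SmS L τ fun k => {z | ∀ x ∈ G, 1 ≤ om ((x : F) : MF) k z} ∩ B k :=
    e1 _ _ (Eventually.of_forall fun k z hz => hz.2) hB
  have a1 := (isLittleO_iff.1 hS1) (show 0 < ε / 3 by positivity)
  have a2 := (isLittleO_iff.1 hZB.small) (show 0 < ε / 3 by positivity)
  have a3 : ∀ᶠ q : Idx × ℝ in Lf L, 1 ≤ q.2 ∧
      {z : ℂ | z ∈ {z | ∀ x ∈ G, 1 ≤ om ((x : F) : MF) q.1 z} ∧ ‖z‖ ≤ q.2}.Finite ∧
      (M : ℝ) * Nc ({z | ∀ x ∈ G, 1 ≤ om ((x : F) : MF) q.1 z} \ B q.1) q.2 ≤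
        ∑ p, ch (rp ((gen1 U' ρ p : F) : MF)) q + S1 q := by
    refine Lf_of_ev H ?_
    filter_upwards [hfin, hk] with k h3 h4 r hr
    exact ⟨hr, h3 r, h4.2 r hr⟩
  filter_upwards [a1, a2, a3, hC0'.bound] with q b1 b2 b3 b4
  obtain ⟨b5, b6, b7⟩ := b3
  have c1 := zg_nc_nonneg ({z | ∀ x ∈ G, 1 ≤ om ((x : F) : MF) q.1 z} \ B q.1) b5
  have c2 := zg_nc_nonneg ({z | ∀ x ∈ G, 1 ≤ om ((x : F) : MF) q.1 z} ∩ B q.1) b5
  have c3 := zg_nc_split {z | ∀ x ∈ G, 1 ≤ om ((x : F) : MF) q.1 z} (B q.1) q.2 b6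
  unfold N1 at b2 ⊢
  rw [c3, Real.norm_eq_abs, abs_of_nonneg (add_nonneg c1 c2)]
  rw [Real.norm_eq_abs, abs_of_nonneg c2] at b2
  rw [Real.norm_eq_abs] at b1 b4
  have d1 := (le_abs_self _).trans b1
  have d2 := (le_abs_self _).trans b4
  have d3 : 0 ≤ ‖τ q‖ := norm_nonneg _
  have d4 : (M : ℝ) * Nc ({z | ∀ x ∈ G, 1 ≤ om ((x : F) : MF) q.1 z} \ B q.1) q.2 ≤
      M * (2 * ε / 3 * ‖τ q‖) := by
    have hM1' : (1 : ℝ) ≤ M := by exact_mod_cast hM1
    have d5 : C0 * ‖τ q‖ ≤ M * ε / 3 * ‖τ q‖ := by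
      apply mul_le_mul_of_nonneg_right _ d3
      linarith
    have d6 : ε / 3 * ‖τ q‖ ≤ M * ε / 3 * ‖τ q‖ := by
      apply mul_le_mul_of_nonneg_right _ d3
      nlinarith
    calc _ ≤ _ := b7
      _ ≤ C0 * ‖τ q‖ + ε / 3 * ‖τ q‖ := add_le_add d2 d1
      _ ≤ M * ε / 3 * ‖τ q‖ + M * ε / 3 * ‖τ q‖ := add_le_add d5 d6
      _ = _ := by ring
  have d7 := le_of_mul_le_mul_left d4 hM0
  linarith

end Pool.Agent.N131.SV
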