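import Mathlib
import Pool.Agent.N131.SV.Fin2
import Pool.Agent.N131.SV.Cn
import Pool.Agent.N131.SV.Sms
import Pool.Agent.N131.SV.Mfb
import Pool.Agent.N131.SV.Frb
import Pool.Agent.N131.SV.Fld
import Pool.Agent.N131.SV.Zg
import Pool.Agent.N131.SV.Prx
import Pool.Agent.N131.SV.Gpt
import Pool.Agent.N131.SV.Key
import Pool.Agent.N131.SV.Th
import Pool.Agent.N131.MV.Int
import Pool.Agent.N131.MV.Ord
import Pool.Agent.N131.MV.Gcd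
import Pool.Agent.N131.MV.Bal
import Pool.Agent.N131.MV.Cal

/-!
The master inequality: all bases.
-/

set_option autoImplicit false

namespace Pool.Agent.N131.SV

open MeasureTheory Set Filter Topology Metric Real ValueDistribution MeromorphicOn Function
open Asymptotics MvPolynomial FF
open Pool.Agent.N131.SR (Wr Tf NZ Big Nb exists_big)
open Pool.Agent.W602.GT (IsForm coords val exists_embedding Divisorial IsPluri RegAt LogAt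
  LogGeneralType)
open Pool.Agent.W603.LV (Ge)

variable {M M' : ℕ} {K K' : Type} [Field K] [Algebra ℂ K] [Field K'] [Algebra ℂ K'] {w : ℕ}

theorem pb_le {ν n : ℕ} {pr : Fin (ν + 1) → MvPolynomial (Fin (M + 1)) ℂ}
    {f : Fin (M + 1) → ℂ → ℂ} {g : Fin n → ℂ → ℂ} (h : PB pr f g) : n < ν + 2 := by
  have h1 : Module.finrank ℂ (Submodule.span ℂ (Set.range g)) = n := by
    rw [finrank_span_eq_card h.ind, Fintype.card_fin]
  have h2 := finrank_range_le_card (R := ℂ) (b := fun i z => eval (fun j => f j z) (pr i))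
  rw [Set.finrank, ← h.span, h1, Fintype.card_fin] at h2
  omega

theorem combine {y : Fin (M + 1) → K} {ν : ℕ} {pr : Fin (ν + 1) → MvPolynomial (Fin (M + 1)) ℂ}
    {J : Type} {R : (Fin (M + 1) → ℂ → ℂ) → J → Prop}
    {S Y : (Fin (M + 1) → ℂ → ℂ) → J → ℝ → ℝ} (hY : ∀ f j r, 1 ≤ r → 0 ≤ Y f j r)
    (hh : ∀ n : ℕ, ∃ A : MvPolynomial (Fin (M + 1)) ℂ, IsForm A ∧ aeval y A ≠ 0 ∧ ∃ C : ℝ,
      ∀ (f : Fin (M + 1) → ℂ → ℂ) (g : Fin n → ℂ → ℂ) (j : J),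
        EC y f → PB pr f g → R f j → (∃ z, eval (fun j => f j z) A ≠ 0) →
        ∃ E : Set ℝ, volume E < ⊤ ∧ ∀ r, 1 ≤ r → r ∉ E →
          S f j r ≤ C * (Y f j r + Nb (Wr g) r + Real.log r)) :
    ∃ A : MvPolynomial (Fin (M + 1)) ℂ, IsForm A ∧ aeval y A ≠ 0 ∧ ∃ C : ℝ,
      ∀ (n : ℕ) (f : Fin (M + 1) → ℂ → ℂ) (g : Fin n → ℂ → ℂ) (j : J),
        EC y f → PB pr f g → R f j → (∃ z, eval (fun j => f j z) A ≠ 0) →
        ∃ E : Set ℝ, volume E < ⊤ ∧ ∀ r, 1 ≤ r → r ∉ E →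
          S f j r ≤ C * (Y f j r + Nb (Wr g) r + Real.log r) := by
  choose A hA hA0 C hC using hh
  choose d hd using hA
  refine ⟨∏ n : Fin (ν + 2), A n, ⟨∑ n : Fin (ν + 2), d n,
    IsHomogeneous.prod _ _ _ fun n _ => hd n⟩, ?_, ∑ n : Fin (ν + 2), |C n|, ?_⟩
  · rw [map_prod, Finset.prod_ne_zero_iff]
    exact fun n _ => hA0 n
  · intro n f g j h1 h2 h3 h4
    obtain ⟨z, hz⟩ := h4
    rw [map_prod, Finset.prod_ne_zero_iff] at hz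
    obtain ⟨E, hE, hb⟩ := hC n f g j h1 h2 h3 ⟨z, hz ⟨n, pb_le h2⟩ (Finset.mem_univ _)⟩
    refine ⟨E, hE, fun r hr hrE => (hb r hr hrE).trans ?_⟩
    apply mul_le_mul_of_nonneg_right
    · have h5 := Finset.single_le_sum (f := fun n : Fin (ν + 2) => |C n|)
        (fun n _ => abs_nonneg _) (Finset.mem_univ ⟨n, pb_le h2⟩)
      exact (le_abs_self _).trans h5
    · have h6 := SR.Nb_nonneg (h := Wr g) hr
      have h7 := Real.log_nonneg hr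
      have h8 := hY f j r hr
      linarith

/-- **The master inequality.** -/
theorem fin1 {y' : Fin (M' + 1) → K'} (hy : coords ℂ y' = ⊤) (hyne : ∃ l, y' l ≠ 0)
    {ν e : ℕ} {pr : Fin (ν + 1) → MvPolynomial (Fin (M' + 1)) ℂ}
    (hpr : ∀ i, (pr i).IsHomogeneous e) (hpr0 : ∃ i, aeval y' (pr i) ≠ 0)
    (hpralg : Algebra.IsAlgebraic (IntermediateField.adjoin ℂ
      {z | ∃ i j, aeval y' (pr j) ≠ 0 ∧ z = aeval y' (pr i) / aeval y' (pr j)}) K')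
    {y : Fin (M + 1) → K} (hyK : coords ℂ y = ⊤) (hyKne : ∃ l, y l ≠ 0) (hw : 0 < w)
    (htr : Algebra.trdeg ℂ K = w) {φ : K →ₐ[ℂ] K'} {p : ℕ}
    {P : Fin (M + 1) → MvPolynomial (Fin (M' + 1)) ℂ} (hP : RMap y' y φ p P) {N t : ℕ}
    {ω : Fin (t + 1) → (Fin w → Derivation ℂ K K) → K} (hpl : ∀ i, IsPluri N (ω i))
    (hlog : ∀ P : Place ℂ K, Divisorial w P → ∀ i, LogAt P (ω i)) {r : ℕ}
    {Q : Fin (r + 1) → MvPolynomial (Fin (M + 1)) ℂ} {q : Fin (r + 1) → ℕ}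
    (hQ : ∀ l, (Q l).IsHomogeneous (q l)) (hQ0 : ∃ l, aeval y (Q l) ≠ 0)
    (hreg : ∀ P : Place ℂ K, Divisorial w P → ¬ Bd Q q y P → ∀ i, RegAt P (ω i)) {b : ℕ}
    {B : Fin (t + 1) → MvPolynomial (Fin (M' + 1)) ℂ} (hB : ∀ i, (B i).IsHomogeneous b)
    (hBω : ∀ i j D, φ (ω i D) * aeval y' (B j) = φ (ω j D) * aeval y' (B i))
    (hB0 : ∃ i, aeval y' (B i) ≠ 0) (hω0 : ∃ i D, ω i D ≠ 0) {ε : ℝ} (hε : 0 < ε) :
    ∃ A : MvPolynomial (Fin (M' + 1)) ℂ, IsForm A ∧ aeval y' A ≠ 0 ∧ ∃ C : ℝ,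
      ∀ (n : ℕ) (F : Fin (M' + 1) → ℂ → ℂ) (f : Fin (M + 1) → ℂ → ℂ) (g : Fin n → ℂ → ℂ)
        (h : Fin (t + 1) → ℂ → ℂ),
        EC y' F → RM P F f → PB pr F g → RM B F h → (∃ z, eval (fun j => F j z) A ≠ 0) →
        ∃ E : Set ℝ, volume E < ⊤ ∧ ∀ r, 1 ≤ r → r ∉ E →
          Tf h r - N * Nc {z | ∀ l, eval (fun j => f j z) (Q l) = 0} r - ε * Tf F r ≤
            C * (Nb (Wr g) r + Real.log r) := by
  obtain ⟨A, hA, hA0, C, hC⟩ := combine (y := y') (pr := pr)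
    (J := (Fin (M + 1) → ℂ → ℂ) × (Fin (t + 1) → ℂ → ℂ))
    (R := fun F c => RM P F c.1 ∧ RM B F c.2) (S := fun F c r =>
    Tf c.2 r - N * Nc {z | ∀ l, eval (fun j => c.1 j z) (Q l) = 0} r - ε * Tf F r)
    (Y := fun _ _ _ => 0) (fun _ _ _ _ => le_rfl) fun n => by
      obtain ⟨A, hA, hA0, C, hC⟩ := fin1n (MV.t_BAL MV.t_INT) (MV.t_CAL MV.t_ORD) (t_SMS t_CN2)
        t_FRB (t_FLD t_MFB) (t_ZG MV.t_GCD t_CN2 (t_SMS t_CN2)) t_PRX t_GPT t_KEY (t_TH t_CN1) t_TB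
        hy hyne hpr hpr0 hpralg hyK hyKne hw htr hP hpl hlog hQ hQ0 hreg hB hBω hB0 hω0 hε n
      refine ⟨A, hA, hA0, C, fun F g c h1 h2 h3 h4 => ?_⟩
      obtain ⟨E, hE, hb⟩ := hC F c.1 g c.2 h1 h3.1 h2 h3.2 h4
      exact ⟨E, hE, fun r hr hrE => by rw [zero_add]; exact hb r hr hrE⟩
  refine ⟨A, hA, hA0, C, fun n F f g h h1 h2 h3 h4 h5 => ?_⟩
  obtain ⟨E, hE, hb⟩ := hC n F g (f, h) h1 h3 ⟨h2, h4⟩ h5
  refine ⟨E, hE, fun r hr hrE => ?_⟩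
  have h6 := hb r hr hrE
  rwa [zero_add] at h6

/-- **Varieties of logarithmic general type.** -/
theorem fin2 {y' : Fin (M' + 1) → K'} (hy : coords ℂ y' = ⊤) (hyne : ∃ l, y' l ≠ 0)
    {ν e : ℕ} {pr : Fin (ν + 1) → MvPolynomial (Fin (M' + 1)) ℂ}
    (hpr : ∀ i, (pr i).IsHomogeneous e) (hpr0 : ∃ i, aeval y' (pr i) ≠ 0)
    (hpralg : Algebra.IsAlgebraic (IntermediateField.adjoin ℂ
      {z | ∃ i j, aeval y' (pr j) ≠ 0 ∧ z = aeval y' (pr i) / aeval y' (pr j)}) K')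
    {y : Fin (M + 1) → K} (hyK : coords ℂ y = ⊤) (hyKne : ∃ l, y l ≠ 0) (hw : 0 < w)
    {φ : K →ₐ[ℂ] K'} {p : ℕ} {P : Fin (M + 1) → MvPolynomial (Fin (M' + 1)) ℂ}
    (hP : RMap y' y φ p P) {r : ℕ}
    {Q : Fin (r + 1) → MvPolynomial (Fin (M + 1)) ℂ} {q : Fin (r + 1) → ℕ}
    (hQ : ∀ l, (Q l).IsHomogeneous (q l)) (hQ0 : ∃ l, aeval y (Q l) ≠ 0)
    (hLG : LogGeneralType ℂ K w (Bd Q q y)) {ε : ℝ} (hε : 0 < ε) :
    ∃ A : MvPolynomial (Fin (M' + 1)) ℂ, IsForm A ∧ aeval y' A ≠ 0 ∧ ∃ C : ℝ,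
      ∀ (n : ℕ) (F : Fin (M' + 1) → ℂ → ℂ) (f : Fin (M + 1) → ℂ → ℂ) (g : Fin n → ℂ → ℂ),
        EC y' F → RM P F f → PB pr F g → (∃ z, eval (fun j => F j z) A ≠ 0) →
        ∃ E : Set ℝ, volume E < ⊤ ∧ ∀ r, 1 ≤ r → r ∉ E →
          Tf f r - ε * Tf F r ≤ C * (Nc {z | ∀ l, eval (fun j => f j z) (Q l) = 0} r +
            Nb (Wr g) r + Real.log r) := by
  obtain ⟨A, hA, hA0, C, hC⟩ := combine (y := y') (pr := pr) (J := Fin (M + 1) → ℂ → ℂ)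
    (R := fun F f => RM P F f) (S := fun F f r => Tf f r - ε * Tf F r)
    (Y := fun _ f r => Nc {z | ∀ l, eval (fun j => f j z) (Q l) = 0} r)
    (fun _ _ _ hr => Nc_nonneg hr) (fun n => by
      obtain ⟨A, hA, hA0, C, hC⟩ := fin2n (MV.t_BAL MV.t_INT) (MV.t_CAL MV.t_ORD) (t_SMS t_CN2)
        t_MFB t_FRB (t_FLD t_MFB) (t_ZG MV.t_GCD t_CN2 (t_SMS t_CN2)) t_PRX t_GPT t_KEY t_CN1 t_TB
        hy hyne hpr hpr0 hpralg hyK hyKne hw hP hQ hQ0 hLG hε n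
      exact ⟨A, hA, hA0, C, fun F g f h1 h2 h3 h4 => hC F f g h1 h3 h2 h4⟩)
  exact ⟨A, hA, hA0, C, fun n F f g h1 h2 h3 h4 => hC n F g f h1 h3 h2 h4⟩

end Pool.Agent.N131.SV
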