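import Mathlib
import Pool.Agent.N131.SV.Stm2

/-!
Wronskian determinants of functions with few zeros.
-/

set_option autoImplicit false

namespace Pool.Agent.N131.SV

open MeasureTheory Set Filter Topology Metric Real ValueDistribution MeromorphicOn Function
open Asymptotics MvPolynomial FF
open Pool.Agent.N131.SR (Wr Tf NZ Big)

/-- (WRD) the zeros of the Wronskian determinant of functions with few zeros are few -/
def S_WRD : Prop := ∀ (L : Idx → Filter ℝ) (τ : Idx × ℝ → ℝ) (_H : Cmp L τ) (n : ℕ)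
  (g : Fin (n + 1) → Pt → ℂ), (∀ j k, Differentiable ℂ (sl (g j) k)) →
  (∀ᶠ k in (U : Filter Idx), ∃ z, Wrs g (k, z) ≠ 0) →
  (∀ i j, OB L τ fun p => g i p / g j p) →
  SmS L τ (fun k => {z | ∃ j, g j (k, z) = 0}) →
  SmS L τ fun k => {z | Wrs g (k, z) = 0}

end Pool.Agent.N131.SV
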