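import Pool.Agent.N131.SV.StmD
import Pool.Agent.N131.SV.Frb

/-!
Wronskian determinants of functions with few zeros (subtask 9498 of helper131, by helper296).
-/

set_option autoImplicit false
set_option linter.all false

namespace Pool.Agent.N131.SV

open MeasureTheory Set Filter Topology Metric Real ValueDistribution MeromorphicOn Function
open Asymptotics
open Pool.Agent.TH143.EL (codis_ev codis_of_ev mero_id mero_ne mero_an)
open Pool.Agent.N131.SR (Wr NZ Wr_diff)

variable {L : Idx → Filter ℝ} {τ : Idx × ℝ → ℝ}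

/-- the logarithmic derivative of a function with few zeros and poles is small -/
theorem wrd_ld (H : Cmp L τ) (h2 : S_CN1) {a : Pt → ℂ} (ha : OB L τ a) (hnz : NZs a)
    {Z : Idx → Set ℂ} (hZ : SmS L τ Z)
    (hord : ∀ᶠ k in (U : Filter Idx), ∀ z, z ∉ Z k → AnalyticAt ℂ (sl a k) z ∧ a (k, z) ≠ 0) :
    Sm L τ (ldv a) := by
  rcases nz_or ha.1.ldv with h | h
  · refine ⟨ha.1.ldv, o_of_ev (t := fun p => px (ldv a) p + N1 Z p) (Lf_of_ev H ?_)
      ((ld_o H (ha.ot H)).add hZ.small)⟩
    filter_upwards [h, hnz, hZ.fin, hord] with k e1 e2 e3 e4 r hr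
    refine ⟨ch_nonneg _ k hr, ?_⟩
    have h5 := h2 (sl (ldv a) k) (ha.1.ldv k) e1 Unit Empty (fun _ => 1) (fun _ => Z k)
      (fun _ r => e3 r) (fun l => l.elim) (fun l => l.elim) 0 (by
        intro z
        simp only [Finset.univ_unique, Finset.sum_singleton, Nat.cast_one, one_mul,
          Nat.cast_zero, zero_mul, add_zero]
        have e6 : sl (ldv a) k = logDeriv (sl a k) := rfl
        rw [e6]
        by_cases hz : z ∈ Z k
        · rw [Set.indicator_of_mem hz, Pi.one_apply]
          have h6 := SR.pl_logDeriv (ha.1 k) e2 z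
          revert h6
          generalize meromorphicOrderAt (logDeriv (sl a k)) z = o
          cases o with
          | top => intro _; simp
          | coe o =>
            intro h6
            have h7 : (-((1 : ℕ) : ℤ)) ≤ o := by exact_mod_cast h6
            rw [WithTop.untopD_coe]
            exact_mod_cast h7
        · rw [Set.indicator_of_notMem hz, neg_zero]
          obtain ⟨h7, h8⟩ := e4 z hz
          have h6 : 0 ≤ meromorphicOrderAt (logDeriv (sl a k)) z := by
            have h9 : AnalyticAt ℂ (logDeriv (sl a k)) z := h7.deriv.div h7 h8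
            exact h9.meromorphicOrderAt_nonneg
          revert h6
          generalize meromorphicOrderAt (logDeriv (sl a k)) z = o
          cases o with
          | top => intro _; simp
          | coe o =>
            intro h6
            have h7 : (0 : ℤ) ≤ o := by exact_mod_cast h6
            rw [WithTop.untopD_coe]
            exact h7) r hr
    simp only [Finset.univ_unique, Finset.sum_singleton, Nat.cast_one, one_mul,
      Nat.cast_zero, zero_mul, add_zero] at h5
    change proximity (sl (ldv a) k) ⊤ r + ValueDistribution.logCounting (sl (ldv a) k) ⊤ r ≤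
      proximity (sl (ldv a) k) ⊤ r + Nc (Z k) r
    linarith
  · exact (sm_const H fun _ => 0).congr H ha.1.ldv h

/-- the coordinates do not vanish identically -/
theorem wrd_gne {n : ℕ} {g : Fin (n + 1) → Pt → ℂ} {k : Idx} (hW : ∃ z, Wrs g (k, z) ≠ 0)
    (j : Fin (n + 1)) : ∃ z, g j (k, z) ≠ 0 := by
  by_contra hcon
  push Not at hcon
  obtain ⟨z, hz⟩ := hW
  apply hz
  unfold Wrs Wr
  apply Matrix.det_eq_zero_of_column_eq_zero j
  intro i
  rw [Matrix.of_apply]
  have h1 : sl (g j) k = fun _ => 0 := funext hcon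
  change iteratedDeriv (i : ℕ) (sl (g j) k) z = 0
  rw [h1]
  simp

theorem wrd_ne {a : Pt → ℂ} (ha : ∀ k, Differentiable ℂ (sl a k))
    (h : ∀ᶠ k in (U : Filter Idx), ∃ z, a (k, z) ≠ 0) : ∀ᶠ z in cod, a z ≠ 0 := by
  rw [ev_cod]
  filter_upwards [h] with k hk
  apply codis_of_ev
  intro x
  rcases ((ha k).analyticAt x).eventually_eq_zero_or_eventually_ne_zero with h2 | h2
  · exfalso
    obtain ⟨z, hz⟩ := hk
    apply hz
    have h3 : AnalyticOnNhd ℂ (sl a k) univ := fun z _ => (ha k).analyticAt z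
    exact h3.eqOn_zero_of_preconnected_of_eventuallyEq_zero isPreconnected_univ (mem_univ x) h2
      (mem_univ z)
  · exact h2

/-- the Wronskian determinant -/
theorem wrd_det {n : ℕ} {g : Fin (n + 1) → Pt → ℂ} (hgd : ∀ j k, Differentiable ℂ (sl (g j) k))
    (h0 : ∀ᶠ z in cod, ∀ j, g j z ≠ 0) : ∀ᶠ z in cod, Wrs g z = (∏ j, g j z) *
      (Matrix.of fun i j : Fin (n + 1) => Eop (fun z => -ldv (frb_x g j) z) i (fun _ => 1) z).det := by
  have hgm : ∀ j, Mero (g j) := fun j => frb_mero (hgd j)
  have hxm : ∀ j, Mero (frb_x g j) := fun j => (hgm j).div (hgm 0)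
  have hsne : ∀ᶠ z in cod, g 0 z ≠ 0 := h0.mono fun z hz => hz 0
  have hsm : Mero (g 0) := hgm 0
  have hgx : ∀ j, ∀ᶠ z in cod, g j z = g 0 z * frb_x g j z := by
    intro j
    filter_upwards [hsne] with z hz
    unfold frb_x
    field_simp
  have hxne : ∀ᶠ z in cod, ∀ j, frb_x g j z ≠ 0 := by
    filter_upwards [h0] with z hz j
    exact div_ne_zero (hz j) (hz 0)
  set u : Pt → ℂ := fun z => -ldv (g 0) z with hu
  have hum : Mero u := hsm.ldv.neg
  have e1 : ∀ᶠ z in cod, ∀ i : Fin (n + 1), ∀ k : Fin (n + 1),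
      Eop (fun _ => 0) i (g k) z = g 0 z * Eop u i (frb_x g k) z := by
    rw [eventually_all]
    intro i
    rw [eventually_all]
    intro k
    filter_upwards [Eop_congr (u := fun _ => 0) (hgx k) i,
      Eop_gauge (v := fun _ => 0) hsm (hxm k) hum (by
        filter_upwards [hsne] with z hz
        rw [hu]
        simp only
        rw [ldv_apply]
        field_simp
        ring) i] with z e1 e2
    rw [e1, e2]
  have e5 : ∀ᶠ z in cod, ∀ i : Fin (n + 1), ∀ k : Fin (n + 1),
      Eop (fun _ => 0) i (frb_x g k) z = frb_x g k z *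
        Eop (fun z => -ldv (frb_x g k) z) i (fun _ => 1) z := by
    rw [eventually_all]
    intro i
    rw [eventually_all]
    intro k
    have h1 : Mero fun z => -ldv (frb_x g k) z := (hxm k).ldv.neg
    have h2 := Eop_gauge (v := fun _ => 0) (hxm k) (mero_const fun _ => 1) h1 (by
        filter_upwards [hxne] with z hz
        have hz' := hz k
        rw [ldv_apply]
        field_simp
        ring) i
    simp only [mul_one] at h2
    exact h2
  filter_upwards [e1, e5, hgx 0, eventually_all.2 hgx, det_shift (fun j => hxm j) hum]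
    with z e2 e6 _ e7 e3
  have e4 : (Matrix.of fun i j : Fin (n + 1) => iteratedDeriv i (sl (g j) z.1) z.2) =
      g 0 z • (Matrix.of fun i j : Fin (n + 1) => Eop u i (frb_x g j) z) := by
    ext i j
    rw [Matrix.smul_apply, Matrix.of_apply, Matrix.of_apply, smul_eq_mul, ← e2 i j, frb_iter]
  have e8 : (Matrix.of fun i j : Fin (n + 1) => Eop (fun _ => 0) i (frb_x g j) z) =
      Matrix.of fun i j : Fin (n + 1) => frb_x g j z *
        (Matrix.of fun i j : Fin (n + 1) =>
          Eop (fun z => -ldv (frb_x g j) z) i (fun _ => 1) z) i j := by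
    ext i j
    rw [Matrix.of_apply, Matrix.of_apply, Matrix.of_apply, e6 i j]
  unfold Wrs Wr
  rw [e4, Matrix.det_smul, Fintype.card_fin, e3, e8, Matrix.det_mul_row, ← mul_assoc]
  congr 1
  rw [Finset.prod_congr rfl fun j _ => e7 j, Finset.prod_mul_distrib, Finset.prod_const,
    Finset.card_univ, Fintype.card_fin]

theorem wrd_eop (H : Cmp L τ) {u : Pt → ℂ} (hu : Sm L τ u) (i : ℕ) :
    Sm L τ (Eop u i fun _ => 1) := by
  induction i with
  | zero => exact sm_const H fun _ => 1
  | succ i ih =>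
    have h1 := (ih.deriv H).add H ((sm_const H fun _ => -1).mul H (hu.mul H ih))
    have h2 : Eop u (i + 1) (fun _ => 1) = fun z => dv (Eop u i fun _ => 1) z +
        (fun p : Pt => (-1 : ℂ)) z * (u z * Eop u i (fun _ => 1) z) := by
      funext z
      change dv (Eop u i fun _ => 1) z - u z * Eop u i (fun _ => 1) z = _
      ring
    rw [h2]
    exact h1

theorem wrd_sdet (H : Cmp L τ) {m : ℕ} {F : Fin m → Fin m → Pt → ℂ}
    (hF : ∀ i j, Sm L τ (F i j)) : Sm L τ fun p => (Matrix.of fun i j => F i j p).det := by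
  have h1 := frb_det (F := F) fun i j => (hF i j).1
  rw [← mem_smf (H := H) (ha := frb_mdet fun i j => (hF i j).1), ← h1, Matrix.det_apply]
  apply sum_mem
  intro σ _
  rw [Units.smul_def]
  apply zsmul_mem
  exact prod_mem fun i _ => (mem_smf (H := H) (ha := (hF (σ i) i).1)).2 (hF (σ i) i)

theorem t_WRD (h1 : S_SMS) (h2 : S_CN1) : S_WRD := by
  intro L τ H n g hgd hW hOB hZ
  obtain ⟨s1, s2, s3, s4, s5⟩ := h1 L τ H
  have hgm : ∀ j, Mero (g j) := fun j => frb_mero (hgd j)
  have hWm : Mero (Wrs g) := frb_mero (frb_wdiff hgd)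
  have hgne : ∀ᶠ z in cod, ∀ j, g j z ≠ 0 := by
    rw [eventually_all]
    exact fun j => wrd_ne (hgd j) (hW.mono fun k hk => wrd_gne hk j)
  have hld : ∀ j, Sm L τ (ldv (frb_x g j)) := by
    intro j
    refine wrd_ld H h2 (hOB j 0) (nz_of_ne (hOB j 0).1 ?_) hZ (Eventually.of_forall ?_)
    · exact (hgne.mono fun z hz => div_ne_zero (hz j) (hz 0)).frequently
    · intro k z hz
      have h3 : ∀ j, g j (k, z) ≠ 0 := fun j hj => hz ⟨j, hj⟩
      exact ⟨((hgd j k).analyticAt z).div ((hgd 0 k).analyticAt z) (h3 0),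
        div_ne_zero (h3 j) (h3 0)⟩
  have hnl : ∀ j, Sm L τ fun z => -ldv (frb_x g j) z := by
    intro j
    have h3 := (sm_const H fun _ => -1).mul H (hld j)
    have h4 : (fun z => -ldv (frb_x g j) z) = fun z => (fun p : Pt => (-1 : ℂ)) z *
        ldv (frb_x g j) z := by
      funext z
      ring
    rw [h4]
    exact h3
  have hdet : Sm L τ fun p => (Matrix.of fun i j : Fin (n + 1) =>
      Eop (fun z => -ldv (frb_x g j) z) i (fun _ => 1) p).det :=
    wrd_sdet H (F := fun i j => Eop (fun z => -ldv (frb_x g j) z) i fun _ => 1)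
      fun i j => wrd_eop H (hnl j) i
  have hpm : Mero fun p => ∏ j, g j p := mero_prod Finset.univ hgm
  have hΨ : Sm L τ fun p => Wrs g p / ∏ j, g j p := by
    refine hdet.congr H (hWm.div hpm) ?_
    filter_upwards [wrd_det hgd hgne, hgne] with z e1 e2
    have e3 : ∏ j, g j z ≠ 0 := Finset.prod_ne_zero_iff.2 fun j _ => e2 j
    rw [e1]
    field_simp
  have hinv := hΨ.inv H
  have hmem := (mem_smf (H := H) (ha := hinv.1)).2 hinv
  refine s1 _ _ ?_ (s2 _ _ hZ (s4 _ hmem))
  filter_upwards [om_mf hinv.1, hW] with k hk hWk z hz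
  by_cases hzZ : ∃ j, g j (k, z) = 0
  · exact Or.inl hzZ
  · right
    change om _ k z < 0
    rw [hk z]
    push Not at hzZ
    have hA : AnalyticAt ℂ (sl (Wrs g) k) z := (frb_wdiff hgd k).analyticAt z
    have hB : AnalyticAt ℂ (fun w => ∏ j, g j (k, w)) z :=
      Finset.analyticAt_fun_prod _ fun j _ => (hgd j k).analyticAt z
    have hB0 : (fun w => ∏ j, g j (k, w)) z ≠ 0 := Finset.prod_ne_zero_iff.2 fun j _ => hzZ j
    have hAz : sl (Wrs g) k z = 0 := hz
    have hA1 : analyticOrderAt (sl (Wrs g) k) z ≠ 0 := hA.analyticOrderAt_ne_zero.2 hAz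
    have hA2 : analyticOrderAt (sl (Wrs g) k) z ≠ ⊤ := by
      intro h3
      rw [analyticOrderAt_eq_top] at h3
      obtain ⟨w, hw⟩ := hWk
      apply hw
      have h4 : AnalyticOnNhd ℂ (sl (Wrs g) k) univ := fun z _ =>
        (frb_wdiff hgd k).analyticAt z
      exact h4.eqOn_zero_of_preconnected_of_eventuallyEq_zero isPreconnected_univ (mem_univ z) h3
        (mem_univ w)
    have e1 : (sl (fun p => (Wrs g p / ∏ j, g j p)⁻¹) k) =
        (fun w => ∏ j, g j (k, w)) * (sl (Wrs g) k)⁻¹ := by
      funext w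
      change (Wrs g (k, w) / ∏ j, g j (k, w))⁻¹ = (∏ j, g j (k, w)) * (Wrs g (k, w))⁻¹
      rw [inv_div, div_eq_mul_inv]
    rw [e1, meromorphicOrderAt_mul hB.meromorphicAt hA.meromorphicAt.inv, meromorphicOrderAt_inv,
      (hB.meromorphicOrderAt_eq), hA.meromorphicOrderAt_eq,
      (hB.analyticOrderAt_eq_zero).2 hB0]
    obtain ⟨m, hm⟩ := ENat.ne_top_iff_exists.1 hA2
    rw [← hm] at hA1 ⊢
    have hm0 : m ≠ 0 := by
      intro h
      apply hA1
      rw [h]
      rfl
    have e2 : ((0 : ℕ∞).map ((↑) : ℕ → ℤ)) + -((m : ℕ∞).map ((↑) : ℕ → ℤ)) =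
        ((-(m : ℤ) : ℤ) : WithTop ℤ) := by
      change ((0 : ℤ) : WithTop ℤ) + ((-(m : ℤ) : ℤ) : WithTop ℤ) = _
      rw [← WithTop.coe_add, zero_add]
    have e3 : ((-(m : ℤ) : ℤ) : WithTop ℤ) < 0 := by
      have : -(m : ℤ) < 0 := by omega
      exact_mod_cast this
    first
      | exact e2 ▸ e3
      | (rw [e2]; exact e3)
      | simpa using e3

end Pool.Agent.N131.SV
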