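import Mathlib
import Pool.Agent.N131.SV.FinD2
import Pool.Agent.N131.SV.Fin
import Pool.Agent.N131.SV.Wrd

/-!
The master inequality, with the minimum of the two error terms.
-/

set_option autoImplicit false

namespace Pool.Agent.N131.SV

open MeasureTheory Set Filter Topology Metric Real ValueDistribution MeromorphicOn Function
open Asymptotics MvPolynomial FF
open Pool.Agent.N131.SR (Wr Tf NZ Big Nb exists_big)
open Pool.Agent.W602.GT (IsForm coords val exists_embedding Divisorial IsPluri RegAt LogAt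
  LogGeneralType)
open Pool.Agent.W603.LV (Ge)

variable {M M' : ℕ} {K K' : Type} [Field K] [Algebra ℂ K] [Field K'] [Algebra ℂ K'] {w : ℕ}

/-- bases which consist of members of the system -/
theorem exists_sel {ν : ℕ} (pr : Fin (ν + 1) → MvPolynomial (Fin (M + 1)) ℂ)
    (f : Fin (M + 1) → ℂ → ℂ) : ∃ (n : ℕ) (g : Fin n → ℂ → ℂ), PB pr f g ∧
      ∃ s : Fin n → Fin (ν + 1), ∀ l z, g l z = eval (fun j => f j z) (pr (s l)) := by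
  classical
  obtain ⟨κ, a, ha, hspan, hli⟩ := exists_linearIndependent' ℂ
    (fun (i : Fin (ν + 1)) (z : ℂ) => eval (fun j => f j z) (pr i))
  have hfin : Finite κ := Finite.of_injective a ha
  have : Fintype κ := Fintype.ofFinite κ
  let e : Fin (Fintype.card κ) ≃ κ := (Fintype.equivFin κ).symm
  refine ⟨Fintype.card κ, fun l z => eval (fun j => f j z) (pr (a (e l))), ⟨?_, ?_⟩,
    fun l => a (e l), fun l z => rfl⟩
  · exact hli.comp e e.injective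
  · rw [← hspan]
    congr 1
    have h3 : (fun l z => eval (fun j => f j z) (pr (a (e l)))) =
        ((fun (i : Fin (ν + 1)) (z : ℂ) => eval (fun j => f j z) (pr i)) ∘ a) ∘ e := rfl
    rw [h3, e.surjective.range_comp]

theorem combineD {y : Fin (M + 1) → K} {ν : ℕ} {pr : Fin (ν + 1) → MvPolynomial (Fin (M + 1)) ℂ}
    {J : Type} {R : (Fin (M + 1) → ℂ → ℂ) → J → Prop}
    {S X : (Fin (M + 1) → ℂ → ℂ) → J → ℝ → ℝ} (hX : ∀ f j r, 1 ≤ r → 0 ≤ X f j r)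
    (hh : ∀ n : ℕ, ∃ A : MvPolynomial (Fin (M + 1)) ℂ, IsForm A ∧ aeval y A ≠ 0 ∧ ∃ C : ℝ,
      ∀ (f : Fin (M + 1) → ℂ → ℂ) (g : Fin n → ℂ → ℂ) (j : J),
        EC y f → PB pr f g → (∃ s : Fin n → Fin (ν + 1), ∀ l z,
          g l z = eval (fun j => f j z) (pr (s l))) → R f j →
        (∃ z, eval (fun j => f j z) A ≠ 0) →
        ∃ E : Set ℝ, volume E < ⊤ ∧ ∀ r, 1 ≤ r → r ∉ E → S f j r ≤ C * X f j r) :
    ∃ A : MvPolynomial (Fin (M + 1)) ℂ, IsForm A ∧ aeval y A ≠ 0 ∧ ∃ C : ℝ, 0 ≤ C ∧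
      ∀ (f : Fin (M + 1) → ℂ → ℂ) (j : J),
        EC y f → R f j → (∃ z, eval (fun j => f j z) A ≠ 0) →
        ∃ E : Set ℝ, volume E < ⊤ ∧ ∀ r, 1 ≤ r → r ∉ E → S f j r ≤ C * X f j r := by
  choose A hA hA0 C hC using hh
  choose d hd using hA
  refine ⟨∏ n : Fin (ν + 2), A n, ⟨∑ n : Fin (ν + 2), d n,
    IsHomogeneous.prod _ _ _ fun n _ => hd n⟩, ?_, ∑ n : Fin (ν + 2), |C n|,
    Finset.sum_nonneg fun _ _ => abs_nonneg _, ?_⟩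
  · rw [map_prod, Finset.prod_ne_zero_iff]
    exact fun n _ => hA0 n
  · intro f j h1 h3 h4
    obtain ⟨n, g, h2, hs⟩ := exists_sel pr f
    obtain ⟨z, hz⟩ := h4
    rw [map_prod, Finset.prod_ne_zero_iff] at hz
    obtain ⟨E, hE, hb⟩ := hC n f g j h1 h2 hs h3 ⟨z, hz ⟨n, pb_le h2⟩ (Finset.mem_univ _)⟩
    refine ⟨E, hE, fun r hr hrE => (hb r hr hrE).trans ?_⟩
    apply mul_le_mul_of_nonneg_right _ (hX f j r hr)
    have h5 := Finset.single_le_sum (f := fun n : Fin (ν + 2) => |C n|)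
      (fun n _ => abs_nonneg _) (Finset.mem_univ ⟨n, pb_le h2⟩)
    exact (le_abs_self _).trans h5

theorem min_bd {S a b c C1 C2 : ℝ} (h1 : S ≤ C1 * (a + c)) (h2 : S ≤ C2 * (b + c))
    (ha : 0 ≤ a) (hb : 0 ≤ b) (hc : 0 ≤ c) : S ≤ (|C1| + |C2|) * (min a b + c) := by
  have h3 := le_abs_self C1
  have h4 := le_abs_self C2
  have h5 := abs_nonneg C1
  have h6 := abs_nonneg C2
  rcases le_total a b with h | h
  · rw [min_eq_left h]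
    have : C1 * (a + c) ≤ (|C1| + |C2|) * (a + c) :=
      mul_le_mul_of_nonneg_right (by linarith) (by linarith)
    linarith
  · rw [min_eq_right h]
    have : C2 * (b + c) ≤ (|C1| + |C2|) * (b + c) :=
      mul_le_mul_of_nonneg_right (by linarith) (by linarith)
    linarith

/-- **The master inequality, with the minimum of the two error terms.** -/
theorem fin1min {y' : Fin (M' + 1) → K'} (hy : coords ℂ y' = ⊤) (hyne : ∃ l, y' l ≠ 0)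
    {ν e : ℕ} {pr : Fin (ν + 1) → MvPolynomial (Fin (M' + 1)) ℂ}
    (hpr : ∀ i, (pr i).IsHomogeneous e) (hpr0 : ∀ i, aeval y' (pr i) ≠ 0)
    (hpralg : Algebra.IsAlgebraic (IntermediateField.adjoin ℂ
      {z | ∃ i j, aeval y' (pr j) ≠ 0 ∧ z = aeval y' (pr i) / aeval y' (pr j)}) K')
    {y : Fin (M + 1) → K} (hyK : coords ℂ y = ⊤) (hyKne : ∃ l, y l ≠ 0) (hw : 0 < w)
    (htr : Algebra.trdeg ℂ K = w) {φ : K →ₐ[ℂ] K'} {p : ℕ}
    {P : Fin (M + 1) → MvPolynomial (Fin (M' + 1)) ℂ} (hP : RMap y' y φ p P) {N t : ℕ}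
    {ω : Fin (t + 1) → (Fin w → Derivation ℂ K K) → K} (hpl : ∀ i, IsPluri N (ω i))
    (hlog : ∀ P : Place ℂ K, Divisorial w P → ∀ i, LogAt P (ω i)) {r : ℕ}
    {Q : Fin (r + 1) → MvPolynomial (Fin (M + 1)) ℂ} {q : Fin (r + 1) → ℕ}
    (hQ : ∀ l, (Q l).IsHomogeneous (q l)) (hQ0 : ∃ l, aeval y (Q l) ≠ 0)
    (hreg : ∀ P : Place ℂ K, Divisorial w P → ¬ Bd Q q y P → ∀ i, RegAt P (ω i)) {b : ℕ}
    {B : Fin (t + 1) → MvPolynomial (Fin (M' + 1)) ℂ} (hB : ∀ i, (B i).IsHomogeneous b)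
    (hBω : ∀ i j D, φ (ω i D) * aeval y' (B j) = φ (ω j D) * aeval y' (B i))
    (hB0 : ∃ i, aeval y' (B i) ≠ 0) (hω0 : ∃ i D, ω i D ≠ 0) {ε : ℝ} (hε : 0 < ε) :
    ∃ A : MvPolynomial (Fin (M' + 1)) ℂ, IsForm A ∧ aeval y' A ≠ 0 ∧ ∃ C : ℝ,
      ∀ (n : ℕ) (F : Fin (M' + 1) → ℂ → ℂ) (f : Fin (M + 1) → ℂ → ℂ) (g : Fin n → ℂ → ℂ)
        (h : Fin (t + 1) → ℂ → ℂ),
        EC y' F → RM P F f → PB pr F g → RM B F h → (∃ z, eval (fun j => F j z) A ≠ 0) →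
        ∃ E : Set ℝ, volume E < ⊤ ∧ ∀ r, 1 ≤ r → r ∉ E →
          Tf h r - N * Nc {z | ∀ l, eval (fun j => f j z) (Q l) = 0} r - ε * Tf F r ≤
            C * (min (Nb (Wr g) r) (Nc {z | ∃ i, eval (fun j => F j z) (pr i) = 0} r) +
              Real.log r) := by
  obtain ⟨A1, ⟨a1, ha1⟩, hA1, C1, hC1⟩ := fin1 hy hyne hpr ⟨0, hpr0 0⟩ hpralg hyK hyKne hw htr hP
    hpl hlog hQ hQ0 hreg hB hBω hB0 hω0 hε
  obtain ⟨A2, ⟨a2, ha2⟩, hA2, C2, -, hC2⟩ := combineD (y := y') (pr := pr)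
    (J := (Fin (M + 1) → ℂ → ℂ) × (Fin (t + 1) → ℂ → ℂ))
    (R := fun F c => RM P F c.1 ∧ RM B F c.2) (S := fun F c r =>
    Tf c.2 r - N * Nc {z | ∀ l, eval (fun j => c.1 j z) (Q l) = 0} r - ε * Tf F r)
    (X := fun F _ r => Nc {z | ∃ i, eval (fun j => F j z) (pr i) = 0} r + Real.log r)
    (fun F _ r hr => add_nonneg (Nc_nonneg hr) (Real.log_nonneg hr)) fun n => by
      obtain ⟨A, hA, hA0, C, hC⟩ := fin1nD (MV.t_BAL MV.t_INT) (MV.t_CAL MV.t_ORD) (t_SMS t_CN2)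
        t_FRB (t_FLD t_MFB) (t_ZG MV.t_GCD t_CN2 (t_SMS t_CN2)) t_PRX t_GPT t_KEY (t_TH t_CN1) t_TB
        (t_WRD (t_SMS t_CN2) t_CN1)
        hy hyne hpr hpr0 hpralg hyK hyKne hw htr hP hpl hlog hQ hQ0 hreg hB hBω hB0 hω0 hε n
      exact ⟨A, hA, hA0, C, fun F g c h1 h2 hs h3 h4 => hC F c.1 g c.2 h1 h3.1 h2 hs h3.2 h4⟩
  refine ⟨A1 * A2, ⟨_, ha1.mul ha2⟩, by rw [map_mul]; exact mul_ne_zero hA1 hA2, |C1| + |C2|,
    fun n F f g h h1 h2 h3 h4 h5 => ?_⟩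
  obtain ⟨z, hz⟩ := h5
  rw [map_mul] at hz
  obtain ⟨E1, hE1, hb1⟩ := hC1 n F f g h h1 h2 h3 h4 ⟨z, left_ne_zero_of_mul hz⟩
  obtain ⟨E2, hE2, hb2⟩ := hC2 F (f, h) h1 ⟨h2, h4⟩ ⟨z, right_ne_zero_of_mul hz⟩
  refine ⟨E1 ∪ E2, (measure_union_le E1 E2).trans_lt (ENNReal.add_lt_top.2 ⟨hE1, hE2⟩),
    fun r hr hrE => ?_⟩
  exact min_bd (hb1 r hr fun h => hrE (Or.inl h)) (hb2 r hr fun h => hrE (Or.inr h))
    (SR.Nb_nonneg hr) (Nc_nonneg hr) (Real.log_nonneg hr)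

/-- **Varieties of logarithmic general type, with the minimum of the two error terms.** -/
theorem fin2min {y' : Fin (M' + 1) → K'} (hy : coords ℂ y' = ⊤) (hyne : ∃ l, y' l ≠ 0)
    {ν e : ℕ} {pr : Fin (ν + 1) → MvPolynomial (Fin (M' + 1)) ℂ}
    (hpr : ∀ i, (pr i).IsHomogeneous e) (hpr0 : ∀ i, aeval y' (pr i) ≠ 0)
    (hpralg : Algebra.IsAlgebraic (IntermediateField.adjoin ℂ
      {z | ∃ i j, aeval y' (pr j) ≠ 0 ∧ z = aeval y' (pr i) / aeval y' (pr j)}) K')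
    {y : Fin (M + 1) → K} (hyK : coords ℂ y = ⊤) (hyKne : ∃ l, y l ≠ 0) (hw : 0 < w)
    {φ : K →ₐ[ℂ] K'} {p : ℕ} {P : Fin (M + 1) → MvPolynomial (Fin (M' + 1)) ℂ}
    (hP : RMap y' y φ p P) {r : ℕ}
    {Q : Fin (r + 1) → MvPolynomial (Fin (M + 1)) ℂ} {q : Fin (r + 1) → ℕ}
    (hQ : ∀ l, (Q l).IsHomogeneous (q l)) (hQ0 : ∃ l, aeval y (Q l) ≠ 0)
    (hLG : LogGeneralType ℂ K w (Bd Q q y)) {ε : ℝ} (hε : 0 < ε) :
    ∃ A : MvPolynomial (Fin (M' + 1)) ℂ, IsForm A ∧ aeval y' A ≠ 0 ∧ ∃ C : ℝ,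
      ∀ (n : ℕ) (F : Fin (M' + 1) → ℂ → ℂ) (f : Fin (M + 1) → ℂ → ℂ) (g : Fin n → ℂ → ℂ),
        EC y' F → RM P F f → PB pr F g → (∃ z, eval (fun j => F j z) A ≠ 0) →
        ∃ E : Set ℝ, volume E < ⊤ ∧ ∀ r, 1 ≤ r → r ∉ E →
          Tf f r - ε * Tf F r ≤ C * (Nc {z | ∀ l, eval (fun j => f j z) (Q l) = 0} r +
            min (Nb (Wr g) r) (Nc {z | ∃ i, eval (fun j => F j z) (pr i) = 0} r) +
            Real.log r) := by
  obtain ⟨A1, ⟨a1, ha1⟩, hA1, C1, hC1⟩ := fin2 hy hyne hpr ⟨0, hpr0 0⟩ hpralg hyK hyKne hw hP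
    hQ hQ0 hLG hε
  obtain ⟨A2, ⟨a2, ha2⟩, hA2, C2, -, hC2⟩ := combineD (y := y') (pr := pr)
    (J := Fin (M + 1) → ℂ → ℂ)
    (R := fun F f => RM P F f) (S := fun F f r => Tf f r - ε * Tf F r)
    (X := fun F f r => Nc {z | ∀ l, eval (fun j => f j z) (Q l) = 0} r +
      Nc {z | ∃ i, eval (fun j => F j z) (pr i) = 0} r + Real.log r)
    (fun F _ r hr => add_nonneg (add_nonneg (Nc_nonneg hr) (Nc_nonneg hr))
      (Real.log_nonneg hr)) fun n => by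
      obtain ⟨A, hA, hA0, C, hC⟩ := fin2nD (MV.t_BAL MV.t_INT) (MV.t_CAL MV.t_ORD) (t_SMS t_CN2)
        t_MFB t_FRB (t_FLD t_MFB) (t_ZG MV.t_GCD t_CN2 (t_SMS t_CN2)) t_PRX t_GPT t_KEY t_CN1 t_TB
        (t_WRD (t_SMS t_CN2) t_CN1)
        hy hyne hpr hpr0 hpralg hyK hyKne hw hP hQ hQ0 hLG hε n
      exact ⟨A, hA, hA0, C, fun F g f h1 h2 hs h3 h4 => hC F f g h1 h3 h2 hs h4⟩
  refine ⟨A1 * A2, ⟨_, ha1.mul ha2⟩, by rw [map_mul]; exact mul_ne_zero hA1 hA2, |C1| + |C2|,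
    fun n F f g h1 h2 h3 h5 => ?_⟩
  obtain ⟨z, hz⟩ := h5
  rw [map_mul] at hz
  obtain ⟨E1, hE1, hb1⟩ := hC1 n F f g h1 h2 h3 ⟨z, left_ne_zero_of_mul hz⟩
  obtain ⟨E2, hE2, hb2⟩ := hC2 F f h1 h2 ⟨z, right_ne_zero_of_mul hz⟩
  refine ⟨E1 ∪ E2, (measure_union_le E1 E2).trans_lt (ENNReal.add_lt_top.2 ⟨hE1, hE2⟩),
    fun r hr hrE => ?_⟩
  have h6 := hb1 r hr fun h => hrE (Or.inl h)
  have h7 := hb2 r hr fun h => hrE (Or.inr h)
  have h8 := min_bd (a := Nb (Wr g) r) (b := Nc {z | ∃ i, eval (fun j => F j z) (pr i) = 0} r)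
    (c := Nc {z | ∀ l, eval (fun j => f j z) (Q l) = 0} r + Real.log r) (C1 := C1) (C2 := C2)
    (h6.trans (le_of_eq (by ring))) (h7.trans (le_of_eq (by ring)))
    (SR.Nb_nonneg hr) (Nc_nonneg hr) (add_nonneg (Nc_nonneg hr) (Real.log_nonneg hr))
  exact h8.trans (le_of_eq (by ring))

end Pool.Agent.N131.SV
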