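import Mathlib
import Pool.Agent.N131.SV.FinD

/-!
The master inequality, up to the points at which the multiplicity of the divisor of the map is small.
-/

set_option autoImplicit false
set_option linter.unusedSectionVars false

namespace Pool.Agent.N131.SV

open MeasureTheory Set Filter Topology Metric Real ValueDistribution MeromorphicOn Function
open Asymptotics MvPolynomial
open Pool.Agent.N131.SR (Tf NZ curve_int curve_pos)

/-- the counting functions of covered sets -/
theorem nc_le {A B C : Set ℂ} (hA : ∀ r : ℝ, {z : ℂ | z ∈ A ∧ ‖z‖ ≤ r}.Finite)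
    (hB : ∀ r : ℝ, {z : ℂ | z ∈ B ∧ ‖z‖ ≤ r}.Finite)
    (hC : ∀ r : ℝ, {z : ℂ | z ∈ C ∧ ‖z‖ ≤ r}.Finite) (h : A ⊆ B ∪ C) {r : ℝ} (hr : 1 ≤ r) :
    Nc A r ≤ Nc B r + Nc C r := by
  classical
  rw [← cn_log A hA hr, ← cn_log B hB hr, ← cn_log C hC hr]
  have key : cnInd A hA ≤ cnInd B hB + cnInd C hC := by
    intro z
    change (cnInd A hA z) ≤ (cnInd B hB z) + cnInd C hC z
    rw [cnInd_apply, cnInd_apply, cnInd_apply]
    have h1 : ∀ S : Set ℂ, (0 : ℤ) ≤ S.indicator 1 z := fun S =>
      Set.indicator_nonneg (fun _ _ => zero_le_one) _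
    by_cases hz : z ∈ A
    · rw [Set.indicator_of_mem hz]
      rcases h hz with h2 | h2
      · rw [Set.indicator_of_mem h2]
        have := h1 C
        simp only [Pi.one_apply]
        linarith
      · rw [Set.indicator_of_mem h2]
        have := h1 B
        simp only [Pi.one_apply]
        linarith
    · rw [Set.indicator_of_notMem hz]
      have := h1 B
      have := h1 C
      linarith
  have h4 := Function.locallyFinsuppWithin.logCounting_le key hr
  rwa [map_add, Pi.add_apply] at h4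

/-- the first main theorem for forms -/
theorem jn {N d : ℕ} {F : Fin (N + 1) → ℂ → ℂ} (hF : ∀ j, Differentiable ℂ (F j))
    (hF0 : ∀ z, ∃ j, F j z ≠ 0) {G : MvPolynomial (Fin (N + 1)) ℂ} (hG : G.IsHomogeneous d)
    (hne : ∃ z, eval (fun j => F j z) G ≠ 0) : ∃ C : ℝ, 0 ≤ C ∧ ∀ r : ℝ, 1 ≤ r →
      ValueDistribution.logCounting (fun z => eval (fun j => F j z) G) 0 r ≤ d * Tf F r + C := by
  have had := th_form_diff hF G
  have hm := th_mero had
  have hnz := th_nz had hne
  obtain ⟨K, hK1, hK⟩ := th_form G hG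
  refine ⟨|Real.log K - log ‖meromorphicTrailingCoeffAt (fun z => eval (fun j => F j z) G) 0‖|,
    abs_nonneg _, fun r hr => ?_⟩
  have hr0 : r ≠ 0 := by positivity
  have k1 : ValueDistribution.logCounting (fun z => eval (fun j => F j z) G) ⊤ r = 0 := by
    rw [logCounting_top]
    have : (divisor (fun z => eval (fun j => F j z) G) univ)⁻ = 0 := by
      rw [negPart_eq_zero]
      intro z
      change 0 ≤ divisor (fun z => eval (fun j => F j z) G) univ z
      rw [divisor_apply hm.meromorphicOn (mem_univ z)]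
      have h1 := (had.analyticAt z).meromorphicOrderAt_nonneg
      have h2 : meromorphicOrderAt (fun z => eval (fun j => F j z) G) z ≠ ⊤ := hnz z
      lift meromorphicOrderAt (fun z => eval (fun j => F j z) G) z to ℤ using h2 with n
      rw [WithTop.untop₀_coe]
      exact_mod_cast h1
    rw [this, map_zero]
    rfl
  have k2 := logCounting_zero_sub_logCounting_top_eq_circleAverage_sub_const hm hr0
  rw [Pi.sub_apply, k1, sub_zero] at k2
  have hci := curve_int hF hF0 r
  have hcd : CircleIntegrable (fun z => (d : ℝ) * Real.log ‖fun j => F j z‖) 0 r :=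
    hci.const_mul _
  have hcc : CircleIntegrable (fun _ : ℂ => Real.log K) 0 r := circleIntegrable_const _ _ _
  have hφ : CircleIntegrable (fun z => Real.log K + d * Real.log ‖fun j => F j z‖) 0 r :=
    hcc.add hcd
  have k4 := th_le (t := 0) (h := fun _ _ => (1 : ℂ)) (fun _ => differentiable_const _)
    (fun z => ⟨0, one_ne_zero⟩) hm hnz hr0 hφ (by
      refine Eventually.of_forall fun z j => ?_
      have h4 := curve_pos hF0 z
      rw [mul_one, Real.exp_add, Real.exp_log (by linarith), Real.exp_nat_mul, Real.exp_log h4]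
      exact hK _)
  have k5 : circleAverage (fun z => Real.log K + d * Real.log ‖fun j => F j z‖) 0 r =
      Real.log K + d * Tf F r := by
    rw [circleAverage_fun_add hcc hcd, circleAverage_const]
    unfold Tf
    rw [← smul_eq_mul, ← circleAverage_fun_smul]
    rfl
  have k6 : Tf (fun (_ : Fin (0 + 1)) (_ : ℂ) => (1 : ℂ)) r = 0 := by
    unfold Tf
    rw [circleAverage_const]
    have h7 : ‖(fun _ : Fin (0 + 1) => (1 : ℂ))‖ = 1 := by
      rw [pi_norm_const, norm_one]
    rw [h7, Real.log_one]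
  rw [k5, k6] at k4
  rw [k2]
  have h8 := le_abs_self (Real.log K -
    log ‖meromorphicTrailingCoeffAt (fun z => eval (fun j => F j z) G) 0‖)
  linarith

/-- replacing the zeros by the zeros of small multiplicity -/
theorem low_swap {C ε : ℝ} (hC : 0 ≤ C) (hε : 0 < ε) (d : ℕ) : ∃ μ : ℕ, ∀ (N : ℕ)
    (F : Fin (N + 1) → ℂ → ℂ), (∀ j, Differentiable ℂ (F j)) → (∀ z, ∃ j, F j z ≠ 0) →
    ∀ G : MvPolynomial (Fin (N + 1)) ℂ, G.IsHomogeneous d → (∃ z, eval (fun j => F j z) G ≠ 0) →
    ∃ r0 : ℝ, ∀ r : ℝ, 1 ≤ r → r0 ≤ r → ∀ a : ℝ,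
      C * min a (Nc {z | eval (fun j => F j z) G = 0} r) ≤
      C * min a (Nc {z | eval (fun j => F j z) G = 0 ∧
        analyticOrderAt (fun z => eval (fun j => F j z) G) z < μ} r) +
      (ε * Tf F r + (ε + 1) * Real.log r) := by
  obtain ⟨μ1, hμ1⟩ := exists_nat_ge (C * d / ε)
  obtain ⟨μ2, hμ2⟩ := exists_nat_ge C
  refine ⟨μ1 + μ2 + 1, fun N F hF hF0 G hG hne => ?_⟩
  set μ : ℕ := μ1 + μ2 + 1 with hμ
  set H : ℂ → ℂ := fun z => eval (fun j => F j z) G with hH
  have had : Differentiable ℂ H := th_form_diff hF G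
  obtain ⟨c1, hc1, h1⟩ := jn hF hF0 hG hne
  obtain ⟨j, hj⟩ := hF0 0
  obtain ⟨c2, hc2, h2⟩ := jn hF hF0 (isHomogeneous_X ℂ j) ⟨0, by rwa [eval_X]⟩
  set Bh : Set ℂ := {z | H z = 0 ∧ ¬ analyticOrderAt H z < μ} with hBh
  set Bl : Set ℂ := {z | H z = 0 ∧ analyticOrderAt H z < μ} with hBl
  have hord : ∀ z ∈ Bh, ((μ : ℤ) : WithTop ℤ) ≤ meromorphicOrderAt H z := by
    intro z hz
    have h3 : (μ : ℕ∞) ≤ analyticOrderAt H z := not_lt.1 hz.2
    rw [(had.analyticAt z).meromorphicOrderAt_eq]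
    cases h : analyticOrderAt H z with
    | top => simp
    | coe n =>
      rw [h] at h3
      have h4 : μ ≤ n := by exact_mod_cast h3
      rw [ENat.map_natCast]
      exact_mod_cast h4
  obtain ⟨hfin, h3⟩ := t_CN2 H (th_mero had) (th_nz had hne) μ Bh (by omega) hord
  have hfz : ∀ r : ℝ, {z : ℂ | z ∈ {z | H z = 0} ∧ ‖z‖ ≤ r}.Finite := fun r =>
    N131.SR.zeros_finite had hne r
  have hfl : ∀ r : ℝ, {z : ℂ | z ∈ Bl ∧ ‖z‖ ≤ r}.Finite := fun r =>
    (hfz r).subset fun z hz => ⟨hz.1.1, hz.2⟩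
  refine ⟨Real.exp (c1 + c2), fun r hr hr0 a => ?_⟩
  have h4 : Nc {z | H z = 0} r ≤ Nc Bl r + Nc Bh r := by
    refine nc_le hfz hfl hfin (fun z hz => ?_) hr
    by_cases h5 : analyticOrderAt H z < μ
    · exact Or.inl ⟨hz, h5⟩
    · exact Or.inr ⟨hz, h5⟩
  have h5 := (h3 r hr).trans (h1 r hr)
  have h6 : 0 ≤ ValueDistribution.logCounting (fun z => eval (fun j => F j z) (X j)) 0 r :=
    ValueDistribution.logCounting_nonneg hr
  have h7 := h2 r hr
  have hT : -c2 ≤ Tf F r := by
    have := h6.trans h7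
    push_cast at this
    linarith
  have hlog : c1 + c2 ≤ Real.log r := by
    rw [← Real.log_exp (c1 + c2)]
    exact Real.log_le_log (Real.exp_pos _) hr0
  have hμR : (0 : ℝ) < μ := by
    have : 0 < μ := by omega
    exact_mod_cast this
  have hμC : C ≤ μ := by
    rw [hμ]
    push_cast
    have : (0 : ℝ) ≤ μ1 := Nat.cast_nonneg _
    linarith
  have hμd : C * d ≤ ε * μ := by
    have h8 := (div_le_iff₀ hε).1 hμ1
    have h9 : (μ1 : ℝ) ≤ μ := by
      rw [hμ]
      push_cast
      have : (0 : ℝ) ≤ μ2 := Nat.cast_nonneg _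
      linarith
    nlinarith
  -- the places of large multiplicity
  have h10 : C * Nc Bh r ≤ ε * Tf F r + ε * c2 + c1 := by
    have h11 : C * (μ * Nc Bh r) ≤ C * (d * Tf F r + c1) := mul_le_mul_of_nonneg_left h5 hC
    have h12 : C * d * (Tf F r + c2) ≤ ε * μ * (Tf F r + c2) :=
      mul_le_mul_of_nonneg_right hμd (by linarith)
    have h13 : C * c1 ≤ μ * c1 := mul_le_mul_of_nonneg_right hμC hc1
    have h14 : 0 ≤ C * d * c2 := by positivity
    have h15 : μ * (C * Nc Bh r) ≤ μ * (ε * Tf F r + ε * c2 + c1) := by nlinarith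
    exact le_of_mul_le_mul_left h15 hμR
  have hU : ε * Tf F r + ε * c2 + c1 ≤ ε * Tf F r + (ε + 1) * Real.log r := by nlinarith
  have hU0 : 0 ≤ ε * Tf F r + (ε + 1) * Real.log r := by nlinarith
  rcases le_total a (Nc Bl r) with h20 | h20
  · rw [min_eq_left h20]
    have := mul_le_mul_of_nonneg_left (min_le_left a (Nc {z | H z = 0} r)) hC
    linarith
  · rw [min_eq_right h20]
    have h21 := mul_le_mul_of_nonneg_left ((min_le_right a (Nc {z | H z = 0} r)).trans h4) hC
    rw [mul_add] at h21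
    linarith

end Pool.Agent.N131.SV
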