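import Mathlib
import Pool.Agent.N131.SV.Low

/-!
The master inequality, up to the points at which the multiplicity of the divisor of the map is small.
-/

set_option autoImplicit false
set_option linter.unusedSectionVars false

namespace Pool.Agent.N131.SV

open FF MeasureTheory Set Filter MvPolynomial
open Pool.Agent.W602.GT (IsForm coords Divisorial IsPluri RegAt LogAt LogGeneralType)
open Pool.Agent.N131.SR (Tf Nb Wr)

variable {M M' : ℕ} {K K' : Type} [Field K] [Algebra ℂ K] [Field K'] [Algebra ℂ K'] {w : ℕ}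

/-- the zeros of the form `G` along `F`, of the multiplicity less than `μ` -/
def LZ {N : ℕ} (G : MvPolynomial (Fin (N + 1)) ℂ) (F : Fin (N + 1) → ℂ → ℂ) (μ : ℕ) : Set ℂ :=
  {z | eval (fun j => F j z) G = 0 ∧ analyticOrderAt (fun z => eval (fun j => F j z) G) z < μ}

theorem zero_prod {N ν : ℕ} (pr : Fin (ν + 1) → MvPolynomial (Fin (N + 1)) ℂ)
    (F : Fin (N + 1) → ℂ → ℂ) : {z | ∃ i, eval (fun j => F j z) (pr i) = 0} =
      {z | eval (fun j => F j z) (∏ i, pr i) = 0} := by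
  ext z
  simp [map_prod, Finset.prod_eq_zero_iff]

theorem fin_swap {N ν e : ℕ} {C ε : ℝ} (hε : 0 < ε)
    {pr : Fin (ν + 1) → MvPolynomial (Fin (N + 1)) ℂ} (hpr : ∀ i, (pr i).IsHomogeneous e) :
    ∃ μ : ℕ, ∀ F : Fin (N + 1) → ℂ → ℂ, (∀ j, Differentiable ℂ (F j)) → (∀ z, ∃ j, F j z ≠ 0) →
    (∃ z, eval (fun j => F j z) (∏ i, pr i) ≠ 0) → ∀ (S X a : ℝ → ℝ),
    (∀ r, 1 ≤ r → 0 ≤ X r) → (∀ r, 1 ≤ r → 0 ≤ a r) →
    ∀ E : Set ℝ, volume E < ⊤ →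
    (∀ r, 1 ≤ r → r ∉ E → S r - ε / 2 * Tf F r ≤
      C * (X r + min (a r) (Nc {z | ∃ i, eval (fun j => F j z) (pr i) = 0} r) + Real.log r)) →
    ∃ E' : Set ℝ, volume E' < ⊤ ∧ ∀ r, 1 ≤ r → r ∉ E' → S r - ε * Tf F r ≤
      (|C| + (ε / 2 + 1)) * (X r + min (a r) (Nc (LZ (∏ i, pr i) F μ) r) + Real.log r) := by
  have hRh : (∏ i, pr i).IsHomogeneous ((ν + 1) * e) := by
    have h1 : (∏ j, pr j).IsHomogeneous (∑ _j : Fin (ν + 1), e) :=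
      IsHomogeneous.prod _ _ _ fun i _ => hpr i
    rwa [Finset.sum_const, Finset.card_univ, Fintype.card_fin, smul_eq_mul] at h1
  obtain ⟨μ, hμ⟩ := low_swap (abs_nonneg C) (half_pos hε) ((ν + 1) * e)
  refine ⟨μ, fun F hF hF0 hne S X a hX ha E hE hb => ?_⟩
  obtain ⟨r0, h0⟩ := hμ N F hF hF0 _ hRh hne
  refine ⟨E ∪ Icc 1 r0, (measure_union_le _ _).trans_lt (ENNReal.add_lt_top.2
    ⟨hE, by rw [Real.volume_Icc]; exact ENNReal.ofReal_lt_top⟩), fun r hr hrE => ?_⟩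
  have hrE1 : r ∉ E := fun h => hrE (Or.inl h)
  have hr0 : r0 ≤ r := by
    by_contra h
    exact hrE (Or.inr ⟨hr, (not_le.1 h).le⟩)
  have h1 := hb r hr hrE1
  have h2 := h0 r hr hr0 (a r)
  rw [zero_prod] at h1
  set Z : ℝ := Nc {z | eval (fun j => F j z) (∏ i, pr i) = 0} r
  have hlw : Nc (LZ (∏ i, pr i) F μ) r = Nc {z | eval (fun j => F j z) (∏ i, pr i) = 0 ∧
        analyticOrderAt (fun z => eval (fun j => F j z) (∏ i, pr i)) z < μ} r := rfl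
  rw [hlw]
  set Lw : ℝ := Nc {z | eval (fun j => F j z) (∏ i, pr i) = 0 ∧
        analyticOrderAt (fun z => eval (fun j => F j z) (∏ i, pr i)) z < μ} r
  have hZ0 : 0 ≤ Z := Nc_nonneg hr
  have hL0 : 0 ≤ Lw := Nc_nonneg hr
  have hlog : 0 ≤ Real.log r := Real.log_nonneg hr
  have hm : 0 ≤ min (a r) Z := le_min (ha r hr) hZ0
  have hm2 : 0 ≤ min (a r) Lw := le_min (ha r hr) hL0
  have hX0 := hX r hr
  have h3 : C * (X r + min (a r) Z + Real.log r) ≤ |C| * (X r + min (a r) Z + Real.log r) :=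
    mul_le_mul_of_nonneg_right (le_abs_self C) (by positivity)
  have hA : 0 ≤ |C| := abs_nonneg C
  have h4 : 0 ≤ (ε / 2 + 1) * (X r + min (a r) Lw) := by positivity
  nlinarith

/-- **The master inequality, up to the points of small multiplicity.** -/
theorem fin1low {y' : Fin (M' + 1) → K'} (hy : coords ℂ y' = ⊤) (hyne : ∃ l, y' l ≠ 0)
    {ν e : ℕ} {pr : Fin (ν + 1) → MvPolynomial (Fin (M' + 1)) ℂ}
    (hpr : ∀ i, (pr i).IsHomogeneous e) (hpr0 : ∀ i, aeval y' (pr i) ≠ 0)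
    (hpralg : Algebra.IsAlgebraic (IntermediateField.adjoin ℂ
      {z | ∃ i j, aeval y' (pr j) ≠ 0 ∧ z = aeval y' (pr i) / aeval y' (pr j)}) K')
    {y : Fin (M + 1) → K} (hyK : coords ℂ y = ⊤) (hyKne : ∃ l, y l ≠ 0) (hw : 0 < w)
    (htr : Algebra.trdeg ℂ K = w) {φ : K →ₐ[ℂ] K'} {p : ℕ}
    {P : Fin (M + 1) → MvPolynomial (Fin (M' + 1)) ℂ} (hP : RMap y' y φ p P) {N t : ℕ}
    {ω : Fin (t + 1) → (Fin w → Derivation ℂ K K) → K} (hpl : ∀ i, IsPluri N (ω i))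
    (hlog : ∀ P : Place ℂ K, Divisorial w P → ∀ i, LogAt P (ω i)) {r : ℕ}
    {Q : Fin (r + 1) → MvPolynomial (Fin (M + 1)) ℂ} {q : Fin (r + 1) → ℕ}
    (hQ : ∀ l, (Q l).IsHomogeneous (q l)) (hQ0 : ∃ l, aeval y (Q l) ≠ 0)
    (hreg : ∀ P : Place ℂ K, Divisorial w P → ¬ Bd Q q y P → ∀ i, RegAt P (ω i)) {b : ℕ}
    {B : Fin (t + 1) → MvPolynomial (Fin (M' + 1)) ℂ} (hB : ∀ i, (B i).IsHomogeneous b)
    (hBω : ∀ i j D, φ (ω i D) * aeval y' (B j) = φ (ω j D) * aeval y' (B i))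
    (hB0 : ∃ i, aeval y' (B i) ≠ 0) (hω0 : ∃ i D, ω i D ≠ 0) {ε : ℝ} (hε : 0 < ε) :
    ∃ A : MvPolynomial (Fin (M' + 1)) ℂ, IsForm A ∧ aeval y' A ≠ 0 ∧ ∃ (C : ℝ) (μ : ℕ),
      ∀ (n : ℕ) (F : Fin (M' + 1) → ℂ → ℂ) (f : Fin (M + 1) → ℂ → ℂ) (g : Fin n → ℂ → ℂ)
        (h : Fin (t + 1) → ℂ → ℂ),
        EC y' F → RM P F f → PB pr F g → RM B F h → (∃ z, eval (fun j => F j z) A ≠ 0) →
        ∃ E : Set ℝ, volume E < ⊤ ∧ ∀ r, 1 ≤ r → r ∉ E →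
          Tf h r - N * Nc {z | ∀ l, eval (fun j => f j z) (Q l) = 0} r - ε * Tf F r ≤
            C * (min (Nb (Wr g) r) (Nc (LZ (∏ i, pr i) F μ) r) + Real.log r) := by
  obtain ⟨A, ⟨a, ha⟩, hA0, C, hC⟩ := fin1min hy hyne hpr hpr0 hpralg hyK hyKne hw htr hP
    hpl hlog hQ hQ0 hreg hB hBω hB0 hω0 (half_pos hε)
  obtain ⟨μ, hμ⟩ := fin_swap (C := C) hε hpr
  have ha' : (∏ i, pr i).IsHomogeneous (∑ _i : Fin (ν + 1), e) :=
    IsHomogeneous.prod _ _ _ fun i _ => hpr i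
  refine ⟨A * ∏ i, pr i, ⟨_, ha.mul ha'⟩, ?_, |C| + (ε / 2 + 1), μ,
    fun n F f g h h1 h2 h3 h4 h5 => ?_⟩
  · rw [map_mul, map_prod]
    exact mul_ne_zero hA0 (Finset.prod_ne_zero_iff.2 fun i _ => hpr0 i)
  obtain ⟨z, hz⟩ := h5
  rw [map_mul] at hz
  obtain ⟨E, hE, hb⟩ := hC n F f g h h1 h2 h3 h4 ⟨z, left_ne_zero_of_mul hz⟩
  obtain ⟨E', hE', hb'⟩ := hμ F h1.diff h1.ne ⟨z, right_ne_zero_of_mul hz⟩
    (fun r => Tf h r - N * Nc {z | ∀ l, eval (fun j => f j z) (Q l) = 0} r) (fun _ => 0)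
    (fun r => Nb (Wr g) r) (fun _ _ => le_rfl) (fun r hr => SR.Nb_nonneg hr) E hE
    (fun r hr hrE => by
      have := hb r hr hrE
      rw [zero_add]
      linarith)
  refine ⟨E', hE', fun r hr hrE => ?_⟩
  have h6 := hb' r hr hrE
  rw [zero_add] at h6
  exact h6

/-- **Varieties of logarithmic general type, up to the points of small multiplicity.** -/
theorem fin2low {y' : Fin (M' + 1) → K'} (hy : coords ℂ y' = ⊤) (hyne : ∃ l, y' l ≠ 0)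
    {ν e : ℕ} {pr : Fin (ν + 1) → MvPolynomial (Fin (M' + 1)) ℂ}
    (hpr : ∀ i, (pr i).IsHomogeneous e) (hpr0 : ∀ i, aeval y' (pr i) ≠ 0)
    (hpralg : Algebra.IsAlgebraic (IntermediateField.adjoin ℂ
      {z | ∃ i j, aeval y' (pr j) ≠ 0 ∧ z = aeval y' (pr i) / aeval y' (pr j)}) K')
    {y : Fin (M + 1) → K} (hyK : coords ℂ y = ⊤) (hyKne : ∃ l, y l ≠ 0) (hw : 0 < w)
    {φ : K →ₐ[ℂ] K'} {p : ℕ} {P : Fin (M + 1) → MvPolynomial (Fin (M' + 1)) ℂ}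
    (hP : RMap y' y φ p P) {r : ℕ}
    {Q : Fin (r + 1) → MvPolynomial (Fin (M + 1)) ℂ} {q : Fin (r + 1) → ℕ}
    (hQ : ∀ l, (Q l).IsHomogeneous (q l)) (hQ0 : ∃ l, aeval y (Q l) ≠ 0)
    (hLG : LogGeneralType ℂ K w (Bd Q q y)) {ε : ℝ} (hε : 0 < ε) :
    ∃ A : MvPolynomial (Fin (M' + 1)) ℂ, IsForm A ∧ aeval y' A ≠ 0 ∧ ∃ (C : ℝ) (μ : ℕ),
      ∀ (n : ℕ) (F : Fin (M' + 1) → ℂ → ℂ) (f : Fin (M + 1) → ℂ → ℂ) (g : Fin n → ℂ → ℂ),
        EC y' F → RM P F f → PB pr F g → (∃ z, eval (fun j => F j z) A ≠ 0) →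
        ∃ E : Set ℝ, volume E < ⊤ ∧ ∀ r, 1 ≤ r → r ∉ E →
          Tf f r - ε * Tf F r ≤ C * (Nc {z | ∀ l, eval (fun j => f j z) (Q l) = 0} r +
            min (Nb (Wr g) r) (Nc (LZ (∏ i, pr i) F μ) r) + Real.log r) := by
  obtain ⟨A, ⟨a, ha⟩, hA0, C, hC⟩ := fin2min hy hyne hpr hpr0 hpralg hyK hyKne hw hP
    hQ hQ0 hLG (half_pos hε)
  obtain ⟨μ, hμ⟩ := fin_swap (C := C) hε hpr
  have ha' : (∏ i, pr i).IsHomogeneous (∑ _i : Fin (ν + 1), e) :=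
    IsHomogeneous.prod _ _ _ fun i _ => hpr i
  refine ⟨A * ∏ i, pr i, ⟨_, ha.mul ha'⟩, ?_, |C| + (ε / 2 + 1), μ,
    fun n F f g h1 h2 h3 h5 => ?_⟩
  · rw [map_mul, map_prod]
    exact mul_ne_zero hA0 (Finset.prod_ne_zero_iff.2 fun i _ => hpr0 i)
  obtain ⟨z, hz⟩ := h5
  rw [map_mul] at hz
  obtain ⟨E, hE, hb⟩ := hC n F f g h1 h2 h3 ⟨z, left_ne_zero_of_mul hz⟩
  exact hμ F h1.diff h1.ne ⟨z, right_ne_zero_of_mul hz⟩ (fun r => Tf f r)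
    (fun r => Nc {z | ∀ l, eval (fun j => f j z) (Q l) = 0} r) (fun r => Nb (Wr g) r)
    (fun r hr => Nc_nonneg hr) (fun r hr => SR.Nb_nonneg hr) E hE hb

end Pool.Agent.N131.SV
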